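import Pool.Agent.Lib.MP_ab8df0_nt.B.Kron

/-! Soundness of the ball arithmetic. -/

namespace Pool.Agent.Lib.MP_ab8df0_nt.B

open WithZero

variable {L : Type*} [Field L] {p : Place L} {D : Loc} {x y : L} {a b : Ball}

lemma Valid.two_ne (hV : Valid p D) : (2 : L) ≠ 0 := ne_of_exact hV.h2

lemma Valid.Pz (hV : Valid p D) (s : ℤ) : P p.v (D.e * s) ((2 : L) ^ s) := by
  have := P.of_eq (hV.two_zpow s)
  rwa [hV.he] at this

lemma Valid.mu_eq (hV : Valid p D) (s : ℤ) {k : ℕ} (hk : k < D.e) :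
    mu p (D.e * s + k) = (2 : L) ^ s * p.pi ^ k := by
  have he : (0 : ℤ) < D.e := by exact_mod_cast hV.w.e
  have h1 : ((D.e : ℤ) * s + k) / D.e = s := by
    rw [add_comm, Int.add_mul_ediv_left _ _ he.ne', Int.ediv_eq_zero_of_lt (by omega) (by omega)]; simp
  have h2 : ((D.e : ℤ) * s + k) % D.e = k := by
    rw [add_comm, Int.add_mul_emod_self_left, Int.emod_eq_of_lt (by omega) (by omega)]
  rw [mu, hV.he, h1, h2, Int.toNat_natCast]

lemma mk1_mem (hV : Valid p D) {s r : ℤ} {c : ℕ} (hc : ∃ l, Rep D D.n c l)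
    (h : P p.v r (x - (2 : L) ^ s * dec p D c)) : (mk1 D s c r).mem p D x := by
  obtain ⟨l, hl⟩ := hc
  obtain ⟨h1, h2, h3⟩ := lead_spec hV hl
  refine ⟨⟨l, hl⟩, h, (hV.Pz s).mul h2, fun hd => ?_⟩
  obtain ⟨l', e1, e2, e3, e4⟩ := h3 hd
  refine ⟨l', e1, e2, e3, ?_⟩
  have := (hV.Pz s).mul e4
  refine (this.mono (le_of_eq ?_)).congr ?_
  · show (D.e : ℤ) * s + (lead D c).1 + 1 = _
    ring
  · show (2 : L) ^ s * dec p D c - mu p (D.e * s + (lead D c).1) * _ = _
    rw [hV.mu_eq s h1]; ring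

lemma dec_zero : dec p D 0 = 0 := by simp [dec, od_nil]

lemma dec_smul (w : WF D) {c k : ℕ} {l : List ℕ} (hc : Rep D D.n c l) (hk : k ≤ 2 ^ D.N) :
    dec p D (c * k) = k * dec p D c := by
  have h0 : 0 < 2 ^ D.N := by positivity
  rw [hc.dec w, hc.2.2, mul_comm, ← od_smul p.ga, ← dec_od w]
  · congr 1; exact (od_smul (2 ^ D.K) k l).symm
  · intro e he
    obtain ⟨e, he', rfl⟩ := List.mem_map.1 he
    have := Nat.mul_le_mul hk (hc.2.1 e he').le
    exact w.big (by nlinarith [Nat.zero_le (D.n * (2 ^ D.N * 2 ^ D.N))])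

lemma mkB_ctr (hV : Valid p D) (s r : ℤ) (c : ℕ) :
    (mkB D s c r).ctr p D = (2 : L) ^ s * dec p D c := by
  simp only [mkB, Bool.cond_eq_ite]
  split
  · rename_i h0
    rw [Nat.beq_eq] at h0
    rw [h0]; rfl
  · split
    · rename_i h1
      simp only [Bool.and_eq_true, Nat.ble_eq, Nat.beq_eq] at h1
      obtain ⟨l1, hl1⟩ := maskn_rep hV.w (c >>> tz D c)
      have := dec_smul (p := p) hV.w hl1 (Nat.pow_le_pow_right (by omega) h1.1)
      rw [h1.2] at this
      show (2 : L) ^ (s + tz D c) * dec p D (c >>> tz D c &&& D.maskn) = _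
      rw [this, zpow_add₀ hV.two_ne]; push_cast; rw [zpow_natCast]; ring
    · rfl

theorem mkB_mem (hV : Valid p D) {s r : ℤ} {c : ℕ} (hc : ∃ l, Rep D D.n c l)
    (h : P p.v r (x - (2 : L) ^ s * dec p D c)) : (mkB D s c r).mem p D x := by
  rw [← mkB_ctr hV s r c] at h
  revert h
  simp only [mkB, Bool.cond_eq_ite]
  split
  · intro h
    refine ⟨⟨[], by simp, by simp, rfl⟩, h, ?_, fun hd => absurd rfl hd⟩
    simpa [Ball.ctr, dec_zero] using P.zero p.v r
  · split
    · intro h; exact mk1_mem hV (maskn_rep hV.w _) h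
    · intro h; exact mk1_mem hV hc h

theorem zeroB_mem (_hV : Valid p D) {r : ℤ} (h : P p.v r x) : (zeroB r).mem p D x := by
  refine ⟨⟨[], by simp, by simp, rfl⟩, ?_, ?_, fun hd => absurd rfl hd⟩
  · simpa [Ball.ctr, zeroB, dec_zero] using h
  · simpa [Ball.ctr, zeroB, dec_zero] using P.zero p.v r

lemma P_cap (hV : Valid p D) {s r : ℤ} {u z : L} (h1 : P p.v r u) (h2 : P p.v (D.e * D.N) z) :
    P p.v (cap D s r) (u + (2 : L) ^ s * z) :=
  (h1.mono (imin_le_left _ _)).add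
    (((hV.Pz s).mul h2).mono ((imin_le_right _ _).trans (le_of_eq (by ring))))

lemma sh_spec (hV : Valid p D) {c : ℕ} {l : List ℕ} (hc : Rep D D.n c l) (k : ℕ) :
    ∃ l' : List ℕ, l'.length ≤ D.n ∧ (∀ e ∈ l', e ≤ 2 ^ D.N * 2 ^ D.N) ∧
      sh D c k = Nat.ofDigits (2 ^ D.K) l' ∧
      P p.v (D.e * D.N) (Nat.ofDigits p.ga l' - 2 ^ k * dec p D c) := by
  simp only [sh, Bool.cond_eq_ite, Nat.blt_eq]
  split
  · rename_i h
    refine ⟨l.map (2 ^ k * ·), by simpa using hc.1, ?_, ?_, ?_⟩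
    · intro e he
      obtain ⟨e, he', rfl⟩ := List.mem_map.1 he
      exact Nat.mul_le_mul (Nat.pow_le_pow_right (by omega) h.le) (hc.2.1 e he').le
    · rw [od_smul, hc.2.2]; simp [mul_comm]
    · rw [od_smul, hc.dec hV.w]; simpa using P.zero p.v _
  · rename_i h
    refine ⟨[], by simp, by simp, rfl, ?_⟩
    have h1 := (hV.Pz k).mul0 (P.ofDigits hV.hga (Nat.digits (2 ^ D.K) c))
    rw [zpow_natCast] at h1
    have := h1.neg.mono (s := D.e * D.N) (by
      have : (D.N : ℤ) ≤ k := by omega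
      nlinarith [Int.natCast_nonneg D.e])
    simpa [od_nil, dec] using this

theorem addB_mem (hV : Valid p D) (ha : a.mem p D x) (hb : b.mem p D y) :
    (addB D a b).mem p D (x + y) := by
  have w := hV.w
  obtain ⟨la, hla⟩ := ha.bd
  obtain ⟨lb, hlb⟩ := hb.bd
  obtain ⟨l1, a1, a2, a3, a4⟩ := sh_spec hV hla (a.s - imin a.s b.s).toNat
  obtain ⟨l2, b1, b2, b3, b4⟩ := sh_spec hV hlb (b.s - imin a.s b.s).toNat
  obtain ⟨h1, h2⟩ := mask_rep hV (k := D.n) (l := ladd l1 l2) (by rw [len_ladd]; omega)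
    (fun c hc => (bd_ladd _ _ a2 b2 c hc).trans (by have := w.npos; nlinarith [Nat.zero_le (2 ^ D.N * 2 ^ D.N)]))
  rw [od_ladd, ← a3, ← b3, ← w.maskn] at h1
  refine mkB_mem hV ⟨_, h1⟩ ?_
  rw [h1.dec w]
  refine (P_cap hV (s := imin a.s b.s) ((ha.hr.mono (imin_le_left _ _)).add
    (hb.hr.mono (imin_le_right _ _))) ((h2.add (a4.add b4)).neg)).congr ?_
  have e1 : (2 : L) ^ a.s = 2 ^ imin a.s b.s * 2 ^ (a.s - imin a.s b.s).toNat := by
    rw [← zpow_natCast, ← zpow_add₀ hV.two_ne, Int.toNat_of_nonneg (by have := imin_le_left a.s b.s; omega)]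
    congr 1; ring
  have e2 : (2 : L) ^ b.s = 2 ^ imin a.s b.s * 2 ^ (b.s - imin a.s b.s).toNat := by
    rw [← zpow_natCast, ← zpow_add₀ hV.two_ne, Int.toNat_of_nonneg (by have := imin_le_right a.s b.s; omega)]
    congr 1; ring
  rw [Ball.ctr, Ball.ctr, e1, e2, od_ladd]; ring

theorem negB_mem (hV : Valid p D) (ha : a.mem p D x) : (negB D a).mem p D (-x) := by
  have w := hV.w
  have h0 : 0 < 2 ^ D.N := by positivity
  obtain ⟨la, hla⟩ := ha.bd
  obtain ⟨h1, h2⟩ := mask_rep hV (k := D.n) (l := la.map ((D.M - 1) * ·)) (by simpa using hla.1)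
    (fun c hc => by
      obtain ⟨e, he', rfl⟩ := List.mem_map.1 hc
      have := Nat.mul_le_mul (show D.M - 1 ≤ 2 ^ D.N by rw [w.M]; omega) (hla.2.1 e he').le
      nlinarith [Nat.zero_le (D.n * (2 ^ D.N * 2 ^ D.N))])
  rw [od_smul, ← hla.2.2, ← w.maskn, Nat.cast_id, mul_comm] at h1
  refine mkB_mem hV ⟨_, h1⟩ ?_
  rw [h1.dec w]
  have h3 := hV.PM.mul0 (P.ofDigits hV.hga la)
  refine (P_cap hV (s := a.s) ha.hr.neg (h2.add h3).neg).congr ?_
  rw [Ball.ctr, od_smul, hla.dec w, w.M, Nat.cast_sub h0]; push_cast; ring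

theorem mulB_mem (hV : Valid p D) (ha : a.mem p D x) (hb : b.mem p D y) :
    (mulB D a b).mem p D (x * y) := by
  obtain ⟨la, hla⟩ := ha.bd
  obtain ⟨lb, hlb⟩ := hb.bd
  unfold mulB
  split
  · exact zeroB_mem hV (ha.lb.mul hb.lb)
  · rename_i c hc
    obtain ⟨h1, h2⟩ := mulK_spec hV hla hlb hc
    refine mkB_mem hV h1 ?_
    refine (P_cap hV (s := a.s + b.s) (((ha.hr.mul hb.lb).mono (imin_le_left _ _)).add
      ((ha.hm.mul hb.hr).mono (imin_le_right _ _))) h2.neg).congr ?_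
    rw [Ball.ctr, Ball.ctr, zpow_add₀ hV.two_ne]; ring

theorem sqB_mem (hV : Valid p D) (ha : a.mem p D x) : (sqB D a).mem p D (x ^ 2) := by
  obtain ⟨la, hla⟩ := ha.bd
  unfold sqB
  split
  · exact zeroB_mem hV ((ha.lb.mul ha.lb).congr (sq x))
  · rename_i c hc
    obtain ⟨h1, h2⟩ := mulK_spec hV hla hla hc
    refine mkB_mem hV h1 ?_
    have h3 : P p.v D.e (2 : L) := hV.he ▸ P.of_eq hV.h2
    refine (P_cap hV (s := a.s + a.s) (((ha.hr.mul ha.hr).mono (imin_le_left _ _)).add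
      (((h3.mul ha.hm).mul ha.hr).mono (imin_le_right _ _))) h2.neg).congr ?_
    rw [Ball.ctr, zpow_add₀ hV.two_ne]; ring

lemma const_rep (w : WF D) {c : ℕ} (h : c < 2 ^ D.N) : Rep D D.n c [c] :=
  ⟨w.npos, by simpa using h, by simp⟩

lemma num_spec (hV : Valid p D) (z : ℤ) : Rep D D.n (z % D.M).toNat [(z % D.M).toNat] ∧
    P p.v (D.e * D.N) ((z : L) - dec p D (z % D.M).toNat) := by
  have w := hV.w
  have h0 : (0 : ℤ) < D.M := by rw [w.M]; positivity
  have h1 := Int.emod_nonneg z h0.ne'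
  have h2 := Int.emod_lt_of_pos z h0
  have h3 := const_rep w (c := (z % D.M).toNat) (by rw [← w.M]; omega)
  refine ⟨h3, ?_⟩
  rw [h3.dec w, od_cons, od_nil]
  refine (hV.PM.mul0 (P.int p.v (z / D.M))).congr ?_
  have h4 : (((z % D.M).toNat : ℤ) : L) = ((z % D.M : ℤ) : L) := by rw [Int.toNat_of_nonneg h1]
  have h5 := congrArg (Int.cast : ℤ → L) (Int.mul_ediv_add_emod z D.M)
  rw [← w.M]
  push_cast at h4 h5 ⊢
  linear_combination -h5 - h4

theorem numB_mem (hV : Valid p D) (z : ℤ) : (numB D z).mem p D (z : L) :=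
  mkB_mem hV ⟨_, (num_spec hV z).1⟩ (by simpa using (num_spec hV z).2)

/-- also for every element close to an integer -/
theorem nearB_mem (hV : Valid p D) (z r : ℤ) (h : P p.v r (x - (z : L))) :
    (mkB D 0 (z % D.M).toNat (cap D 0 r)).mem p D x :=
  mkB_mem hV ⟨_, (num_spec hV z).1⟩ ((P_cap hV (s := 0) h (num_spec hV z).2).congr (by simp))

theorem certB_mem (hV : Valid p D) (w : Cert) : (certB D w).mem p D (w.val p D) :=
  mkB_mem hV (maskn_rep hV.w _) (by simpa [Cert.val] using P.zero p.v _)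

theorem certB_ctr (hV : Valid p D) (w : Cert) : (certB D w).ctr p D = w.val p D := mkB_ctr hV _ _ _

/-- a certificate that encodes a short list of zeros and ones -/
theorem cert_digits (hV : Valid p D) (l : List ℕ) (h1 : l.length ≤ D.n) (h2 : ∀ c ∈ l, c < 2) :
    (⟨0, Nat.ofDigits (2 ^ D.K) l⟩ : Cert).val p D = Nat.ofDigits p.ga l := by
  have w := hV.w
  have h3 : ∀ c ∈ l, c < 2 ^ D.N := fun c hc => (h2 c hc).trans_le (by
    simpa using Nat.pow_le_pow_right (show 0 < 2 by omega) (show 1 ≤ D.N by have := w.N; omega))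
  have h4 : l.map (· % 2 ^ D.N) = l := by
    conv_rhs => rw [← List.map_id l]
    exact List.map_congr_left fun c hc => Nat.mod_eq_of_lt (h3 c hc)
  rw [Cert.val, w.maskn, mask_od w.NK _ l h1 fun c hc => w.lt (h3 c hc), h4,
    dec_od w fun c hc => w.lt (h3 c hc)]; simp

theorem invB_mem (hV : Valid p D) (ha : a.mem p D x) {w : Cert} (h : invB D a w = some b) :
    x ≠ 0 ∧ b.mem p D x⁻¹ := by
  simp only [invB] at h
  split at h
  · rename_i ht
    obtain rfl := Option.some.inj h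
    have hu := certB_mem hV w
    have h1 := (addB_mem hV (mulB_mem hV ha hu) (numB_mem hV (-1))).lb
    have h2 := exact_one_add (h1.mono ht)
    have h3 : x * w.val p D ≠ 0 := by
      have := ne_of_exact h2
      intro h0; apply this; rw [h0]; simp
    have hx : x ≠ 0 := left_ne_zero_of_mul h3
    refine ⟨hx, hu.rad ?_⟩
    have h4 := ((h1.mul hu.hm).mul0 (P.inv_one_add (h1.mono ht))).neg
    refine h4.congr ?_
    rw [certB_ctr hV]
    have h5 : 1 + (x * w.val p D + ((-1 : ℤ) : L)) = x * w.val p D := by push_cast; ring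
    rw [h5]
    have := right_ne_zero_of_mul h3
    push_cast
    field_simp
    ring
  · cases h

theorem sqrtB_mem (hV : Valid p D) (ha : a.mem p D (y ^ 2)) {w : Cert}
    (h : sqrtB D a w = some b) : b.mem p D y ∨ b.mem p D (-y) := by
  simp only [sqrtB, Bool.cond_eq_ite] at h
  split at h
  · rename_i he
    obtain rfl := Option.some.inj h
    have hu := certB_mem hV w
    have h1 := (addB_mem hV ha (negB_mem hV (mulB_mem hV hu hu))).lb
    have h2 := sqrt_close (y := y) (hV.he ▸ hV.h2) (hu.exact hV he) (h1.congr (by ring))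
    rw [← certB_ctr hV] at h2
    exact h2.imp hu.rad hu.rad
  · cases h

theorem polB_mem (hV : Valid p D) (ha : a.mem p D x) (l : List ℤ) :
    (polB D a l).mem p D (ev x l) := by
  induction l with
  | nil => exact zeroB_mem hV (P.zero _ _)
  | cons c l ih => exact addB_mem hV (numB_mem hV c) (mulB_mem hV ha ih)

theorem evalB_mem (hV : Valid p D) {val : ℕ → L} {E : Env} (hE : EnvMem p D val E) :
    ∀ (e : Expr) (cs : List Cert) (z : Ball × List Cert), evalB D E e cs = some z →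
      z.1.mem p D (e.eval val) ∧ e.ok val := by
  intro e
  induction e with
  | var i =>
    intro cs z h
    obtain ⟨b, hb, rfl⟩ := Option.map_eq_some_iff.1 h
    exact ⟨hE i b hb, trivial⟩
  | num c => intro cs z h; obtain rfl := Option.some.inj h; exact ⟨numB_mem hV c, trivial⟩
  | add a b iha ihb =>
    intro cs z h
    obtain ⟨u, hu, h⟩ := Option.bind_eq_some_iff.1 h
    obtain ⟨v, hv, rfl⟩ := Option.map_eq_some_iff.1 h
    exact ⟨addB_mem hV (iha _ _ hu).1 (ihb _ _ hv).1, (iha _ _ hu).2, (ihb _ _ hv).2⟩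
  | mul a b iha ihb =>
    intro cs z h
    obtain ⟨u, hu, h⟩ := Option.bind_eq_some_iff.1 h
    obtain ⟨v, hv, rfl⟩ := Option.map_eq_some_iff.1 h
    exact ⟨mulB_mem hV (iha _ _ hu).1 (ihb _ _ hv).1, (iha _ _ hu).2, (ihb _ _ hv).2⟩
  | neg a iha =>
    intro cs z h
    obtain ⟨u, hu, rfl⟩ := Option.map_eq_some_iff.1 h
    exact ⟨negB_mem hV (iha _ _ hu).1, (iha _ _ hu).2⟩
  | sq a iha =>
    intro cs z h
    obtain ⟨u, hu, rfl⟩ := Option.map_eq_some_iff.1 h
    exact ⟨sqB_mem hV (iha _ _ hu).1, (iha _ _ hu).2⟩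
  | inv a iha =>
    intro cs z h
    obtain ⟨⟨u, ws⟩, hu, h⟩ := Option.bind_eq_some_iff.1 h
    cases ws with
    | nil => cases h
    | cons w ws =>
      obtain ⟨v, hv, rfl⟩ := Option.map_eq_some_iff.1 h
      have := invB_mem hV (iha _ _ hu).1 hv
      exact ⟨this.2, (iha _ _ hu).2, this.1⟩
  | pol l a iha =>
    intro cs z h
    obtain ⟨u, hu, rfl⟩ := Option.map_eq_some_iff.1 h
    exact ⟨polB_mem hV (iha _ _ hu).1 l, (iha _ _ hu).2⟩

theorem genB_mem (hV : Valid p D) :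
    (mkB D 0 (cond (Nat.blt 1 D.n) (2 ^ D.K) (D.fneg % 2 ^ D.K)) (D.e * D.N)).mem p D p.ga := by
  have w := hV.w
  have h2 : 1 < 2 ^ D.N := Nat.one_lt_two_pow (by have := w.N; omega)
  rw [Bool.cond_eq_ite]
  split
  · rename_i h
    rw [Nat.blt_eq] at h
    have hr : Rep D D.n (2 ^ D.K) [0, 1] := ⟨h, by
      intro c hc
      simp only [List.mem_cons, List.not_mem_nil, or_false] at hc
      omega, by simp [Nat.ofDigits_cons]⟩
    refine mkB_mem hV ⟨_, hr⟩ ?_
    rw [hr.dec w]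
    simpa [od_cons, od_nil] using P.zero p.v _
  · rename_i h
    rw [Nat.blt_eq] at h
    have hn : D.n = 1 := by have := w.npos; omega
    obtain ⟨l, hl, hl'⟩ := hV.hF
    have bdK : ∀ c ∈ l, c < 2 ^ D.K := fun c hc => w.lt (hl.2.1 c hc)
    have e1 := Nat.ofDigits_mod_pow_eq_ofDigits_take 1 (by positivity) l bdK
    have e2 := Nat.ofDigits_div_pow_eq_ofDigits_drop 1 (by positivity) l bdK
    rw [← hl.2.2, pow_one] at e1 e2
    have e3 := w.top
    rw [w.Bn, hn, mul_one, e2, w.M] at e3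
    have hr : Rep D D.n (D.fneg % 2 ^ D.K) (l.take 1) :=
      ⟨by rw [hn]; simp, fun c hc => hl.2.1 c (List.mem_of_mem_take hc), e1⟩
    refine mkB_mem hV ⟨_, hr⟩ ?_
    rw [hr.dec w]
    have e4 := evS_split (p.ga ^ ·) 1 l 0
    simp only [evS_pow] at e4
    have e5 : Nat.ofDigits p.ga (l.drop 1) = Nat.ofDigits p.ga [2 ^ D.N - 1] :=
      od_uniq (B := 2 ^ D.K) _ (by positivity) (fun c hc => bdK c (List.mem_of_mem_drop hc))
        (by simpa using w.lt (by omega)) (by simpa using e3)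
    rw [e5, od_cons, od_nil, Nat.cast_sub h2.le] at e4
    refine ((hV.PM.mul0 hV.hga).sub hl').congr ?_
    push_cast at e4 ⊢; linear_combination e4

theorem evalAll_mem {pl : List (Place L)} {val : ℕ → L} {n : ℕ} {st : St}
    (h : StMem pl val n st) (e : Expr) (cs : List (List Cert)) {bs : List Ball}
    (hb : evalAll e st cs = some bs) :
    BsMem pl st bs (e.eval val) ∧ (st ≠ [] → e.ok val) := by
  unfold StMem at h
  induction h generalizing cs bs with
  | nil =>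
    obtain rfl := Option.some.inj hb
    exact ⟨⟨List.Forall₂.nil, rfl⟩, fun h => absurd rfl h⟩
  | cons h1 _ ih =>
    cases cs with
    | nil => cases hb
    | cons c cs =>
      obtain ⟨u, hu, hb⟩ := Option.bind_eq_some_iff.1 hb
      obtain ⟨r, hr, rfl⟩ := Option.map_eq_some_iff.1 hb
      have h2 := evalB_mem h1.1 h1.2.1 e c u hu
      have h3 := (ih cs hr).1
      exact ⟨⟨List.Forall₂.cons h2.1 h3.1, by simp [h3.2]⟩, fun _ => h2.2⟩

end Pool.Agent.Lib.MP_ab8df0_nt.B
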