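import Pool.Agent.Lib.MP_ab8df0_nt.B.Defs

/-! Hypotheses, proof trees and the checker. -/

namespace Pool.Agent.Lib.MP_ab8df0_nt.B

open WithZero

variable {L : Type*} [Field L]

/-- `x` is `2 ^ k` times a rational number with odd denominator -/
def Q2 (k : ℕ) (x : L) : Prop := ∃ a b : ℤ, Odd b ∧ x * (b : L) = 2 ^ k * (a : L)

/-- the curve `y ^ 2 = x * (x ^ 2 + a * x + b)`, the isogenous curve and generators for the
square classes of the first coordinates; all entries are indices of variables -/
structure EC where
  a : ℕ
  b : ℕ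
  a' : ℕ
  b' : ℕ
  g : List ℕ
  g' : List ℕ
  deriving DecidableEq

def EC.A (c : EC) (sd : Bool) : ℕ := cond sd c.a' c.a
def EC.Bc (c : EC) (sd : Bool) : ℕ := cond sd c.b' c.b
def EC.G (c : EC) (sd : Bool) : List ℕ := cond sd c.g' c.g

def On (a b x y : L) : Prop := y ^ 2 = x * (x ^ 2 + a * x + b)

/-- first coordinates of points lie in the span of `gs` -/
def Desc (a b : L) (gs : List L) : Prop := ∀ x y : L, x ≠ 0 → On a b x y → Span gs x

inductive Hyp where
  | eq : ℕ → Expr → Hyp
  | lin : ℕ → Expr → Expr → Hyp
  | sqr : ℕ → Expr → Hyp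
  | cls : Expr → List ℕ → Hyp
  | out : Expr → List ℕ → List Bool → Hyp
  | disc : ℕ → ℤ → ℕ → Hyp
  | piv : List ℕ → List ℕ → Hyp
  | ec : EC → Hyp
  | on : EC → Bool → ℕ → ℕ → Hyp
  | dq : ℕ → ℕ → ℕ → ℤ → ℤ → ℕ → Hyp
  | dz : ℕ → ℕ → ℕ → ℤ → ℤ → ℕ → ℕ → Hyp
  | pw : ℕ → ℕ → Expr → Hyp
  | pat : ℕ → List (ℤ × ℤ) → List (List Bool) → Hyp

/-- the point `x, y` is near the origin at the places with sign `false` and near the point of
order two at the places with sign `true` -/
def PatAt (x y : L) : List (Place L) → List (ℤ × ℤ) → List Bool → Prop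
  | [], [], [] => True
  | p :: pl, r :: rs, s :: ss =>
    (if s = true then P p.v (2 * r.1 + r.2) x ∧ P p.v (r.1 + r.2) y
      else P p.v (2 * r.1) x⁻¹ ∧ P p.v r.1 (-x / y)) ∧ PatAt x y pl rs ss
  | _, _, _ => False

def Hyp.holds (pl : List (Place L)) (G : Prop) (val : ℕ → L) : Hyp → Prop
  | .eq i e => val i = e.eval val
  | .lin i e1 e2 => e1.eval val * val i = e2.eval val
  | .sqr i e => val i ^ 2 = e.eval val
  | .cls e g => e.eval val ≠ 0 → Span (g.map val) (e.eval val)
  | .out e g sub => IsSquare (e.eval val * prodSel (g.map val) sub) → G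
  | .disc i t k => Q2 k (val i - (t : L))
  | .piv g ks => Piv pl (g.map val) ks
  | .ec c => val c.a' = -2 * val c.a ∧ val c.b' = val c.a ^ 2 - 4 * val c.b ∧
      Desc (val c.a) (val c.b) (c.g.map val) ∧ Desc (val c.a') (val c.b') (c.g'.map val)
  | .on c sd x y => On (val (c.A sd)) (val (c.Bc sd)) (val x) (val y)
  | .dq x x0 i p q dx => (q : L) * val i - p ≠ 0 ∧ val x - val x0 = ((q : L) * val i - p) * val dx
  | .dz x y i p q Z X => (q : L) * val i - p ≠ 0 ∧ val x ≠ 0 ∧ val y ≠ 0 ∧
      -val x / val y = ((q : L) * val i - p) * val Z ∧ val X = (val x)⁻¹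
  | .pw i k e => val i ^ (2 * k + 1) = e.eval val
  | .pat i rs ps => val i ≠ 0 ∧ val (i + 1) ≠ 0 ∧ val (i + 2) = (val i)⁻¹ ∧
      val (i + 3) = -val i / val (i + 1) ∧ ∃ s ∈ ps, PatAt (val i) (val (i + 1)) pl rs s

def bdL (n : ℕ) (g : List ℕ) : Bool := g.all fun i => Nat.blt i n

def EC.bd (n : ℕ) (c : EC) : Bool := bdL n [c.a, c.b, c.a', c.b'] && bdL n c.g && bdL n c.g'

def Hyp.bd (n : ℕ) : Hyp → Bool
  | .eq i e => Nat.blt i n && e.bd n
  | .lin i e1 e2 => Nat.blt i n && e1.bd n && e2.bd n
  | .sqr i e => Nat.blt i n && e.bd n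
  | .cls e g => e.bd n && bdL n g
  | .out e g _ => e.bd n && bdL n g
  | .disc i _ _ => Nat.blt i n
  | .piv g _ => bdL n g
  | .ec c => c.bd n
  | .on c _ x y => c.bd n && bdL n [x, y]
  | .dq x x0 i _ _ dx => bdL n [x, x0, i, dx]
  | .dz x y i _ _ Z X => bdL n [x, y, i, Z, X]
  | .pw i _ e => Nat.blt i n && e.bd n
  | .pat i _ _ => Nat.blt (i + 3) n

def setAll (i : ℕ) : St → List Ball → St
  | q :: qs, b :: bs => (q.1, q.2.set i (some b)) :: setAll i qs bs
  | _, _ => []

def pushAll : St → List Ball → St
  | q :: qs, b :: bs => (q.1, q.2 ++ [some b]) :: pushAll qs bs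
  | _, _ => []

def pushNone (st : St) : St := st.map fun q => (q.1, q.2 ++ [none])

def discB (D : Loc) (t : ℤ) (k : ℕ) : Ball :=
  mkB D 0 (t % D.M).toNat (cap D 0 (D.e * k))

def setAt (i : ℕ) (b : Ball) : ℕ → St → St
  | _, [] => []
  | 0, q :: qs => (q.1, q.2.set i (some b)) :: qs
  | p + 1, q :: qs => q :: setAt i b p qs

/-- define a new variable by an expression -/
def pushE (st : St) (e : Expr) (cs : List (List Cert)) : Option St :=
  (evalAll e st cs).map fun bs => pushAll st bs

def sub' (a b : Expr) : Expr := .add a (.neg b)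
def sgn (neg : Bool) (a : Expr) : Expr := cond neg (.neg a) a

def powB (D : Loc) (a : Ball) : ℕ → Ball
  | 0 => numB D 1
  | k + 1 => mulB D a (powB D a k)

/-- if `y ^ (2 k + 1)` lies in `a` then `y` lies in the result; `w` approximates `y` and `w'`
approximates the inverse of `w ^ (2 k + 1)` -/
def orootB (D : Loc) (k : ℕ) (a : Ball) (w w' : Cert) : Option Ball :=
  let u := certB D w
  (invB D (powB D u (2 * k + 1)) w').bind fun z =>
    let t := (addB D (mulB D a z) (numB D (-1))).lb
    cond (u.exact && decide (0 < t) && (resL D.K D.f).all fun x => Nat.beq x 1 ||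
      (let y := addB D (powB D (certB D ⟨0, x⟩) (2 * k + 1)) (numB D (-1))
       y.exact && decide (y.m = 0))) (some (u.rad (t + u.m))) none

def orootAll (k : ℕ) : St → List Ball → List (Cert × Cert) → Option (List Ball)
  | [], [], _ => some []
  | q :: qs, a :: as, w :: ws => (orootB q.1 k a w.1 w.2).bind fun x =>
      (orootAll k qs as ws).map fun r => x :: r
  | _, _, _ => none

/-! ### the step deep in the formal group -/

/-- per place data: model, ball of `Z`, bound for `1 / x`, bounds for `a, b, a', b'` and the
balls of `b, b'` -/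
structure DP where
  D : Loc
  Z : Ball
  r : ℤ
  la : ℤ
  lb : ℤ
  la' : ℤ
  lb' : ℤ
  b : Ball
  b' : Ball

def DP.al (d : DP) (k : ℕ) : ℤ := d.Z.m + d.D.e * k
def DP.rho (d : DP) (k : ℕ) : ℤ := imin (2 * d.al (k + 1) + d.la) (4 * d.al (k + 1) + d.lb)
def DP.rho' (d : DP) (k : ℕ) : ℤ := imin (2 * d.al k + d.la') (4 * d.al k + d.lb')

def DP.ok (d : DP) (k : ℕ) : Bool :=
  d.Z.exact && d.b.exact && d.b'.exact &&
  decide (0 < d.r + d.la) && decide (0 < 2 * d.r + d.lb) && decide (d.r ≤ 2 * d.al k) &&
  decide (2 * d.D.e < d.rho k) && decide (2 * d.D.e < d.rho' k) &&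
  decide (0 < 2 * d.al k + d.la') && decide (0 < 4 * d.al k + d.lb') &&
  decide (d.Z.r ≤ d.Z.m + d.rho k - d.D.e) && decide (d.Z.r ≤ d.Z.m + d.rho' k - d.D.e)

/-- the condition for passing to an odd multiple of the point -/
def DP.ok2 (d : DP) (k : ℕ) : Bool :=
  decide (d.Z.r ≤ d.Z.m + 2 * d.al k + d.la) && decide (d.Z.r ≤ d.Z.m + 4 * d.al k + d.lb)

def oneB (D : Loc) (r : ℤ) : Ball := mkB D 0 1 (cap D 0 r)

/-- balls for the class test of a sign pattern; `sd` is the side before the step -/
def patB (k : ℕ) (sd : Bool) : List DP → List Bool → List Ball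
  | d :: ds, s :: ss =>
    (let u := oneB d.D (cond sd (d.rho' k) (d.rho k) - 2 * d.D.e)
     cond s (mulB d.D (cond sd d.b d.b') u) u) :: patB k sd ds ss
  | _, _ => []

def pats : ℕ → List (List Bool)
  | 0 => [[]]
  | k + 1 => (pats k).map (false :: ·) ++ (pats k).map (true :: ·)

/-- the patterns with first sign plus and some sign minus that are not dead -/
def patsLeft (st : St) (ds : List DP) (k : ℕ) (sd : Bool) (g ks : List ℕ) :
    List (List Bool) → List (List Bool × List Cert) → List (List Bool)
  | [], _ => []
  | s :: ss, ws =>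
    if s.all (fun x => !x) then patsLeft st ds k sd g ks ss ws else
    match ws with
    | [] => (false :: s) :: patsLeft st ds k sd g ks ss []
    | w :: ws =>
      if clsDead st (patB k sd ds (false :: s)) g ks w.1 w.2 then patsLeft st ds k sd g ks ss ws
      else (false :: s) :: patsLeft st ds k sd g ks ss ws

/-- first coordinate of the sum of the points `i, i + 1` and `x0, y0`, in terms of the variables
`i + 2 = 1 / x` and `i + 3 = - x / y` -/
def sumP (a b i x0 y0 : ℕ) : Expr :=
  .mul (.add (.mul (.add (.var x0) (.mul (.var b) (.var (i + 2))))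
      (.add (.num 1) (.mul (.var x0) (.var (i + 2)))))
    (.mul (.num 2) (.add (.mul (.var a) (.mul (.var x0) (.var (i + 2))))
      (.mul (.mul (.var y0) (.var (i + 3)))
        (.add (.num 1) (.mul (.var (i + 2)) (.add (.var a) (.mul (.var b) (.var (i + 2))))))))))
    (.sq (.inv (sub' (.num 1) (.mul (.var x0) (.var (i + 2))))))

/-- the same in terms of the coordinates -/
def sumM (a b i x0 y0 : ℕ) : Expr :=
  .mul (.add (.mul (.add (.mul (.var i) (.var x0)) (.var b)) (.add (.var i) (.var x0)))
    (.mul (.num 2) (sub' (.mul (.var a) (.mul (.var i) (.var x0)))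
      (.mul (.var (i + 1)) (.var y0)))))
    (.sq (.inv (sub' (.var i) (.var x0))))

def evalPat (a b i x0 y0 : ℕ) :
    St → List (ℤ × ℤ) → List Bool → List (List Cert) → Option (List Ball)
  | [], [], [], _ => some []
  | q :: qs, r :: rs, s :: ss, c :: cs =>
    (cond s
      (evalB q.1 ((q.2.set i (some (zeroB (2 * r.1 + r.2)))).set (i + 1) (some (zeroB (r.1 + r.2))))
        (sumM a b i x0 y0) c)
      (evalB q.1 ((q.2.set (i + 2) (some (zeroB (2 * r.1)))).set (i + 3) (some (zeroB r.1)))
        (sumP a b i x0 y0) c)).bind fun x => (evalPat a b i x0 y0 qs rs ss cs).map fun l => x.1 :: l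
  | _, _, _, _ => none

/-- read the per place data; `iZ` and `iX` are the variables holding `Z` and `1 / x` -/
def mkDP (c : EC) (iZ iX : ℕ) (k : ℕ) : St → List ℤ → Option (List DP)
  | [], _ => some []
  | _ :: _, [] => none
  | q :: qs, r :: rs =>
    (q.2.get iZ).bind fun Z => (q.2.get iX).bind fun X => (q.2.get c.a).bind fun a =>
    (q.2.get c.b).bind fun b => (q.2.get c.a').bind fun a' => (q.2.get c.b').bind fun b' =>
    (mkDP c iZ iX k qs rs).map fun l =>
      ⟨q.1, Z.rad (imin Z.r r), imin X.lb (2 * (Z.m + q.1.e * k)), a.lb, b.lb, a'.lb, b'.lb, b, b'⟩ :: l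

inductive Tree where
  | set : ℕ → List (List Cert) → Tree → Tree
  | root : ℕ → ℕ → List Cert → Cert → Tree → Tree → Tree
  | split : ℕ → Tree → Tree → Tree
  | disc : ℕ → Tree → Tree
  | piv : List ℕ → List (List Cert) → Tree → Tree
  | push : Expr → List (List Cert) → Tree → Tree
  | contra : ℕ → ℕ → List Cert → Tree
  | dead : ℕ → ℕ → List (List Cert) → List Bool → List Cert → Tree
  | conc : ℕ → ℕ → ℕ → List (List Cert) → List Cert → Tree
  | edead : ℕ → ℕ → ℕ → List Bool → List Cert → Tree
  | yrt : ℕ → List Cert → Cert → Tree → Tree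
  | tr : ℕ → List (List Cert) → Tree → Tree
  | add : ℕ → ℕ → Bool → List (List Cert) → Tree → Tree
  | half : ℕ → ℕ → ℕ → List Cert → Cert → Tree → Tree
  | fin : ℕ → ℕ → ℕ → List (List Cert) → Tree → Tree
  | oroot : ℕ → List (List Cert) → List (Cert × Cert) → Tree → Tree
  | dent : ℕ → ℕ → ℕ → Bool → List (List Cert) → List (List Cert) → List (List Cert) → Tree → Tree
  | deep : ℕ → ℕ → ℕ → ℕ → ℕ → ℕ → ℕ → List ℤ →
      List (List Bool × List Cert) → List (List Bool × List Cert) → Tree → Tree → Tree → Tree
  | pcase : ℕ → ℕ → ℕ → List (List Cert) → Tree → Tree → Tree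
  | pnil : ℕ → Tree
  | setp : ℕ → ℕ → List Cert → Tree → Tree
  | deadp : ℕ → ℕ → List Cert → Cert → Tree
  | newt : ℕ → List (List Cert) → Tree → Tree

def noC (st : St) : List (List Cert) := st.map fun _ => []

def cub (c : EC) (sd : Bool) (x : ℕ) : Expr :=
  .mul (.var x) (.add (.mul (.var x) (.add (.var x) (.var (c.A sd)))) (.var (c.Bc sd)))

/-- a hypothesis read as `X ^ 2 - c * X + b = 0` for the variable `X` with index `i` -/
def quadOf : Hyp → Option (ℕ × Expr × Expr)
  | .lin i (.add c1 (.neg (.add c2 (.var j)))) b => cond (Nat.beq i j) (some (i, sub' c1 c2, b)) none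
  | .sqr i e => some (i, .num 0, .neg e)
  | .on c sd x y => some (y, .num 0, .neg (cub c sd x))
  | _ => none

/-- a Newton step: `X - u = - (u (u - c) + b) / (X + u - c)` -/
def newtB (D : Loc) (X c b : Ball) (w w' : Cert) : Option Ball :=
  let u := certB D w
  let d := addB D u (negB D c)
  (invB D (addB D X d) w').map fun z =>
    addB D u (negB D (mulB D (addB D (mulB D u d) b) z))

def newtAll (i : ℕ) (c b : Expr) : St → List (List Cert) → Option St
  | [], _ => some []
  | _ :: _, [] => none
  | q :: qs, (w :: w' :: cs) :: css =>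
    (q.2.get i).bind fun X => (evalB q.1 q.2 c cs).bind fun x => (evalB q.1 q.2 b x.2).bind fun y =>
      (newtB q.1 X x.1 y.1 w w').bind fun Z =>
        (newtAll i c b qs css).map fun r => (q.1, q.2.set i (some Z)) :: r
  | q :: qs, _ :: css => (newtAll i c b qs css).map fun r => q :: r

def exAll : List Ball → Bool
  | [] => false
  | b :: _ => b.exact

/-- the ball of variable `i` at the first place is exact -/
def ex0 (st : St) (i : ℕ) : Bool :=
  match st with
  | q :: _ =>
    (match q.2.get i with
     | some b => b.exact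
     | none => false)
  | [] => false

def check : Tree → ℕ → List Hyp → St → Bool
  | .set h cs t, n, H, st =>
    match H[h]? with
    | some (.eq i e) =>
      (match evalAll e st cs with
       | some bs => check t n H (setAll i st bs)
       | none => false)
    | some (.lin i e1 e2) =>
      (match st, evalAll (.mul (.inv e1) e2) st cs with
       | _ :: _, some bs => check t n H (setAll i st bs)
       | _, _ => false)
    | _ => false
  | .root h p cs w t1 t2, n, H, st =>
    match H[h]?, st[p]? with
    | some (.sqr i e), some q =>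
      (match (evalB q.1 q.2 e cs).bind fun x => sqrtB q.1 x.1 w with
       | some b => check t1 n H (setAt i b p st) && check t2 n H (setAt i (negB q.1 b) p st)
       | none => false)
    | _, _ => false
  | .split h t0 t1, n, H, st =>
    match H[h]? with
    | some (.disc i t k) =>
      check t0 n (H.set h (.disc i t (k + 1))) (setAll i st (st.map fun q => discB q.1 t (k + 1))) &&
      check t1 n (H.set h (.disc i (t + 2 ^ k) (k + 1)))
        (setAll i st (st.map fun q => discB q.1 (t + 2 ^ k) (k + 1)))
    | _ => false
  | .disc h t0, n, H, st =>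
    match H[h]? with
    | some (.disc i t k) => check t0 n H (setAll i st (st.map fun q => discB q.1 t k))
    | _ => false
  | .piv g ws t, n, H, st =>
    match pivs st g ws with
    | some ks => bdL n g && incr ks && check t n (H ++ [.piv g ks]) st
    | none => false
  | .push e cs t, n, H, st =>
    match pushE st e cs with
    | some st' => e.bd n && check t (n + 1) (H ++ [.eq n e]) st'
    | none => false
  | .contra h p cs, _, H, st =>
    match H[h]?, st[p]? with
    | some (.eq i e), some q =>
      (match evalB q.1 q.2 (sub' (.var i) e) cs with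
       | some x => x.1.exact
       | none => false)
    | some (.lin i e1 e2), some q =>
      (match evalB q.1 q.2 (sub' (.mul e1 (.var i)) e2) cs with
       | some x => x.1.exact
       | none => false)
    | some (.sqr i e), some q =>
      (match evalB q.1 q.2 (sub' (.sq (.var i)) e) cs with
       | some x => x.1.exact
       | none => false)
    | _, _ => false
  | .dead h hp cs sub ws, _, H, st =>
    match H[h]?, H[hp]? with
    | some (.cls e g), some (.piv g' ks) =>
      (match evalAll e st cs with
       | some bs => decide (g = g') && clsDead st bs g ks sub ws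
       | none => false)
    | _, _ => false
  | .conc h hp ho cs ws, _, H, st =>
    match H[h]?, H[hp]?, H[ho]? with
    | some (.cls e g), some (.piv g' _), some (.out e' g'' sub) =>
      (match evalAll e st cs with
       | some bs => exAll bs && decide (g = g') && decide (g = g'') && decide (e = e') &&
          clsTriv st bs g sub ws
       | none => false)
    | _, _, _ => false
  | .edead hc ho hp sub ws, _, H, st =>
    match H[hc]?, H[ho]?, H[hp]? with
    | some (.ec c), some (.on c' sd x _), some (.piv g ks) =>
      (match evalAll (.var x) st (noC st) with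
       | some bs => decide (c = c') && decide (g = c.G sd) && clsDead st bs g ks sub ws
       | none => false)
    | _, _, _ => false
  | .yrt ho cs w t, n, H, st =>
    match st, H[ho]? with
    | q :: _, some (.on c sd x _) =>
      (match (evalB q.1 q.2 (cub c sd x) cs).bind fun z => sqrtB q.1 z.1 w with
       | some b => check t (n + 1) (H ++ [.on c sd x n, .sqr n (cub c sd x)])
          (setAt n b 0 (pushNone st))
       | none => false)
    | _, _ => false
  | .tr ho cs t, n, H, st =>
    match st, H[ho]? with
    | _ :: _, some (.on c sd x y) =>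
      (match (pushE st (.inv (.var x)) cs).bind fun s1 =>
        (pushE s1 (.mul (.var (c.Bc sd)) (.var n)) (noC st)).bind fun s2 =>
        pushE s2 (.neg (.mul (.var (n + 1)) (.mul (.var y) (.var n)))) (noC st) with
       | some s3 => check t (n + 3) (H ++ [.on c sd (n + 1) (n + 2)]) s3
       | none => false)
    | _, _ => false
  | .add h1 h2 neg cs t, n, H, st =>
    match st, H[h1]?, H[h2]? with
    | _ :: _, some (.on c sd x y), some (.on c' sd' x0 y0) =>
      (match (pushE st (.mul (sub' (.var y) (sgn neg (.var y0)))
          (.inv (sub' (.var x) (.var x0)))) cs).bind fun s1 =>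
        (pushE s1 (sub' (.sq (.var n)) (.add (.var (c.A sd)) (.add (.var x) (.var x0))))
          (noC st)).bind fun s2 =>
        pushE s2 (sub' (.mul (.var n) (sub' (.var x) (.var (n + 1)))) (.var y)) (noC st) with
       | some s3 => decide (c = c') && decide (sd = sd') &&
          check t (n + 3) (H ++ [.on c sd (n + 1) (n + 2)]) s3
       | none => false)
    | _, _, _ => false
  | .half hc ho hp ws w t, n, H, st =>
    match st, H[hc]?, H[ho]?, H[hp]? with
    | q :: _, some (.ec c), some (.on c' sd x _), some (.piv g _) =>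
      (match evalAll (.var x) st (noC st), (q.2.get x).bind fun b => sqrtB q.1 b w with
       | some bs, some b => exAll bs && decide (c = c') && decide (g = c.G sd) &&
          clsTriv st bs g [] ws &&
          check t (n + 1) (H ++ [.sqr n (.var x)]) (setAt n b 0 (pushNone st))
       | _, _ => false)
    | _, _, _, _ => false
  | .fin hc ho hs cs t, n, H, st =>
    match st, H[hc]?, H[ho]?, H[hs]? with
    | _ :: _, some (.ec c), some (.on c' sd x y), some (.sqr s (.var x')) =>
      (match (pushE st (.add (.add (.mul (.num 2) (.var x)) (.var (c.A sd)))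
          (.mul (.mul (.num 2) (.var y)) (.inv (.var s)))) cs).bind fun s1 =>
        (pushE s1 (cond sd (.mul (.var n) (.sq (.inv (.num 2)))) (.var n))
          (st.map fun _ => [⟨-1, 1⟩])).bind fun s2 =>
        pushE s2 (.mul (.var (n + 1)) (cond sd (.var s) (.mul (.num 2) (.var s)))) (noC st) with
       | some s3 => decide (c = c') && decide (x = x') && ex0 s3 (n + 1) &&
          check t (n + 3) (H ++ [.on c (!sd) (n + 1) (n + 2),
            .eq (n + 1) (sub' (.sq (cond sd (.var s) (.mul (.num 2) (.var s))))
              (.add (.var (c.A (!sd))) (.mul (.var (c.Bc (!sd))) (.inv (.var (n + 1)))))),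
            .eq (n + 2) (.mul (.var (n + 1)) (cond sd (.var s) (.mul (.num 2) (.var s)))),
            .lin (n + 1) (sub' (.sq (cond sd (.var s) (.mul (.num 2) (.var s))))
              (.add (.var (c.A (!sd))) (.var (n + 1)))) (.var (c.Bc (!sd)))]) s3
       | none => false)
    | _, _, _, _ => false
  | .oroot h cs ws t, n, H, st =>
    match H[h]? with
    | some (.pw i k e) =>
      (match (evalAll e st cs).bind fun bs => orootAll k st bs ws with
       | some bs => check t n H (setAll i st bs)
       | none => false)
    | _ => false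
  | .dent h1 h2 hq neg c1 c2 c3 t, n, H, st =>
    match st, H[h1]?, H[h2]?, H[hq]? with
    | q0 :: _, some (.on c false x y), some (.on c' false x0 y0), some (.dq x1 x2 i p q dx) =>
      (match (pushE st (.mul (.var dx) (.inv (.add (.var y) (sgn neg (.var y0))))) c1).bind fun s1 =>
        (pushE s1 (.mul (sub' (.mul (.num q) (.var i)) (.num p)) (.var n)) (noC st)).bind fun s2 =>
        (pushE s2 (sub' (.num 1) (.mul (.add (.var c.a) (.add (.var x) (.var x0)))
          (.sq (.var (n + 1))))) (noC st)).bind fun s3 =>
        (pushE s3 (.mul (.sq (.var (n + 1))) (.inv (.var (n + 2)))) c2).bind fun s4 =>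
        pushE s4 (.mul (.mul (.var n) (.var (n + 2))) (.inv (.add (.var (n + 2))
          (.mul (.sq (.var (n + 1))) (sub' (.mul (.var y) (.var (n + 1))) (.var x)))))) c3,
        q0.2.get dx with
       | some s5, some b =>
         b.exact && decide (c = c') && decide (x = x1) && decide (x0 = x2) &&
         check t (n + 7) (H ++ [.on c false (n + 5) (n + 6), .dz (n + 5) (n + 6) i p q (n + 4) (n + 3)])
           (pushNone (pushNone s5))
       | _, _ => false)
    | _, _, _, _ => false
  | .deep hc hp hp' ho hz hd k rz w w' tA tB t, n, H, st =>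
    match st, H[hc]?, H[hp]?, H[hp']?, H[ho]?, H[hz]?, H[hd]? with
    | _ :: _, some (.ec c), some (.piv g ks), some (.piv g' ks'), some (.on e1 false x y),
      some (.dz x1 y1 i p q iZ iX), some (.disc i' t0 k0) =>
      (match mkDP c iZ iX k st rz with
       | some ds =>
         decide (c = e1) && decide (g = c.g) && decide (g' = c.g') &&
         decide (x = x1) && decide (y = y1) && decide (i = i') && decide (k ≤ k0) &&
         decide ((q * t0 - p) % 2 ^ k = 0) && ds.all (fun d => d.ok k) && ds.all (fun d => d.ok2 k) &&
         check tA (n + 4) (H ++ [.on c true n (n + 1), .pat n (ds.map fun d => (d.al k, d.lb'))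
             (patsLeft st ds k false g' ks' (pats (st.length - 1)) w)])
           (pushNone (pushNone (pushNone (pushNone st)))) &&
         check tB (n + 4) (H ++ [.on c false n (n + 1), .pat n (ds.map fun d => (d.al k, d.lb))
             (patsLeft st ds k true g ks (pats (st.length - 1)) w')])
           (pushNone (pushNone (pushNone (pushNone st)))) &&
         check t (n + 6)
           (H ++ [.eq n (.num (2 ^ k)), .eq (n + 3) (.mul (.var n) (.var (n + 1))),
             .eq (n + 2) (.mul (.sq (.var (n + 3))) (.add (.num 1) (.mul (.var (n + 2))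
               (.add (.var c.a) (.mul (.var c.b) (.var (n + 2))))))),
             .eq (n + 4) (.inv (.var (n + 2))),
             .eq (n + 5) (.neg (.mul (.var (n + 4)) (.inv (.var (n + 3))))),
             .on c false (n + 4) (n + 5)])
           (pushNone (pushNone (pushNone (pushAll (pushAll (pushNone st) (ds.map DP.Z))
             (ds.map fun d => zeroB d.r)))))
       | none => false)
    | _, _, _, _, _, _, _ => false
  | .pcase h ho h0 cs t1 t2, n, H, st =>
    match st, H[h]?, H[ho]?, H[h0]? with
    | _ :: _, some (.pat i rs (s :: ps)), some (.on c sd x y), some (.on c' sd' x0 y0) =>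
      (match evalPat (c.A sd) (c.Bc sd) i x0 y0 st rs s cs with
       | some bs => decide (c = c') && decide (sd = sd') && decide (x = i) && decide (y = i + 1) &&
          bdL i [c.A sd, c.Bc sd, x0, y0] &&
          check t1 (n + 2) (H ++ [.on c sd n (n + 1)]) (pushNone (pushAll st bs)) &&
          check t2 n (H.set h (.pat i rs ps)) st
       | none => false)
    | _, _, _, _ => false
  | .pnil h, _, H, _ =>
    match H[h]? with
    | some (.pat _ _ []) => true
    | _ => false
  | .setp h p cs t, n, H, st =>
    match H[h]?, st[p]? with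
    | some (.eq i e), some q =>
      (match evalB q.1 q.2 e cs with
       | some x => check t n H (setAt i x.1 p st)
       | none => false)
    | some (.lin i e1 e2), some q =>
      (match evalB q.1 q.2 (.mul (.inv e1) e2) cs with
       | some x => check t n H (setAt i x.1 p st)
       | none => false)
    | _, _ => false
  | .deadp h p cs w, _, H, st =>
    match H[h]?, st[p]? with
    | some (.cls e []), some q =>
      (match (evalB q.1 q.2 e cs).bind fun x => lev1 q.1 x.1 w with
       | some c => Nat.blt c (topc q.1.e q.1.f)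
       | none => false)
    | _, _ => false
  | .newt h css t, n, H, st =>
    match H[h]?.bind quadOf with
    | some (i, c, b) =>
      (match newtAll i c b st css with
       | some st' => check t n H st'
       | none => false)
    | none => false

/-- the initial state: variable `0` is given at each place by an expression in the local
generator -/
def initSt (n : ℕ) : List Loc → List Expr → List (List Cert) → Option St
  | [], _, _ => some []
  | D :: ds, e :: es, c :: cs =>
    (evalB D [some (mkB D 0 (cond (Nat.blt 1 D.n) (2 ^ D.K) (D.fneg % 2 ^ D.K)) (D.e * D.N))] e c).bind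
      fun x => (initSt n ds es cs).map fun r => (D, some x.1 :: List.replicate (n - 1) none) :: r
  | _, _, _ => none

def run (ds : List Loc) (es : List Expr) (cs : List (List Cert)) (n : ℕ) (H : List Hyp)
    (t : Tree) : Bool :=
  match initSt n ds es cs with
  | some st => Nat.blt 0 n && es.all (fun e => e.bd 1) && H.all (fun h => h.bd n) && check t n H st
  | none => false

end Pool.Agent.Lib.MP_ab8df0_nt.B
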