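import Pool.Agent.Lib.MP_ab8df0_nt.B.Val
import Pool.Agent.Lib.MP_ab8df0_nt.B.TreeDefs

/-! Global tools: change of generators, cutting by a character, signs at real places, identities
between integer polynomials in a generator. -/

namespace Pool.Agent.Lib.MP_ab8df0_nt.B

open WithZero

variable {L : Type*} [Field L]

/-! ### spans -/

/-- sum of two selections -/
def xorL : List Bool → List Bool → List Bool
  | a :: s, b :: t => xor a b :: xorL s t
  | [], t => t
  | a :: s, [] => a :: s

theorem prodSel_nil (gs : List L) : prodSel gs [] = 1 := by cases gs <;> rfl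

theorem prodSel_ne {gs : List L} (h0 : ∀ g ∈ gs, g ≠ 0) (s : List Bool) : prodSel gs s ≠ 0 := by
  induction gs generalizing s with
  | nil => exact one_ne_zero
  | cons g gs ih =>
    cases s with
    | nil => exact one_ne_zero
    | cons b s =>
      refine mul_ne_zero ?_ (ih (fun t ht => h0 t (List.mem_cons_of_mem _ ht)) s)
      split_ifs
      · exact h0 g List.mem_cons_self
      · exact one_ne_zero

theorem prodSel_mul {gs : List L} (h0 : ∀ g ∈ gs, g ≠ 0) (s t : List Bool) :
    ∃ w, w ≠ 0 ∧ prodSel gs s * prodSel gs t = prodSel gs (xorL s t) * w ^ 2 := by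
  induction gs generalizing s t with
  | nil => exact ⟨1, one_ne_zero, by simp [prodSel]⟩
  | cons g gs ih =>
    rcases s with _ | ⟨a, s⟩
    · exact ⟨1, one_ne_zero, by simp [prodSel, xorL]⟩
    rcases t with _ | ⟨b, t⟩
    · exact ⟨1, one_ne_zero, by simp [prodSel, xorL]⟩
    obtain ⟨w, hw, e⟩ := ih (fun t ht => h0 t (List.mem_cons_of_mem _ ht)) s t
    have hg := h0 g List.mem_cons_self
    cases a <;> cases b
    · exact ⟨w, hw, by simp [prodSel, xorL, e]⟩
    · exact ⟨w, hw, by simp only [prodSel, xorL]; simp; linear_combination g * e⟩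
    · exact ⟨w, hw, by simp only [prodSel, xorL]; simp; linear_combination g * e⟩
    · exact ⟨g * w, mul_ne_zero hg hw, by
        simp only [prodSel, xorL]; simp; linear_combination g ^ 2 * e⟩

theorem Span.mul {gs : List L} (h0 : ∀ g ∈ gs, g ≠ 0) {x y : L} (hx : Span gs x) (hy : Span gs y) :
    Span gs (x * y) := by
  obtain ⟨s, u, hu, rfl⟩ := hx
  obtain ⟨t, v, hv, rfl⟩ := hy
  obtain ⟨w, hw, e⟩ := prodSel_mul h0 s t
  exact ⟨xorL s t, u * v * w, mul_ne_zero (mul_ne_zero hu hv) hw, by
    linear_combination u ^ 2 * v ^ 2 * e⟩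

theorem Span.sq (gs : List L) {u : L} (hu : u ≠ 0) : Span gs (u ^ 2) :=
  ⟨[], u, hu, by rw [prodSel_nil, one_mul]⟩

theorem Span.of_sel {gs hs : List L} (h0 : ∀ g ∈ hs, g ≠ 0) (h : ∀ g ∈ gs, Span hs g)
    (s : List Bool) : Span hs (prodSel gs s) := by
  have h1 : Span hs 1 := by simpa using Span.sq hs (u := 1) one_ne_zero
  induction gs generalizing s with
  | nil => exact h1
  | cons g gs ih =>
    cases s with
    | nil => exact h1
    | cons b s =>
      refine Span.mul h0 ?_ (ih (fun t ht => h t (List.mem_cons_of_mem _ ht)) s)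
      split_ifs
      · exact h g List.mem_cons_self
      · exact h1

/-- if all old generators are in the span of the new ones then so is the old span -/
theorem Span.trans {gs hs : List L} (h0 : ∀ g ∈ hs, g ≠ 0) (h : ∀ g ∈ gs, Span hs g) {x : L}
    (hx : Span gs x) : Span hs x := by
  obtain ⟨s, u, hu, rfl⟩ := hx
  exact Span.mul h0 (Span.of_sel h0 h s) (Span.sq hs hu)

/-- the sum of the selected rows -/
def comb : List (List Bool) → List Bool → List Bool
  | a :: A, true :: c => xorL a (comb A c)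
  | _ :: A, false :: c => comb A c
  | _, _ => []

theorem prodSel_comb {gs : List L} (h0 : ∀ g ∈ gs, g ≠ 0) (A : List (List Bool)) (c : List Bool) :
    ∃ w, w ≠ 0 ∧ prodSel (A.map (prodSel gs)) c = prodSel gs (comb A c) * w ^ 2 := by
  induction A generalizing c with
  | nil => exact ⟨1, one_ne_zero, by simp [prodSel, comb, prodSel_nil]⟩
  | cons a A ih =>
    rcases c with _ | ⟨b, c⟩
    · exact ⟨1, one_ne_zero, by simp [prodSel, comb, prodSel_nil]⟩
    obtain ⟨w, hw, e⟩ := ih c
    cases b
    · exact ⟨w, hw, by simp [prodSel, comb, e]⟩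
    · obtain ⟨w', hw', e'⟩ := prodSel_mul h0 a (comb A c)
      refine ⟨w * w', mul_ne_zero hw hw', ?_⟩
      simp only [List.map_cons, prodSel, comb, if_true, e]
      linear_combination w ^ 2 * e'

/-- the first `n` entries are false -/
def allF : List Bool → ℕ → Bool
  | b :: s, n + 1 => !b && allF s n
  | _, _ => true

/-- among the first `n` entries only the one with index `i` is true -/
def isE : List Bool → ℕ → ℕ → Bool
  | b :: s, 0, n + 1 => b && allF s n
  | b :: s, i + 1, n + 1 => !b && isE s i n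
  | _, _, _ => false

theorem allF_sound (gs : List L) (s : List Bool) (h : allF s gs.length = true) :
    prodSel gs s = 1 := by
  induction gs generalizing s with
  | nil => rfl
  | cons g gs ih =>
    rcases s with _ | ⟨b, s⟩
    · rfl
    · simp only [List.length_cons, allF, Bool.and_eq_true, Bool.not_eq_true'] at h
      simp [prodSel, h.1, ih s h.2]

theorem isE_sound (gs : List L) (s : List Bool) (i : ℕ) (h : isE s i gs.length = true) :
    prodSel gs s = gs.getD i 0 := by
  induction gs generalizing s i with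
  | nil => cases s <;> simp [isE] at h
  | cons g gs ih =>
    rcases s with _ | ⟨b, s⟩
    · simp [isE] at h
    · cases i with
      | zero =>
        simp only [List.length_cons, isE, Bool.and_eq_true] at h
        simp [prodSel, h.1, allF_sound gs s h.2]
      | succ i =>
        simp only [List.length_cons, isE, Bool.and_eq_true, Bool.not_eq_true'] at h
        simp [prodSel, h.1, ih s i h.2]

/-- `A` lists the new generators as products of old ones, `C` inverts `A` over `ZMod 2` -/
def rebaseOk (n : ℕ) (A C : List (List Bool)) : Bool :=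
  (List.range n).all fun i => isE (comb A (C.getD i [])) i n

theorem Span.rebase {gs : List L} (h0 : ∀ g ∈ gs, g ≠ 0) {A C : List (List Bool)}
    (h : rebaseOk gs.length A C = true) {x : L} (hx : Span gs x) :
    Span (A.map (prodSel gs)) x := by
  refine Span.trans (fun g hg => ?_) (fun g hg => ?_) hx
  · obtain ⟨s, -, rfl⟩ := List.mem_map.1 hg
    exact prodSel_ne h0 s
  · obtain ⟨i, hi, rfl⟩ := List.getElem_of_mem hg
    have h1 := isE_sound gs _ i (List.all_eq_true.1 h i (List.mem_range.2 hi))
    obtain ⟨w, hw, e⟩ := prodSel_comb h0 A (C.getD i [])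
    rw [h1, List.getD_eq_getElem _ _ hi] at e
    exact ⟨C.getD i [], w⁻¹, inv_ne_zero hw, by rw [e]; field_simp⟩

theorem prodSel_pos (φ : L →+* ℝ) {gs : List L} (hgs : ∀ t ∈ gs, 0 < φ t) (s : List Bool) :
    0 < φ (prodSel gs s) := by
  induction gs generalizing s with
  | nil => simp [prodSel]
  | cons g gs ih =>
    rcases s with _ | ⟨b, s⟩
    · simp [prodSel]
    · rw [prodSel, map_mul]
      refine mul_pos ?_ (ih (fun t ht => hgs t (List.mem_cons_of_mem _ ht)) s)
      split_ifs
      · exact hgs g List.mem_cons_self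
      · simp

/-- drop the only generator that is negative at a real place -/
theorem Span.cut_sign (φ : L →+* ℝ) {g : L} {gs : List L} (hg : φ g < 0) (hgs : ∀ t ∈ gs, 0 < φ t)
    {x : L} (hx : Span (g :: gs) x) (hpos : 0 < φ x) : Span gs x := by
  obtain ⟨s, u, hu, rfl⟩ := hx
  rcases s with _ | ⟨b, s⟩
  · exact ⟨[], u, hu, by rw [prodSel_nil, prodSel_nil]⟩
  cases b
  · exact ⟨s, u, hu, by simp [prodSel]⟩
  · exfalso
    simp only [prodSel, if_true, map_mul, map_pow] at hpos
    exact absurd hpos (not_lt.2 (mul_nonpos_of_nonpos_of_nonneg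
      (mul_neg_of_neg_of_pos hg (prodSel_pos φ hgs s)).le (sq_nonneg _)))

theorem prodSel_even (v : Valuation L Gam) {gs : List L}
    (hgs : ∀ t ∈ gs, ∃ k : ℤ, v t = exp (2 * k)) (s : List Bool) :
    ∃ k : ℤ, v (prodSel gs s) = exp (2 * k) := by
  induction gs generalizing s with
  | nil => exact ⟨0, by simp [prodSel]⟩
  | cons g gs ih =>
    rcases s with _ | ⟨b, s⟩
    · exact ⟨0, by simp [prodSel]⟩
    · obtain ⟨k, hk⟩ := ih (fun t ht => hgs t (List.mem_cons_of_mem _ ht)) s
      obtain ⟨j, hj⟩ := hgs g List.mem_cons_self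
      cases b
      · exact ⟨k, by simp [prodSel, hk]⟩
      · exact ⟨j + k, by simp only [prodSel, if_true, map_mul, hk, hj, mul_add, exp_add]⟩

/-- drop the only generator of odd valuation -/
theorem Span.cut_val (v : Valuation L Gam) {g : L} {gs : List L} (hg : ∃ k : ℤ, v g = exp (2 * k + 1))
    (hgs : ∀ t ∈ gs, ∃ k : ℤ, v t = exp (2 * k)) {x : L} (hx : Span (g :: gs) x)
    (hev : ∃ k : ℤ, v x = exp (2 * k)) : Span gs x := by
  obtain ⟨s, u, hu, rfl⟩ := hx
  rcases s with _ | ⟨b, s⟩
  · exact ⟨[], u, hu, by rw [prodSel_nil, prodSel_nil]⟩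
  cases b
  · exact ⟨s, u, hu, by simp [prodSel]⟩
  · exfalso
    obtain ⟨k, hk⟩ := hg
    obtain ⟨j, hj⟩ := prodSel_even v hgs s
    obtain ⟨m, hm⟩ := exists_exact v hu
    obtain ⟨i, hi⟩ := hev
    simp only [prodSel, if_true, map_mul, pow_two, hk, hj, hm, ← exp_add, exp_inj] at hi
    omega

/-- sign of a product of generators with known signs (`true` is negative) -/
def sgnSel : List Bool → List Bool → Bool
  | s :: ss, b :: bs => xor (s && b) (sgnSel ss bs)
  | _, _ => false

theorem sign_prodSel (φ : L →+* ℝ) {gs : List L} {ss : List Bool}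
    (h : List.Forall₂ (fun g s => if s = true then φ g < 0 else 0 < φ g) gs ss) (sel : List Bool) :
    if sgnSel ss sel = true then φ (prodSel gs sel) < 0 else 0 < φ (prodSel gs sel) := by
  induction h generalizing sel with
  | nil => simp [sgnSel, prodSel]
  | @cons g s gs ss h1 _ ih =>
    rcases sel with _ | ⟨b, sel⟩
    · simp [sgnSel, prodSel]
    · have h2 := ih sel
      rw [sgnSel, prodSel, map_mul]
      generalize sgnSel ss sel = t at h2
      cases s <;> cases b <;> cases t <;> simp at h1 h2 ⊢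
      · exact h2
      · exact h2
      · exact mul_pos h1 h2
      · exact mul_neg_of_pos_of_neg h1 h2
      · exact h2
      · exact h2
      · exact mul_neg_of_neg_of_pos h1 h2
      · exact mul_pos_of_neg_of_neg h1 h2

/-! ### strict evaluation -/

/-- evaluate a natural number before passing it on -/
def forceN {α : Type} (n : ℕ) (k : ℕ → α) : α :=
  match n with
  | 0 => k 0
  | m + 1 => k (Nat.succ m)

theorem forceN_eq {α : Type} (n : ℕ) (k : ℕ → α) : forceN n k = k n := by cases n <;> rfl

/-- evaluate an integer before passing it on -/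
def forceZ {α : Type} (z : ℤ) (k : ℤ → α) : α :=
  match z with
  | .ofNat n => forceN n fun m => k (.ofNat m)
  | .negSucc n => forceN n fun m => k (.negSucc m)

theorem forceZ_eq {α : Type} (z : ℤ) (k : ℤ → α) : forceZ z k = k z := by
  cases z <;> simp only [forceZ, forceN_eq]

theorem mod_eq (a b : ℕ) : Nat.mod a b = a % b := rfl

theorem div_eq (a b : ℕ) : Nat.div a b = a / b := rfl

/-! ### signs at real places -/

def imax (a b : ℤ) : ℤ := if a ≤ b then b else a

theorem imin_eq (a b : ℤ) : imin a b = min a b := by unfold imin; split <;> omega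

theorem imax_eq (a b : ℤ) : imax a b = max a b := by unfold imax; split <;> omega

/-- interval Horner scheme: lower bound, upper bound and common denominator -/
def ivl (lo hi : ℤ) (d : ℕ) : List ℤ → ℤ × ℤ × ℕ
  | [] => (0, 0, 1)
  | c :: l => match ivl lo hi d l with
    | (A, B, D) =>
      forceZ (Int.mul lo A) fun p1 => forceZ (Int.mul lo B) fun p2 =>
      forceZ (Int.mul hi A) fun p3 => forceZ (Int.mul hi B) fun p4 =>
      forceN (Nat.mul d D) fun E => forceZ (Int.mul c (.ofNat E)) fun q =>
      forceZ (Int.add q (imin (imin p1 p2) (imin p3 p4))) fun A' =>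
      forceZ (Int.add q (imax (imax p1 p2) (imax p3 p4))) fun B' => (A', B', E)

theorem mul_mem_ivl {lo hi A B x y : ℝ} (h1 : lo ≤ x) (h2 : x ≤ hi) (h3 : A ≤ y) (h4 : y ≤ B) :
    min (min (lo * A) (lo * B)) (min (hi * A) (hi * B)) ≤ x * y ∧
      x * y ≤ max (max (lo * A) (lo * B)) (max (hi * A) (hi * B)) := by
  have k : ∀ {a b s t : ℝ}, a ≤ s → s ≤ b →
      min (a * t) (b * t) ≤ s * t ∧ s * t ≤ max (a * t) (b * t) := fun {a b s t} h h' => by
    rcases le_total 0 t with ht | ht
    · exact ⟨(min_le_left _ _).trans (mul_le_mul_of_nonneg_right h ht),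
        (mul_le_mul_of_nonneg_right h' ht).trans (le_max_right _ _)⟩
    · exact ⟨(min_le_right _ _).trans (mul_le_mul_of_nonpos_right h' ht),
        (mul_le_mul_of_nonpos_right h ht).trans (le_max_left _ _)⟩
  have k1 := k (t := y) h1 h2
  have k2 := k (t := lo) h3 h4
  have k3 := k (t := hi) h3 h4
  rw [mul_comm A, mul_comm B, mul_comm y] at k2 k3
  exact ⟨(min_le_min k2.1 k3.1).trans k1.1, k1.2.trans (max_le_max k2.2 k3.2)⟩

theorem ivl_sound (φ : L →+* ℝ) {a : L} {lo hi : ℤ} {d : ℕ} (hd : 0 < d)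
    (h1 : (lo : ℝ) ≤ φ a * d) (h2 : φ a * d ≤ (hi : ℝ)) (l : List ℤ) :
    0 < (ivl lo hi d l).2.2 ∧ ((ivl lo hi d l).1 : ℝ) ≤ φ (ev a l) * (ivl lo hi d l).2.2 ∧
      φ (ev a l) * (ivl lo hi d l).2.2 ≤ ((ivl lo hi d l).2.1 : ℝ) := by
  induction l with
  | nil => simp [ivl, ev]
  | cons c l ih =>
    rw [ivl]
    generalize ivl lo hi d l = t at ih
    obtain ⟨A, B, D⟩ := t
    obtain ⟨i1, i2, i3⟩ := ih
    obtain ⟨k1, k2⟩ := mul_mem_ivl h1 h2 i2 i3
    simp only [forceZ_eq, forceN_eq, imin_eq, imax_eq, Int.mul_def, Int.add_def, Nat.mul_eq,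
      Int.ofNat_eq_natCast, ev, map_add, map_mul, map_intCast] at *
    push_cast
    exact ⟨Nat.mul_pos hd i1, by linarith, by linarith⟩

/-- interval evaluation of a polynomial; the argument lies between `lo / d` and `hi / d` -/
def sgnPol (lo hi : ℤ) (d : ℕ) (l : List ℤ) : Option Bool :=
  match ivl lo hi d l with
  | (A, B, _) => if B < 0 then some true else if 0 < A then some false else none

theorem sgnPol_sound (φ : L →+* ℝ) {a : L} {lo hi : ℤ} {d : ℕ} (hd : 0 < d)
    (h1 : (lo : ℝ) / d ≤ φ a) (h2 : φ a ≤ (hi : ℝ) / d) {l : List ℤ} {s : Bool}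
    (h : sgnPol lo hi d l = some s) : if s = true then φ (ev a l) < 0 else 0 < φ (ev a l) := by
  have hd' : (0 : ℝ) < d := by exact_mod_cast hd
  have k := ivl_sound φ hd ((div_le_iff₀ hd').1 h1) ((le_div_iff₀ hd').1 h2) l
  unfold sgnPol at h
  generalize ivl lo hi d l = t at h k
  obtain ⟨A, B, D⟩ := t
  obtain ⟨k1, k2, k3⟩ := k
  have hD : (0 : ℝ) < D := by exact_mod_cast k1
  simp only at h k2 k3
  split_ifs at h with c1 c2
  · obtain rfl : true = s := Option.some.inj h
    have : (B : ℝ) < 0 := by exact_mod_cast c1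
    rw [if_pos rfl]
    exact neg_of_mul_neg_left (k3.trans_lt this) hD.le
  · obtain rfl : false = s := Option.some.inj h
    have : (0 : ℝ) < A := by exact_mod_cast c2
    rw [if_neg (by simp)]
    exact pos_of_mul_pos_left (this.trans_le k2) hD.le

/-! ### exact arithmetic -/

/-- residue, bound for the sum of the absolute values of the coefficients, denominator -/
abbrev Tr : Type := ℕ × ℕ × ℕ

def mkT (x b d : ℕ) : Tr := forceN x fun x' => forceN b fun b' => forceN d fun d' => (x', b', d')

/-- a natural number congruent to `z` modulo `F` -/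
def zN (F : ℕ) : ℤ → ℕ
  | .ofNat n => n
  | .negSucc n => Nat.sub F (Nat.mod (Nat.succ n) F)

def hvN (B F : ℕ) : List ℤ → ℕ
  | [] => 0
  | c :: l => Nat.add (zN F c) (Nat.mul B (hvN B F l))

def nrm (C : ℕ) : List ℤ → ℕ
  | [] => 0
  | c :: l => Nat.add c.natAbs (Nat.mul C (nrm C l))

def addT (F : ℕ) : Tr → Tr → Tr
  | (x, b, d), (y, c, e) => forceN (Nat.gcd d e) fun g => forceN (Nat.div e g) fun u =>
      forceN (Nat.div d g) fun w =>
        mkT (Nat.mod (Nat.add (Nat.mul u x) (Nat.mul w y)) F)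
          (Nat.add (Nat.mul u b) (Nat.mul w c)) (Nat.mul d u)

def mulT (F Cf : ℕ) : Tr → Tr → Tr
  | (x, b, d), (y, c, e) =>
      mkT (Nat.mod (Nat.mul x y) F) (Nat.mul c (Nat.mul b Cf)) (Nat.mul d e)

def polT (F Cf : ℕ) (x : Tr) : List ℤ → Tr
  | [] => (0, 0, 1)
  | c :: l => addT F (zN F c, c.natAbs, 1) (mulT F Cf x (polT F Cf x l))

/-- evaluation modulo `F`, with `B` in place of the generator; the denominator `0` is a failure -/
def exT (B F C Cf : ℕ) (vs : List (List ℤ × ℕ)) : Expr → Tr
  | .var i => match vs.getD i ([], 1) with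
      | (l, d) => mkT (Nat.mod (hvN B F l) F) (nrm C l) d
  | .num z => mkT (zN F z) z.natAbs 1
  | .add a b => addT F (exT B F C Cf vs a) (exT B F C Cf vs b)
  | .mul a b => mulT F Cf (exT B F C Cf vs a) (exT B F C Cf vs b)
  | .neg a => match exT B F C Cf vs a with
      | (x, b, d) => mkT (Nat.sub F (Nat.mod x F)) b d
  | .sq a => match exT B F C Cf vs a with
      | (x, b, d) => mulT F Cf (x, b, d) (x, b, d)
  | .inv _ => (0, 0, 0)
  | .pol l a => match exT B F C Cf vs a with
      | (x, b, d) => polT F Cf (x, b, d) l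

/-- the value at `B` of the monic polynomial with lower coefficients given by the list -/
def evM (B : ℤ) : List ℤ → ℤ
  | [] => 1
  | c :: l => Int.add c (Int.mul B (evM B l))

/-- exact evaluation of an inverse free expression whose variables are polynomials in `a` with a
common denominator each, reduced modulo the monic polynomial `X ^ f.length + f` -/
def exZero (f : List ℤ) (vs : List (List ℤ × ℕ)) (e : Expr) : Bool :=
  forceN (Nat.succ (nrm 1 f)) fun C => forceN f.length fun n => forceN (Nat.pow C n) fun Cf =>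
    forceN (Nat.mul 2 (Nat.add (exT 1 1 C Cf vs e).2.1 C)) fun B =>
      forceN (evM (.ofNat B) f).toNat fun F =>
        match exT B F C Cf vs e with
        | (x, b, d) => Nat.beq (Nat.mod x F) 0 && Nat.blt 0 d && Nat.blt b B &&
            Nat.blt (Nat.mul b (Nat.pow B (Nat.pred n))) F

namespace Ex

variable {A : Type*} [CommRing A]

/-- Horner evaluation in a commutative ring -/
def evR (α : A) : List ℤ → A
  | [] => 0
  | c :: l => (c : A) + α * evR α l

/-- `y` is a combination of the first `n` powers of `α` with coefficients of total size `b` -/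
def S (α : A) (n b : ℕ) (y : A) : Prop :=
  ∃ c : ℕ → ℤ, ∑ i ∈ Finset.range n, (c i).natAbs ≤ b ∧
    y = ∑ i ∈ Finset.range n, (c i : A) * α ^ i

variable {α : A} {n b b' : ℕ} {y y' : A}

theorem S.mono (h : S α n b y) (hb : b ≤ b') : S α n b' y :=
  h.imp fun _ hc => ⟨hc.1.trans hb, hc.2⟩

theorem S.zero (α : A) (n : ℕ) : S α n 0 0 := ⟨fun _ => 0, by simp, by simp⟩

theorem S.add (h : S α n b y) (h' : S α n b' y') : S α n (b + b') (y + y') := by
  obtain ⟨c, c1, rfl⟩ := h
  obtain ⟨c', c1', rfl⟩ := h'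
  refine ⟨fun i => c i + c' i, ?_, ?_⟩
  · refine (Finset.sum_le_sum fun i _ => Int.natAbs_add_le _ _).trans ?_
    rw [Finset.sum_add_distrib]
    exact add_le_add c1 c1'
  · simp only [Int.cast_add, add_mul, Finset.sum_add_distrib]

theorem S.smul (h : S α n b y) (z : ℤ) : S α n (z.natAbs * b) (z * y) := by
  obtain ⟨c, c1, rfl⟩ := h
  refine ⟨fun i => z * c i, ?_, ?_⟩
  · simp only [Int.natAbs_mul, ← Finset.mul_sum]
    exact Nat.mul_le_mul_left _ c1
  · simp only [Int.cast_mul, Finset.mul_sum, mul_assoc]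

theorem S.sum {ι : Type*} (s : Finset ι) {b : ι → ℕ} {y : ι → A} (h : ∀ i ∈ s, S α n (b i) (y i)) :
    S α n (∑ i ∈ s, b i) (∑ i ∈ s, y i) := by
  classical
  induction s using Finset.induction_on with
  | empty => simpa using S.zero α n
  | insert i s hi ih =>
    rw [Finset.sum_insert hi, Finset.sum_insert hi]
    exact (h i (Finset.mem_insert_self _ _)).add (ih fun j hj => h j (Finset.mem_insert_of_mem hj))

theorem S.lin {z : A} {C : ℕ} (hz : ∀ i < n, S α n C (z * α ^ i)) (h : S α n b y) :
    S α n (b * C) (z * y) := by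
  obtain ⟨c, c1, rfl⟩ := h
  have := S.sum (Finset.range n) fun i hi => (hz i (Finset.mem_range.1 hi)).smul (c i)
  rw [← Finset.sum_mul] at this
  rw [Finset.mul_sum, Finset.sum_congr rfl fun i _ => mul_left_comm z (c i : A) (α ^ i)]
  exact this.mono (Nat.mul_le_mul_right _ c1)

theorem S.pow {i : ℕ} (hi : i < n) : S α n 1 (α ^ i) :=
  ⟨fun j => if j = i then 1 else 0, by
    simp [apply_ite Int.natAbs, Finset.sum_ite_eq', hi], by simp [Finset.sum_ite_eq', hi]⟩

theorem S.int (hn : 0 < n) (z : ℤ) : S α n z.natAbs (z : A) := by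
  simpa using (S.pow (α := α) hn).smul z

theorem S.list (α : A) (l : List ℤ) : S α l.length (nrm 1 l) (evR α l) := by
  refine ⟨fun i => l.getD i 0, ?_, ?_⟩
  · induction l with
    | nil => simp
    | cons c l ih =>
      rw [List.length_cons, Finset.sum_range_succ']
      simp only [List.getD_cons_succ, List.getD_cons_zero, nrm, Nat.add_eq, Nat.mul_eq] at ih ⊢
      omega
  · induction l with
    | nil => simp [evR]
    | cons c l ih =>
      rw [List.length_cons, Finset.sum_range_succ', evR, ih, Finset.mul_sum, add_comm]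
      simp only [List.getD_cons_succ, List.getD_cons_zero, pow_zero, mul_one, pow_succ]
      congr 1
      exact Finset.sum_congr rfl fun i _ => by ring

section

variable {f : List ℤ} (hf : α ^ f.length + evR α f = 0)
include hf

theorem S.shift (h : S α f.length b y) : S α f.length (b * (nrm 1 f + 1)) (α * y) := by
  refine S.lin (fun i hi => ?_) h
  rw [← pow_succ']
  rcases Nat.lt_or_eq_of_le (Nat.succ_le_of_lt hi) with k | k
  · exact (S.pow k).mono (by omega)
  · have := (S.list α f).smul (-1)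
    rw [show i + 1 = f.length from k, eq_neg_of_add_eq_zero_left hf]
    simpa using this.mono (b' := nrm 1 f + 1) (by simp)

theorem S.shifts (h : S α f.length b y) (k : ℕ) :
    S α f.length (b * (nrm 1 f + 1) ^ k) (y * α ^ k) := by
  induction k with
  | zero => simpa using h
  | succ k ih =>
    have := ih.shift hf
    rwa [mul_assoc, ← pow_succ, mul_left_comm, ← pow_succ'] at this

theorem S.mul (h : S α f.length b y) (h' : S α f.length b' y') :
    S α f.length (b' * (b * (nrm 1 f + 1) ^ f.length)) (y * y') :=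
  S.lin (fun i hi => (h.shifts hf i).mono
    (Nat.mul_le_mul_left _ (Nat.pow_le_pow_right (by omega) hi.le))) h'

theorem S.evR (hn : 0 < f.length) (l : List ℤ) :
    S α f.length (nrm (nrm 1 f + 1) l) (evR α l) := by
  induction l with
  | nil => exact S.zero _ _
  | cons c l ih =>
    have := (S.int hn c).add (ih.shift hf)
    rwa [mul_comm] at this

end

theorem digits_zero {B : ℤ} (n : ℕ) (c : ℕ → ℤ) (hc : ∀ i < n, |c i| < B)
    (h : ∑ i ∈ Finset.range n, c i * B ^ i = 0) : ∀ i < n, c i = 0 := by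
  induction n generalizing c with
  | zero => exact fun i hi => absurd hi (by omega)
  | succ n ih =>
    rw [Finset.sum_range_succ', pow_zero, mul_one,
      Finset.sum_congr rfl fun i _ => show c (i + 1) * B ^ (i + 1) = B * (c (i + 1) * B ^ i) by
        ring, ← Finset.mul_sum] at h
    have h0 := hc 0 (by omega)
    have hB : 0 < B := (abs_nonneg _).trans_lt h0
    have c0 : c 0 = 0 := Int.eq_zero_of_abs_lt_dvd
      ⟨-∑ i ∈ Finset.range n, c (i + 1) * B ^ i, by linear_combination h⟩ h0
    rw [c0, add_zero, mul_eq_zero] at h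
    have := ih (fun i => c (i + 1)) (fun i hi => hc _ (by omega)) (h.resolve_left hB.ne')
    rintro (_ | i) hi
    · exact c0
    · exact this i (by omega)

theorem S.eq_zero {a x : A} {B F : ℕ} (h : S (a, (B : ZMod F)) n b (x, 0)) (h1 : b < B)
    (h2 : b * B ^ (n - 1) < F) : x = 0 := by
  obtain ⟨c, c1, c2⟩ := h
  have e1 := congrArg (RingHom.fst A (ZMod F)) c2
  have e2 := congrArg (RingHom.snd A (ZMod F)) c2
  simp only [map_sum, map_mul, map_intCast, map_pow, RingHom.coe_fst, RingHom.coe_snd] at e1 e2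
  have e3 : (F : ℤ) ∣ ∑ i ∈ Finset.range n, c i * (B : ℤ) ^ i := by
    rw [← ZMod.intCast_zmod_eq_zero_iff_dvd]
    push_cast
    exact e2.symm
  have e4 : (∑ i ∈ Finset.range n, c i * (B : ℤ) ^ i).natAbs < F := by
    refine lt_of_le_of_lt ((Int.natAbs_sum_le _ _).trans ?_) h2
    refine le_trans (Finset.sum_le_sum fun i hi => ?_)
      ((Finset.sum_mul _ _ _).ge.trans (Nat.mul_le_mul_right _ c1))
    rw [Int.natAbs_mul, Int.natAbs_pow, Int.natAbs_natCast]
    have := Finset.mem_range.1 hi
    exact Nat.mul_le_mul_left _ (Nat.pow_le_pow_right (by omega) (by omega))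
  have e5 := digits_zero n c (fun i hi => by
    have := (Finset.single_le_sum (f := fun j => (c j).natAbs) (fun _ _ => Nat.zero_le _)
      (Finset.mem_range.2 hi)).trans c1
    rw [Int.abs_eq_natAbs]
    exact_mod_cast this.trans_lt h1) (Int.eq_zero_of_dvd_of_natAbs_lt_natAbs e3 (by simpa using e4))
  rw [e1]
  exact Finset.sum_eq_zero fun i hi => by rw [e5 i (Finset.mem_range.1 hi), Int.cast_zero, zero_mul]

theorem evR_eq (a : L) (l : List ℤ) : evR a l = ev a l := by
  induction l with
  | nil => rfl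
  | cons c l ih => rw [evR, ev, ih]

theorem evR_prod {A' : Type*} [CommRing A'] (a : A) (a' : A') (l : List ℤ) :
    evR (a, a') l = (evR a l, evR a' l) := by
  induction l with
  | nil => rfl
  | cons c l ih => rw [evR, evR, evR, ih]; rfl

theorem evM_eq (B : ℤ) (f : List ℤ) : ((evM B f : ℤ) : A) = (B : A) ^ f.length + evR (B : A) f := by
  induction f with
  | nil => simp [evM, evR]
  | cons c l ih =>
    simp only [evM, evR, Int.add_def, Int.mul_def, Int.cast_add, Int.cast_mul, ih,
      List.length_cons]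
    ring

theorem neg_cast {F : ℕ} (hF : 0 < F) (x : ℕ) :
    ((Nat.sub F (Nat.mod x F) : ℕ) : ZMod F) = -(x : ZMod F) := by
  rw [Nat.sub_eq, mod_eq, Nat.cast_sub (Nat.mod_lt x hF).le]
  simp

theorem zN_cast {F : ℕ} (hF : 0 < F) (z : ℤ) : ((zN F z : ℕ) : ZMod F) = (z : ZMod F) := by
  cases z with
  | ofNat n => simp [zN]
  | negSucc n => rw [zN, neg_cast hF, Int.cast_negSucc]

theorem hvN_cast {F : ℕ} (hF : 0 < F) (B : ℕ) (l : List ℤ) :
    ((hvN B F l : ℕ) : ZMod F) = evR (B : ZMod F) l := by
  induction l with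
  | nil => simp [hvN, evR]
  | cons c l ih => simp [hvN, evR, zN_cast hF, ih]

theorem mkT_eq (x b d : ℕ) : mkT x b d = (x, b, d) := by simp only [mkT, forceN_eq]

/-- the triple describes the element -/
def Good (a : L) (B F n : ℕ) (t : Tr) (x : L) : Prop :=
  t.2.2 ≠ 0 → S (a, (B : ZMod F)) n t.2.1 ((t.2.2 : L) * x, (t.1 : ZMod F))

variable {a : L} {B F : ℕ}

theorem Good.add {t t' : Tr} {x x' : L} (h : Good a B F n t x) (h' : Good a B F n t' x') :
    Good a B F n (addT F t t') (x + x') := by
  obtain ⟨u, b, d⟩ := t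
  obtain ⟨u', b', d'⟩ := t'
  simp only [Good, addT, forceN_eq, mkT_eq, Nat.mul_eq, Nat.add_eq, mod_eq,
    div_eq] at *
  intro h0
  have hd : d ≠ 0 := left_ne_zero_of_mul h0
  have hd' : d' ≠ 0 := by
    rintro rfl
    simp at h0
  have e : d * (d' / d.gcd d') = d / d.gcd d' * d' := by
    rw [← Nat.mul_div_assoc _ (Nat.gcd_dvd_right d d'), Nat.div_mul_right_comm
      (Nat.gcd_dvd_left d d')]
  have := ((h hd).smul (d' / d.gcd d' : ℕ)).add ((h' hd').smul (d / d.gcd d' : ℕ))
  rw [Int.natAbs_natCast, Int.natAbs_natCast] at this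
  refine (congrArg _ (Prod.ext ?_ ?_)).mp this
  · have e' := congrArg (Nat.cast : ℕ → L) e
    rw [Nat.cast_mul, Nat.cast_mul] at e'
    simp only [Prod.fst_add, Prod.fst_mul, Prod.fst_natCast, Int.cast_natCast, Nat.cast_mul]
    linear_combination -x' * e'
  · simp only [Prod.snd_add, Prod.snd_mul, Prod.snd_natCast, Int.cast_natCast, ZMod.natCast_mod,
      Nat.cast_add, Nat.cast_mul]

theorem Good.int (hF : 0 < F) (hn : 0 < n) (z : ℤ) :
    Good a B F n (zN F z, z.natAbs, 1) (z : L) := fun _ => by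
  simp only [zN_cast hF, Nat.cast_one, one_mul]
  exact S.int hn z

variable {f : List ℤ} (hf : (a, (B : ZMod F)) ^ f.length + evR (a, (B : ZMod F)) f = 0)
include hf

theorem Good.mul {t t' : Tr} {x x' : L} (h : Good a B F f.length t x)
    (h' : Good a B F f.length t' x') :
    Good a B F f.length (mulT F ((nrm 1 f + 1) ^ f.length) t t') (x * x') := by
  obtain ⟨u, b, d⟩ := t
  obtain ⟨u', b', d'⟩ := t'
  simp only [Good, mulT, mkT_eq, Nat.mul_eq, mod_eq] at *
  intro h0
  refine (congrArg _ (Prod.ext ?_ ?_)).mp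
    ((h (left_ne_zero_of_mul h0)).mul hf (h' (right_ne_zero_of_mul h0)))
  · simp only [Prod.fst_mul, Nat.cast_mul]
    ring
  · simp only [Prod.snd_mul, ZMod.natCast_mod, Nat.cast_mul]

theorem Good.pol (hF : 0 < F) (hn : 0 < f.length) {t : Tr} {x : L} (h : Good a B F f.length t x)
    (l : List ℤ) :
    Good a B F f.length (polT F ((nrm 1 f + 1) ^ f.length) t l) (ev x l) := by
  induction l with
  | nil =>
    intro _
    simp only [polT, ev, mul_zero, Nat.cast_zero]
    exact S.zero _ _
  | cons c l ih => exact (Good.int hF hn c).add (h.mul hf ih)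

theorem good [CharZero L] (hF : 0 < F) (hn : 0 < f.length) (vs : List (List ℤ × ℕ)) (e : Expr) :
    Good a B F f.length (exT B F (nrm 1 f + 1) ((nrm 1 f + 1) ^ f.length) vs e)
      (e.eval fun i => ev a (vs.getD i ([], 1)).1 / ((vs.getD i ([], 1)).2 : L)) := by
  induction e with
  | var i =>
    simp only [exT, Expr.eval]
    generalize vs.getD i ([], 1) = p
    obtain ⟨l, d⟩ := p
    simp only [Good, mkT_eq, mod_eq, ZMod.natCast_mod, hvN_cast hF]
    intro hd
    rw [mul_div_cancel₀ _ (Nat.cast_ne_zero.2 hd), ← evR_eq, ← evR_prod]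
    exact S.evR hf hn l
  | num z =>
    rw [exT, mkT_eq]
    exact Good.int hF hn z
  | add p q ihp ihq => exact ihp.add ihq
  | mul p q ihp ihq => exact ihp.mul hf ihq
  | neg p ih =>
    simp only [exT, Expr.eval]
    generalize exT B F (nrm 1 f + 1) ((nrm 1 f + 1) ^ f.length) vs p = t at ih
    obtain ⟨u, b, d⟩ := t
    simp only [Good, mkT_eq, neg_cast hF] at *
    intro hd
    simpa using (ih hd).smul (-1)
  | sq p ih =>
    simp only [exT, Expr.eval, pow_two]
    exact ih.mul hf ih
  | inv p _ => exact fun h => absurd rfl h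
  | pol l p ih => exact ih.pol hf hF hn l

end Ex

theorem exZero_sound [CharZero L] {a : L} {f : List ℤ} (hf : a ^ f.length + ev a f = 0)
    {vs : List (List ℤ × ℕ)} {e : Expr} (h : exZero f vs e = true) :
    e.eval (fun i => ev a (vs.getD i ([], 1)).1 / ((vs.getD i ([], 1)).2 : L)) = 0 := by
  have hn : 0 < f.length := by
    cases f with
    | nil => simp [ev] at hf
    | cons c l => simp
  simp only [exZero, forceN_eq] at h
  generalize Nat.mul 2 _ = B at h
  generalize hF : (evM (Int.ofNat B) f).toNat = F at h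
  have k := fun h1 h2 => Ex.good (a := a) (B := B) (F := F) (f := f) h1 h2 hn vs e
  simp only [Nat.succ_eq_add_one, Nat.pow_eq] at h
  generalize exT B F (nrm 1 f + 1) ((nrm 1 f + 1) ^ f.length) vs e = t at h k
  obtain ⟨x, b, d⟩ := t
  simp only [Bool.and_eq_true, Nat.beq_eq, Nat.blt_eq, Nat.mul_eq, mod_eq,
    Nat.pred_eq_sub_one] at h
  obtain ⟨⟨⟨h1, h2⟩, h3⟩, h4⟩ := h
  have F0 : 0 < F := by omega
  have e1 : (F : ℤ) = evM (Int.ofNat B) f := by rw [← hF]; exact Int.toNat_of_nonneg (by omega)
  have e2 := Ex.evM_eq (A := ZMod F) (Int.ofNat B) f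
  rw [← e1] at e2
  simp only [Int.ofNat_eq_natCast, Int.cast_natCast, ZMod.natCast_self] at e2
  have k1 := k (by
    rw [Ex.evR_prod, Ex.evR_eq]
    exact Prod.ext hf e2.symm) F0 h2.ne'
  have e3 : (x : ZMod F) = 0 := (ZMod.natCast_eq_zero_iff _ _).2 (Nat.dvd_of_mod_eq_zero h1)
  simp only [e3] at k1
  exact (mul_eq_zero.1 (k1.eq_zero h3 h4)).resolve_left (Nat.cast_ne_zero.2 h2.ne')

/-! ### first coordinates of points -/

theorem ev_le_one (v : Valuation L Gam) {a : L} (ha : v a ≤ 1) (l : List ℤ) : v (ev a l) ≤ 1 := by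
  have ha' : P v 0 a := by simpa [P] using ha
  have : P v 0 (ev a l) := by
    induction l with
    | nil => exact P.zero v 0
    | cons c l ih => exact (P.int v c).add (ha'.mul0 ih)
  simpa [P] using this

/-- first coordinates have even valuation at places where `a` is integral and `b` is a unit -/
theorem on_even (v : Valuation L Gam) {a b x y : L} (ha : v a ≤ 1) (hb : v b = 1) (hx : x ≠ 0)
    (h : On a b x y) : ∃ k : ℤ, v x = exp (2 * k) := by
  have ha' : P v 0 a := by simpa [P] using ha
  have hb' : v b = exp (-0) := by simpa using hb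
  obtain ⟨r, hr⟩ := exists_exact v hx
  have key : ∀ s : ℤ, v (x ^ 2 + a * x + b) = exp (-(2 * s)) → ∃ k : ℤ, v x = exp (2 * k) := by
    intro s hs
    have h1 := exact_mul hr hs
    rw [← h] at h1
    obtain ⟨m, hm⟩ := exists_exact v (pow_ne_zero_iff two_ne_zero |>.1 (ne_of_exact h1))
    rw [exact_pow hm 2, exp_inj] at h1
    exact ⟨s - m, by rw [hr, exp_inj]; push_cast at h1; omega⟩
  rcases lt_trichotomy r 0 with h0 | rfl | h0
  · refine key r ?_
    have := exact_add (exact_pow hr 2) (((ha'.mul0' (P.of_eq hr)).mono (by push_cast; omega)).add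
      ((P.of_eq hb').mono (by push_cast; omega)))
    rw [add_assoc, this, mul_comm]
    rfl
  · exact ⟨0, by simpa using hr⟩
  · refine key 0 ?_
    have := exact_add hb' (((P.of_eq (exact_pow hr 2)).mono (by push_cast; omega)).add
      ((ha'.mul0' (P.of_eq hr)).mono (by omega)))
    rw [add_comm, this]
    rfl

/-- first coordinates are positive at a real place where the quadratic factor has no negative
root -/
theorem on_pos (φ : L →+* ℝ) {a b x y : L} (hab : (0 < φ b ∧ φ a ≤ 0) ∨ φ a ^ 2 < 4 * φ b)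
    (hx : x ≠ 0) (h : On a b x y) : 0 < φ x := by
  have h1 := congrArg φ h
  simp only [map_mul, map_add, map_pow] at h1
  by_contra h2
  have h3 : φ x < 0 := lt_of_le_of_ne (not_lt.1 h2) ((map_ne_zero φ).2 hx)
  have h4 : 0 < φ x ^ 2 + φ a * φ x + φ b := by
    rcases hab with ⟨k1, k2⟩ | k
    · have := mul_nonneg_of_nonpos_of_nonpos k2 h3.le
      nlinarith [sq_nonneg (φ x)]
    · nlinarith [sq_nonneg (2 * φ x + φ a)]
  nlinarith [sq_nonneg (φ y), mul_neg_of_neg_of_pos h3 h4]

/-! ### number fields -/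

section nf

open NumberField IsDedekindDomain

variable {K : Type*} [Field K] [NumberField K]

theorem place_of_prime (v : HeightOneSpectrum (𝓞 K)) :
    (∀ x : 𝓞 K, v.valuation K (x : K) ≤ 1) ∧
      (∀ x : 𝓞 K, v.valuation K (x : K) < 1 ↔ x ∈ v.asIdeal) ∧
      ∃ x : K, v.valuation K x = exp (-1) :=
  ⟨fun x => v.valuation_le_one x,
    fun x => (v.valuation_lt_one_iff_mem x), v.valuation_exists_uniformizer K⟩

theorem val_le_one_of_integral (v : HeightOneSpectrum (𝓞 K)) {x : K} (hx : IsIntegral ℤ x) :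
    v.valuation K x ≤ 1 := (place_of_prime v).1 ⟨x, hx⟩

theorem val_nat_eq_one (v : HeightOneSpectrum (𝓞 K)) {S : ℕ} (hS : (S : 𝓞 K) ∉ v.asIdeal) :
    v.valuation K (S : K) = 1 :=
  le_antisymm ((place_of_prime v).1 S) (not_lt.1 fun h => hS (((place_of_prime v).2.1 S).1 h))

theorem desc_of_SU {S : ℕ} {gs : List K}
    (hSU : ∀ ξ : K, ξ ≠ 0 → (∀ v : HeightOneSpectrum (𝓞 K), (S : 𝓞 K) ∉ v.asIdeal →
      ∃ k : ℤ, v.valuation K ξ = exp (2 * k)) → Span gs ξ)
    {al a b : K} (hal : IsIntegral ℤ al) {la lb lc : List ℤ} {i j m : ℕ}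
    (ha : a = ev al la / (S : K) ^ i) (hb : b = ev al lc / (S : K) ^ m)
    (hbb : b * ev al lb = (S : K) ^ j) : Desc a b gs := by
  refine fun x y hx h => hSU x hx fun v hv => on_even _ ?_ ?_ hx h
  · rw [ha, map_div₀, map_pow, val_nat_eq_one v hv, one_pow, div_one]
    exact ev_le_one _ (val_le_one_of_integral v hal) la
  · have h1 : v.valuation K b ≤ 1 := by
      rw [hb, map_div₀, map_pow, val_nat_eq_one v hv, one_pow, div_one]
      exact ev_le_one _ (val_le_one_of_integral v hal) lc
    have h2 := congrArg (v.valuation K) hbb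
    rw [map_mul, map_pow, val_nat_eq_one v hv, one_pow] at h2
    exact le_antisymm h1 (h2.ge.trans
      (mul_le_of_le_one_right' (ev_le_one _ (val_le_one_of_integral v hal) lb)))

end nf

/-- from families indexed by `Fin k` to lists -/
theorem span_of_fin {k : ℕ} (g : Fin k → L) {x : L} (hx : x ≠ 0)
    (h : ∃ (e : Fin k → Bool) (u : L), x = (∏ i, if e i then g i else 1) * u ^ 2) :
    Span (List.ofFn g) x := by
  obtain ⟨e, u, rfl⟩ := h
  refine ⟨List.ofFn e, u, fun h0 => hx (by simp [h0]), ?_⟩
  congr 1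
  clear hx
  induction k with
  | zero => simp [prodSel]
  | succ k ih => rw [Fin.prod_univ_succ, List.ofFn_succ, List.ofFn_succ, prodSel, ih]

end Pool.Agent.Lib.MP_ab8df0_nt.B
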