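import Pool.Agent.Lib.MP_ab8df0_nt.B.Val

/-! Valid local models from certificates. -/

namespace Pool.Agent.Lib.MP_ab8df0_nt.B

open WithZero

variable {L : Type*} [Field L]

/-- integer polynomial data for a place.  `fG` is an integer polynomial with root `ga`,
`g` is monic of degree `f` and irreducible mod 2, `F` is the local factor of degree `e * f`,
`cof` a cofactor with `F * cof = fG` mod `2 ^ N`. The field `aux` is not used. -/
structure LocCert where
  fG : List ℤ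
  g : List ℤ
  F : List ℤ
  cof : List ℤ
  aux : List (List ℤ)

namespace LocMk

def padd : List ℤ → List ℤ → List ℤ
  | [], m => m
  | a :: l, [] => a :: l
  | a :: l, b :: m => (a + b) :: padd l m

def psc (c : ℤ) (l : List ℤ) : List ℤ := l.map fun a => c * a

def pmul : List ℤ → List ℤ → List ℤ
  | [], _ => []
  | a :: l, m => padd (psc a m) (0 :: pmul l m)

def ppow (l : List ℤ) : ℕ → List ℤ
  | 0 => [1]
  | k + 1 => pmul l (ppow l k)

def psub (l m : List ℤ) : List ℤ := padd l (psc (-1) m)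

def allDiv (m : ℤ) (l : List ℤ) : Bool := l.all fun c => c % m == 0

def isZ (l : List ℤ) : Bool := l.all fun c => c == 0

/-- one step of the reduction modulo 2 and the monic polynomial with lower coefficients `g0` -/
def step (g0 l : List ℤ) : List ℤ :=
  List.zipWith (fun a b => (a - l.getLastD 0 * b) % 2) l g0

/-- reduction modulo 2 and the monic polynomial with lower coefficients `g0` -/
def red (g0 : List ℤ) : List ℤ → List ℤ
  | [] => g0.map fun _ => 0
  | c :: l => step g0 (c :: red g0 l)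

/-- all lists of zeros and ones of length at most `k` -/
def tab : ℕ → List (List ℤ)
  | 0 => [[]]
  | k + 1 => [] :: ((tab k).map (fun l => 0 :: l) ++ (tab k).map (fun l => 1 :: l))

/-- the negative of a list modulo `m` -/
def negL (m : ℕ) (l : List ℤ) : List ℕ := l.map fun c => (-c % (m : ℤ)).toNat

end LocMk

open LocMk in
def locOk (D : Loc) (C : LocCert) : Bool :=
  let g0 := C.g.take D.f
  let q2 := psub (ppow C.g D.e) C.F
  D.wf && Nat.beq g0.length D.f && C.g == g0 ++ [1] &&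
  ((tab D.f).all fun r => isZ r ||
    (tab D.f).any fun s => isZ (red g0 (psub (pmul r s) [1]))) &&
  allDiv D.M (psub (pmul C.F C.cof) C.fG) && !(isZ (red g0 C.cof)) && allDiv 2 q2 &&
  (Nat.beq D.e 1 || !(isZ (red g0 (q2.map fun c => c / 2)))) &&
  Nat.ble C.F.length (D.n + 1) && Nat.beq D.fneg (Nat.ofDigits (2 ^ D.K) (negL D.M C.F)) &&
  cond D.fast (Nat.beq D.e 1 || C.g == [0, 1])
    (!(Nat.beq D.e 1) && Nat.beq D.gneg (Nat.ofDigits (2 ^ D.K) (negL D.M C.g)))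

/-- the uniformizer: `2` if `e = 1`, else `g ga` -/
def piOf (D : Loc) (C : LocCert) (ga : L) : L := if D.e = 1 then 2 else ev ga C.g

namespace LocMk

variable {ga : L} {v : Valuation L Gam}

lemma ev_padd (ga : L) : ∀ l m, ev ga (padd l m) = ev ga l + ev ga m
  | [], m => by simp [padd, ev]
  | a :: l, [] => by simp [padd, ev]
  | a :: l, b :: m => by simp only [padd, ev, ev_padd ga l m]; push_cast; ring

lemma ev_psc (ga : L) (c : ℤ) : ∀ l, ev ga (psc c l) = c * ev ga l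
  | [] => by simp [psc, ev]
  | a :: l => by
    have := ev_psc ga c l
    simp only [psc, List.map_cons, ev] at this ⊢
    rw [this]; push_cast; ring

lemma ev_pmul (ga : L) : ∀ l m, ev ga (pmul l m) = ev ga l * ev ga m
  | [], m => by simp [pmul, ev]
  | a :: l, m => by simp only [pmul, ev_padd, ev_psc, ev, ev_pmul ga l m]; push_cast; ring

lemma ev_one (ga : L) : ev ga [1] = 1 := by simp [ev]

lemma ev_ppow (ga : L) (l : List ℤ) : ∀ k, ev ga (ppow l k) = ev ga l ^ k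
  | 0 => by simp [ppow, ev]
  | k + 1 => by rw [ppow, ev_pmul, ev_ppow ga l k, pow_succ']

lemma ev_psub (ga : L) (l m : List ℤ) : ev ga (psub l m) = ev ga l - ev ga m := by
  rw [psub, ev_padd, ev_psc]; push_cast; ring

lemma ev_div (ga : L) (m : ℤ) : ∀ l, allDiv m l = true →
    ev ga l = m * ev ga (l.map fun c => c / m)
  | [], _ => by simp [ev]
  | a :: l, h => by
    simp only [allDiv, List.all_cons, Bool.and_eq_true, beq_iff_eq] at h
    have h1 : ((m * (a / m) : ℤ) : L) = a := by rw [Int.mul_ediv_cancel' (Int.dvd_of_emod_eq_zero h.1)]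
    simp only [List.map_cons, ev]
    rw [ev_div ga m l h.2, ← h1]; push_cast; ring

lemma ev_isZ (ga : L) : ∀ l, isZ l = true → ev ga l = 0
  | [], _ => rfl
  | a :: l, h => by
    simp only [isZ, List.all_cons, Bool.and_eq_true, beq_iff_eq] at h
    rw [ev, ev_isZ ga l h.2, h.1]; simp

lemma ev_concat (ga : L) (t : ℤ) : ∀ l, ev ga (l ++ [t]) = ev ga l + ga ^ l.length * t
  | [] => by simp [ev]
  | a :: l => by simp only [List.cons_append, ev, ev_concat ga t l, List.length_cons]; ring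

/-- the ring generated by `ga` -/
def AA (ga : L) : Subring L where
  carrier := {x | ∃ l, x = ev ga l}
  mul_mem' := by rintro _ _ ⟨l, rfl⟩ ⟨m, rfl⟩; exact ⟨_, (ev_pmul ga l m).symm⟩
  one_mem' := ⟨[1], (ev_one ga).symm⟩
  add_mem' := by rintro _ _ ⟨l, rfl⟩ ⟨m, rfl⟩; exact ⟨_, (ev_padd ga l m).symm⟩
  zero_mem' := ⟨[], rfl⟩
  neg_mem' := by rintro _ ⟨l, rfl⟩; exact ⟨psc (-1) l, by rw [ev_psc]; simp⟩

lemma ev_mem (ga : L) (l : List ℤ) : ev ga l ∈ AA ga := ⟨l, rfl⟩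

lemma ga_mem (ga : L) : ga ∈ AA ga := ⟨[0, 1], by simp [ev]⟩

lemma AA_le (hga : v ga ≤ 1) {x : L} (hx : x ∈ AA ga) : v x ≤ 1 := by
  obtain ⟨l, rfl⟩ := hx
  induction l with
  | nil => simp [ev]
  | cons c l ih =>
    refine v.map_add_le (by simpa [P] using P.int v c) ?_
    rw [map_mul]; exact mul_le_one' hga ih

lemma zip_ev (ga : L) (t : ℤ) : ∀ (g0 l : List ℤ), l.length = g0.length + 1 → ∃ a ∈ AA ga,
    ev ga l - ev ga (List.zipWith (fun a b => (a - t * b) % 2) l g0) =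
      2 * a + t * ev ga g0 + ga ^ g0.length * l.getLastD 0
  | [], [c], _ => ⟨0, zero_mem _, by simp [ev]⟩
  | b :: g0, c :: d :: l, h => by
    obtain ⟨a, ha, h1⟩ := zip_ev ga t g0 (d :: l) (by simpa using h)
    refine ⟨((c - t * b) / 2 : ℤ) + ga * a, add_mem (intCast_mem _ _) (mul_mem (ga_mem ga) ha), ?_⟩
    have h2 : (((c - t * b) % 2 + 2 * ((c - t * b) / 2) : ℤ) : L) = ((c - t * b : ℤ) : L) := by
      rw [Int.emod_add_mul_ediv]
    have h3 : (c :: d :: l).getLastD 0 = (d :: l).getLastD 0 := by simp [List.getLastD]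
    rw [List.zipWith_cons_cons, ev, h3, List.length_cons]
    rw [ev.eq_2 ga ((c - t * b) % 2), ev.eq_2 ga b]
    push_cast at h2
    linear_combination ga * h1 - h2

lemma red_len (g0 : List ℤ) : ∀ l, (red g0 l).length = g0.length
  | [] => by simp [red]
  | c :: l => by simp [red, step, red_len g0 l]

lemma red_bit (g0 : List ℤ) : ∀ l, ∀ c ∈ red g0 l, c = 0 ∨ c = 1
  | [], c, h => by
    simp only [red, List.mem_map] at h
    obtain ⟨_, -, rfl⟩ := h
    exact Or.inl rfl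
  | d :: l, c, h => by
    obtain ⟨i, hi, rfl⟩ := List.getElem_of_mem h
    simp only [red, step, List.getElem_zipWith]
    exact Int.emod_two_eq_zero_or_one _

lemma red_ev (ga : L) (g0 : List ℤ) : ∀ l, ∃ a ∈ AA ga, ∃ b ∈ AA ga,
    ev ga l - ev ga (red g0 l) = 2 * a + ev ga (g0 ++ [1]) * b
  | [] => ⟨0, zero_mem _, 0, zero_mem _, by
      rw [ev_isZ ga (red g0 []) (by simp [red, isZ])]; simp [ev]⟩
  | c :: l => by
    obtain ⟨a, ha, b, hb, h1⟩ := red_ev ga g0 l
    obtain ⟨a', ha', h2⟩ := zip_ev ga ((c :: red g0 l).getLastD 0) g0 (c :: red g0 l)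
      (by simp [red_len])
    refine ⟨ga * a + a', add_mem (mul_mem (ga_mem ga) ha) ha',
      ga * b + ((c :: red g0 l).getLastD 0 : ℤ),
      add_mem (mul_mem (ga_mem ga) hb) (intCast_mem _ _), ?_⟩
    rw [ev_concat] at h1 ⊢
    rw [red, step, ev]
    rw [ev] at h2
    push_cast at h1 ⊢
    linear_combination ga * h1 + h2

lemma mem_tab : ∀ (k : ℕ) (l : List ℤ), l.length ≤ k → (∀ c ∈ l, c = 0 ∨ c = 1) → l ∈ tab k
  | 0, [], _, _ => by simp [tab]
  | _ + 1, [], _, _ => by simp [tab]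
  | k + 1, c :: l, h, hc => by
    have := mem_tab k l (by simpa using h) fun d hd => hc d (List.mem_cons_of_mem _ hd)
    rcases hc c List.mem_cons_self with rfl | rfl <;> simp [tab, this]

lemma ev_nat (ga : L) : ∀ l : List ℕ, ev ga (l.map fun c : ℕ => (c : ℤ)) = Nat.ofDigits ga l
  | [] => rfl
  | c :: l => by simp only [List.map_cons, ev, ev_nat ga l, Nat.ofDigits, Int.cast_natCast]

lemma negL_ev (ga : L) {m : ℕ} (hm : 0 < m) : ∀ l, ∃ a ∈ AA ga,
    Nat.ofDigits ga (negL m l) + ev ga l = m * a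
  | [] => ⟨0, zero_mem _, by simp [negL, ev, Nat.ofDigits]⟩
  | c :: l => by
    obtain ⟨a, ha, h1⟩ := negL_ev ga hm l
    refine ⟨-((-c / m : ℤ) : L) + ga * a,
      add_mem (neg_mem (intCast_mem _ _)) (mul_mem (ga_mem ga) ha), ?_⟩
    have h2 : ((-c % m + m * (-c / m) : ℤ) : L) = ((-c : ℤ) : L) := by rw [Int.emod_add_mul_ediv]
    have h3 : (((-c % (m : ℤ)).toNat : ℕ) : L) = ((-c % m : ℤ) : L) := by
      rw [← Int.cast_natCast, Int.toNat_of_nonneg (Int.emod_nonneg _ (by omega))]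
    simp only [negL, List.map_cons, Nat.ofDigits, ev] at h1 ⊢
    rw [h3]
    rw [Int.cast_add, Int.cast_mul, Int.cast_neg, Int.cast_natCast] at h2
    linear_combination ga * h1 + h2

lemma negL_lt {m : ℕ} (hm : 0 < m) (l : List ℤ) : ∀ c ∈ negL m l, c < m := by
  intro c hc
  obtain ⟨d, -, rfl⟩ := List.mem_map.1 hc
  have := Int.emod_lt_of_pos (-d) (show (0 : ℤ) < m by omega)
  omega

/-- the localisation at the valuation -/
def RR (v : Valuation L Gam) (ga : L) : Subring L where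
  carrier := {x | ∃ b ∈ AA ga, v b = 1 ∧ x * b ∈ AA ga}
  mul_mem' := by
    rintro x y ⟨b, hb, h1, h2⟩ ⟨c, hc, h3, h4⟩
    exact ⟨b * c, mul_mem hb hc, by rw [map_mul, h1, h3, one_mul],
      by rw [mul_mul_mul_comm]; exact mul_mem h2 h4⟩
  one_mem' := ⟨1, one_mem _, v.map_one, mul_mem (one_mem _) (one_mem _)⟩
  add_mem' := by
    rintro x y ⟨b, hb, h1, h2⟩ ⟨c, hc, h3, h4⟩
    refine ⟨b * c, mul_mem hb hc, by rw [map_mul, h1, h3, one_mul], ?_⟩
    rw [show (x + y) * (b * c) = x * b * c + y * c * b by ring]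
    exact add_mem (mul_mem h2 hc) (mul_mem h4 hb)
  zero_mem' := ⟨1, one_mem _, v.map_one, mul_mem (zero_mem _) (one_mem _)⟩
  neg_mem' := by
    rintro x ⟨b, hb, h1, h2⟩
    exact ⟨b, hb, h1, by rw [neg_mul]; exact neg_mem h2⟩

lemma AA_RR {x : L} (hx : x ∈ AA ga) : x ∈ RR v ga :=
  ⟨1, one_mem _, v.map_one, mul_mem hx (one_mem _)⟩

lemma RR_le (hga : v ga ≤ 1) {x : L} (hx : x ∈ RR v ga) : v x ≤ 1 := by
  obtain ⟨b, -, h1, h2⟩ := hx
  have := AA_le hga h2
  rwa [map_mul, h1, mul_one] at this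

lemma RR_inv {x : L} (hx : x ∈ RR v ga) (h : v x = 1) : x⁻¹ ∈ RR v ga := by
  obtain ⟨b, hb, h1, h2⟩ := hx
  have h0 : x ≠ 0 := fun h0 => by simp [h0] at h
  exact ⟨x * b, h2, by rw [map_mul, h, h1, one_mul], by rwa [inv_mul_cancel_left₀ h0]⟩

lemma lt_P {x : L} (h : v x < 1) : P v 1 x := by
  by_cases hx : x = 0
  · exact hx ▸ P.zero v 1
  obtain ⟨r, hr⟩ := exists_exact v hx
  rw [hr, ← exp_zero, exp_lt_exp] at h
  rw [P_iff_of_exact hr]; omega

/-- leading terms -/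
lemma factor (hga : v ga ≤ 1) {π : L} (hπ : v π < 1)
    (h : ∀ x ∈ RR v ga, v x < 1 → ∃ y ∈ RR v ga, x = π * y) :
    ∀ (k : ℕ) (x : L), x ∈ RR v ga → v x = exp (-(k : ℤ)) →
      ∃ (j : ℕ) (u : L), u ∈ RR v ga ∧ v u = 1 ∧ x = π ^ j * u := by
  intro k
  induction k using Nat.strong_induction_on with
  | _ k ih =>
    intro x hx hk
    by_cases h1 : v x = 1
    · exact ⟨0, x, hx, h1, by simp⟩
    obtain ⟨y, hy, rfl⟩ := h x hx (lt_of_le_of_ne (RR_le hga hx) h1)
    have h0 := ne_of_exact hk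
    obtain ⟨r, hr⟩ := exists_exact v (left_ne_zero_of_mul h0)
    obtain ⟨s, hs⟩ := exists_exact v (right_ne_zero_of_mul h0)
    have h2 := (P_iff_of_exact hr).1 (lt_P hπ)
    have h3 : 0 ≤ s := (P_iff_of_exact hs).1 (by simpa [P] using RR_le hga hy)
    have h4 := exact_mul hr hs
    rw [hk, exp_inj] at h4
    obtain ⟨j, u, hu, h5, h6⟩ := ih s.toNat (by omega) y hy (by rwa [Int.toNat_of_nonneg h3])
    exact ⟨j + 1, u, hu, h5, by rw [h6]; ring⟩

lemma factor' (hga : v ga ≤ 1) {π : L} (hπ : v π < 1)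
    (h : ∀ x ∈ RR v ga, v x < 1 → ∃ y ∈ RR v ga, x = π * y)
    (hspan : ∀ x : L, ∃ (l : List ℤ) (d : ℤ), (d : L) ≠ 0 ∧ x * (d : L) = ev ga l) {x : L}
    (hx : x ≠ 0) : ∃ (i j : ℕ) (u : L), u ∈ RR v ga ∧ v u = 1 ∧ x * π ^ i = π ^ j * u ∧
      π ^ i ≠ 0 := by
  have key : ∀ y ∈ AA ga, y ≠ 0 → ∃ (j : ℕ) (u : L), u ∈ RR v ga ∧ v u = 1 ∧ y = π ^ j * u := by
    intro y hy h0
    obtain ⟨s, hs⟩ := exists_exact v h0
    have h3 : 0 ≤ s := (P_iff_of_exact hs).1 (by simpa [P] using AA_le hga hy)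
    exact factor hga hπ h s.toNat y (AA_RR hy) (by rwa [Int.toNat_of_nonneg h3])
  obtain ⟨l, d, hd, h1⟩ := hspan x
  obtain ⟨i, u, hu, h2, h3⟩ := key d (intCast_mem _ _) hd
  obtain ⟨j, w, hw, h4, h5⟩ := key _ (ev_mem ga l) (h1 ▸ mul_ne_zero hx hd)
  have h0 : u ≠ 0 := fun h0 => by simp [h0] at h2
  refine ⟨i, j, w * u⁻¹, mul_mem hw (RR_inv hu h2), by rw [map_mul, map_inv₀, h2, h4]; simp, ?_,
    left_ne_zero_of_mul (h3 ▸ hd)⟩
  rw [← mul_assoc, ← h5, ← h1, h3]; field_simp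

end LocMk

open LocMk in
theorem valid_of_cert (v : Valuation L Gam) (ga : L) (D : Loc) (C : LocCert)
    (hok : locOk D C = true) (hroot : ev ga C.fG = 0) (hga : v ga ≤ 1) (h2 : v 2 < 1)
    (hg : v (ev ga C.g) < 1) (hsurj : ∃ x, v x = exp (-1))
    (hspan : ∀ x : L, ∃ (l : List ℤ) (d : ℤ), (d : L) ≠ 0 ∧ x * (d : L) = ev ga l) :
    Valid ⟨v, ga, piOf D C ga, D.e, D.f⟩ D := by
  simp only [locOk, Bool.and_eq_true, Bool.or_eq_true, Nat.beq_eq, beq_iff_eq, List.all_eq_true,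
    List.any_eq_true, Bool.not_eq_true', Nat.ble_eq] at hok
  obtain ⟨⟨⟨⟨⟨⟨⟨⟨⟨⟨hwf, hlen⟩, hg0⟩, htab⟩, hFc⟩, hcof⟩, hq2⟩, hq⟩, hFl⟩, hfn⟩, hfast⟩ := hok
  generalize C.g.take D.f = g0 at hlen hg0 htab hcof hq
  have hw := hwf
  simp only [Loc.wf, Bool.and_eq_true, decide_eq_true_eq] at hw
  obtain ⟨⟨⟨⟨⟨⟨⟨⟨⟨⟨he, -⟩, hN⟩, -⟩, hM⟩, -⟩, -⟩, -⟩, -⟩, -⟩, -⟩ := hw
  have hM0 : 0 < D.M := by rw [hM]; positivity
  have hML : (D.M : L) = 2 ^ D.N := by rw [hM]; push_cast; rfl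
  have small : ∀ x y : L, v x < 1 → v y ≤ 1 → v (x * y) < 1 := fun x y hx hy => by
    rw [map_mul]; exact (mul_le_of_le_one_right' hy).trans_lt hx
  have hred : ∀ l, v (ev ga l - ev ga (red g0 l)) < 1 := fun l => by
    obtain ⟨a, ha, b, hb, h1⟩ := red_ev ga g0 l
    rw [h1, ← hg0]
    exact v.map_add_lt (small _ _ h2 (AA_le hga ha)) (small _ _ hg (AA_le hga hb))
  have hinv : ∀ r : List ℤ, r.length ≤ D.f → (∀ c ∈ r, c = 0 ∨ c = 1) → isZ r = false →
      v (ev ga r) = 1 ∧ ∃ s ∈ AA ga, v (ev ga r * s - 1) < 1 := fun r h1 h3 h4 => by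
    obtain ⟨s, -, hs⟩ := (htab r (mem_tab _ r h1 h3)).resolve_left (by simp [h4])
    have h5 := hred (psub (pmul r s) [1])
    rw [ev_isZ ga _ hs, sub_zero, ev_psub, ev_pmul, ev_one] at h5
    refine ⟨le_antisymm (AA_le hga (ev_mem ga r)) (not_lt.1 fun h6 => ?_), _, ev_mem ga s, h5⟩
    have h7 := v.map_sub_lt (small _ _ h6 (AA_le hga (ev_mem ga s))) h5
    simp at h7
  have hunit : ∀ l, isZ (red g0 l) = false → v (ev ga l) = 1 := fun l hl => by
    have h1 := (hinv _ ((red_len g0 l).trans hlen).le (red_bit g0 l) hl).1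
    have h3 := v.map_add_eq_of_lt_left (x := ev ga (red g0 l)) (h1 ▸ hred l)
    rwa [add_sub_cancel, h1] at h3
  have hc1 := hunit _ hcof
  have hc0 : ev ga C.cof ≠ 0 := fun h0 => by simp [h0] at hc1
  obtain ⟨w, hw, hF⟩ : ∃ w ∈ RR v ga, ev ga C.F = 2 ^ D.N * w := by
    have h1 := ev_div ga _ _ hFc
    rw [ev_psub, ev_pmul, hroot, sub_zero, Int.cast_natCast, hML] at h1
    exact ⟨_ * (ev ga C.cof)⁻¹, mul_mem (AA_RR (ev_mem ga _)) (RR_inv (AA_RR (ev_mem ga _)) hc1),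
      by rw [← mul_assoc, ← h1, mul_inv_cancel_right₀ hc0]⟩
  obtain ⟨q, hqR, hq1, hge⟩ : ∃ q ∈ RR v ga, (D.e ≠ 1 → v q = 1) ∧ ev ga C.g ^ D.e = 2 * q := by
    have h1 := ev_div ga _ _ hq2
    rw [ev_psub, ev_ppow, hF] at h1
    obtain ⟨k, hk⟩ : ∃ k, D.N = k + 2 := ⟨D.N - 2, by omega⟩
    have h3 : (2 : L) ^ k * w ∈ RR v ga := mul_mem (pow_mem (ofNat_mem _ 2) k) hw
    refine ⟨ev ga ((psub (ppow C.g D.e) C.F).map fun c => c / 2) + 2 * (2 ^ k * w),
      add_mem (AA_RR (ev_mem ga _)) (mul_mem (ofNat_mem _ 2) h3), fun h4 => ?_, ?_⟩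
    · have h5 := hunit _ (hq.resolve_left h4)
      rw [v.map_add_eq_of_lt_left (h5 ▸ small _ _ h2 (RR_le hga h3)), h5]
    · rw [hk] at h1
      push_cast at h1
      linear_combination h1
  have hπ : v (piOf D C ga) < 1 := by unfold piOf; split <;> assumption
  have hπR : piOf D C ga ∈ RR v ga := by
    unfold piOf; split
    exacts [ofNat_mem _ 2, AA_RR (ev_mem ga _)]
  obtain ⟨y1, hy1, y2, hy2, e1, e2⟩ : ∃ y1 ∈ RR v ga, ∃ y2 ∈ RR v ga, 2 = piOf D C ga * y1 ∧
      ev ga C.g = piOf D C ga * y2 := by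
    unfold piOf; split
    · next h => exact ⟨1, one_mem _, q, hqR, by simp, by rw [← hge, h, pow_one]⟩
    · next h =>
      have h0 : q ≠ 0 := fun h0 => by simpa [h0] using hq1 h
      obtain ⟨k, hk⟩ : ∃ k, D.e = k + 1 := ⟨D.e - 1, by omega⟩
      refine ⟨ev ga C.g ^ k * q⁻¹, mul_mem (pow_mem (AA_RR (ev_mem ga _)) k) (RR_inv hqR (hq1 h)),
        1, one_mem _, ?_, by simp⟩
      rw [← mul_assoc, ← pow_succ', ← hk, hge, mul_inv_cancel_right₀ h0]
  have hdiv : ∀ x ∈ RR v ga, v x < 1 → ∃ y ∈ RR v ga, x = piOf D C ga * y := by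
    rintro x ⟨b, hb, h1, l, h3⟩ hx
    have hb0 : b ≠ 0 := fun h0 => by simp [h0] at h1
    have h4 : isZ (red g0 l) = true := by
      by_contra h4
      have h5 := hunit l (by simpa using h4)
      rw [← h3, map_mul, h1, mul_one] at h5
      exact hx.ne h5
    obtain ⟨a, ha, c, hc, h5⟩ := red_ev ga g0 l
    rw [ev_isZ ga _ h4, sub_zero, ← hg0, ← h3] at h5
    refine ⟨(y1 * a + y2 * c) * b⁻¹, mul_mem (add_mem (mul_mem hy1 (AA_RR ha))
      (mul_mem hy2 (AA_RR hc))) (RR_inv (AA_RR hb) h1), ?_⟩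
    rw [← mul_assoc, eq_mul_inv_iff_mul_eq₀ hb0]
    linear_combination h5 + a * e1 + c * e2
  have hpi : v (piOf D C ga) = exp (-1) := by
    obtain ⟨x, hx⟩ := hsurj
    obtain ⟨i, j, u, -, h1, h3, h4⟩ := factor' hga hπ hdiv hspan (ne_of_exact hx)
    have h5 := congrArg v h3
    rw [map_mul, map_mul, h1, hx, mul_one] at h5
    by_cases h0 : piOf D C ga = 0
    · rw [h0] at h4 h5
      obtain rfl : i = 0 := by by_contra hi; exact h4 (zero_pow hi)
      rcases j with _ | j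
      · simp at h5
      · simp at h5
    obtain ⟨r, hr⟩ := exists_exact v h0
    have h6 := (P_iff_of_exact hr).1 (lt_P hπ)
    rw [exact_pow hr, exact_pow hr, ← exp_add, exp_inj] at h5
    have h7 : r * (j - i) = 1 := by linear_combination h5
    rw [hr, Int.eq_one_of_mul_eq_one_right (by omega) h7]
  have hv2 : v 2 = exp (-(D.e : ℤ)) := by
    unfold piOf at hpi
    split at hpi
    · next h => rw [hpi, h]; rfl
    · next h =>
      have h1 := exact_pow hpi D.e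
      rwa [hge, map_mul, hq1 h, mul_one, one_mul] at h1
  have hPM : ∀ a ∈ RR v ga, P v (D.e * D.N) (2 ^ D.N * a) := fun a ha =>
    (P.of_eq (exact_pow hv2 D.N)).mul0 (by simpa [P] using RR_le hga ha)
  refine ⟨hwf, rfl, rfl, by simpa [P] using hga, hv2, hpi, fun h => ?_, ?_, fun h => ?_, ?_, ?_⟩
  · simp only [h, cond_true, Bool.or_eq_true, Nat.beq_eq, beq_iff_eq] at hfast
    by_cases h1 : D.e = 1
    · exact Or.inr h1
    have h3 := hfast.resolve_left h1
    have h4 := congrArg List.length (h3.symm.trans hg0)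
    refine Or.inl ⟨by simpa [hlen] using h4.symm, ?_⟩
    simp [piOf, h1, h3, ev]
  · obtain ⟨a, ha, h1⟩ := negL_ev ga hM0 C.F
    refine ⟨_, ⟨by simpa [negL] using hFl, hM ▸ negL_lt hM0 _, hfn⟩, ?_⟩
    rw [hML, hF] at h1
    exact ((hPM a (AA_RR ha)).sub (hPM w hw)).congr (eq_sub_of_add_eq h1)
  · simp only [h, cond_false, Bool.and_eq_true, Bool.not_eq_true', Nat.beq_eq] at hfast
    have h1 : D.e ≠ 1 := fun h1 => by simp [h1] at hfast
    obtain ⟨a, ha, h3⟩ := negL_ev ga hM0 C.g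
    refine ⟨_, ⟨by rw [negL, List.length_map, hg0]; simp [hlen], hM ▸ negL_lt hM0 _, hfast.2⟩, ?_⟩
    rw [hML] at h3
    exact (hPM a (AA_RR ha)).congr (by simpa [piOf, h1] using h3)
  · intro l h1 h3 ⟨c, hc, hc0⟩
    refine (ev_nat ga l) ▸ (hinv _ (by simpa using h1) (fun d hd => ?_) ?_).1
    · obtain ⟨k, hk, rfl⟩ := List.mem_map.1 hd
      have := h3 k hk
      omega
    · rw [← Bool.not_eq_true, isZ, List.all_eq_true]
      intro h4
      exact hc0 (by simpa using h4 c (List.mem_map.2 ⟨c, hc, rfl⟩))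
  · intro x hx
    have hxR : x ∈ RR v ga := by
      by_cases h0 : x = 0
      · exact h0 ▸ zero_mem _
      obtain ⟨i, j, u, hu, h1, h3, h4⟩ := factor' hga hπ hdiv hspan h0
      obtain ⟨r, hr⟩ := exists_exact v h0
      have h5 := congrArg v h3
      rw [map_mul, map_mul, h1, hr, mul_one, exact_pow hpi, exact_pow hpi, ← exp_add,
        exp_inj] at h5
      have h6 := (P_iff_of_exact hr).1 hx
      obtain ⟨k, rfl⟩ : ∃ k, j = i + k := ⟨j - i, by omega⟩
      rw [pow_add, mul_assoc, mul_comm x] at h3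
      exact mul_left_cancel₀ h4 h3 ▸ mul_mem (pow_mem hπR k) hu
    have hx1 := RR_le hga hxR
    obtain ⟨b, ⟨m, rfl⟩, h1, h3⟩ := hxR
    have h4 : isZ (red g0 m) = false := by
      by_contra h4
      have h5 := hred m
      rw [ev_isZ ga (red g0 m) (by simpa using h4), sub_zero] at h5
      exact h5.ne h1
    obtain ⟨-, s, hs, h5⟩ := hinv _ ((red_len g0 m).trans hlen).le (red_bit g0 m) h4
    obtain ⟨l, hl⟩ := mul_mem h3 hs
    refine ⟨(red g0 l).map Int.toNat, by simp [red_len, hlen], fun c hc => ?_, lt_P ?_⟩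
    · obtain ⟨k, hk, rfl⟩ := List.mem_map.1 hc
      rcases red_bit g0 l k hk with rfl | rfl <;> simp
    · have h6 : ((red g0 l).map Int.toNat).map (fun c : ℕ => (c : ℤ)) = red g0 l := by
        rw [List.map_map]
        refine (List.map_congr_left fun k hk => ?_).trans (List.map_id _)
        rcases red_bit g0 l k hk with rfl | rfl <;> rfl
      rw [← ev_nat, h6]
      have h7 := v.map_add_lt (small _ _ (hred m) (AA_le hga hs)) h5
      have h8 := v.map_sub_lt (hred l) (small _ _ h7 hx1)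
      rw [← hl] at h8
      convert h8 using 2
      ring

end Pool.Agent.Lib.MP_ab8df0_nt.B
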