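import Pool.Agent.Lib.MP_ab8df0_nt.B.Check
import Pool.Agent.Lib.MP_ab8df0_nt.B.Glob
import Pool.Agent.Lib.MP_ab8df0_nt.B.LocMk

/-! Hypotheses on constants that are checked by computation, and the master theorem. -/

namespace Pool.Agent.Lib.MP_ab8df0_nt.B

open WithZero NumberField IsDedekindDomain

def up (K w : ℕ) : ℕ → ℕ → ℕ
  | 0, _ => 0
  | k + 1, x => x % 2 ^ w + 2 ^ K * up K w k (x >>> w)

/-- a certificate with packed coefficients -/
def ce (s : ℤ) (K w n x : ℕ) : Cert := ⟨s, up K w n x⟩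

abbrev Cs := List (List ℤ × ℕ)

def Cs.at (vs : Cs) (i : ℕ) : List ℤ × ℕ := vs.getD i ([], 1)

section
variable {L : Type*} [Field L]

/-- the constant with index `i` -/
def cval (a : L) (vs : Cs) (i : ℕ) : L := ev a (vs.getD i ([], 1)).1 / ((vs.getD i ([], 1)).2 : L)

/-- variable `0` is the generator, then come the free values, then the constants -/
def mkVal (a : L) (vs : Cs) (fr : List L) (i : ℕ) : L := (a :: fr).getD i (cval a vs i)

end

/-- hypothesis number `i` defines the constant number `i` -/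
def cH (nf : ℕ) (vs : Cs) : List Hyp :=
  (List.range vs.length).map fun i =>
    cond (Nat.blt nf i)
      (cond (Nat.beq (vs.at i).2 1) (.eq i (.pol (vs.at i).1 (.var 0)))
        (.lin i (.num (vs.at i).2) (.pol (vs.at i).1 (.var 0))))
      (.eq i (.var i))

/-- an odd place of degree one where the generator is `r` modulo `p`, and the parities of the
valuations of the generators of the group of square classes -/
structure OD where
  p : ℕ
  r : ℤ
  tab : List Bool

/-- numerical data of a field -/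
structure FD where
  fl : List ℤ
  S : ℕ
  gens : List (List ℤ)
  ds : List Loc
  es : List Expr
  re : List (ℤ × ℤ × ℕ)
  od : List OD

structure Pack (K : Type) [Field K] [NumberField K] (F : FD) (a : K) (pl : List (Place K))
    (ph : List (K →+* ℝ)) (w : List (HeightOneSpectrum (𝓞 K))) : Prop where
  root : a ^ F.fl.length + ev a F.fl = 0
  int : IsIntegral ℤ a
  valid : List.Forall₂ Valid pl F.ds
  gen : List.Forall₂ (fun p e => a = Expr.eval (fun _ => p.ga) e) pl F.es
  ne : ∀ g ∈ F.gens, ev a g ≠ 0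
  su : ∀ x : K, x ≠ 0 → (∀ v : HeightOneSpectrum (𝓞 K), (F.S : 𝓞 K) ∉ v.asIdeal →
    ∃ k : ℤ, v.valuation K x = exp (2 * k)) → Span (F.gens.map (ev a)) x
  re : List.Forall₂ (fun (φ : K →+* ℝ) (r : ℤ × ℤ × ℕ) =>
    0 < r.2.2 ∧ (r.1 : ℝ) / r.2.2 ≤ φ a ∧ φ a ≤ (r.2.1 : ℝ) / r.2.2) ph F.re
  od : List.Forall₂ (fun (v : HeightOneSpectrum (𝓞 K)) (o : OD) =>
    o.p.Prime ∧ v.valuation K (o.p : K) < 1 ∧ v.valuation K (a - (o.r : K)) < 1 ∧
    List.Forall₂ (fun g (s : Bool) => ∃ k : ℤ, v.valuation K (ev a g) = exp (2 * k + cond s 1 0))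
      F.gens o.tab) w F.od

/-- passage to a subgroup: `re` and `od` are the indices of the real and odd places that are used,
`R` has one row for each of them, `A` are the rows that are kept, `C` is the inverse matrix -/
structure Cut where
  re : List ℕ
  od : List ℕ
  R : List (List Bool)
  A : List (List Bool)
  C : List (List Bool)

def sgAt (r : ℤ × ℤ × ℕ) (l : List ℤ) : Option Bool := sgnPol r.1 r.2.1 r.2.2 l

def allSome {α : Type} : List (Option α) → Option (List α)
  | [] => some []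
  | none :: _ => none
  | some x :: l => (allSome l).map fun r => x :: r

/-- the tables of the characters that are used -/
def Cut.tabs (F : FD) (c : Cut) : Option (List (List Bool)) :=
  allSome (c.re.map (fun i => F.re[i]?.bind fun r => allSome (F.gens.map (sgAt r))) ++
    c.od.map (fun i => F.od[i]?.map OD.tab))

def tri (A : List (List Bool)) : List (List Bool) → List (List Bool) → Bool
  | [], [] => true
  | s :: ss, r :: rs => sgnSel s r && (rs ++ A).all (fun x => !(sgnSel s x)) && tri A ss rs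
  | _, _ => false

/-- the product of the selected variables, starting with index `i` -/
def prodE : ℕ → List Bool → Expr
  | _, [] => .num 1
  | i, true :: s => .mul (.var i) (prodE (i + 1) s)
  | i, false :: s => prodE (i + 1) s

def isC (nf : ℕ) (vs : Cs) (i : ℕ) : Bool := Nat.blt nf i && Nat.blt 0 (vs.at i).2

def rowsOk (F : FD) (nf : ℕ) (vs : Cs) : List ℕ → List (List Bool) → Bool
  | [], [] => true
  | i :: g, s :: A => isC nf vs i && Nat.beq s.length F.gens.length &&
      exZero F.fl (vs.at i :: F.gens.map fun l => (l, 1)) (sub' (.var 0) (prodE 1 s)) &&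
      rowsOk F nf vs g A
  | _, _ => false

def cutOk (F : FD) (nf : ℕ) (vs : Cs) (c : Cut) (g : List ℕ) : Bool :=
  rebaseOk F.gens.length (c.R ++ c.A) c.C && rowsOk F nf vs g c.A &&
    match c.tabs F with
    | some T => tri c.A T c.R
    | none => false

/-- value of a polynomial at an integer -/
def evZ (r : ℤ) : List ℤ → ℤ
  | [] => 0
  | c :: l => c + r * evZ r l

/-- one side of the descent: the curve has coefficients `a`, `b`; `bo` is the second coefficient
of the other curve; `bi` is the inverse of `b`; all denominators divide `S ^ j` -/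
def sideOk (F : FD) (nf : ℕ) (vs : Cs) (j a b bo : ℕ) (g : List ℕ) (bi : List ℤ × ℕ) (c : Cut) :
    Bool :=
  [(vs.at a).2, (vs.at b).2, bi.2].all (fun d => Nat.blt 0 d && Nat.beq (F.S ^ j % d) 0) &&
  exZero F.fl [vs.at b, bi] (sub' (.mul (.var 0) (.var 1)) (.num 1)) && cutOk F nf vs c g &&
  c.re.all (fun i => match F.re[i]? with
    | some r => (sgAt r (vs.at b).1 == some false &&
        ((vs.at a).1 == [] || sgAt r (vs.at a).1 == some true)) || sgAt r (vs.at bo).1 == some true
    | none => false) &&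
  c.od.all (fun i => match F.od[i]? with
    | some o => (vs.at a).2 % o.p != 0 && (vs.at b).2 % o.p != 0 && evZ o.r (vs.at b).1 % o.p != 0
    | none => false)

/-- hypotheses that are verified by computation -/
inductive AH where
  | ec : EC → ℕ → List ℤ × ℕ → List ℤ × ℕ → Cut → Cut → AH
  | on : EC → Bool → ℕ → ℕ → AH

def AH.hyp : AH → Hyp
  | .ec c _ _ _ _ _ => .ec c
  | .on c sd x y => .on c sd x y

def AH.ok (F : FD) (nf : ℕ) (vs : Cs) : AH → Bool
  | .ec c j bi bi' k k' => [c.a, c.b, c.a', c.b'].all (isC nf vs) &&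
      exZero F.fl vs (.add (.var c.a') (.mul (.num 2) (.var c.a))) &&
      exZero F.fl vs (sub' (.add (.var c.b') (.mul (.num 4) (.var c.b))) (.sq (.var c.a))) &&
      sideOk F nf vs j c.a c.b c.b' c.g bi k && sideOk F nf vs j c.a' c.b' c.b c.g' bi' k'
  | .on c sd x y => [c.A sd, c.Bc sd, x, y].all (isC nf vs) &&
      exZero F.fl vs (sub' (.sq (.var y)) (cub c sd x))

def baseOk (nf : ℕ) (vs : Cs) : Bool :=
  vs.at 0 == ([0, 1], 1) && Nat.blt nf vs.length && vs.all fun x => Nat.blt 0 x.2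

def fullH (nf : ℕ) (vs : Cs) (M : List Hyp) (A : List AH) : List Hyp :=
  cH nf vs ++ (M ++ A.map AH.hyp)

variable {K : Type} [Field K] [NumberField K] {F : FD} {a : K} {pl : List (Place K)}
  {ph : List (K →+* ℝ)} {w : List (HeightOneSpectrum (𝓞 K))}

/-! ### auxiliary facts -/

namespace Au

section
variable {L : Type*} [Field L]

theorem mk_c {a : L} {vs : Cs} {fr : List L} {nf i : ℕ} (hn : fr.length = nf) (h : nf < i) :
    mkVal a vs fr i = cval a vs i := by
  unfold mkVal
  exact List.getD_eq_default _ _ (by simp only [List.length_cons]; omega)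

theorem isC_iff {nf : ℕ} {vs : Cs} {i : ℕ} : isC nf vs i = true ↔ nf < i ∧ 0 < (vs.at i).2 := by
  simp only [isC, Bool.and_eq_true, Nat.blt_eq]

theorem cval_eq (a : L) (vs : Cs) (i : ℕ) :
    cval a vs i = ev a (vs.at i).1 / ((vs.at i).2 : L) := rfl

theorem get₂ {α β : Type*} {R : α → β → Prop} {l : List α} {m : List β} (h : List.Forall₂ R l m)
    {i : ℕ} {y : β} (hy : m[i]? = some y) : ∃ x, l[i]? = some x ∧ R x y := by
  induction h generalizing i with
  | nil => simp at hy
  | cons h1 _ ih =>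
    cases i with
    | zero =>
      obtain rfl := Option.some.inj hy
      exact ⟨_, rfl, h1⟩
    | succ i => exact ih hy

theorem allSome_spec {α : Type} : ∀ {l : List (Option α)} {r : List α}, allSome l = some r →
    l = r.map some
  | [], r, h => by
    obtain rfl := Option.some.inj h
    rfl
  | none :: _, _, h => by cases h
  | some x :: l, r, h => by
    obtain ⟨t, h1, rfl⟩ := Option.map_eq_some_iff.1 h
    rw [allSome_spec h1, List.map_cons]

theorem prodE_eval (val : ℕ → L) : ∀ (gs : List L) (s : List Bool) (i : ℕ), s.length = gs.length →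
    (∀ j x, gs[j]? = some x → val (i + j) = x) → (prodE i s).eval val = prodSel gs s
  | _, [], _, _, _ => by simp [prodE, Expr.eval, prodSel_nil]
  | [], _ :: _, _, h, _ => by simp at h
  | g :: gs, b :: s, i, h, hv => by
    have h1 := prodE_eval val gs s (i + 1) (by simpa using h) fun j x hx => by
      rw [Nat.add_right_comm, Nat.add_assoc]
      exact hv (j + 1) x hx
    have h2 : val i = g := hv 0 g rfl
    cases b
    · simp [prodE, prodSel, h1]
    · simp [prodE, prodSel, Expr.eval, h1, h2]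

theorem val_prodSel (v : Valuation L Gam) {gs : List L} {ss : List Bool}
    (h : List.Forall₂ (fun g (s : Bool) => ∃ k : ℤ, v g = exp (2 * k + cond s 1 0)) gs ss)
    (sel : List Bool) : ∃ k : ℤ, v (prodSel gs sel) = exp (2 * k + cond (sgnSel ss sel) 1 0) := by
  induction h generalizing sel with
  | nil => exact ⟨0, by simp [sgnSel, prodSel]⟩
  | @cons g s gs ss h1 _ ih =>
    rcases sel with _ | ⟨b, sel⟩
    · exact ⟨0, by simp [sgnSel, prodSel]⟩
    · obtain ⟨k, hk⟩ := ih sel
      obtain ⟨j, hj⟩ := h1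
      rw [sgnSel, prodSel, map_mul, hk]
      generalize sgnSel ss sel = t
      cases b
      · exact ⟨k, by simp⟩
      · rw [if_pos rfl, hj, ← exp_add]
        cases s <;> cases t
        · exact ⟨j + k, by rw [exp_inj]; simp; ring⟩
        · exact ⟨j + k, by rw [exp_inj]; simp; ring⟩
        · exact ⟨j + k, by rw [exp_inj]; simp; ring⟩
        · exact ⟨j + k + 1, by rw [exp_inj]; simp; ring⟩

/-- the table `s` comes from a character that is trivial on `x` -/
def Chr (gs : List L) (x : L) (s : List Bool) : Prop :=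
  ∀ (r : List Bool) (B : List (List Bool)), sgnSel s r = true → (∀ y ∈ B, sgnSel s y = false) →
    Span (prodSel gs r :: B.map (prodSel gs)) x → Span (B.map (prodSel gs)) x

theorem chr_sign (φ : L →+* ℝ) {gs : List L} {s : List Bool}
    (h : List.Forall₂ (fun g s => if s = true then φ g < 0 else 0 < φ g) gs s) {x : L}
    (hx : 0 < φ x) : Chr gs x s := by
  intro r B h1 h2 h3
  refine Span.cut_sign φ ?_ (fun t ht => ?_) h3 hx
  · simpa [h1] using sign_prodSel φ h r
  · obtain ⟨y, hy, rfl⟩ := List.mem_map.1 ht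
    simpa [h2 y hy] using sign_prodSel φ h y

theorem chr_val (v : Valuation L Gam) {gs : List L} {s : List Bool}
    (h : List.Forall₂ (fun g (s : Bool) => ∃ k : ℤ, v g = exp (2 * k + cond s 1 0)) gs s) {x : L}
    (hx : ∃ k : ℤ, v x = exp (2 * k)) : Chr gs x s := by
  intro r B h1 h2 h3
  refine Span.cut_val v ?_ (fun t ht => ?_) h3 hx
  · have := val_prodSel v h r
    rwa [h1] at this
  · obtain ⟨y, hy, rfl⟩ := List.mem_map.1 ht
    have := val_prodSel v h y
    rw [h2 y hy] at this
    simpa only [cond_false, add_zero] using this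

theorem tri_sound {gs : List L} {x : L} (A : List (List Bool)) :
    ∀ (T R : List (List Bool)), (∀ s ∈ T, Chr gs x s) → tri A T R = true →
      Span ((R ++ A).map (prodSel gs)) x → Span (A.map (prodSel gs)) x
  | [], [], _, _, h => h
  | [], _ :: _, _, h, _ => by cases h
  | _ :: _, [], _, h, _ => by cases h
  | s :: ss, r :: rs, hT, h, hx => by
    simp only [tri, Bool.and_eq_true, List.all_eq_true, Bool.not_eq_true'] at h
    exact tri_sound A ss rs (fun t ht => hT t (List.mem_cons_of_mem _ ht)) h.2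
      (hT s List.mem_cons_self r (rs ++ A) h.1.1 h.1.2 hx)

theorem lt_mul (v : Valuation L Gam) {x y : L} (hx : v x < 1) (hy : v y ≤ 1) : v (x * y) < 1 := by
  rw [map_mul]
  exact (mul_le_of_le_one_right' hy).trans_lt hx

theorem int_le (v : Valuation L Gam) (z : ℤ) : v (z : L) ≤ 1 := by simpa [P] using P.int v z

theorem int_unit (v : Valuation L Gam) {p : ℕ} (hp : p.Prime) (hv : v (p : L) < 1) {z : ℤ}
    (hz : z % p ≠ 0) : v (z : L) = 1 := by
  refine le_antisymm (int_le v z) (not_lt.1 fun h => ?_)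
  have h1 : IsCoprime (p : ℤ) z :=
    ((Nat.prime_iff_prime_int.1 hp).irreducible.coprime_iff_not_dvd).2 fun h2 =>
      hz (Int.emod_eq_zero_of_dvd h2)
  obtain ⟨s, t, h2⟩ := h1
  have h3 := congrArg (Int.cast : ℤ → L) h2
  push_cast at h3
  have h4 := v.map_add_lt (lt_mul v hv (int_le v s)) (lt_mul v h (int_le v t))
  rw [mul_comm, mul_comm (z : L), h3, map_one] at h4
  exact lt_irrefl _ h4

theorem ev_sub (v : Valuation L Gam) {a : L} {r : ℤ} (ha : v a ≤ 1) (hr : v (a - (r : L)) < 1) :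
    ∀ l : List ℤ, v (ev a l - (evZ r l : L)) < 1
  | [] => by simp [ev, evZ]
  | c :: l => by
    have h := v.map_add_lt (lt_mul v (ev_sub v ha hr l) ha) (lt_mul v hr (int_le v (evZ r l)))
    rw [ev, evZ]
    convert h using 2
    push_cast
    ring

theorem unit_of_mul (v : Valuation L Gam) {x y : L} (hx : v x ≤ 1) (hy : v y ≤ 1)
    (h : v (x * y) = 1) : v x = 1 := by
  rw [map_mul] at h
  exact le_antisymm hx (h.ge.trans (mul_le_of_le_one_right' hy))

theorem sgn_div (φ : L →+* ℝ) {x : L} {d : ℕ} (hd : 0 < d) {s : Bool}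
    (h : if s = true then φ x < 0 else 0 < φ x) :
    if s = true then φ (x / (d : L)) < 0 else 0 < φ (x / (d : L)) := by
  have h1 : (0 : ℝ) < d := by exact_mod_cast hd
  rw [map_div₀, map_natCast]
  cases s
  · exact div_pos h h1
  · exact div_neg_of_neg_of_pos h h1

end

end Au

open Au

/-- a polynomial relation between constants -/
theorem Pack.rel (hP : Pack K F a pl ph w) (vs : Cs) (e : Expr) (h : exZero F.fl vs e = true) :
    e.eval (cval a vs) = 0 := exZero_sound hP.root h

/-- a constant with a known inverse is not zero -/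
theorem Pack.cne (hP : Pack K F a pl ph w) (vs : Cs) (i : ℕ) (bi : List ℤ × ℕ)
    (h : exZero F.fl [vs.at i, bi] (sub' (.mul (.var 0) (.var 1)) (.num 1)) = true) :
    cval a vs i ≠ 0 := by
  intro h0
  have h1 := hP.rel _ _ h
  have h2 : cval a [vs.at i, bi] 0 = cval a vs i := rfl
  simp [sub', Expr.eval, h2, h0] at h1

theorem Pack.sgn0 (hP : Pack K F a pl ph w) {j : ℕ} {r : ℤ × ℤ × ℕ} (hr : F.re[j]? = some r)
    {φ : K →+* ℝ} (hφ : ph[j]? = some φ) {l : List ℤ} {s : Bool} (h : sgAt r l = some s) :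
    if s = true then φ (ev a l) < 0 else 0 < φ (ev a l) := by
  obtain ⟨ψ, h1, h2, h3, h4⟩ := get₂ hP.re hr
  obtain rfl : ψ = φ := Option.some.inj (h1.symm.trans hφ)
  exact sgnPol_sound ψ h2 h3 h4 h

/-- the sign of a constant at a real place -/
theorem Pack.sgn (hP : Pack K F a pl ph w) (vs : Cs) (i j : ℕ) (s : Bool)
    (h : (Nat.blt 0 (vs.at i).2 && (F.re[j]?.bind fun r => sgAt r (vs.at i).1) == some s) = true)
    {φ : K →+* ℝ} (hφ : ph[j]? = some φ) :
    if s = true then φ (cval a vs i) < 0 else 0 < φ (cval a vs i) := by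
  simp only [Bool.and_eq_true, Nat.blt_eq, beq_iff_eq] at h
  obtain ⟨r, h1, h2⟩ := Option.bind_eq_some_iff.1 h.2
  exact sgn_div φ h.1 (hP.sgn0 h1 hφ h2)

theorem Pack.int0 (hP : Pack K F a pl ph w) (l : List ℤ) {d j : ℕ} (h : F.S ^ j % d = 0)
    (v : HeightOneSpectrum (𝓞 K)) (hv : (F.S : 𝓞 K) ∉ v.asIdeal) :
    v.valuation K (ev a l / (d : K)) ≤ 1 := by
  obtain ⟨m, hm⟩ := Nat.dvd_of_mod_eq_zero h
  have h1 : v.valuation K ((d : K) * (m : K)) = 1 := by
    rw [← Nat.cast_mul, ← hm, Nat.cast_pow, map_pow, val_nat_eq_one v hv, one_pow]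
  have h2 := unit_of_mul _ (by simpa using int_le (v.valuation K) d)
    (by simpa using int_le (v.valuation K) m) h1
  rw [map_div₀, h2, div_one]
  exact ev_le_one _ (val_le_one_of_integral v hP.int) l

/-- a constant is integral outside `S` -/
theorem Pack.cint (hP : Pack K F a pl ph w) (vs : Cs) (i j : ℕ)
    (h : (Nat.blt 0 (vs.at i).2 && Nat.beq (F.S ^ j % (vs.at i).2) 0) = true)
    (v : HeightOneSpectrum (𝓞 K)) (hv : (F.S : 𝓞 K) ∉ v.asIdeal) :
    v.valuation K (cval a vs i) ≤ 1 := by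
  simp only [Bool.and_eq_true, Nat.beq_eq] at h
  exact hP.int0 _ h.2 v hv

/-- a constant is a unit outside `S` -/
theorem Pack.cunit (hP : Pack K F a pl ph w) (vs : Cs) (i j : ℕ) (bi : List ℤ × ℕ)
    (h : ([(vs.at i).2, bi.2].all (fun d => Nat.blt 0 d && Nat.beq (F.S ^ j % d) 0) &&
      exZero F.fl [vs.at i, bi] (sub' (.mul (.var 0) (.var 1)) (.num 1))) = true)
    (v : HeightOneSpectrum (𝓞 K)) (hv : (F.S : 𝓞 K) ∉ v.asIdeal) :
    v.valuation K (cval a vs i) = 1 := by
  simp only [Bool.and_eq_true, List.all_cons, List.all_nil, Nat.beq_eq, and_true] at h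
  obtain ⟨⟨⟨-, h1⟩, -, h2⟩, h3⟩ := h
  have h4 : cval a vs i * (ev a bi.1 / (bi.2 : K)) + -((1 : ℤ) : K) = 0 := hP.rel _ _ h3
  refine unit_of_mul _ (hP.int0 _ h1 v hv) (hP.int0 bi.1 h2 v hv) ?_
  rw [add_neg_eq_zero.1 h4, Int.cast_one, map_one]

theorem Pack.rows (hP : Pack K F a pl ph w) {nf : ℕ} {vs : Cs} {fr : List K}
    (hn : fr.length = nf) : ∀ (g : List ℕ) (A : List (List Bool)), rowsOk F nf vs g A = true →
      g.map (mkVal a vs fr) = A.map (prodSel (F.gens.map (ev a)))
  | [], [], _ => rfl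
  | [], _ :: _, h => by cases h
  | _ :: _, [], h => by cases h
  | i :: g, s :: A, h => by
    simp only [rowsOk, Bool.and_eq_true, Nat.beq_eq, isC_iff] at h
    obtain ⟨⟨⟨⟨h1, -⟩, h2⟩, h3⟩, h4⟩ := h
    have h5 : cval a vs i + -(prodE 1 s).eval (cval a (vs.at i :: F.gens.map fun l => (l, 1))) = 0 :=
      hP.rel _ _ h3
    rw [prodE_eval _ (F.gens.map (ev a)) s 1 (by simpa using h2) fun j x hx => by
      rw [List.getElem?_map] at hx
      obtain ⟨l, h6, rfl⟩ := Option.map_eq_some_iff.1 hx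
      simp [cval, Nat.add_comm 1 j, h6]] at h5
    rw [List.map_cons, List.map_cons, hP.rows hn g A h4, mk_c hn h1, add_neg_eq_zero.1 h5]

theorem Pack.span_cut (hP : Pack K F a pl ph w) {nf : ℕ} {vs : Cs} {fr : List K}
    (hn : fr.length = nf) (c : Cut) {g : List ℕ} (hc : cutOk F nf vs c g = true) {x : K}
    (hx : x ≠ 0)
    (hS : ∀ v : HeightOneSpectrum (𝓞 K), (F.S : 𝓞 K) ∉ v.asIdeal →
      ∃ k : ℤ, v.valuation K x = exp (2 * k))
    (hre : ∀ i ∈ c.re, ∀ φ, ph[i]? = some φ → 0 < φ x)
    (hod : ∀ i ∈ c.od, ∀ v, w[i]? = some v → ∃ k : ℤ, v.valuation K x = exp (2 * k)) :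
    Span (g.map (mkVal a vs fr)) x := by
  unfold cutOk at hc
  simp only [Bool.and_eq_true] at hc
  obtain ⟨⟨h1, h2⟩, h3⟩ := hc
  split at h3
  · rename_i T hT
    rw [hP.rows hn g c.A h2]
    refine tri_sound c.A T c.R (fun s hs => ?_) h3 (Span.rebase (C := c.C) (fun g hg => ?_)
      (by rwa [List.length_map]) (hP.su x hx hS))
    · have h4 : some s ∈ T.map some := List.mem_map_of_mem hs
      rw [← allSome_spec hT, List.mem_append, List.mem_map, List.mem_map] at h4
      rcases h4 with ⟨i, hi, h4⟩ | ⟨i, hi, h4⟩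
      · obtain ⟨r, h5, h6⟩ := Option.bind_eq_some_iff.1 h4
        obtain ⟨φ, h7, -⟩ := get₂ hP.re h5
        refine chr_sign φ ?_ (hre i hi φ h7)
        have h8 := allSome_spec h6
        rw [← List.forall₂_eq_eq_eq, List.forall₂_map_left_iff, List.forall₂_map_right_iff] at h8
        rw [List.forall₂_map_left_iff]
        exact h8.imp fun l b hb => hP.sgn0 h5 h7 hb
      · obtain ⟨o, h5, rfl⟩ := Option.map_eq_some_iff.1 h4
        obtain ⟨v, h7, -, -, -, h8⟩ := get₂ hP.od h5
        refine chr_val (v.valuation K) ?_ (hod i hi v h7)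
        rwa [List.forall₂_map_left_iff]
    · obtain ⟨l, hl, rfl⟩ := List.mem_map.1 hg
      exact hP.ne l hl
  · cases h3

theorem Pack.side (hP : Pack K F a pl ph w) {nf : ℕ} {vs : Cs} {fr : List K}
    (hn : fr.length = nf) {j x y yo : ℕ} {g : List ℕ} {bi : List ℤ × ℕ} {c : Cut}
    (h : sideOk F nf vs j x y yo g bi c = true) (h0 : 0 < (vs.at yo).2)
    (ho : ∀ φ : K →+* ℝ, φ (cval a vs yo) < 0 → φ (cval a vs x) ^ 2 < 4 * φ (cval a vs y)) :
    Desc (cval a vs x) (cval a vs y) (g.map (mkVal a vs fr)) := by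
  unfold sideOk at h
  simp only [Bool.and_eq_true, List.all_cons, List.all_nil, Nat.beq_eq, and_true, Nat.blt_eq,
    List.all_eq_true] at h
  obtain ⟨⟨⟨⟨⟨⟨a1, a2⟩, ⟨b1, b2⟩, c1, c2⟩, h1⟩, h2⟩, h3⟩, h4⟩ := h
  intro s t hs hst
  refine hP.span_cut hn c h2 hs (fun v hv => on_even _ (hP.int0 _ a2 v hv) ?_ hs hst)
    (fun i hi φ hφ => on_pos φ ?_ hs hst) fun i hi v hv => ?_
  · refine hP.cunit vs y j bi ?_ v hv
    simp only [Bool.and_eq_true, List.all_cons, List.all_nil, Nat.beq_eq, and_true, Nat.blt_eq]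
    exact ⟨⟨⟨b1, b2⟩, c1, c2⟩, h1⟩
  · have h5 := h3 i hi
    split at h5
    · rename_i r hr
      simp only [Bool.and_eq_true, Bool.or_eq_true, beq_iff_eq] at h5
      rcases h5 with ⟨h5, h6⟩ | h5
      · refine Or.inl ⟨sgn_div φ b1 (hP.sgn0 hr hφ h5), ?_⟩
        rcases h6 with h6 | h6
        · simp [cval_eq, h6, ev]
        · exact le_of_lt (sgn_div φ a1 (hP.sgn0 hr hφ h6))
      · exact Or.inr (ho φ (sgn_div φ h0 (hP.sgn0 hr hφ h5)))
    · cases h5
  · have h5 := h4 i hi
    split at h5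
    · rename_i o hr
      simp only [Bool.and_eq_true, bne_iff_ne] at h5
      obtain ⟨⟨h5, h6⟩, h7⟩ := h5
      obtain ⟨u, h8, hp, hv1, hv2, -⟩ := get₂ hP.od hr
      obtain rfl : u = v := Option.some.inj (h8.symm.trans hv)
      have ha := val_le_one_of_integral u hP.int
      have k : ∀ d : ℕ, d % o.p ≠ 0 → u.valuation K (d : K) = 1 := fun d hd => by
        simpa using int_unit (u.valuation K) hp hv1 (z := d) (by exact_mod_cast hd)
      refine on_even _ ?_ ?_ hs hst
      · rw [cval_eq, map_div₀, k _ h5, div_one]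
        exact ev_le_one _ ha _
      · have h9 := int_unit (u.valuation K) hp hv1 h7
        have h10 := (u.valuation K).map_add_eq_of_lt_left (x := (evZ o.r (vs.at y).1 : K))
          (h9 ▸ ev_sub _ ha hv2 (vs.at y).1)
        rw [add_sub_cancel, h9] at h10
        rw [cval_eq, map_div₀, k _ h6, div_one, h10]
    · cases h5

theorem Pack.ah (hP : Pack K F a pl ph w) {nf : ℕ} {vs : Cs} {fr : List K}
    (hn : fr.length = nf) {G : Prop} (x : AH) (h : x.ok F nf vs = true) :
    x.hyp.holds pl G (mkVal a vs fr) := by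
  cases x with
  | ec c j bi bi' k k' =>
    simp only [AH.ok, Bool.and_eq_true, List.all_cons, List.all_nil, and_true, isC_iff] at h
    obtain ⟨⟨⟨⟨⟨⟨a1, -⟩, ⟨b1, b2⟩, ⟨c1, -⟩, d1, d2⟩, h1⟩, h2⟩, h3⟩, h4⟩ := h
    have e1 := hP.rel _ _ h1
    have e2 := hP.rel _ _ h2
    simp only [sub', Expr.eval, Int.cast_ofNat] at e1 e2
    have f1 : cval a vs c.a' = -2 * cval a vs c.a := by linear_combination e1
    have f2 : cval a vs c.b' = cval a vs c.a ^ 2 - 4 * cval a vs c.b := by linear_combination e2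
    simp only [AH.hyp, Hyp.holds, mk_c hn a1, mk_c hn b1, mk_c hn c1, mk_c hn d1]
    refine ⟨f1, f2, hP.side hn h3 d2 fun φ hφ => ?_, hP.side hn h4 b2 fun φ hφ => ?_⟩
    · rw [f2, map_sub, map_mul, map_pow, map_ofNat] at hφ
      linarith
    · rw [f1, f2, map_sub, map_mul, map_mul, map_pow, map_neg, map_ofNat, map_ofNat]
      linarith
  | on c sd x y =>
    simp only [AH.ok, Bool.and_eq_true, List.all_cons, List.all_nil, and_true, isC_iff] at h
    obtain ⟨⟨⟨a1, -⟩, ⟨b1, -⟩, ⟨c1, -⟩, d1, -⟩, h1⟩ := h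
    have e1 := hP.rel _ _ h1
    simp only [sub', cub, Expr.eval] at e1
    simp only [AH.hyp, Hyp.holds, On, mk_c hn a1, mk_c hn b1, mk_c hn c1, mk_c hn d1]
    linear_combination e1

theorem Pack.master (hP : Pack K F a pl ph w) {nf : ℕ} {vs : Cs} {fr : List K}
    (hn : fr.length = nf) {M : List Hyp} {A : List AH} {cs : List (List Cert)} {t : Tree} {G : Prop}
    (hA : (baseOk nf vs && A.all (AH.ok F nf vs)) = true)
    (hr : run F.ds F.es cs vs.length (fullH nf vs M A) t = true)
    (hM : ∀ h ∈ M, h.holds pl G (mkVal a vs fr)) : G := by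
  simp only [baseOk, Bool.and_eq_true, List.all_eq_true, Nat.blt_eq] at hA
  obtain ⟨⟨-, h1⟩, h2⟩ := hA
  refine run_sound (val := mkVal a vs fr) hP.valid hP.gen (fun h hh => ?_) hr
  simp only [fullH, List.mem_append] at hh
  rcases hh with hh | hh | hh
  · obtain ⟨i, hi, rfl⟩ := List.mem_map.1 hh
    have h0 : mkVal a vs fr 0 = a := rfl
    cases h3 : Nat.blt nf i
    · exact rfl
    · have h4 := mk_c (a := a) (vs := vs) hn (Nat.blt_eq.mp h3)
      have h5 : 0 < (vs.at i).2 := by
        refine h1 _ ?_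
        rw [Cs.at, List.getD_eq_getElem _ _ (List.mem_range.1 hi)]
        exact List.getElem_mem _
      cases h6 : Nat.beq (vs.at i).2 1
      · simp only [cond_true, cond_false, Hyp.holds, Expr.eval, h0, h4, cval_eq, Int.cast_natCast]
        exact mul_div_cancel₀ _ (Nat.cast_ne_zero.2 h5.ne')
      · simp only [cond_true, Hyp.holds, Expr.eval, h0, h4, cval_eq, Nat.eq_of_beq_eq_true h6,
          Nat.cast_one, div_one]
  · exact hM h hh
  · obtain ⟨x, hx, rfl⟩ := List.mem_map.1 hh
    exact hP.ah hn x (h2 x hx)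

/-! ### discs -/

section
variable {L : Type*} [Field L] [CharZero L]

theorem Q2.split {k : ℕ} {x : L} {t : ℤ} (h : Q2 k (x - (t : L))) :
    Q2 (k + 1) (x - (t : L)) ∨ Q2 (k + 1) (x - ((t + 2 ^ k : ℤ) : L)) := Ck.q2_split h

/-- a quotient of integers with odd denominator -/
theorem Q2.of_div {y z t : ℤ} {k : ℕ} (hz : Odd z) (h : (2 : ℤ) ^ k ∣ y - t * z) :
    Q2 k ((y : L) / (z : L) - (t : L)) := by
  obtain ⟨c, hc⟩ := h
  have h0 : (z : L) ≠ 0 := Int.cast_ne_zero.2 fun h0 => by simp [h0] at hz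
  have h1 := congrArg (Int.cast : ℤ → L) hc
  push_cast at h1
  exact ⟨c, z, hz, by rw [sub_mul, div_mul_cancel₀ _ h0, h1]⟩

end

end Pool.Agent.Lib.MP_ab8df0_nt.B
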