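import Pool.Agent.Lib.MP_ab8df0_nt.B.Auto

/-! Covering by discs and small lemmas for the hypotheses that are proved by hand. -/

namespace Pool.Agent.Lib.MP_ab8df0_nt.B

open WithZero NumberField IsDedekindDomain

def covers : ℕ → ℤ → ℕ → List (ℤ × ℕ) → Bool
  | 0, t, k, l => l.contains (t, k)
  | f + 1, t, k, l => l.contains (t, k) ||
      (covers f t (k + 1) l && covers f (t + 2 ^ k) (k + 1) l)

theorem covers_sound {L : Type*} [Field L] {x : L} {l : List (ℤ × ℕ)} :
    ∀ (f : ℕ) (t : ℤ) (k : ℕ), covers f t k l = true → Q2 k (x - (t : L)) →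
      ∃ d ∈ l, Q2 d.2 (x - (d.1 : L))
  | 0, t, k, h, hx => ⟨(t, k), List.contains_iff_mem.1 h, hx⟩
  | f + 1, t, k, h, hx => by
    rw [covers, Bool.or_eq_true, Bool.and_eq_true] at h
    rcases h with h | h
    · exact ⟨(t, k), List.contains_iff_mem.1 h, hx⟩
    · exact (Ck.q2_split hx).elim (covers_sound f _ _ h.1) (covers_sound f _ _ h.2)

variable {K : Type} [Field K] [NumberField K] {F : FD} {a : K} {pl : List (Place K)}
  {ph : List (K →+* ℝ)} {w : List (HeightOneSpectrum (𝓞 K))}

theorem Pack.cover (hP : Pack K F a pl ph w) {nf : ℕ} {vs : Cs} {fr : List K}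
    (hn : fr.length = nf) {M : ℤ → ℕ → List Hyp} {A : List AH} {cs : List (List Cert)} {G : Prop}
    {l : List (ℤ × ℕ)} {t0 : ℤ} {k0 : ℕ} {x : K}
    (hA : (baseOk nf vs && A.all (AH.ok F nf vs)) = true) (hc : covers 40 t0 k0 l = true)
    (hr : ∀ d ∈ l, ∃ t, run F.ds F.es cs vs.length (fullH nf vs (M d.1 d.2) A) t = true)
    (hx : Q2 k0 (x - (t0 : K)))
    (hM : ∀ (t : ℤ) (k : ℕ), Q2 k (x - (t : K)) → ∀ h ∈ M t k, h.holds pl G (mkVal a vs fr)) : G := by
  obtain ⟨d, hd, h1⟩ := covers_sound _ _ _ hc hx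
  obtain ⟨t, ht⟩ := hr d hd
  exact hP.master hn hA ht (hM _ _ h1)

section
variable {L : Type*} [Field L]

theorem span_of_sq {x y : L} (h : y ^ 2 = x) (hx : x ≠ 0) : Span [] x :=
  h ▸ Span.sq [] fun h0 => hx (by rw [← h, h0, zero_pow two_ne_zero])

theorem span_of_isSquare {x : L} (h : IsSquare x) (hx : x ≠ 0) : Span [] x := by
  obtain ⟨y, hy⟩ := h
  exact span_of_sq (y := y) (by rw [hy, pow_two]) hx

/-- divided differences of square roots -/
theorem dd_sq {X X0 E E0 d dE : L} (hd : d ≠ 0) (h : X ^ 2 = E) (h0 : X0 ^ 2 = E0)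
    (hE : E - E0 = d * dE) : (X + X0) * ((X - X0) / d) = dE := by
  rw [← mul_div_assoc, div_eq_iff hd]
  linear_combination h - h0 + hE

/-- the product of the selected constants -/
theorem prodSel_map (val : ℕ → L) (g : List ℕ) (s : List Bool) :
    prodSel (g.map val) s = (((g.zip s).filter fun p => p.2).map fun p => val p.1).prod := by
  induction g generalizing s with
  | nil => simp [prodSel]
  | cons i g ih =>
    rcases s with _ | ⟨b, s⟩
    · simp [prodSel]
    · cases b <;> simp [prodSel, ih s]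

end

/-- the product of the selected constants is a constant times a square -/
theorem Pack.out (hP : Pack K F a pl ph w) {nf : ℕ} {vs : Cs} {fr : List K} (hn : fr.length = nf)
    {g : List ℕ} {s : List Bool} (dl u : List ℤ × ℕ)
    (h : (g.all (isC nf vs) && Nat.beq s.length g.length && Nat.blt 0 dl.2 && Nat.blt 0 u.2 &&
      exZero F.fl (dl :: u :: g.map vs.at)
        (sub' (.var 0) (.mul (.sq (.var 1)) (prodE 2 s)))) = true) {x : K}
    (hx : IsSquare (x * prodSel (g.map (mkVal a vs fr)) s)) :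
    IsSquare (x * (ev a dl.1 / (dl.2 : K))) := by
  simp only [Bool.and_eq_true, List.all_eq_true, Nat.beq_eq, Au.isC_iff] at h
  obtain ⟨⟨⟨⟨h1, h2⟩, -⟩, -⟩, h3⟩ := h
  have h4 : ev a dl.1 / (dl.2 : K) + -((ev a u.1 / (u.2 : K)) ^ 2 *
      (prodE 2 s).eval (cval a (dl :: u :: g.map vs.at))) = 0 := hP.rel _ _ h3
  rw [Au.prodE_eval _ (g.map (mkVal a vs fr)) s 2 (by simpa using h2) fun j y hy => by
    rw [List.getElem?_map] at hy
    obtain ⟨i, h5, rfl⟩ := Option.map_eq_some_iff.1 hy
    rw [Au.mk_c hn (h1 i (List.mem_of_getElem? h5)).1, Au.cval_eq a vs]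
    simp [cval, Nat.add_comm 2 j, h5]] at h4
  obtain ⟨r, hr⟩ := hx
  exact ⟨r * (ev a u.1 / (u.2 : K)), by
    linear_combination x * h4 + (ev a u.1 / (u.2 : K)) ^ 2 * hr⟩

/-- reordering or dropping places -/
def FD.pick (F : FD) (ix : List ℕ) : FD :=
  { F with ds := ix.filterMap (fun i => F.ds[i]?), es := ix.filterMap (fun i => F.es[i]?) }

theorem forall₂_pick {α β : Type*} {R : α → β → Prop} {l : List α} {m : List β}
    (h : List.Forall₂ R l m) (ix : List ℕ) :
    List.Forall₂ R (ix.filterMap fun i => l[i]?) (ix.filterMap fun i => m[i]?) := by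
  induction ix with
  | nil => exact List.Forall₂.nil
  | cons i ix ih =>
    cases hm : m[i]? with
    | none =>
      have hl : l[i]? = none := by
        rw [List.getElem?_eq_none_iff] at hm ⊢
        rwa [h.length_eq]
      rwa [List.filterMap_cons_none hl, List.filterMap_cons_none hm]
    | some y =>
      obtain ⟨x, hl, hx⟩ := Au.get₂ h hm
      rw [List.filterMap_cons_some hl, List.filterMap_cons_some hm]
      exact List.Forall₂.cons hx ih

theorem Pack.pick (hP : Pack K F a pl ph w) (ix : List ℕ) :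
    Pack K (F.pick ix) a (ix.filterMap (fun i => pl[i]?)) ph w :=
  ⟨hP.root, hP.int, forall₂_pick hP.valid ix, forall₂_pick hP.gen ix, hP.ne, hP.su, hP.re, hP.od⟩

end Pool.Agent.Lib.MP_ab8df0_nt.B
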