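import Pool.Agent.Lib.MP_ab8df0_nt.B.Deep

/-! Passing to an odd multiple of a point deep in the formal group. -/

namespace Pool.Agent.Lib.MP_ab8df0_nt.B

open WithZero

variable {L : Type*} [Field L]

namespace Scale

/-- the curve in the coordinates at the origin -/
def Cv (a b z w : L) : Prop := w = z ^ 3 + a * z ^ 2 * w + b * z * w ^ 2

theorem add_alg {a b z1 w1 z2 w2 lam E : L} (h1 : Cv a b z1 w1) (h2 : Cv a b z2 w2)
    (hD : 1 + -(a * z2 ^ 2 + b * z2 * (w1 + w2)) ≠ 0)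
    (hl : lam * (1 + -(a * z2 ^ 2 + b * z2 * (w1 + w2))) =
      z1 ^ 2 + z1 * z2 + z2 ^ 2 + a * w1 * (z1 + z2) + b * w1 ^ 2)
    (hE : E * (1 + (a * lam + b * lam ^ 2)) =
      a * (w1 - lam * z1) + 2 * (b * lam * (w1 - lam * z1))) :
    Cv a b (z1 + z2 + E) (lam * (z1 + z2 + E) - (w1 - lam * z1)) := by
  unfold Cv at *
  have h3 : w2 = w1 + lam * (z2 - z1) := by
    apply mul_right_cancel₀ hD
    linear_combination h2 - h1 - (z2 - z1) * hl
  obtain ⟨nu, rfl⟩ : ∃ nu, w1 = nu + lam * z1 := ⟨w1 - lam * z1, by ring⟩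
  subst h3
  linear_combination (-1 : L) * h1 + (z1 + z2 + E + z1) * hl -
    (z1 + z2 + E + z1) * (z1 + z2 + E + z2) * hE

section Local

variable {v : Valuation L Gam} {al la lb g : ℤ} {a b z1 w1 z2 w2 : L}

theorem den_small (ha : P v la a) (hb : P v lb b) (h1 : 0 < 2 * al + la) (h2 : 0 < 4 * al + lb)
    (hw1 : P v (3 * al) w1) (hz2 : P v al z2) (hw2 : P v (3 * al) w2) :
    P v 1 (-(a * z2 ^ 2 + b * z2 * (w1 + w2))) :=
  (((ha.mul (hz2.pow 2)).mono (by push_cast; omega)).add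
    (((hb.mul hz2).mul (hw1.add hw2)).mono (by omega))).neg

theorem lam_small (ha : P v la a) (hb : P v lb b) (h1 : 0 < 2 * al + la) (h2 : 0 < 4 * al + lb)
    (hz1 : P v al z1) (hw1 : P v (3 * al) w1) (hz2 : P v al z2) (hw2 : P v (3 * al) w2) :
    P v (2 * al) ((z1 ^ 2 + z1 * z2 + z2 ^ 2 + a * w1 * (z1 + z2) + b * w1 ^ 2) *
      (1 + -(a * z2 ^ 2 + b * z2 * (w1 + w2)))⁻¹) :=
  P.mul0 ((((((hz1.pow 2).mono (by push_cast; omega)).add ((hz1.mul hz2).mono (by omega))).add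
    ((hz2.pow 2).mono (by push_cast; omega))).add
    (((ha.mul hw1).mul (hz1.add hz2)).mono (by omega))).add
    ((hb.mul (hw1.pow 2)).mono (by push_cast; omega)))
    (P.inv_one_add (den_small ha hb h1 h2 hw1 hz2 hw2))

theorem top_small {lam : L} (ha : P v la a) (hb : P v lb b) (h1 : 0 < 2 * al + la)
    (h2 : 0 < 4 * al + lb) (hl : P v (2 * al) lam) : P v 1 (a * lam + b * lam ^ 2) :=
  ((ha.mul hl).mono (by omega)).add ((hb.mul (hl.pow 2)).mono (by push_cast; omega))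

theorem err_small {lam nu : L} (ha : P v la a) (hb : P v lb b) (h0 : 0 < g) (h1 : g ≤ 2 * al + la)
    (h2 : g ≤ 4 * al + lb) (hl : P v (2 * al) lam) (hn : P v (3 * al) nu) :
    P v (al + g) ((a * nu + 2 * (b * lam * nu)) * (1 + (a * lam + b * lam ^ 2))⁻¹) :=
  P.mul0 (((ha.mul hn).mono (by omega)).add (P.mul0' (by simpa using P.nat v 2)
    (((hb.mul hl).mul hn).mono (by omega))))
    (P.inv_one_add (top_small ha hb (by omega) (by omega) hl))

end Local

theorem multiples {ι : Type*} (S : ι → Prop) (i0 : ι) (hi0 : S i0) (v : ι → Valuation L Gam)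
    (al la lb g : ι → ℤ) {a b z w : L}
    (hS : ∀ i, S i → P (v i) (la i) a ∧ P (v i) (lb i) b ∧ 0 < g i ∧ g i ≤ 2 * al i + la i ∧
      g i ≤ 4 * al i + lb i ∧ P (v i) (al i) z ∧ P (v i) (3 * al i) w) (h : Cv a b z w) (m : ℕ) :
    ∃ z' w', Cv a b z' w' ∧ ∀ i, S i → P (v i) (al i) z' ∧ P (v i) (3 * al i) w' ∧
      P (v i) (al i + g i) (z' - m * z) := by
  induction m with
  | zero => exact ⟨0, 0, by simp [Cv], fun i _ => ⟨P.zero _ _, P.zero _ _, by simpa using P.zero _ _⟩⟩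
  | succ m ih =>
    obtain ⟨z1, w1, h1, h2⟩ := ih
    obtain ⟨lam, hlam⟩ : ∃ lam, lam = (z1 ^ 2 + z1 * z + z ^ 2 + a * w1 * (z1 + z) + b * w1 ^ 2) *
      (1 + -(a * z ^ 2 + b * z * (w1 + w)))⁻¹ := ⟨_, rfl⟩
    obtain ⟨E, hE⟩ : ∃ E, E = (a * (w1 - lam * z1) + 2 * (b * lam * (w1 - lam * z1))) *
      (1 + (a * lam + b * lam ^ 2))⁻¹ := ⟨_, rfl⟩
    have l1 : ∀ i, S i → P (v i) (2 * al i) lam := fun i hi => by
      obtain ⟨k1, k2, k3, k4, k5, k6, k7⟩ := hS i hi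
      rw [hlam]
      exact lam_small k1 k2 (by omega) (by omega) (h2 i hi).1 (h2 i hi).2.1 k6 k7
    have l2 : ∀ i, S i → P (v i) (3 * al i) (w1 - lam * z1) := fun i hi =>
      (h2 i hi).2.1.sub (((l1 i hi).mul (h2 i hi).1).mono (by omega))
    have l3 : ∀ i, S i → P (v i) (al i + g i) E := fun i hi => by
      obtain ⟨k1, k2, k3, k4, k5, -⟩ := hS i hi
      rw [hE]
      exact err_small k1 k2 k3 k4 k5 (l1 i hi) (l2 i hi)
    obtain ⟨k1, k2, k3, k4, k5, k6, k7⟩ := hS i0 hi0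
    have d1 := ne_of_exact (exact_one_add
      (den_small k1 k2 (by omega) (by omega) (h2 i0 hi0).2.1 k6 k7))
    have d2 := ne_of_exact (exact_one_add (top_small k1 k2 (by omega) (by omega) (l1 i0 hi0)))
    refine ⟨_, _, add_alg (lam := lam) (E := E) h1 h d1 (by rw [hlam, inv_mul_cancel_right₀ d1])
      (by rw [hE, inv_mul_cancel_right₀ d2]), fun i hi => ?_⟩
    obtain ⟨-, -, k3, -, -, k6, -⟩ := hS i hi
    have l4 : P (v i) (al i) (z1 + z + E) :=
      ((h2 i hi).1.add k6).add ((l3 i hi).mono (by omega))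
    exact ⟨l4, (((l1 i hi).mul l4).mono (by omega)).sub (l2 i hi),
      ((h2 i hi).2.2.add (l3 i hi)).congr (by push_cast; ring)⟩

theorem exists_mul {u t : ℤ} (hu : Odd u) (j : ℕ) : ∃ (m : ℕ) (c : ℤ), m * u = t + 2 ^ j * c := by
  have h : IsCoprime u (2 ^ j) := (Int.isCoprime_two_right.2 hu).pow_right
  obtain ⟨s, s', hs⟩ := h
  have h2 : (0 : ℤ) < 2 ^ j := by positivity
  refine ⟨((s * t) % 2 ^ j).toNat, -(s' * t) - s * t / 2 ^ j * u, ?_⟩
  rw [Int.toNat_of_nonneg (Int.emod_nonneg _ h2.ne'), Int.emod_def]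
  linear_combination t * hs

theorem exists_bound (ds : List DP) : ∃ j : ℕ, ∀ d ∈ ds, d.Z.r - d.Z.m ≤ j := by
  induction ds with
  | nil => exact ⟨0, by simp⟩
  | cons d ds ih =>
    obtain ⟨j, hj⟩ := ih
    refine ⟨j + (d.Z.r - d.Z.m).toNat, fun d' hd => ?_⟩
    rcases List.mem_cons.1 hd with rfl | hd
    · omega
    · have := hj d' hd
      omega

end Scale

open Scale DeepAux in
theorem deep_scale [CharZero L] {pl : List (Place L)} {ds : List DP} {a b a1 b1 : L} {k : ℕ}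
    {δ Z x y : L} (hds : List.Forall₂ (DPok a b a1 b1) pl ds)
    (hok : ds.all (fun d => d.ok k) = true) (hok2 : ds.all (fun d => d.ok2 k) = true)
    (hd : Q2odd k δ) (h : DeepPt pl ds a b δ Z x y) :
    ∃ Z1 x1 y1 : L, DeepPt pl ds a b (2 ^ k) Z1 x1 y1 := by
  obtain ⟨hx, hy, hon, hz, hl⟩ := h
  have h2k : (2 : L) ^ k ≠ 0 := pow_ne_zero _ two_ne_zero
  obtain _ | ⟨p0, pl⟩ := pl
  · cases hl
    exact ⟨-x / y / 2 ^ k, x, y, hx, hy, hon, by field_simp, .nil⟩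
  obtain _ | ⟨d0, ds⟩ := ds
  · cases hl
  have i0 : (p0, d0) ∈ (p0 :: pl).zip (d0 :: ds) := by simp
  generalize p0 :: pl = pl at *
  generalize d0 :: ds = ds at *
  obtain ⟨hlen, hds⟩ := List.forall₂_iff_zip.1 hds
  obtain ⟨-, hl⟩ := List.forall₂_iff_zip.1 hl
  have ok : ∀ p d, (p, d) ∈ pl.zip ds → d.Z.exact = true ∧ d.Z.m < d.Z.r ∧ 0 < d.r + d.la ∧
      0 < 2 * d.r + d.lb ∧ d.r ≤ 2 * d.al k ∧ d.Z.r ≤ d.Z.m + 2 * d.al k + d.la ∧
      d.Z.r ≤ d.Z.m + 4 * d.al k + d.lb ∧ d.al k = p.e * k + d.Z.m := fun p d hq => by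
    have hd' := (List.of_mem_zip hq).2
    have k1 := List.all_eq_true.1 hok d hd'
    have k2 := List.all_eq_true.1 hok2 d hd'
    simp only [DP.ok, DP.ok2, Bool.and_eq_true, decide_eq_true_eq] at k1 k2
    have k3 : d.Z.exact = true := by tauto
    have k4 := k3
    simp only [Ball.exact, Bool.and_eq_true, decide_eq_true_eq] at k4
    refine ⟨k3, k4.2, by tauto, by tauto, by tauto, k2.1, k2.2, ?_⟩
    rw [DP.al, (hds hq).1.he, add_comm]
  obtain ⟨j, hj⟩ := exists_bound ds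
  obtain ⟨u, t, hu, ht, hδ⟩ := id hd
  obtain ⟨m, c, hm⟩ := exists_mul (t := t) hu j
  have ht0 : (t : L) ≠ 0 := Int.cast_ne_zero.2 (by rintro rfl; simp at ht)
  obtain ⟨z', w', c1, c2⟩ := multiples (fun q : Place L × DP => q ∈ pl.zip ds) _ i0
    (fun q => q.1.v) (fun q => q.2.al k) (fun q => q.2.la) (fun q => q.2.lb)
    (fun q => q.2.Z.r - q.2.Z.m) (a := a) (b := b) (z := -x / y) (w := -x / y * x⁻¹)
    (fun ⟨p, d⟩ hq => by
      obtain ⟨hV, k1, k2, -⟩ := hds hq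
      obtain ⟨k3, k4⟩ := hl hq
      obtain ⟨o1, o2, o3, o4, o5, o6, o7, o8⟩ := ok p d hq
      have e1 := exact_mul (q2_exact hV hd) (k3.exact hV o1)
      rw [← hz, ← o8] at e1
      have e2 : P p.v 1 (a * x⁻¹ + b * x⁻¹ ^ 2) :=
        ((k1.mul k4).mono (by omega)).add ((k2.mul (k4.pow 2)).mono (by push_cast; omega))
      have e3 := P.of_eq (exact_mul (exact_pow e1 2) (exact_one_add e2))
      rw [← xi_eq hx hy hon] at e3
      exact ⟨k1, k2, by dsimp only; omega, by dsimp only; omega, by dsimp only; omega,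
        P.of_eq e1, ((P.of_eq e1).mul e3).mono (by push_cast; omega)⟩)
    (by
      unfold Cv
      unfold On at hon
      field_simp
      linear_combination (-1 : L) * hon) m
  have hm' : (m : L) * u = t + 2 ^ j * c := by exact_mod_cast congrArg (Int.cast : ℤ → L) hm
  have key : ∀ p d, (p, d) ∈ pl.zip ds → d.Z.mem p d.D (z' / 2 ^ k) ∧
      p.v z' = exp (-d.al k) := fun p d hq => by
    obtain ⟨hV, -⟩ := hds hq
    obtain ⟨k3, -⟩ := hl hq
    obtain ⟨o1, o2, -, -, -, -, -, o8⟩ := ok p d hq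
    have he : (1 : ℤ) ≤ p.e := by exact_mod_cast hV.epos
    have e1 : P p.v d.Z.r ((z' - m * (-x / y)) / 2 ^ k) :=
      (P.of_mul_exact (((c2 _ hq).2.2).congr (div_mul_cancel₀ _ h2k))
        (exact_pow hV.h2 k)).mono (by dsimp only; omega)
    have e2 : P p.v d.Z.r (2 ^ j * c * Z / t) := by
      have e3 := ((P.of_eq (exact_pow hV.h2 j)).mul0 (P.int p.v c)).mul (P.of_eq (k3.exact hV o1))
      refine (P.of_mul_exact (e3.congr (div_mul_cancel₀ _ ht0))
        (exact_odd hV.h2 (by omega) ht)).mono ?_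
      have := hj d (List.of_mem_zip hq).2
      nlinarith [Int.natCast_nonneg j]
    have e4 : d.Z.mem p d.D (z' / 2 ^ k) := k3.near ((e1.add e2).congr (by
      rw [hz]
      field_simp
      linear_combination (m : L) * Z * hδ + 2 ^ k * Z * hm'))
    refine ⟨e4, ?_⟩
    rw [o8, ← exact_mul (exact_pow hV.h2 k) (e4.exact hV o1), mul_div_cancel₀ _ h2k]
  have hz' : z' ≠ 0 := ne_of_exact (key _ _ i0).2
  have hw' : w' ≠ 0 := by
    rintro rfl
    simp [Cv, hz'] at c1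
    exact hz' (pow_eq_zero_iff (by norm_num) |>.1 c1.symm)
  refine ⟨z' / 2 ^ k, z' / w', -1 / w', div_ne_zero hz' hw', div_ne_zero (by simp) hw', ?_,
    by field_simp, List.forall₂_iff_zip.2 ⟨hlen, fun {p d} hq => ⟨(key p d hq).1, ?_⟩⟩⟩
  · unfold On
    unfold Cv at c1
    field_simp
    linear_combination c1
  · obtain ⟨-, -, -, -, o5, -⟩ := ok p d hq
    exact (P.of_mul_exact (x := (z' / w')⁻¹) ((c2 _ hq).2.1.congr (by field_simp))
      (key p d hq).2).mono (by dsimp only; omega)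

end Pool.Agent.Lib.MP_ab8df0_nt.B
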