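import Pool.Agent.Lib.MP_ab8df0_nt.B.CheckAlg
import Pool.Agent.Lib.MP_ab8df0_nt.B.Scale

/-! Soundness of the checker. -/

namespace Pool.Agent.Lib.MP_ab8df0_nt.B

open WithZero

namespace Ck

variable {L : Type*} [Field L] {pl : List (Place L)} {G : Prop} {t : Tree}

lemma n_set (ih : Snd pl G t) (h : ℕ) (cs : List (List Cert)) : Snd pl G (.set h cs t) := by
  intro n H st val hI hc
  unfold check at hc
  split at hc
  · rename_i i e hh
    split at hc
    · rename_i bs hb
      have h1 : val i = e.eval val := hI.hyp hh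
      exact ih _ _ _ _ (hI.st' (st_setAll hI.s (h1 ▸ (evalAll_mem hI.s _ _ hb).1))) hc
    · cases hc
  · rename_i i e1 e2 hh
    split at hc
    · rename_i bs hb
      have h1 : e1.eval val * val i = e2.eval val := hI.hyp hh
      obtain ⟨h2, h3⟩ := evalAll_mem hI.s _ _ hb
      have h4 : e1.eval val ≠ 0 := (h3 (by simp)).1.2
      have h5 : (Expr.mul (.inv e1) e2).eval val = val i := by
        simp only [Expr.eval, ← h1]
        field_simp
      exact ih _ _ _ _ (hI.st' (st_setAll hI.s (h5 ▸ h2))) hc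
    · cases hc
  · cases hc

lemma n_root {t1 t2 : Tree} (ih1 : Snd pl G t1) (ih2 : Snd pl G t2) (h p : ℕ) (cs : List Cert)
    (w : Cert) : Snd pl G (.root h p cs w t1 t2) := by
  intro n H st val hI hc
  unfold check at hc
  split at hc
  · rename_i i e q hh hq
    split at hc
    · rename_i b hb
      obtain ⟨x, e1, e2⟩ := Option.bind_eq_some_iff.1 hb
      obtain ⟨p', hV, hE, hs⟩ := st_get hI.s hq
      have h1 : val i ^ 2 = e.eval val := hI.hyp hh
      rw [Bool.and_eq_true] at hc
      rcases sqrtB_mem hV (h1 ▸ (evalB_mem hV hE _ _ _ e1).1) e2 with h2 | h2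
      · exact ih1 _ _ _ _ (hI.st' (hs i b h2)) hc.1
      · exact ih2 _ _ _ _ (hI.st' (hs i _ (by simpa using negB_mem hV h2))) hc.2
    · cases hc
  · cases hc

lemma n_split {t0 t1 : Tree} (ih0 : Snd pl G t0) (ih1 : Snd pl G t1) (h : ℕ) :
    Snd pl G (.split h t0 t1) := by
  intro n H st val hI hc
  unfold check at hc
  split at hc
  · rename_i i t k hh
    rw [Bool.and_eq_true] at hc
    have hb : (Hyp.disc i t k).bd n = true := hI.hb hh
    rcases q2_split (show Q2 k (val i - (t : L)) from hI.hyp hh) with h1 | h1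
    · exact ih0 _ _ _ _ (hI.set (st_setAll hI.s (bs_map (f := fun D => discB D t (k + 1)) hI.s
        fun _ _ hV => discB_mem hV h1)) h (a := .disc i t (k + 1)) h1 hb) hc.1
    · exact ih1 _ _ _ _ (hI.set (st_setAll hI.s (bs_map (f := fun D => discB D (t + 2 ^ k) (k + 1))
        hI.s fun _ _ hV => discB_mem hV h1)) h (a := .disc i (t + 2 ^ k) (k + 1)) h1 hb) hc.2
  · cases hc

lemma n_disc (ih : Snd pl G t) (h : ℕ) : Snd pl G (.disc h t) := by
  intro n H st val hI hc
  unfold check at hc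
  split at hc
  · rename_i i t k hh
    exact ih _ _ _ _ (hI.st' (st_setAll hI.s (bs_map (f := fun D => discB D t k) hI.s
      fun _ _ hV => discB_mem hV (hI.hyp hh)))) hc
  · cases hc

lemma n_piv (ih : Snd pl G t) (g : List ℕ) (ws : List (List Cert)) : Snd pl G (.piv g ws t) := by
  intro n H st val hI hc
  unfold check at hc
  split at hc
  · rename_i ks hk
    simp only [Bool.and_eq_true] at hc
    refine ih _ _ _ _ (hI.app le_rfl hI.s ?_) hc.2
    simp only [List.mem_singleton, forall_eq]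
    exact ⟨pivs_sound hI.s hk hc.1.2, hc.1.1⟩
  · cases hc

lemma n_push (ih : Snd pl G t) (e : Expr) (cs : List (List Cert)) : Snd pl G (.push e cs t) := by
  intro n H st val hI hc
  unfold check at hc
  split at hc
  · rename_i st' hs
    simp only [Bool.and_eq_true] at hc
    obtain ⟨val', ha, h1, -⟩ := exists_dfs [e] n val ⟨hc.1, trivial⟩
    replace hI := hI.agree ha
    obtain ⟨bs, h2, rfl⟩ := Option.map_eq_some_iff.1 hs
    refine ih _ _ _ _ (hI.app (Nat.le_succ n)
      (st_pushAll hI.s (h1 ▸ (evalAll_mem hI.s e cs h2).1)) ?_) hc.2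
    simp only [List.mem_singleton, forall_eq]
    exact ⟨h1, by simp [Hyp.bd, ebd_mono (Nat.le_succ n) hc.1]⟩
  · cases hc

lemma contra_aux {val : ℕ → L} {n j : ℕ} {st : St} (hs : StMem pl val n st) {q : Loc × Env}
    (hq : st[j]? = some q) {e : Expr} {cs : List Cert} {x : Ball × List Cert}
    (h : evalB q.1 q.2 e cs = some x) (he : x.1.exact = true) : e.eval val ≠ 0 := by
  obtain ⟨p', hV, hE, -⟩ := st_get hs hq
  exact ne_of_exact ((evalB_mem hV hE _ _ _ h).1.exact hV he)

lemma n_contra (h p : ℕ) (cs : List Cert) : Snd pl G (.contra h p cs) := by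
  intro n H st val hI hc
  unfold check at hc
  split at hc
  · rename_i i e q hh hq
    split at hc
    · rename_i x hx
      have h1 : val i = e.eval val := hI.hyp hh
      exact absurd (by simp [sub', Expr.eval, h1]) (contra_aux hI.s hq hx hc)
    · cases hc
  · rename_i i e1 e2 q hh hq
    split at hc
    · rename_i x hx
      have h1 : e1.eval val * val i = e2.eval val := hI.hyp hh
      exact absurd (by simp [sub', Expr.eval, h1]) (contra_aux hI.s hq hx hc)
    · cases hc
  · rename_i i e q hh hq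
    split at hc
    · rename_i x hx
      have h1 : val i ^ 2 = e.eval val := hI.hyp hh
      exact absurd (by simp [sub', Expr.eval, h1]) (contra_aux hI.s hq hx hc)
    · cases hc
  · cases hc

lemma n_dead (h hp : ℕ) (cs : List (List Cert)) (sub : List Bool) (ws : List Cert) :
    Snd pl G (.dead h hp cs sub ws) := by
  intro n H st val hI hc
  unfold check at hc
  split at hc
  · rename_i e g g' ks hh hp'
    split at hc
    · rename_i bs hb
      simp only [Bool.and_eq_true, decide_eq_true_eq] at hc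
      obtain ⟨rfl, hc⟩ := hc
      obtain ⟨h1, h2⟩ := clsDead_sound hI.s (evalAll_mem hI.s _ _ hb).1.sq (hI.hyp hp') hc
      exact absurd (hI.hyp hh h1) h2
    · cases hc
  · cases hc

lemma n_conc (h hp ho : ℕ) (cs : List (List Cert)) (ws : List Cert) :
    Snd pl G (.conc h hp ho cs ws) := by
  intro n H st val hI hc
  unfold check at hc
  split at hc
  · rename_i e g g' ks e' g'' sub hh hp' ho'
    split at hc
    · rename_i bs hb
      simp only [Bool.and_eq_true, decide_eq_true_eq] at hc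
      obtain ⟨⟨⟨⟨h0, rfl⟩, rfl⟩, rfl⟩, hc⟩ := hc
      have h1 := (evalAll_mem hI.s _ _ hb).1
      exact hI.hyp ho' (clsTriv_sound hI.s h1.sq (hI.hyp hp') hc
        (hI.hyp hh (ne_of_exAll hI.s h1 h0)))
    · cases hc
  · cases hc

lemma n_edead (hc' ho hp : ℕ) (sub : List Bool) (ws : List Cert) :
    Snd pl G (.edead hc' ho hp sub ws) := by
  intro n H st val hI hc
  unfold check at hc
  split at hc
  · rename_i c c' sd x y g ks h1 h2 h3
    split at hc
    · rename_i bs hb
      simp only [Bool.and_eq_true, decide_eq_true_eq] at hc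
      obtain ⟨⟨rfl, rfl⟩, hc⟩ := hc
      obtain ⟨h4, h5⟩ := clsDead_sound hI.s (evalAll_mem hI.s _ _ hb).1.sq (hI.hyp h3) hc
      exact absurd (ec_desc (hI.hyp h1) sd _ _ h4 (hI.hyp h2)) h5
    · cases hc
  · cases hc

lemma n_yrt (ih : Snd pl G t) (ho : ℕ) (cs : List Cert) (w : Cert) :
    Snd pl G (.yrt ho cs w t) := by
  intro n H st val hI hc
  unfold check at hc
  split at hc
  · rename_i q st c sd x y hh
    split at hc
    · rename_i b hb
      obtain ⟨z, e1, e2⟩ := Option.bind_eq_some_iff.1 hb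
      obtain ⟨p, hV, hE, hs⟩ := st_first hI.s
      have h1 : On (val (c.A sd)) (val (c.Bc sd)) (val x) (val y) := hI.hyp hh
      have h2 : val y ^ 2 = (cub c sd x).eval val := by
        unfold On at h1
        simp only [cub, Expr.eval]
        linear_combination h1
      obtain ⟨b1, b2, b3⟩ := onbd_iff.1 (hI.hb hh)
      have b4 := ecA_lt b1 sd
      have b5 := ecB_lt b1 sd
      obtain ⟨u, hu, hm⟩ : ∃ u, u ^ 2 = val y ^ 2 ∧ b.mem p q.1 u := by
        rcases sqrtB_mem hV (h2 ▸ (evalB_mem hV hE _ _ _ e1).1) e2 with h3 | h3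
        · exact ⟨_, rfl, h3⟩
        · exact ⟨_, neg_sq _, h3⟩
      obtain ⟨val', ha, hv⟩ := exists_ext n val [u]
      have hn : val' n = u := hv 0
      refine ih _ _ _ _ ((hI.agree ha).app (Nat.le_succ n) (hs val' b ha (hn ▸ hm)) ?_) hc
      simp only [List.forall_mem_cons, List.not_mem_nil, false_imp_iff, implies_true, and_true]
      refine ⟨⟨?_, onbd_iff.2 ⟨ecbd_mono (Nat.le_succ n) b1, by omega, by omega⟩⟩, ?_, ?_⟩
      · simp only [Hyp.holds, On, ha _ b2, ha _ b4, ha _ b5, hn, hu]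
        exact h1
      · simp only [Hyp.holds, cub, Expr.eval, ha _ b2, ha _ b4, ha _ b5, hn, hu]
        exact h2
      · simp only [Hyp.bd, cub, Expr.bd, Bool.and_eq_true, Nat.blt_eq]
        omega
    · cases hc
  · cases hc

lemma n_tr (ih : Snd pl G t) (ho : ℕ) (cs : List (List Cert)) : Snd pl G (.tr ho cs t) := by
  intro n H st val hI hc
  unfold check at hc
  split at hc
  · rename_i q st c sd x y hh
    split at hc
    · rename_i s3 hb
      obtain ⟨s1, e1, hb⟩ := Option.bind_eq_some_iff.1 hb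
      obtain ⟨s2, e2, e3⟩ := Option.bind_eq_some_iff.1 hb
      obtain ⟨b1, b2, b3⟩ := onbd_iff.1 (hI.hb hh)
      have b5 := ecB_lt b1 sd
      obtain ⟨val', ha, d1, d2, d3, -⟩ := exists_dfs [.inv (.var x), .mul (.var (c.Bc sd)) (.var n),
        .neg (.mul (.var (n + 1)) (.mul (.var y) (.var n)))] n val (by
          simp only [bds, Expr.bd, Bool.and_eq_true, Nat.blt_eq, and_true]; omega)
      replace hI := hI.agree ha
      obtain ⟨f1, g1, k1⟩ := st_pushE hI.s (by simp) e1 d1
      obtain ⟨f2, g2, -⟩ := st_pushE f1 g1 e2 d2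
      obtain ⟨f3, -, -⟩ := st_pushE f2 g2 e3 d3
      refine ih _ _ _ _ (hI.app (by omega) f3 ?_) hc
      simp only [List.mem_singleton, forall_eq]
      refine ⟨?_, onbd_iff.2 ⟨ecbd_mono (by omega) b1, by omega, by omega⟩⟩
      simp only [Expr.eval] at d1 d2 d3
      simp only [Hyp.holds]
      rw [d3, d2, d1]
      exact on_tr k1.2 (hI.hyp hh)
    · cases hc
  · cases hc

lemma sgn_bd {n y : ℕ} (neg : Bool) : (sgn neg (.var y)).bd n = true ↔ y < n := by
  cases neg <;> simp [sgn, Expr.bd]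

lemma n_add (ih : Snd pl G t) (h1 h2 : ℕ) (neg : Bool) (cs : List (List Cert)) :
    Snd pl G (.add h1 h2 neg cs t) := by
  intro n H st val hI hc
  unfold check at hc
  split at hc
  · rename_i q st c sd x y c' sd' x0 y0 hh hh'
    split at hc
    · rename_i s3 hb
      simp only [Bool.and_eq_true, decide_eq_true_eq] at hc
      obtain ⟨⟨rfl, rfl⟩, hc⟩ := hc
      obtain ⟨s1, e1, hb⟩ := Option.bind_eq_some_iff.1 hb
      obtain ⟨s2, e2, e3⟩ := Option.bind_eq_some_iff.1 hb
      obtain ⟨b1, b2, b3⟩ := onbd_iff.1 (hI.hb hh)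
      obtain ⟨-, b6, b7⟩ := onbd_iff.1 (hI.hb hh')
      have b4 := ecA_lt b1 sd
      obtain ⟨val', ha, d1, d2, d3, -⟩ := exists_dfs [.mul (sub' (.var y) (sgn neg (.var y0)))
        (.inv (sub' (.var x) (.var x0))),
        sub' (.sq (.var n)) (.add (.var (c.A sd)) (.add (.var x) (.var x0))),
        sub' (.mul (.var n) (sub' (.var x) (.var (n + 1)))) (.var y)] n val (by
          simp only [bds, sub', Expr.bd, sgn_bd, Bool.and_eq_true, Nat.blt_eq, and_true]; omega)
      replace hI := hI.agree ha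
      obtain ⟨f1, g1, k1⟩ := st_pushE hI.s (by simp) e1 d1
      obtain ⟨f2, g2, -⟩ := st_pushE f1 g1 e2 d2
      obtain ⟨f3, -, -⟩ := st_pushE f2 g2 e3 d3
      refine ih _ _ _ _ (hI.app (by omega) f3 ?_) hc
      simp only [List.mem_singleton, forall_eq]
      refine ⟨?_, onbd_iff.2 ⟨ecbd_mono (by omega) b1, by omega, by omega⟩⟩
      have k2 := k1.2.2
      simp only [sub', Expr.eval, ← sub_eq_add_neg] at d1 d2 d3 k2
      simp only [Hyp.holds]
      rw [d3, d2]
      exact on_chord k2 (hI.hyp hh) (on_sgn neg (hI.hyp hh')) (by rw [d1]; field_simp)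
    · cases hc
  · cases hc

lemma n_half (ih : Snd pl G t) (hc' ho hp : ℕ) (ws : List Cert) (w : Cert) :
    Snd pl G (.half hc' ho hp ws w t) := by
  intro n H st val hI hc
  unfold check at hc
  split at hc
  · rename_i q st c c' sd x y g ks h1 h2 h3
    split at hc
    · rename_i bs b hb hb'
      simp only [Bool.and_eq_true, decide_eq_true_eq] at hc
      obtain ⟨⟨⟨⟨h0, rfl⟩, rfl⟩, h4⟩, hc⟩ := hc
      obtain ⟨b0, e1, e2⟩ := Option.bind_eq_some_iff.1 hb'
      obtain ⟨p, hV, hE, hs⟩ := st_first hI.s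
      have h5 := (evalAll_mem hI.s _ _ hb).1
      obtain ⟨s, h6⟩ := clsTriv_sound hI.s h5.sq (hI.hyp h3) h4
        (ec_desc (hI.hyp h1) sd _ _ (ne_of_exAll hI.s h5 h0) (hI.hyp h2))
      rw [lv_prodSel_nil, mul_one, ← pow_two] at h6
      replace h6 : val x = s ^ 2 := h6
      obtain ⟨-, b2, -⟩ := onbd_iff.1 (hI.hb h2)
      obtain ⟨u, hu, hm⟩ : ∃ u, u ^ 2 = val x ∧ b.mem p q.1 u := by
        rcases sqrtB_mem hV (h6 ▸ hE _ _ e1) e2 with h7 | h7
        · exact ⟨_, h6.symm, h7⟩
        · exact ⟨_, by rw [neg_sq, h6], h7⟩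
      obtain ⟨val', ha, hv⟩ := exists_ext n val [u]
      have hn : val' n = u := hv 0
      refine ih _ _ _ _ ((hI.agree ha).app (Nat.le_succ n) (hs val' b ha (hn ▸ hm)) ?_) hc
      simp only [List.mem_singleton, forall_eq, Hyp.holds, Hyp.bd, Expr.eval, Expr.bd,
        Bool.and_eq_true, Nat.blt_eq, hn, ha _ b2]
      exact ⟨hu, by omega, by omega⟩
    · cases hc
  · cases hc

lemma ne_of_ex0 {val : ℕ → L} {n i : ℕ} {st : St} (hs : StMem pl val n st)
    (h : ex0 st i = true) : val i ≠ 0 := by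
  unfold ex0 at h
  split at h
  · obtain ⟨p, hV, hE, -⟩ := st_first hs
    split at h
    · rename_i b hb
      exact ne_of_exact ((hE _ _ hb).exact hV h)
    · cases h
  · cases h

lemma on_div {a b x s : L} (hx : x ≠ 0) (h : On a b x (x * s)) :
    x = s ^ 2 + -(a + b * x⁻¹) := by
  unfold On at h
  apply mul_left_cancel₀ (pow_ne_zero 2 hx)
  linear_combination -h + (b * x) * mul_inv_cancel₀ hx

lemma on_lin {a b x s : L} (hx : x ≠ 0) (h : On a b x (x * s)) :
    (s ^ 2 + -(a + x)) * x = b := by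
  unfold On at h
  apply mul_left_cancel₀ hx
  linear_combination h

lemma n_fin [CharZero L] (ih : Snd pl G t) (hc' ho hs : ℕ) (cs : List (List Cert)) :
    Snd pl G (.fin hc' ho hs cs t) := by
  intro n H st val hI hc
  unfold check at hc
  split at hc
  · rename_i q st c c' sd x y s x' h1 h2 h3
    split at hc
    · rename_i s3 hb
      simp only [Bool.and_eq_true, decide_eq_true_eq] at hc
      obtain ⟨⟨⟨rfl, rfl⟩, hex⟩, hc⟩ := hc
      obtain ⟨s1, e1, hb⟩ := Option.bind_eq_some_iff.1 hb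
      obtain ⟨s2, e2, e3⟩ := Option.bind_eq_some_iff.1 hb
      obtain ⟨b1, b2, b3⟩ := onbd_iff.1 (hI.hb h2)
      have b4 := ecA_lt b1 sd
      have b5 := hI.hb h3
      have b6 := ecA_lt b1 (!sd)
      have b7 := ecB_lt b1 (!sd)
      simp only [Hyp.bd, Bool.and_eq_true, Nat.blt_eq] at b5
      obtain ⟨val', ha, d1, d2, d3, -⟩ := exists_dfs [.add (.add (.mul (.num 2) (.var x))
        (.var (c.A sd))) (.mul (.mul (.num 2) (.var y)) (.inv (.var s))),
        cond sd (.mul (.var n) (.sq (.inv (.num 2)))) (.var n),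
        .mul (.var (n + 1)) (cond sd (.var s) (.mul (.num 2) (.var s)))] n val (by
          cases sd <;> simp only [bds, Expr.bd, cond_true, cond_false, Bool.and_eq_true,
            Nat.blt_eq, and_true, true_and] <;> omega)
      replace hI := hI.agree ha
      obtain ⟨f1, g1, k1⟩ := st_pushE hI.s (by simp) e1 d1
      obtain ⟨f2, g2, -⟩ := st_pushE f1 g1 e2 d2
      obtain ⟨f3, -, -⟩ := st_pushE f2 g2 e3 d3
      refine ih _ _ _ _ (hI.app (by omega) f3 ?_) hc
      have k2 : val' s ≠ 0 := k1.2.2.2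
      have k3 : val' s ^ 2 = val' x := hI.hyp h3
      obtain ⟨k4, k5, -⟩ := hI.hyp h1
      have k6 := hI.hyp h2
      have k7 : On (val' (c.A (!sd))) (val' (c.Bc (!sd))) (val' (n + 1)) (val' (n + 2)) := by
        cases sd
        · simp only [Expr.eval, Hyp.holds, EC.A, EC.Bc, cond_true, cond_false, Bool.not_false,
            Int.cast_ofNat] at d1 d2 d3 k6 ⊢
          rw [d3, d2, d1, k4, k5]
          exact on_fin0 k2 k3 k6
        · simp only [Expr.eval, Hyp.holds, EC.A, EC.Bc, cond_true, cond_false, Bool.not_true,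
            Int.cast_ofNat] at d1 d2 d3 k6 ⊢
          rw [k4, k5] at k6
          rw [d3, d2, d1, k4]
          exact on_fin1 two_ne_zero k2 k3 k6
      have k8 : val' (n + 2) = val' (n + 1) *
          (cond sd (.var s) (.mul (.num 2) (.var s)) : Expr).eval val' := d3
      simp only [List.forall_mem_cons, List.not_mem_nil, false_imp_iff, implies_true, and_true]
      refine ⟨⟨k7, onbd_iff.2 ⟨ecbd_mono (by omega) b1, by omega, by omega⟩⟩,
        ⟨on_div (ne_of_ex0 f3 hex) (k8 ▸ k7), ?_⟩, ⟨d3, ?_⟩,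
        on_lin (ne_of_ex0 f3 hex) (k8 ▸ k7), ?_⟩ <;>
        cases sd <;> simp only [Hyp.bd, sub', Expr.bd, cond_true, cond_false, Bool.and_eq_true,
          Nat.blt_eq, true_and] <;> omega
    · cases hc
  · cases hc

lemma n_oroot (ih : Snd pl G t) (h : ℕ) (cs : List (List Cert)) (ws : List (Cert × Cert)) :
    Snd pl G (.oroot h cs ws t) := by
  intro n H st val hI hc
  unfold check at hc
  split at hc
  · rename_i i k e hh
    split at hc
    · rename_i bs hb
      obtain ⟨as, e1, e2⟩ := Option.bind_eq_some_iff.1 hb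
      have h1 : val i ^ (2 * k + 1) = e.eval val := hI.hyp hh
      exact ih _ _ _ _ (hI.st' (st_setAll hI.s
        (orootAll_mem hI.s (h1 ▸ (evalAll_mem hI.s _ _ e1).1) e2))) hc
    · cases hc
  · cases hc

lemma n_dent (ih : Snd pl G t) (h1 h2 hq : ℕ) (neg : Bool) (c1 c2 c3 : List (List Cert)) :
    Snd pl G (.dent h1 h2 hq neg c1 c2 c3 t) := by
  intro n H st val hI hc
  unfold check at hc
  split at hc
  · rename_i q0 st c x y c' x0 y0 x1 x2 i p q dx hh hh' hd
    split at hc
    · rename_i s5 b hb hb'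
      simp only [Bool.and_eq_true, decide_eq_true_eq] at hc
      obtain ⟨⟨⟨⟨h0, rfl⟩, rfl⟩, rfl⟩, hc⟩ := hc
      obtain ⟨s1, e1, hb⟩ := Option.bind_eq_some_iff.1 hb
      obtain ⟨s2, e2, hb⟩ := Option.bind_eq_some_iff.1 hb
      obtain ⟨s3, e3, hb⟩ := Option.bind_eq_some_iff.1 hb
      obtain ⟨s4, e4, e5⟩ := Option.bind_eq_some_iff.1 hb
      obtain ⟨b1, b2, b3⟩ := onbd_iff.1 (hI.hb hh)
      obtain ⟨-, b6, b7⟩ := onbd_iff.1 (hI.hb hh')
      have b4 : c.a < n := ecA_lt b1 false
      have b8 := bdL_iff.1 (show bdL n [x, x0, i, dx] = true from hI.hb hd)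
      have b9 := b8 i (by simp)
      have b10 := b8 dx (by simp)
      obtain ⟨val', ha, d1, d2, d3, d4, d5, d6, d7, -⟩ := exists_dfs
        [.mul (.var dx) (.inv (.add (.var y) (sgn neg (.var y0)))),
        .mul (sub' (.mul (.num q) (.var i)) (.num p)) (.var n),
        sub' (.num 1) (.mul (.add (.var c.a) (.add (.var x) (.var x0))) (.sq (.var (n + 1)))),
        .mul (.sq (.var (n + 1))) (.inv (.var (n + 2))),
        .mul (.mul (.var n) (.var (n + 2))) (.inv (.add (.var (n + 2))
          (.mul (.sq (.var (n + 1))) (sub' (.mul (.var y) (.var (n + 1))) (.var x))))),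
        sub' (.sq (.inv (.var (n + 1)))) (.add (.var c.a) (.add (.var x) (.var x0))),
        sub' (.mul (.inv (.var (n + 1))) (sub' (.var x) (.var (n + 5)))) (.var y)] n val (by
          simp only [bds, sub', Expr.bd, sgn_bd, Bool.and_eq_true, Nat.blt_eq, and_true, true_and]
          omega)
      replace hI := hI.agree ha
      obtain ⟨f1, g1, k1⟩ := st_pushE hI.s (by simp) e1 d1
      obtain ⟨f2, g2, -⟩ := st_pushE f1 g1 e2 d2
      obtain ⟨f3, g3, -⟩ := st_pushE f2 g2 e3 d3
      obtain ⟨f4, g4, k4⟩ := st_pushE f3 g3 e4 d4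
      obtain ⟨f5, -, k5⟩ := st_pushE f4 g4 e5 d5
      refine ih _ _ _ _ (hI.app (by omega) (st_pushNone (st_pushNone f5)) ?_) hc
      obtain ⟨p0, hV, hE, -⟩ := st_first hI.s
      have m0 : val' dx ≠ 0 := ne_of_exact ((hE _ _ hb').exact hV h0)
      obtain ⟨m1, m2⟩ := hI.hyp hd
      have m3 := k1.2.2
      have m4 : val' (n + 2) ≠ 0 := k4.2.2
      have m5 := k5.2.2
      have o1 : On (val' c.a) (val' c.b) (val' x) (val' y) := hI.hyp hh
      have o2 : On (val' c.a) (val' c.b) (val' x0) (-(sgn neg (.var y0)).eval val') :=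
        on_neg (on_sgn neg (hI.hyp hh'))
      simp only [sub', Expr.eval, ← sub_eq_add_neg, Int.cast_one, Nat.add_assoc, Nat.reduceAdd]
        at d1 d2 d3 d4 d5 d6 d7 m3 m5
      generalize (sgn neg (.var y0)).eval val' = ys at *
      have m6 : val' n ≠ 0 := d1 ▸ mul_ne_zero m0 (inv_ne_zero m3)
      have m7 : val' (n + 1) ≠ 0 := d2 ▸ mul_ne_zero m1 m6
      have o3 := on_chord (l := (val' (n + 1))⁻¹) (m2 ▸ mul_ne_zero m1 m0) o1 o2 (by
        rw [m2, d2, d1]; field_simp; ring)
      rw [← d6, ← d7] at o3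
      have x3 : val' (n + 5) = val' (n + 2) / val' (n + 1) ^ 2 := by
        rw [d6, d3]; field_simp
      have y3 : val' (n + 6) = -(val' (n + 2) + val' (n + 1) ^ 2 * (val' y * val' (n + 1) - val' x))
          / val' (n + 1) ^ 3 := by
        rw [d7, x3]; field_simp; ring
      simp only [List.forall_mem_cons, List.not_mem_nil, false_imp_iff, implies_true, and_true]
      refine ⟨⟨o3, onbd_iff.2 ⟨ecbd_mono (by omega) b1, by omega, by omega⟩⟩,
        ⟨m1, ?_, ?_, ?_, ?_⟩, ?_⟩
      · rw [x3]; exact div_ne_zero m4 (pow_ne_zero 2 m7)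
      · rw [y3]; exact div_ne_zero (neg_ne_zero.2 m5) (pow_ne_zero 3 m7)
      · rw [x3, y3, d5, ← mul_assoc, ← mul_assoc, ← d2]
        generalize val' (n + 2) + val' (n + 1) ^ 2 * (val' y * val' (n + 1) - val' x) = D at *
        field_simp
      · rw [x3, d4]; field_simp
      · simp only [Hyp.bd, bdL_iff, List.forall_mem_cons, List.not_mem_nil, false_imp_iff,
          implies_true, and_true]
        omega
    · cases hc
  · cases hc

lemma pat_aux (ih : Snd pl G t) {n : ℕ} {H : List Hyp} {st : St} {val : ℕ → L}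
    (hI : Inv pl G n H st val) {c : EC} (b1 : c.bd n = true) {sd : Bool} {rs : List (ℤ × ℤ)}
    {ps : List (List Bool)}
    (hc : check t (n + 4) (H ++ [.on c sd n (n + 1), .pat n rs ps])
      (pushNone (pushNone (pushNone (pushNone st)))) = true) (X Y : L) (hX : X ≠ 0) (hY : Y ≠ 0)
    (ho : On (val (c.A sd)) (val (c.Bc sd)) X Y) (hp : ∃ s ∈ ps, PatAt X Y pl rs s) : G := by
  obtain ⟨val', ha, hv⟩ := exists_ext n val [X, Y, X⁻¹, -X / Y]
  have v0 : val' n = X := hv 0
  have v1 : val' (n + 1) = Y := hv 1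
  have v2 : val' (n + 2) = X⁻¹ := hv 2
  have v3 : val' (n + 3) = -X / Y := hv 3
  rw [← ha _ (ecA_lt b1 sd), ← ha _ (ecB_lt b1 sd)] at ho
  replace hI := hI.agree ha
  refine ih _ _ _ _ (hI.app (by omega)
    (st_pushNone (st_pushNone (st_pushNone (st_pushNone hI.s)))) ?_) hc
  simp only [List.forall_mem_cons, List.not_mem_nil, false_imp_iff, implies_true, and_true,
    onbd_iff]
  simp only [Hyp.holds, Hyp.bd, Nat.blt_eq, v0, v1, v2, v3, true_and]
  exact ⟨⟨ho, ecbd_mono (by omega) b1, by omega, by omega⟩, ⟨hX, hY, hp⟩, by omega⟩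

lemma n_deep [CharZero L] {tA tB : Tree} (ihA : Snd pl G tA) (ihB : Snd pl G tB) (ih : Snd pl G t)
    (hc' hp hp' ho hz hd k : ℕ) (rz : List ℤ) (w w' : List (List Bool × List Cert)) :
    Snd pl G (.deep hc' hp hp' ho hz hd k rz w w' tA tB t) := by
  intro n H st val hI hc
  by_contra hG
  refine hG ?_
  unfold check at hc
  split at hc
  · rename_i q0 st c g ks g' ks' c1 x y x1 y1 i p q iZ iX i' t0 k0 h1 h2 h3 h4 h5 h6
    split at hc
    · rename_i ds hb
      simp only [Bool.and_eq_true, decide_eq_true_eq] at hc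
      obtain ⟨⟨⟨⟨⟨⟨⟨⟨⟨⟨⟨⟨rfl, rfl⟩, rfl⟩, rfl⟩, rfl⟩, rfl⟩, c1⟩, c2⟩, c3⟩, c6⟩, c4⟩, c5⟩, hc⟩ := hc
      obtain ⟨hD, hds, hZ⟩ := mkDP_spec hI.s hb
      obtain ⟨a1, a2, a3, a4⟩ := hI.hyp h1
      obtain ⟨z1, z2, z3, z4, z5⟩ := hI.hyp h5
      obtain ⟨j, hj⟩ := q2_odd (show Q2 k0 (val i - (t0 : L)) from hI.hyp h6) c1 c2 z1
      obtain ⟨δ, Z0, X0, Y0, r0, r1⟩ := deep_core hI.s (by simp) hD hds a1 a2 a3 a4
        (hI.hyp h2) (hI.hyp h3) c3 hG (pat_aux ihA hI (hI.hb h1) c4)
        (pat_aux ihB hI (hI.hb h1) c5) j _ (val iZ) (val x) (val y) hj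
        ⟨z2, z3, hI.hyp h4, z4, z5 ▸ hZ⟩
      obtain ⟨Z, X, Y, r2, r3, r4, r5, r6⟩ := deep_scale hds c3 c6 r0 r1
      obtain ⟨val', ha, hv⟩ := exists_ext n val [2 ^ k, Z, X⁻¹, -X / Y, X, Y]
      have v0 : val' n = 2 ^ k := hv 0
      have v1 : val' (n + 1) = Z := hv 1
      have v2 : val' (n + 2) = X⁻¹ := hv 2
      have v3 : val' (n + 3) = -X / Y := hv 3
      have v4 : val' (n + 4) = X := hv 4
      have v5 : val' (n + 5) = Y := hv 5
      have b1 : c.bd n = true := hI.hb h1
      have b2 : c.a < n := ecA_lt b1 false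
      have b3 : c.b < n := ecB_lt b1 false
      rw [← ha _ b2, ← ha _ b3] at r4
      replace hI := hI.agree ha
      have f1 := st_pushNone hI.s
      have hD1 := hD.trans (fst_pushNone _).symm
      have g1 := bs_ds (f := DP.Z) (x := val' (n + 1)) (r6.imp fun _ _ h => v1 ▸ h.1) hD1
      have f2 := st_pushAll f1 g1
      have g2 := bs_ds (f := fun d => zeroB d.r) (x := val' (n + 2))
        ((DeepAux.and₂ hds r6).imp fun _ _ h => zeroB_mem h.1.1 (v2 ▸ h.2.2))
        (hD1.trans (fst_pushAll _ _ g1.2).symm)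
      have f3 := st_pushAll f2 g2
      refine ih _ _ _ _ (hI.app (by omega) (st_pushNone (st_pushNone (st_pushNone f3))) ?_) hc
      simp only [List.forall_mem_cons, List.not_mem_nil, false_imp_iff, implies_true, and_true,
        onbd_iff]
      simp only [Hyp.holds, Hyp.bd, Expr.eval, Expr.bd, Bool.and_eq_true, Nat.blt_eq, v0, v1, v2,
        v3, v4, v5, true_and, Int.cast_one]
      refine ⟨⟨by push_cast; rfl, by omega, trivial⟩, ⟨r5, by omega⟩, ⟨?_, by omega⟩, ⟨(inv_inv X).symm, by omega⟩,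
        ⟨by field_simp, by omega⟩, r4, ecbd_mono (by omega) b1, by omega, by omega⟩
      linear_combination DeepAux.xi_eq r2 r3 r4
    · cases hc
  · cases hc

lemma n_pcase {t1 t2 : Tree} (ih1 : Snd pl G t1) (ih2 : Snd pl G t2) (h ho h0 : ℕ)
    (cs : List (List Cert)) : Snd pl G (.pcase h ho h0 cs t1 t2) := by
  intro n H st val hI hc
  unfold check at hc
  split at hc
  · rename_i q st i rs s ps c sd x y c' sd' x0 y0 h1 h2 h3
    split at hc
    · rename_i bs hb
      simp only [Bool.and_eq_true, decide_eq_true_eq] at hc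
      obtain ⟨⟨⟨⟨⟨⟨rfl, rfl⟩, rfl⟩, rfl⟩, -⟩, c1⟩, c2⟩ := hc
      obtain ⟨b1, b2, b3⟩ := onbd_iff.1 (hI.hb h2)
      obtain ⟨-, b6, b7⟩ := onbd_iff.1 (hI.hb h3)
      have b4 := ecA_lt b1 sd
      obtain ⟨val', ha, d1, d2, -⟩ := exists_dfs [sub' (.sq (.mul (sub' (.var (x + 1)) (.var y0))
        (.inv (sub' (.var x) (.var x0))))) (.add (.var (c.A sd)) (.add (.var x) (.var x0))),
        sub' (.mul (.mul (sub' (.var (x + 1)) (.var y0)) (.inv (sub' (.var x) (.var x0))))
          (sub' (.var x) (.var n))) (.var (x + 1))] n val (by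
          simp only [bds, sub', Expr.bd, Bool.and_eq_true, Nat.blt_eq, and_true]; omega)
      replace hI := hI.agree ha
      obtain ⟨p1, p2, p3, p4, s', p5, p6⟩ := hI.hyp h1
      rcases List.mem_cons.1 p5 with rfl | p5
      swap
      · exact ih2 _ _ _ _ (hI.set hI.s h (a := .pat x rs ps) ⟨p1, p2, p3, p4, s', p5, p6⟩
          (show (Hyp.pat x rs (s :: ps)).bd n = true from hI.hb h1)) c2
      have o1 : On (val' (c.A sd)) (val' (c.Bc sd)) (val' x) (val' (x + 1)) := hI.hyp h2
      have o2 : On (val' (c.A sd)) (val' (c.Bc sd)) (val' x0) (val' y0) := hI.hyp h3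
      have kM : (sumM (c.A sd) (c.Bc sd) x x0 y0).ok val' → val' x + -val' x0 ≠ 0 :=
        fun k => k.2.2
      have kP := fun k : (sumP (c.A sd) (c.Bc sd) x x0 y0).ok val' =>
        sumP_eq (y0 := val' y0) p1 p2 o1 (x0 := val' x0) (by
          simpa only [sub', Expr.eval, Int.cast_one, p3] using k.2.2)
      simp only [sub', Expr.eval] at d1 d2
      obtain ⟨f1, f2⟩ := evalPat_mem hI.s (X := val' n) p3 p4
        (fun k => by
          simp only [sumM, sub', Expr.eval, Int.cast_ofNat, d1]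
          exact sumM_eq (kM k) o1 o2)
        (fun k => by
          simp only [sumP, sub', Expr.eval, Int.cast_ofNat, Int.cast_one, d1, p3, p4]
          rw [(kP k).2]
          exact sumM_eq (kP k).1 o1 o2) p6 hb
      have k2 : val' x + -val' x0 ≠ 0 := (f2 (by simp)).elim kM fun k => (kP k).1
      refine ih1 _ _ _ _ (hI.app (by omega) (st_pushNone (st_pushAll hI.s f1)) ?_) c1
      simp only [List.mem_singleton, forall_eq]
      refine ⟨?_, onbd_iff.2 ⟨ecbd_mono (by omega) b1, by omega, by omega⟩⟩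
      simp only [← sub_eq_add_neg] at d1 d2 k2
      simp only [Hyp.holds]
      rw [d2, d1]
      exact on_chord k2 o1 o2 (by field_simp)
    · cases hc
  · cases hc

lemma n_pnil (h : ℕ) : Snd pl G (.pnil h) := by
  intro n H st val hI hc
  unfold check at hc
  split at hc
  · rename_i i rs hh
    obtain ⟨-, -, -, -, s, h1, -⟩ := hI.hyp hh
    cases h1
  · cases hc

lemma n_setp (ih : Snd pl G t) (h p : ℕ) (cs : List Cert) : Snd pl G (.setp h p cs t) := by
  intro n H st val hI hc
  unfold check at hc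
  split at hc
  · rename_i i e q hh hq
    split at hc
    · rename_i x hx
      obtain ⟨p', hV, hE, hs⟩ := st_get hI.s hq
      have h1 : val i = e.eval val := hI.hyp hh
      exact ih _ _ _ _ (hI.st' (hs i _ (h1 ▸ (evalB_mem hV hE _ _ _ hx).1))) hc
    · cases hc
  · rename_i i e1 e2 q hh hq
    split at hc
    · rename_i x hx
      obtain ⟨p', hV, hE, hs⟩ := st_get hI.s hq
      have h1 : e1.eval val * val i = e2.eval val := hI.hyp hh
      obtain ⟨h2, h3⟩ := evalB_mem hV hE _ _ _ hx
      have h4 : e1.eval val ≠ 0 := h3.1.2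
      have h5 : (Expr.mul (.inv e1) e2).eval val = val i := by
        simp only [Expr.eval, ← h1]
        field_simp
      exact ih _ _ _ _ (hI.st' (hs i _ (h5 ▸ h2))) hc
    · cases hc
  · cases hc

lemma n_deadp (h p : ℕ) (cs : List Cert) (w : Cert) : Snd pl G (.deadp h p cs w) := by
  intro n H st val hI hc
  unfold check at hc
  split at hc
  · rename_i e q hh hq
    split at hc
    · rename_i c hb
      obtain ⟨x, e1, e2⟩ := Option.bind_eq_some_iff.1 hb
      obtain ⟨p', hV, hE, -⟩ := st_get hI.s hq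
      obtain ⟨a1, a2⟩ := lev1_sound hV (evalB_mem hV hE _ _ _ e1).1 e2
      obtain ⟨sel, u, hu, h1⟩ := hI.hyp hh (a1.ne hV)
      rw [Nat.blt_eq, ← hV.he, ← hV.hf] at hc
      have h2 : e.eval val = u ^ 2 := by rw [h1]; simp [prodSel]
      exact absurd (h2 ▸ G1.sq _ hu) (a2 hc)
    · cases hc
  · cases hc

lemma n_newt (ih : Snd pl G t) (h : ℕ) (css : List (List Cert)) : Snd pl G (.newt h css t) := by
  intro n H st val hI hc
  unfold check at hc
  split at hc
  · rename_i i c b hh
    obtain ⟨a, e1, e2⟩ := Option.bind_eq_some_iff.1 hh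
    split at hc
    · rename_i st' hs
      exact ih _ _ _ _ (hI.st' (newtAll_mem hI.s (quadOf_spec e2 (hI.hyp e1)) hs)) hc
    · cases hc
  · cases hc

lemma init_mem {val : ℕ → L} {n : ℕ} (hn : 0 < n) {ds : List Loc}
    (hV : List.Forall₂ Valid pl ds) : ∀ {es : List Expr} {cs : List (List Cert)} {st : St},
    List.Forall₂ (fun p e => val 0 = Expr.eval (fun _ => p.ga) e) pl es →
    initSt n ds es cs = some st → StMem pl val n st := by
  induction hV with
  | nil =>
    intro es cs st _ h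
    obtain rfl := Option.some.inj h
    exact List.Forall₂.nil
  | @cons p D pl ds h1 _ ih =>
    rintro (_ | ⟨e, es⟩) cs st h0 h
    · cases h0
    rcases cs with _ | ⟨c, cs⟩
    · cases h
    obtain ⟨h2, h3⟩ := List.forall₂_cons.1 h0
    obtain ⟨x, e1, e2⟩ := Option.bind_eq_some_iff.1 h
    obtain ⟨r, e3, rfl⟩ := Option.map_eq_some_iff.1 e2
    have h4 := (evalB_mem h1 (val := fun _ => p.ga) (env_push (E := []) (fun i b hb => by
      simpa using get_lt hb) (by rintro b ⟨⟩; exact genB_mem h1)) e c x e1).1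
    refine List.Forall₂.cons ⟨h1, fun i b hb => ?_, by simp; omega⟩ (ih h3 e3)
    rcases i with _ | i
    · obtain rfl : x.1 = b := by simpa [Env.get] using hb
      exact h2 ▸ h4
    · simp only [Env.get, List.getD_eq_getElem?_getD, List.getElem?_cons_succ,
        List.getElem?_replicate] at hb
      split at hb <;> cases hb

end Ck

open Ck

variable {L : Type*} [Field L] [CharZero L]

theorem check_sound {pl : List (Place L)} {G : Prop} : ∀ (t : Tree) (n : ℕ) (H : List Hyp) (st : St)
    (val : ℕ → L), StMem pl val n st → (∀ h ∈ H, h.holds pl G val) → (∀ h ∈ H, h.bd n = true) →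
    check t n H st = true → G := by
  suffices h : ∀ t, Snd pl G t from fun t n H st val h1 h2 h3 => h t n H st val ⟨h1, h2, h3⟩
  intro t
  induction t with
  | set h cs t ih => exact n_set ih h cs
  | root h p cs w t1 t2 ih1 ih2 => exact n_root ih1 ih2 h p cs w
  | split h t0 t1 ih0 ih1 => exact n_split ih0 ih1 h
  | disc h t ih => exact n_disc ih h
  | piv g ws t ih => exact n_piv ih g ws
  | push e cs t ih => exact n_push ih e cs
  | contra h p cs => exact n_contra h p cs
  | dead h hp cs sub ws => exact n_dead h hp cs sub ws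
  | conc h hp ho cs ws => exact n_conc h hp ho cs ws
  | edead hc ho hp sub ws => exact n_edead hc ho hp sub ws
  | yrt ho cs w t ih => exact n_yrt ih ho cs w
  | tr ho cs t ih => exact n_tr ih ho cs
  | add h1 h2 neg cs t ih => exact n_add ih h1 h2 neg cs
  | half hc ho hp ws w t ih => exact n_half ih hc ho hp ws w
  | fin hc ho hs cs t ih => exact n_fin ih hc ho hs cs
  | oroot h cs ws t ih => exact n_oroot ih h cs ws
  | dent h1 h2 hq neg c1 c2 c3 t ih => exact n_dent ih h1 h2 hq neg c1 c2 c3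
  | deep hc hp hp' ho hz hd k rz w w' tA tB t ihA ihB ih =>
    exact n_deep ihA ihB ih hc hp hp' ho hz hd k rz w w'
  | pcase h ho h0 cs t1 t2 ih1 ih2 => exact n_pcase ih1 ih2 h ho h0 cs
  | pnil h => exact n_pnil h
  | setp h p cs t ih => exact n_setp ih h p cs
  | deadp h p cs w => exact n_deadp h p cs w
  | newt h css t ih => exact n_newt ih h css

theorem run_sound {pl : List (Place L)} {G : Prop} {ds : List Loc} {es : List Expr}
    {cs : List (List Cert)} {n : ℕ} {H : List Hyp} {t : Tree} {val : ℕ → L}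
    (hV : List.Forall₂ Valid pl ds)
    (h0 : List.Forall₂ (fun p e => val 0 = Expr.eval (fun _ => p.ga) e) pl es)
    (hH : ∀ h ∈ H, h.holds pl G val) (h : run ds es cs n H t = true) : G := by
  unfold run at h
  split at h
  · rename_i st hs
    simp only [Bool.and_eq_true, Nat.blt_eq, List.all_eq_true] at h
    exact check_sound t n H st val (init_mem h.1.1.1 hV h0 hs) hH h.1.2 h.2
  · cases h

end Pool.Agent.Lib.MP_ab8df0_nt.B
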