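import Pool.Agent.Lib.MP_ab8df0_nt.B.CheckAux

/-! Algebra and local facts for the soundness of the checker. -/

namespace Pool.Agent.Lib.MP_ab8df0_nt.B

open WithZero

namespace Ck

variable {L : Type*} [Field L]

/-! ### the group law -/

lemma on_neg {a b x y : L} (h : On a b x y) : On a b x (-y) := by
  unfold On at *
  linear_combination h

lemma on_sgn {a b : L} {val : ℕ → L} {x y : ℕ} (neg : Bool) (h : On a b (val x) (val y)) :
    On a b (val x) ((sgn neg (.var y)).eval val) := by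
  cases neg
  · exact h
  · exact on_neg h

lemma on_tr {a b x y : L} (hx : x ≠ 0) (h : On a b x y) :
    On a b (b * x⁻¹) (-(b * x⁻¹ * (y * x⁻¹))) := by
  unfold On at *
  field_simp
  linear_combination (b ^ 2) * h

lemma on_chord {a b x y x0 y0 l : L} (hx : x - x0 ≠ 0) (h : On a b x y) (h0 : On a b x0 y0)
    (hl : l * (x - x0) = y - y0) :
    On a b (l ^ 2 - (a + (x + x0))) (l * (x - (l ^ 2 - (a + (x + x0)))) - y) := by
  unfold On at *
  obtain rfl : y0 = y - l * (x - x0) := by linear_combination hl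
  apply mul_left_cancel₀ hx
  linear_combination (l ^ 2 - (a + (x + x0)) - x0) * h + (x - (l ^ 2 - (a + (x + x0)))) * h0

lemma fin_id {a b x y s : L} (hs : s ≠ 0) (hx : s ^ 2 = x) (h : On a b x y) :
    4 * x * (2 * x + a + 2 * y * s⁻¹) = (2 * x + a + 2 * y * s⁻¹) ^ 2 -
      2 * a * (2 * x + a + 2 * y * s⁻¹) + (a ^ 2 - 4 * b) := by
  unfold On at h
  subst hx
  field_simp
  linear_combination (-4) * h

lemma on_fin0 {a b x y s : L} (hs : s ≠ 0) (hx : s ^ 2 = x) (h : On a b x y) :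
    On (-2 * a) (a ^ 2 - 4 * b) (2 * x + a + 2 * y * s⁻¹) ((2 * x + a + 2 * y * s⁻¹) * (2 * s)) := by
  have h1 := fin_id hs hx h
  generalize 2 * x + a + 2 * y * s⁻¹ = X at *
  unfold On
  linear_combination X * h1 + 4 * X ^ 2 * hx

lemma on_fin1 {a b x y s : L} (h2 : (2 : L) ≠ 0) (hs : s ≠ 0) (hx : s ^ 2 = x)
    (h : On (-2 * a) (a ^ 2 - 4 * b) x y) :
    On a b ((2 * x + -2 * a + 2 * y * s⁻¹) * (2 : L)⁻¹ ^ 2)
      ((2 * x + -2 * a + 2 * y * s⁻¹) * (2 : L)⁻¹ ^ 2 * s) := by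
  have h1 := fin_id hs hx h
  generalize 2 * x + -2 * a + 2 * y * s⁻¹ = X at *
  obtain ⟨Y, rfl⟩ : ∃ Y, X = Y * 2 ^ 2 := ⟨X / 2 ^ 2, by field_simp⟩
  have h3 : Y * 2 ^ 2 * (2 : L)⁻¹ ^ 2 = Y := by field_simp
  rw [h3]
  unfold On
  apply mul_left_cancel₀ (pow_ne_zero 4 h2)
  linear_combination Y * h1 + 16 * Y ^ 2 * hx

lemma sumM_eq {a b x y x0 y0 : L} (hx : x + -x0 ≠ 0) (h : On a b x y) (h0 : On a b x0 y0) :
    ((x * x0 + b) * (x + x0) + 2 * (a * (x * x0) + -(y * y0))) * (x + -x0)⁻¹ ^ 2 =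
      ((y + -y0) * (x + -x0)⁻¹) ^ 2 + -(a + (x + x0)) := by
  unfold On at *
  field_simp
  linear_combination -h - h0

lemma sumP_eq {a b x y x0 y0 : L} (hx : x ≠ 0) (hy : y ≠ 0) (h : On a b x y)
    (h1 : 1 + -(x0 * x⁻¹) ≠ 0) : x + -x0 ≠ 0 ∧
    ((x0 + b * x⁻¹) * (1 + x0 * x⁻¹) + 2 * (a * (x0 * x⁻¹) +
      y0 * (-x / y) * (1 + x⁻¹ * (a + b * x⁻¹)))) * (1 + -(x0 * x⁻¹))⁻¹ ^ 2 =
    ((x * x0 + b) * (x + x0) + 2 * (a * (x * x0) + -(y * y0))) * (x + -x0)⁻¹ ^ 2 := by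
  have h2 : 1 + -(x0 * x⁻¹) = (x + -x0) * x⁻¹ := by field_simp
  have h3 : x + -x0 ≠ 0 := left_ne_zero_of_mul (h2 ▸ h1)
  have h4 : -x / y * (1 + x⁻¹ * (a + b * x⁻¹)) = -(y * x⁻¹ ^ 2) := by
    unfold On at h
    field_simp
    linear_combination h
  refine ⟨h3, ?_⟩
  rw [h2, mul_assoc y0, h4]
  field_simp

/-! ### rational numbers with odd denominator -/

lemma q2_split {k : ℕ} {x : L} {t : ℤ} (h : Q2 k (x - (t : L))) :
    Q2 (k + 1) (x - (t : L)) ∨ Q2 (k + 1) (x - ((t + 2 ^ k : ℤ) : L)) := by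
  obtain ⟨a, b, hb, h⟩ := h
  rcases Int.even_or_odd' a with ⟨c, rfl | rfl⟩
  · exact Or.inl ⟨c, b, hb, by push_cast at h; rw [h]; ring⟩
  · obtain ⟨d, rfl⟩ := hb
    exact Or.inr ⟨c - d, 2 * d + 1, odd_two_mul_add_one d, by
      push_cast at h ⊢; linear_combination h⟩

lemma q2_P {p : Place L} {D : Loc} (hV : Valid p D) {k : ℕ} {x : L} (h : Q2 k x) :
    P p.v (D.e * k) x := by
  obtain ⟨a, b, hb, h⟩ := h
  have he : (0 : ℤ) < p.e := by exact_mod_cast hV.epos
  have h1 : P p.v (D.e * k) (x * b) := by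
    rw [h]
    simpa using (hV.Pz k).mul0 (P.int p.v a)
  simpa using h1.of_mul_exact (exact_odd hV.h2 he hb)

lemma discB_mem {p : Place L} {D : Loc} (hV : Valid p D) {k : ℕ} {x : L} {t : ℤ}
    (h : Q2 k (x - (t : L))) : (discB D t k).mem p D x := nearB_mem hV t _ (q2_P hV h)

lemma q2_odd [CharZero L] {k k0 : ℕ} {x : L} {t0 p q : ℤ} (h : Q2 k0 (x - (t0 : L))) (hk : k ≤ k0)
    (hm : (q * t0 - p) % 2 ^ k = 0) (h0 : (q : L) * x - p ≠ 0) :
    ∃ j, Q2odd (k + j) ((q : L) * x - p) := by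
  obtain ⟨a, b, hb, h⟩ := h
  obtain ⟨c, hc⟩ := Int.dvd_of_emod_eq_zero hm
  obtain ⟨m, rfl⟩ := Nat.exists_eq_add_of_le hk
  have hc' : (q : L) * t0 - p = 2 ^ k * c := by exact_mod_cast hc
  have h1 : ((q : L) * x - p) * b = 2 ^ k * ((q * 2 ^ m * a + c * b : ℤ) : L) := by
    push_cast
    linear_combination (q : L) * h + (b : L) * hc'
  have hb0 : (b : L) ≠ 0 := by
    have : b ≠ 0 := by rintro rfl; exact absurd hb (by decide)
    exact_mod_cast this
  have hA : q * 2 ^ m * a + c * b ≠ 0 := fun e => by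
    rw [e, Int.cast_zero, mul_zero] at h1
    exact mul_ne_zero h0 hb0 h1
  obtain ⟨j, A, hA1, hA2⟩ := WfDvdMonoid.max_power_factor' hA (x := 2) (by decide)
  refine ⟨j, A, b, Int.not_even_iff_odd.1 (by rwa [even_iff_two_dvd]), hb, ?_⟩
  rw [h1, hA2]
  push_cast
  ring

lemma q2_of_odd {k : ℕ} {x : L} (h : Q2odd k x) : Q2 (k + 1) (x - ((2 ^ k : ℤ) : L)) := by
  obtain ⟨_, _, ⟨c, rfl⟩, ⟨d, rfl⟩, h⟩ := h
  exact ⟨c - d, 2 * d + 1, odd_two_mul_add_one d, by push_cast at h ⊢; linear_combination h⟩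

/-! ### odd roots -/

section
variable {v : Valuation L Gam} {p : Place L} {D : Loc}

lemma P0_pow {a : L} (ha : P v 0 a) (m : ℕ) : P v 0 (a ^ m) := by simpa using ha.pow m

lemma pow_sub {a b : L} (ha : P v 0 a) (hb : P v 0 b) (h : P v 1 (a - b)) (m : ℕ) :
    P v 1 (a ^ m - b ^ m) := by
  induction m with
  | zero => simpa using P.zero v 1
  | succ m ih => exact ((ih.mul0 ha).add (h.mul0 (P0_pow hb m))).congr (by ring)

lemma geom_sub {a : L} (ha : P v 0 a) (h : P v 1 (a - 1)) (m : ℕ) :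
    P v 1 (∑ i ∈ Finset.range m, a ^ i - m) := by
  induction m with
  | zero => simpa using P.zero v 1
  | succ m ih =>
    refine (ih.add (pow_sub ha (P.one v) h m)).congr ?_
    rw [Finset.sum_range_succ]
    push_cast
    ring

lemma P0_root {a : L} {m : ℕ} (h : v (a ^ (m + 1)) = exp (-0)) : P v 0 a := by
  have h0 : a ≠ 0 := fun e => ne_of_exact h (by rw [e, zero_pow (by omega)])
  obtain ⟨k, hk⟩ := exists_exact v h0
  have h1 := exact_pow hk (m + 1)
  rw [h, exp_inj] at h1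
  have h2 : k = 0 := by
    have : k * ((m + 1 : ℕ) : ℤ) = 0 := by omega
    exact (mul_eq_zero.1 this).resolve_right (by positivity)
  exact P.of_eq (h2 ▸ hk)

lemma powB_mem (hV : Valid p D) {a : Ball} {x : L} (ha : a.mem p D x) :
    ∀ k, (powB D a k).mem p D (x ^ k)
  | 0 => by simpa [powB] using numB_mem hV 1
  | k + 1 => by
    rw [pow_succ']
    exact mulB_mem hV ha (powB_mem hV ha k)

lemma orootB_mem (hV : Valid p D) {a b : Ball} {y : L} {k : ℕ} {w w' : Cert}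
    (ha : a.mem p D (y ^ (2 * k + 1))) (h : orootB D k a w w' = some b) : b.mem p D y := by
  obtain ⟨z, h1, h2⟩ := Option.bind_eq_some_iff.1 h
  have hu := certB_mem hV w
  obtain ⟨h3, h4⟩ := invB_mem hV (powB_mem hV hu _) h1
  have h5 := (addB_mem hV (mulB_mem hV ha h4) (numB_mem hV (-1))).lb
  generalize (addB D (mulB D a z) (numB D (-1))).lb = t at h2 h5
  rw [Bool.cond_eq_ite] at h2
  split at h2
  swap
  · cases h2
  rename_i hc
  obtain rfl := Option.some.inj h2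
  simp only [Bool.and_eq_true, decide_eq_true_eq, List.all_eq_true, Bool.or_eq_true,
    Nat.beq_eq] at hc
  obtain ⟨⟨c1, c2⟩, c3⟩ := hc
  have hW := hu.exact hV c1
  have hW0 := ne_of_exact hW
  generalize hWe : w.val p D = W at *
  have h6 : P p.v t ((y / W) ^ (2 * k + 1) - 1) := h5.congr (by
    rw [div_pow, div_eq_mul_inv]; push_cast; ring)
  have h7 : P p.v 0 (y / W) := P0_root (DeepAux.unit_of_near c2 h6)
  obtain ⟨l, l1, l2, l3⟩ := hV.hres _ h7
  have m1 := lv_mem_resL D.K l l2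
  rw [l1, hV.hf] at m1
  have m3 := cert_digits hV l (by
    rw [l1, hV.hf]; exact Nat.le_mul_of_pos_left _ (hV.he ▸ hV.epos)) l2
  have h8 : P p.v 1 (y / W - 1) := by
    rcases c3 _ m1 with e | ⟨e1, e2⟩
    · have m4 := cert_digits hV [1] hV.w.npos (by simp)
      rw [od_cons, od_cons, od_nil, od_nil, mul_zero, mul_zero, add_zero, add_zero, Nat.cast_one,
        Nat.cast_one] at m4
      rwa [← m3, e, m4] at l3
    · have m4 := (addB_mem hV (powB_mem hV (certB_mem hV ⟨0, Nat.ofDigits (2 ^ D.K) l⟩)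
        (2 * k + 1)) (numB_mem hV (-1))).exact hV e1
      rw [e2, m3] at m4
      refine absurd ?_ (not_P_of_exact m4)
      exact ((h6.mono (by omega)).sub (pow_sub h7 (P.ofDigits hV.hga l) l3 (2 * k + 1))).congr
        (by push_cast; ring)
  have he : (0 : ℤ) < p.e := by exact_mod_cast hV.epos
  have h9 := exact_add (exact_odd hV.h2 he (odd_two_mul_add_one (k : ℤ)))
    (geom_sub h7 h8 (2 * k + 1))
  have h10 : P p.v t ((y / W - 1) * ∑ i ∈ Finset.range (2 * k + 1), (y / W) ^ i) :=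
    h6.congr (mul_geom_sum _ _)
  have h11 := h10.of_mul_exact (s := 0) (by rw [← h9]; congr 1; push_cast; ring)
  refine hu.rad ?_
  rw [certB_ctr hV, hWe]
  exact ((h11.mul (P.of_eq hW)).mono (by omega)).congr (by field_simp)

end

variable {pl : List (Place L)} {val : ℕ → L} {n : ℕ} {st : St}

lemma orootAll_mem (hs : StMem pl val n st) {y : L} {k : ℕ} : ∀ {bs cs : List Ball}
    {ws : List (Cert × Cert)}, BsMem pl st bs (y ^ (2 * k + 1)) → orootAll k st bs ws = some cs →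
    BsMem pl st cs y := by
  unfold StMem at hs
  induction hs with
  | nil =>
    rintro (_ | ⟨b, bs⟩) cs ws h1 h2
    · obtain rfl := Option.some.inj h2
      exact ⟨List.Forall₂.nil, rfl⟩
    · cases h1.2
  | cons h0 _ ih =>
    rintro (_ | ⟨b, bs⟩) cs ws h1 h2
    · cases h1.2
    rcases ws with _ | ⟨w, ws⟩
    · cases h2
    obtain ⟨x, e1, e2⟩ := Option.bind_eq_some_iff.1 h2
    obtain ⟨r, e3, rfl⟩ := Option.map_eq_some_iff.1 e2
    obtain ⟨h4, h5⟩ := List.forall₂_cons.1 h1.1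
    obtain ⟨h6, h7⟩ := ih ⟨h5, by simpa using h1.2⟩ e3
    exact ⟨List.Forall₂.cons (orootB_mem h0.1 h4 e1) h6, by simpa using h7⟩

lemma quadOf_spec {G : Prop} {a : Hyp} {i : ℕ} {c b : Expr} (h : quadOf a = some (i, c, b))
    (ha : a.holds pl G val) : val i * (val i - c.eval val) + b.eval val = 0 := by
  unfold quadOf at h
  split at h
  · rename_i i' c1 c2 j b'
    cases hij : Nat.beq i' j
    · simp [hij] at h
    · obtain rfl := Nat.eq_of_beq_eq_true hij
      simp only [hij, cond_true, Option.some.injEq, Prod.mk.injEq] at h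
      obtain ⟨rfl, rfl, rfl⟩ := h
      have h1 : (c1.eval val + -(c2.eval val + val i')) * val i' = b'.eval val := ha
      simp only [sub', Expr.eval]
      linear_combination -h1
  · rename_i i' e
    simp only [Option.some.injEq, Prod.mk.injEq] at h
    obtain ⟨rfl, rfl, rfl⟩ := h
    have h1 : val i' ^ 2 = e.eval val := ha
    simp only [Expr.eval]
    push_cast
    linear_combination h1
  · rename_i c' sd x y
    simp only [Option.some.injEq, Prod.mk.injEq] at h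
    obtain ⟨rfl, rfl, rfl⟩ := h
    have h1 : val y ^ 2 = val x * (val x ^ 2 + val (c'.A sd) * val x + val (c'.Bc sd)) := ha
    simp only [cub, Expr.eval]
    push_cast
    linear_combination h1
  · cases h

lemma newtB_mem {p : Place L} {D : Loc} (hV : Valid p D) {X c b Z : Ball} {x γ β : L}
    {w w' : Cert} (hX : X.mem p D x) (hc : c.mem p D γ) (hb : b.mem p D β)
    (h0 : x * (x - γ) + β = 0) (h : newtB D X c b w w' = some Z) : Z.mem p D x := by
  obtain ⟨z, e1, rfl⟩ := Option.map_eq_some_iff.1 h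
  have hu := certB_mem hV w
  have hd := addB_mem hV hu (negB_mem hV hc)
  obtain ⟨h1, h2⟩ := invB_mem hV (addB_mem hV hX hd) e1
  have h3 := addB_mem hV hu (negB_mem hV (mulB_mem hV (addB_mem hV (mulB_mem hV hu hd) hb) h2))
  generalize w.val p D = u at h1 h3
  have h4 : u + -((u * (u + -γ) + β) * (x + (u + -γ))⁻¹) = x := by
    field_simp
    linear_combination -h0
  rwa [h4] at h3

lemma newtAll_mem (hs : StMem pl val n st) {i : ℕ} {c b : Expr}
    (h0 : val i * (val i - c.eval val) + b.eval val = 0) : ∀ {css : List (List Cert)} {st' : St},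
    newtAll i c b st css = some st' → StMem pl val n st' := by
  unfold StMem at hs ⊢
  induction hs with
  | nil =>
    intro css st' h
    obtain rfl := Option.some.inj h
    exact List.Forall₂.nil
  | cons h1 _ ih =>
    rintro (_ | ⟨_ | ⟨w, _ | ⟨w', cs⟩⟩, css⟩) st' h
    · cases h
    · obtain ⟨r, e1, rfl⟩ := Option.map_eq_some_iff.1 h
      exact List.Forall₂.cons h1 (ih e1)
    · obtain ⟨r, e1, rfl⟩ := Option.map_eq_some_iff.1 h
      exact List.Forall₂.cons h1 (ih e1)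
    · obtain ⟨X, e1, h⟩ := Option.bind_eq_some_iff.1 h
      obtain ⟨x, e2, h⟩ := Option.bind_eq_some_iff.1 h
      obtain ⟨y, e3, h⟩ := Option.bind_eq_some_iff.1 h
      obtain ⟨Z, e4, h⟩ := Option.bind_eq_some_iff.1 h
      obtain ⟨r, e5, rfl⟩ := Option.map_eq_some_iff.1 h
      exact List.Forall₂.cons ⟨h1.1, env_set h1.2.1 (newtB_mem h1.1 (h1.2.1 _ _ e1)
        (evalB_mem h1.1 h1.2.1 _ _ _ e2).1 (evalB_mem h1.1 h1.2.1 _ _ _ e3).1 h0 e4),
        by simpa using h1.2.2⟩ (ih e5)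

lemma mkDP_spec (hs : StMem pl val n st) {c : EC} {iZ iX k : ℕ} : ∀ {rz : List ℤ} {ds : List DP},
    mkDP c iZ iX k st rz = some ds → ds.map DP.D = st.map Prod.fst ∧
      List.Forall₂ (DPok (val c.a) (val c.b) (val c.a') (val c.b')) pl ds ∧
      List.Forall₂ (fun p d => d.Z.mem p d.D (val iZ) ∧ P p.v d.r (val iX)) pl ds := by
  unfold StMem at hs
  induction hs with
  | nil =>
    intro rz ds h
    obtain rfl := Option.some.inj h
    exact ⟨rfl, List.Forall₂.nil, List.Forall₂.nil⟩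
  | cons h0 _ ih =>
    rintro (_ | ⟨r, rz⟩) ds h
    · cases h
    obtain ⟨Z, e1, h⟩ := Option.bind_eq_some_iff.1 h
    obtain ⟨X, e2, h⟩ := Option.bind_eq_some_iff.1 h
    obtain ⟨a, e3, h⟩ := Option.bind_eq_some_iff.1 h
    obtain ⟨b, e4, h⟩ := Option.bind_eq_some_iff.1 h
    obtain ⟨a', e5, h⟩ := Option.bind_eq_some_iff.1 h
    obtain ⟨b', e6, h⟩ := Option.bind_eq_some_iff.1 h
    obtain ⟨l, e7, rfl⟩ := Option.map_eq_some_iff.1 h
    obtain ⟨i1, i2, i3⟩ := ih e7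
    have hE := h0.2.1
    refine ⟨by simp [i1], List.Forall₂.cons ⟨h0.1, (hE _ _ e3).lb, (hE _ _ e4).lb, (hE _ _ e5).lb,
      (hE _ _ e6).lb, hE _ _ e4, hE _ _ e6⟩ i2, List.Forall₂.cons ⟨?_, ?_⟩ i3⟩
    · exact (hE _ _ e1).rad ((hE _ _ e1).hr.mono (imin_le_left _ _))
    · exact (hE _ _ e2).lb.mono (imin_le_left _ _)

lemma evalPat_mem (hs : StMem pl val n st) {a b i x0 y0 : ℕ} {X : L}
    (h2 : val (i + 2) = (val i)⁻¹) (h3 : val (i + 3) = -val i / val (i + 1))
    (hM : (sumM a b i x0 y0).ok val → (sumM a b i x0 y0).eval val = X)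
    (hP : (sumP a b i x0 y0).ok val → (sumP a b i x0 y0).eval val = X) :
    ∀ {rs : List (ℤ × ℤ)} {s : List Bool} {cs : List (List Cert)} {bs : List Ball},
    PatAt (val i) (val (i + 1)) pl rs s → evalPat a b i x0 y0 st rs s cs = some bs →
    BsMem pl st bs X ∧ (st ≠ [] → (sumM a b i x0 y0).ok val ∨ (sumP a b i x0 y0).ok val) := by
  unfold StMem at hs
  induction hs with
  | nil =>
    rintro (_ | ⟨r, rs⟩) (_ | ⟨s, ss⟩) cs bs h1 h <;> try exact h1.elim
    obtain rfl := Option.some.inj h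
    exact ⟨⟨List.Forall₂.nil, rfl⟩, fun h => absurd rfl h⟩
  | cons h0 _ ih =>
    rintro (_ | ⟨r, rs⟩) (_ | ⟨s, ss⟩) cs bs h1 h <;> try exact h1.elim
    rcases cs with _ | ⟨c, cs⟩
    · cases h
    obtain ⟨x, e1, e2⟩ := Option.bind_eq_some_iff.1 h
    obtain ⟨l, e3, rfl⟩ := Option.map_eq_some_iff.1 e2
    obtain ⟨h4, h5⟩ := (ih h1.2 e3).1
    have h6 := h1.1
    cases s
    · obtain ⟨h7, h8⟩ := evalB_mem h0.1 (env_set (env_set h0.2.1 (zeroB_mem h0.1 (h2 ▸ h6.1)))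
        (zeroB_mem h0.1 (h3 ▸ h6.2))) _ c x e1
      exact ⟨⟨List.Forall₂.cons (hP h8 ▸ h7) h4, by simpa using h5⟩, fun _ => Or.inr h8⟩
    · obtain ⟨h7, h8⟩ := evalB_mem h0.1 (env_set (env_set h0.2.1 (zeroB_mem h0.1 h6.1))
        (zeroB_mem h0.1 h6.2)) _ c x e1
      exact ⟨⟨List.Forall₂.cons (hM h8 ▸ h7) h4, by simpa using h5⟩, fun _ => Or.inl h8⟩

lemma ec_desc {G : Prop} {c : EC} (h : (Hyp.ec c).holds pl G val) (sd : Bool) :
    Desc (val (c.A sd)) (val (c.Bc sd)) ((c.G sd).map val) := by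
  cases sd
  · exact h.2.2.1
  · exact h.2.2.2

end Ck

end Pool.Agent.Lib.MP_ab8df0_nt.B
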