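import Pool.Agent.Lib.MP_ab8df0_nt.B.Deep

/-! Bookkeeping for the soundness of the checker: new variables and states. -/

namespace Pool.Agent.Lib.MP_ab8df0_nt.B

open WithZero

namespace Ck

variable {L : Type*} [Field L] {pl : List (Place L)} {G : Prop} {val val' : ℕ → L} {n m : ℕ}
  {st : St} {H : List Hyp}

/-- the two assignments agree below `n` -/
def Agree (n : ℕ) (val val' : ℕ → L) : Prop := ∀ i < n, val' i = val i

lemma eval_agree (h : Agree n val val') : ∀ {e : Expr}, e.bd n = true → e.eval val' = e.eval val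
  | .var i, hb => h i (by simpa [Expr.bd] using hb)
  | .num _, _ => rfl
  | .add a b, hb => by
    simp only [Expr.bd, Bool.and_eq_true] at hb
    simp only [Expr.eval, eval_agree h hb.1, eval_agree h hb.2]
  | .mul a b, hb => by
    simp only [Expr.bd, Bool.and_eq_true] at hb
    simp only [Expr.eval, eval_agree h hb.1, eval_agree h hb.2]
  | .neg a, hb => by simp only [Expr.eval, eval_agree h (e := a) hb]
  | .sq a, hb => by simp only [Expr.eval, eval_agree h (e := a) hb]
  | .inv a, hb => by simp only [Expr.eval, eval_agree h (e := a) hb]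
  | .pol _ a, hb => by simp only [Expr.eval, eval_agree h (e := a) hb]

lemma ebd_mono (h : n ≤ m) : ∀ {e : Expr}, e.bd n = true → e.bd m = true
  | .var i, hb => by
    simp only [Expr.bd, Nat.blt_eq] at hb ⊢
    omega
  | .num _, _ => rfl
  | .add a b, hb => by
    simp only [Expr.bd, Bool.and_eq_true] at hb ⊢
    exact ⟨ebd_mono h hb.1, ebd_mono h hb.2⟩
  | .mul a b, hb => by
    simp only [Expr.bd, Bool.and_eq_true] at hb ⊢
    exact ⟨ebd_mono h hb.1, ebd_mono h hb.2⟩
  | .neg a, hb => ebd_mono h (e := a) hb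
  | .sq a, hb => ebd_mono h (e := a) hb
  | .inv a, hb => ebd_mono h (e := a) hb
  | .pol _ a, hb => ebd_mono h (e := a) hb

lemma bdL_iff {g : List ℕ} : bdL n g = true ↔ ∀ i ∈ g, i < n := by simp [bdL]

omit [Field L] in
lemma map_agree (h : Agree n val val') {g : List ℕ} (hb : bdL n g = true) :
    g.map val' = g.map val :=
  List.map_congr_left fun i hi => h i (bdL_iff.1 hb i hi)

lemma bdL_mono (h : n ≤ m) {g : List ℕ} (hb : bdL n g = true) : bdL m g = true :=
  bdL_iff.2 fun i hi => (bdL_iff.1 hb i hi).trans_le h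

lemma ecbd_iff {c : EC} : c.bd n = true ↔ (c.a < n ∧ c.b < n ∧ c.a' < n ∧ c.b' < n) ∧
    bdL n c.g = true ∧ bdL n c.g' = true := by
  simp [EC.bd, bdL_iff (g := [c.a, c.b, c.a', c.b']), and_assoc]

lemma ecbd_mono (h : n ≤ m) {c : EC} (hb : c.bd n = true) : c.bd m = true := by
  rw [ecbd_iff] at hb ⊢
  exact ⟨by omega, bdL_mono h hb.2.1, bdL_mono h hb.2.2⟩

lemma ecA_lt {c : EC} (hb : c.bd n = true) (sd : Bool) : c.A sd < n := by
  rw [ecbd_iff] at hb
  cases sd <;> simp only [EC.A, cond_true, cond_false] <;> omega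

lemma ecB_lt {c : EC} (hb : c.bd n = true) (sd : Bool) : c.Bc sd < n := by
  rw [ecbd_iff] at hb
  cases sd <;> simp only [EC.Bc, cond_true, cond_false] <;> omega

lemma onbd_iff {c : EC} {sd : Bool} {x y : ℕ} :
    (Hyp.on c sd x y).bd n = true ↔ c.bd n = true ∧ x < n ∧ y < n := by
  simp [Hyp.bd, bdL_iff]

lemma hbd_mono (h : n ≤ m) : ∀ {a : Hyp}, a.bd n = true → a.bd m = true
  | .eq i e, hb => by
    simp only [Hyp.bd, Bool.and_eq_true, Nat.blt_eq] at hb ⊢
    exact ⟨by omega, ebd_mono h hb.2⟩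
  | .lin i e1 e2, hb => by
    simp only [Hyp.bd, Bool.and_eq_true, Nat.blt_eq] at hb ⊢
    exact ⟨⟨by omega, ebd_mono h hb.1.2⟩, ebd_mono h hb.2⟩
  | .sqr i e, hb => by
    simp only [Hyp.bd, Bool.and_eq_true, Nat.blt_eq] at hb ⊢
    exact ⟨by omega, ebd_mono h hb.2⟩
  | .cls e g, hb => by
    simp only [Hyp.bd, Bool.and_eq_true] at hb ⊢
    exact ⟨ebd_mono h hb.1, bdL_mono h hb.2⟩
  | .out e g _, hb => by
    simp only [Hyp.bd, Bool.and_eq_true] at hb ⊢
    exact ⟨ebd_mono h hb.1, bdL_mono h hb.2⟩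
  | .disc i _ _, hb => by
    simp only [Hyp.bd, Nat.blt_eq] at hb ⊢
    omega
  | .piv g _, hb => bdL_mono h (g := g) hb
  | .ec c, hb => ecbd_mono h (c := c) hb
  | .on c _ x y, hb => by
    rw [onbd_iff] at hb ⊢
    exact ⟨ecbd_mono h hb.1, by omega⟩
  | .dq x x0 i _ _ dx, hb => bdL_mono h (g := [x, x0, i, dx]) hb
  | .dz x y i _ _ Z X, hb => bdL_mono h (g := [x, y, i, Z, X]) hb
  | .pw i _ e, hb => by
    simp only [Hyp.bd, Bool.and_eq_true, Nat.blt_eq] at hb ⊢
    exact ⟨by omega, ebd_mono h hb.2⟩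
  | .pat i _ _, hb => by
    simp only [Hyp.bd, Nat.blt_eq] at hb ⊢
    omega

lemma holds_agree (h : Agree n val val') : ∀ {a : Hyp}, a.bd n = true → a.holds pl G val →
    a.holds pl G val'
  | .eq i e, hb, ha => by
    simp only [Hyp.bd, Bool.and_eq_true, Nat.blt_eq] at hb
    simpa only [Hyp.holds, h i hb.1, eval_agree h hb.2] using ha
  | .lin i e1 e2, hb, ha => by
    simp only [Hyp.bd, Bool.and_eq_true, Nat.blt_eq] at hb
    simpa only [Hyp.holds, h i hb.1.1, eval_agree h hb.1.2, eval_agree h hb.2] using ha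
  | .sqr i e, hb, ha => by
    simp only [Hyp.bd, Bool.and_eq_true, Nat.blt_eq] at hb
    simpa only [Hyp.holds, h i hb.1, eval_agree h hb.2] using ha
  | .cls e g, hb, ha => by
    simp only [Hyp.bd, Bool.and_eq_true] at hb
    simpa only [Hyp.holds, eval_agree h hb.1, map_agree h hb.2] using ha
  | .out e g _, hb, ha => by
    simp only [Hyp.bd, Bool.and_eq_true] at hb
    simpa only [Hyp.holds, eval_agree h hb.1, map_agree h hb.2] using ha
  | .disc i _ _, hb, ha => by
    simp only [Hyp.bd, Nat.blt_eq] at hb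
    simpa only [Hyp.holds, h i hb] using ha
  | .piv g _, hb, ha => by simpa only [Hyp.holds, map_agree h (g := g) hb] using ha
  | .ec c, hb, ha => by
    obtain ⟨⟨h1, h2, h3, h4⟩, h5, h6⟩ := ecbd_iff.1 (show c.bd n = true from hb)
    simpa only [Hyp.holds, h _ h1, h _ h2, h _ h3, h _ h4, map_agree h h5, map_agree h h6] using ha
  | .on c sd x y, hb, ha => by
    obtain ⟨h1, h2, h3⟩ := onbd_iff.1 hb
    simpa only [Hyp.holds, h _ h2, h _ h3, h _ (ecA_lt h1 sd), h _ (ecB_lt h1 sd)] using ha
  | .dq x x0 i _ _ dx, hb, ha => by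
    have hb' := bdL_iff.1 (show bdL n [x, x0, i, dx] = true from hb)
    simpa only [Hyp.holds, h x (hb' _ (by simp)), h x0 (hb' _ (by simp)), h i (hb' _ (by simp)),
      h dx (hb' _ (by simp))] using ha
  | .dz x y i _ _ Z X, hb, ha => by
    have hb' := bdL_iff.1 (show bdL n [x, y, i, Z, X] = true from hb)
    simpa only [Hyp.holds, h x (hb' _ (by simp)), h y (hb' _ (by simp)), h i (hb' _ (by simp)),
      h Z (hb' _ (by simp)), h X (hb' _ (by simp))] using ha
  | .pw i _ e, hb, ha => by
    simp only [Hyp.bd, Bool.and_eq_true, Nat.blt_eq] at hb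
    simpa only [Hyp.holds, h i hb.1, eval_agree h hb.2] using ha
  | .pat i _ _, hb, ha => by
    simp only [Hyp.bd, Nat.blt_eq] at hb
    simpa only [Hyp.holds, h i (by omega), h (i + 1) (by omega), h (i + 2) (by omega),
      h (i + 3) hb] using ha

/-! ### environments -/

section Env
variable {p : Place L} {D : Loc} {E : Env} {b : Ball} {i : ℕ}

lemma get_lt (h : E.get i = some b) : i < E.length := by
  by_contra hc
  rw [Env.get, List.getD_eq_default _ _ (by omega)] at h
  cases h

lemma env_agree (h : Agree n val val') (hl : E.length = n) (hE : EnvMem p D val E) :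
    EnvMem p D val' E := fun i b hb => by
  rw [h i (hl ▸ get_lt hb)]
  exact hE i b hb

lemma env_set (hE : EnvMem p D val E) (hb : b.mem p D (val i)) :
    EnvMem p D val (E.set i (some b)) := fun j c hc => by
  by_cases hj : i = j
  · subst hj
    have hl := get_lt hc
    rw [List.length_set] at hl
    simp only [Env.get, List.getD_eq_getElem?_getD, List.getElem?_set_self hl,
      Option.getD_some, Option.some.injEq] at hc
    exact hc ▸ hb
  · simp only [Env.get, List.getD_eq_getElem?_getD, List.getElem?_set_ne hj] at hc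
    exact hE j c (by simpa only [Env.get, List.getD_eq_getElem?_getD] using hc)

lemma env_push (hE : EnvMem p D val E) {o : Option Ball}
    (hb : ∀ b, o = some b → b.mem p D (val E.length)) : EnvMem p D val (E ++ [o]) :=
  fun j c hc => by
  have hl := get_lt hc
  rw [List.length_append, List.length_singleton] at hl
  rcases Nat.lt_succ_iff_lt_or_eq.1 hl with h1 | rfl
  · simp only [Env.get, List.getD_eq_getElem?_getD, List.getElem?_append_left h1] at hc
    exact hE j c (by simpa only [Env.get, List.getD_eq_getElem?_getD] using hc)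
  · simp only [Env.get, List.getD_eq_getElem?_getD, List.getElem?_concat_length,
      Option.getD_some] at hc
    exact hb c hc

end Env

lemma st_agree (h : Agree n val val') (hs : StMem pl val n st) : StMem pl val' n st :=
  List.Forall₂.imp (fun _ _ q => ⟨q.1, env_agree h q.2.2 q.2.1, q.2.2⟩) hs

lemma st_setAll {i : ℕ} (hs : StMem pl val n st) : ∀ {bs : List Ball}, BsMem pl st bs (val i) →
    StMem pl val n (setAll i st bs) := by
  unfold StMem at hs ⊢
  induction hs with
  | nil => intro bs _; cases bs <;> exact List.Forall₂.nil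
  | cons h1 _ ih =>
    rintro (_ | ⟨b, bs⟩) ⟨h2, h3⟩
    · cases h3
    · obtain ⟨h4, h5⟩ := List.forall₂_cons.1 h2
      exact List.Forall₂.cons ⟨h1.1, env_set h1.2.1 h4, by simpa using h1.2.2⟩
        (ih ⟨h5, by simpa using h3⟩)

lemma st_pushAll (hs : StMem pl val n st) : ∀ {bs : List Ball}, BsMem pl st bs (val n) →
    StMem pl val (n + 1) (pushAll st bs) := by
  unfold StMem at hs ⊢
  induction hs with
  | nil => intro bs _; cases bs <;> exact List.Forall₂.nil
  | cons h1 _ ih =>
    rintro (_ | ⟨b, bs⟩) ⟨h2, h3⟩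
    · cases h3
    · obtain ⟨h4, h5⟩ := List.forall₂_cons.1 h2
      refine List.Forall₂.cons ⟨h1.1, env_push h1.2.1 ?_, by simpa using h1.2.2⟩
        (ih ⟨h5, by simpa using h3⟩)
      rintro c ⟨⟩
      exact h1.2.2 ▸ h4

lemma st_pushNone (hs : StMem pl val n st) : StMem pl val (n + 1) (pushNone st) := by
  unfold StMem pushNone at *
  rw [List.forall₂_map_right_iff]
  exact hs.imp fun _ _ q => ⟨q.1, env_push q.2.1 (by rintro c ⟨⟩), by simpa using q.2.2⟩

lemma st_get (hs : StMem pl val n st) : ∀ {j : ℕ} {q : Loc × Env}, st[j]? = some q →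
    ∃ p, Valid p q.1 ∧ EnvMem p q.1 val q.2 ∧ ∀ (i : ℕ) (b : Ball), b.mem p q.1 (val i) →
      StMem pl val n (setAt i b j st) := by
  unfold StMem at hs ⊢
  induction hs with
  | nil => intro j q h; simp at h
  | cons h1 h2 ih =>
    rintro (_ | j) q h
    · obtain rfl : _ = q := by simpa using h
      exact ⟨_, h1.1, h1.2.1, fun i b hb =>
        List.Forall₂.cons ⟨h1.1, env_set h1.2.1 hb, by simpa using h1.2.2⟩ h2⟩
    · obtain ⟨p, h3, h4, h5⟩ := ih (j := j) (q := q) (by simpa using h)
      exact ⟨p, h3, h4, fun i b hb => List.Forall₂.cons h1 (h5 i b hb)⟩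

/-- a new variable that is known at the first place only -/
lemma st_first {q : Loc × Env} (hs : StMem pl val n (q :: st)) : ∃ p, Valid p q.1 ∧
    EnvMem p q.1 val q.2 ∧ ∀ (val' : ℕ → L) (b : Ball), Agree n val val' → b.mem p q.1 (val' n) →
      StMem pl val' (n + 1) (setAt n b 0 (pushNone (q :: st))) := by
  rcases pl with _ | ⟨p, pl⟩
  · cases hs
  obtain ⟨h1, -⟩ := List.forall₂_cons.1 hs
  refine ⟨p, h1.1, h1.2.1, fun val' b ha hb => ?_⟩
  obtain ⟨h2, h3⟩ := List.forall₂_cons.1 (st_pushNone (st_agree ha hs))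
  exact List.Forall₂.cons ⟨h2.1, env_set h2.2.1 hb, by simpa using h2.2.2⟩ h3

lemma st_pushE {e : Expr} {cs : List (List Cert)} {st' : St} (hs : StMem pl val n st)
    (hne : st ≠ []) (h : pushE st e cs = some st') (hv : val n = e.eval val) :
    StMem pl val (n + 1) st' ∧ st' ≠ [] ∧ e.ok val := by
  obtain ⟨bs, h1, rfl⟩ := Option.map_eq_some_iff.1 h
  obtain ⟨h2, h3⟩ := evalAll_mem hs e cs h1
  have h4 := st_pushAll hs (hv ▸ h2)
  refine ⟨h4, fun h0 => hne ?_, h3 hne⟩
  have h5 := List.Forall₂.length_eq h4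
  rw [h0, List.Forall₂.length_eq hs] at h5
  exact List.length_eq_zero_iff.1 h5

lemma bs_map {x : L} {f : Loc → Ball} (hs : StMem pl val n st)
    (h : ∀ p D, Valid p D → (f D).mem p D x) : BsMem pl st (st.map fun q => f q.1) x := by
  refine ⟨?_, by simp⟩
  unfold StMem at hs
  induction hs with
  | nil => exact List.Forall₂.nil
  | cons h1 _ ih => exact List.Forall₂.cons (h _ _ h1.1) ih

lemma bs_ds {x : L} {f : DP → Ball} {ds : List DP}
    (h : List.Forall₂ (fun p d => (f d).mem p d.D x) pl ds) :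
    ∀ {st : St}, ds.map DP.D = st.map Prod.fst → BsMem pl st (ds.map f) x := by
  induction h with
  | nil =>
    rintro (_ | ⟨q, st⟩) h
    · exact ⟨List.Forall₂.nil, rfl⟩
    · cases h
  | cons h1 _ ih =>
    rintro (_ | ⟨q, st⟩) h
    · cases h
    · simp only [List.map_cons, List.cons.injEq] at h
      obtain ⟨h2, h3⟩ := ih h.2
      exact ⟨List.Forall₂.cons (h.1 ▸ h1) h2, by simpa using h3⟩

lemma fst_pushNone (st : St) : (pushNone st).map Prod.fst = st.map Prod.fst := by
  simp [pushNone]

lemma fst_pushAll : ∀ (st : St) (bs : List Ball), bs.length = st.length →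
    (pushAll st bs).map Prod.fst = st.map Prod.fst
  | [], [], _ => rfl
  | [], _ :: _, h => by cases h
  | _ :: _, [], h => by cases h
  | q :: st, b :: bs, h => by
    simp only [pushAll, List.map_cons, fst_pushAll st bs (by simpa using h)]

lemma ne_of_exAll {x : L} {bs : List Ball} (hs : StMem pl val n st) (hb : BsMem pl st bs x)
    (h : exAll bs = true) : x ≠ 0 := by
  rcases bs with _ | ⟨b, bs⟩
  · cases h
  rcases st with _ | ⟨q, st⟩
  · cases hb.2
  rcases pl with _ | ⟨p, pl⟩
  · cases hs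
  exact ne_of_exact ((List.forall₂_cons.1 hb.1).1.exact (List.forall₂_cons.1 hs).1.1 h)

/-! ### the invariant -/

structure Inv (pl : List (Place L)) (G : Prop) (n : ℕ) (H : List Hyp) (st : St) (val : ℕ → L) :
    Prop where
  s : StMem pl val n st
  h : ∀ a ∈ H, a.holds pl G val
  b : ∀ a ∈ H, a.bd n = true

def Snd (pl : List (Place L)) (G : Prop) (t : Tree) : Prop :=
  ∀ (n : ℕ) (H : List Hyp) (st : St) (val : ℕ → L), Inv pl G n H st val → check t n H st = true → G

lemma Inv.agree (hI : Inv pl G n H st val) (h : Agree n val val') : Inv pl G n H st val' :=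
  ⟨st_agree h hI.s, fun a ha => holds_agree h (hI.b a ha) (hI.h a ha), hI.b⟩

lemma Inv.hyp (hI : Inv pl G n H st val) {j : ℕ} {a : Hyp} (h : H[j]? = some a) :
    a.holds pl G val := hI.h a (List.mem_of_getElem? h)

lemma Inv.hb (hI : Inv pl G n H st val) {j : ℕ} {a : Hyp} (h : H[j]? = some a) :
    a.bd n = true := hI.b a (List.mem_of_getElem? h)

lemma Inv.st' (hI : Inv pl G n H st val) {st' : St} (h : StMem pl val n st') :
    Inv pl G n H st' val := ⟨h, hI.h, hI.b⟩

lemma Inv.app (hI : Inv pl G n H st val) {st' : St} (hm : n ≤ m) (h : StMem pl val m st')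
    {H' : List Hyp} (h1 : ∀ a ∈ H', a.holds pl G val ∧ a.bd m = true) :
    Inv pl G m (H ++ H') st' val :=
  ⟨h, fun a ha => (List.mem_append.1 ha).elim (hI.h a) fun h => (h1 a h).1,
    fun a ha => (List.mem_append.1 ha).elim (fun h => hbd_mono hm (hI.b a h)) fun h => (h1 a h).2⟩

lemma Inv.set (hI : Inv pl G n H st val) {st' : St} (h : StMem pl val n st') (j : ℕ) {a : Hyp}
    (h1 : a.holds pl G val) (h2 : a.bd n = true) : Inv pl G n (H.set j a) st' val :=
  ⟨h, fun c hc => (List.mem_or_eq_of_mem_set hc).elim (hI.h c) fun e => e ▸ h1,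
    fun c hc => (List.mem_or_eq_of_mem_set hc).elim (hI.b c) fun e => e ▸ h2⟩

/-- the variables from `n` on are defined by the expressions -/
def Dfs (val : ℕ → L) : ℕ → List Expr → Prop
  | _, [] => True
  | n, e :: es => val n = e.eval val ∧ Dfs val (n + 1) es

def bds : ℕ → List Expr → Prop
  | _, [] => True
  | n, e :: es => e.bd n = true ∧ bds (n + 1) es

lemma exists_dfs : ∀ (es : List Expr) (n : ℕ) (val : ℕ → L), bds n es →
    ∃ val', Agree n val val' ∧ Dfs val' n es
  | [], _, val, _ => ⟨val, fun _ _ => rfl, trivial⟩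
  | e :: es, n, val, h => by
    obtain ⟨val', h1, h2⟩ := exists_dfs es (n + 1) (Function.update val n (e.eval val)) h.2
    have h3 : Agree n val val' := fun i hi => by
      rw [h1 i (by omega), Function.update_of_ne (by omega)]
    exact ⟨val', h3, by rw [h1 n (by omega), Function.update_self, eval_agree h3 h.1], h2⟩

lemma exists_ext (n : ℕ) (val : ℕ → L) (l : List L) :
    ∃ val', Agree n val val' ∧ ∀ k, val' (n + k) = l.getD k 0 :=
  ⟨fun i => if i < n then val i else l.getD (i - n) 0, fun _ hi => if_pos hi, fun k => by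
    simp⟩

end Ck

end Pool.Agent.Lib.MP_ab8df0_nt.B
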