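import Pool.Agent.Lib.MP_ab8df0_nt.B.Lev
import Pool.Agent.Lib.MP_ab8df0_nt.B.TreeDefs

/-! The descent deep in the formal group. -/

namespace Pool.Agent.Lib.MP_ab8df0_nt.B

open WithZero

variable {L : Type*} [Field L]

/-- `x` is `2 ^ k` times a quotient of odd integers -/
def Q2odd (k : ℕ) (x : L) : Prop := ∃ a b : ℤ, Odd a ∧ Odd b ∧ x * (b : L) = 2 ^ k * (a : L)

/-- the fixed facts on the per place data -/
def DPok (a b a' b' : L) (p : Place L) (d : DP) : Prop :=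
  Valid p d.D ∧ P p.v d.la a ∧ P p.v d.lb b ∧ P p.v d.la' a' ∧ P p.v d.lb' b' ∧
    d.b.mem p d.D b ∧ d.b'.mem p d.D b'

/-- a point of the curve deep in the formal group -/
def DeepPt (pl : List (Place L)) (ds : List DP) (a b δ Z x y : L) : Prop :=
  x ≠ 0 ∧ y ≠ 0 ∧ On a b x y ∧ -x / y = δ * Z ∧
    List.Forall₂ (fun p d => d.Z.mem p d.D Z ∧ P p.v d.r x⁻¹) pl ds

namespace DeepAux

section Local

variable {v : Valuation L Gam} {e r t : ℤ} {A B x y z u τ η : L}

lemma unit_of_near (ht : 0 < t) (h : P v t (u - 1)) : v u = exp (-0) := by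
  have := exact_one_add (h.mono ht)
  rwa [add_sub_cancel] at this

lemma inv_near (ht : 0 < t) (h : P v t (u - 1)) : P v t (u⁻¹ - 1) := by
  have h1 := unit_of_near ht h
  have h2 : P v 0 u⁻¹ := by simpa using P.of_eq (exact_inv h1)
  have h3 := ne_of_exact h1
  exact (h.mul0 h2).neg.congr (by field_simp; ring)

lemma mul_near (ht : 0 < t) (h : P v t (u - 1)) (h' : P v t (τ - 1)) : P v t (u * τ - 1) := by
  have h1 : P v 0 τ := by simpa using P.of_eq (unit_of_near ht h')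
  exact ((h.mul0 h1).add h').congr (by ring)

lemma xi_eq (hx : x ≠ 0) (hy : y ≠ 0) (h : On A B x y) :
    x⁻¹ = (-x / y) ^ 2 * (1 + (A * x⁻¹ + B * x⁻¹ ^ 2)) := by
  unfold On at h
  field_simp
  linear_combination h

/-- the size of `1 / x` is given by the size of the local parameter -/
lemma small {la lb α : ℤ} (hx : x ≠ 0) (hy : y ≠ 0) (h : On A B x y) (hA : P v la A)
    (hB : P v lb B) (hξ : P v r x⁻¹) (h1 : 0 < r + la) (h2 : 0 < 2 * r + lb)
    (hz : v (-x / y) = exp (-α)) (h3 : t ≤ 2 * α + la) (h4 : t ≤ 4 * α + lb) :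
    P v t (A * x⁻¹) ∧ P v t (A * x⁻¹ + B * x⁻¹ ^ 2) := by
  have h5 : P v 1 (A * x⁻¹ + B * x⁻¹ ^ 2) :=
    ((hA.mul hξ).mono (by omega)).add ((hB.mul (hξ.pow 2)).mono (by push_cast; omega))
  have h6 := P.of_eq (exact_mul (exact_pow hz 2) (exact_one_add h5))
  rw [← xi_eq hx hy h] at h6
  have h7 := (hA.mul h6).mono (s := t) (by push_cast; omega)
  exact ⟨h7, h7.add ((hB.mul (h6.pow 2)).mono (by push_cast; omega))⟩

lemma plus (h2 : v 2 = exp (-e)) (he : 0 < e) (ht : 2 * e < t) (hu : P v t u) (hη : P v t η)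
    (hτ : P v (t - e) (τ - 1)) : P v (t - 2 * e) ((2 + u + 2 * τ) / 4 * (1 + η)⁻¹ - 1) := by
  have h0 := ne_of_exact h2
  refine mul_near (by omega) ?_ (inv_near (by omega) ((hη.mono (by omega)).congr (by ring)))
  have h1 : P v t (((2 + u + 2 * τ) / 4 - 1) * 2 ^ 2) := by
    refine (hu.add (((P.of_eq h2).mul hτ).mono (by omega))).congr ?_
    have h4 : (4 : L) = 2 ^ 2 := by norm_num
    rw [h4]; field_simp; ring
  exact (h1.of_mul_exact (exact_pow h2 2)).mono (by push_cast; omega)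

end Local

lemma oneB_mem {p : Place L} {D : Loc} (hV : Valid p D) {r : ℤ} {u : L} (h : P p.v r (u - 1)) :
    (oneB D r).mem p D u := by
  have h1 := nearB_mem hV 1 r (x := u) (by simpa using h)
  have h2 := hV.wf
  simp only [Loc.wf, Bool.and_eq_true, decide_eq_true_eq] at h2
  have h3 : 1 < D.M := by
    rw [h2.1.1.1.1.1.1.2]; exact Nat.one_lt_two_pow (by omega)
  rwa [Int.emod_eq_of_lt (by omega) (by exact_mod_cast h3)] at h1

lemma mem_pats : ∀ s : List Bool, s ∈ pats s.length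
  | [] => by simp [pats]
  | false :: s => by simp [pats, mem_pats s]
  | true :: s => by simp [pats, mem_pats s]

lemma dead_or_left {st : St} {ds : List DP} {k : ℕ} {sd : Bool} {g ks : List ℕ} {s : List Bool}
    (hs : ¬ s.all (fun x => !x) = true) : ∀ (l : List (List Bool)) (w : List (List Bool × List Cert)),
    s ∈ l → (∃ a b, clsDead st (patB k sd ds (false :: s)) g ks a b = true) ∨
      (false :: s) ∈ patsLeft st ds k sd g ks l w
  | [], _, h => by simp at h
  | s' :: l, w, h => by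
    unfold patsLeft
    split_ifs with h1
    · exact dead_or_left hs l w ((List.mem_cons.1 h).resolve_left fun e => hs (e ▸ h1))
    · cases w with
      | nil =>
        rcases List.mem_cons.1 h with rfl | h2
        · exact Or.inr List.mem_cons_self
        · exact (dead_or_left hs l [] h2).imp id (List.mem_cons_of_mem _)
      | cons a w =>
        dsimp only
        split_ifs with h3
        · rcases List.mem_cons.1 h with rfl | h2
          · exact Or.inl ⟨_, _, h3⟩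
          · exact dead_or_left hs l w h2
        · rcases List.mem_cons.1 h with rfl | h2
          · exact Or.inr List.mem_cons_self
          · exact (dead_or_left hs l w h2).imp id (List.mem_cons_of_mem _)

/-- the radius used on side `sd` -/
def rh (k : ℕ) (sd : Bool) (d : DP) : ℤ := cond sd (d.rho' k) (d.rho k)

/-- the ball of the pattern at one place -/
def pb (k : ℕ) (sd : Bool) (d : DP) (s : Bool) : Ball :=
  cond s (mulB d.D (cond sd d.b d.b') (oneB d.D (rh k sd d - 2 * d.D.e)))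
    (oneB d.D (rh k sd d - 2 * d.D.e))

/-- the condition of `PatAt` at one place -/
def pa (X Y : L) (p : Place L) (r : ℤ × ℤ) (s : Bool) : Prop :=
  if s = true then P p.v (2 * r.1 + r.2) X ∧ P p.v (r.1 + r.2) Y
  else P p.v (2 * r.1) X⁻¹ ∧ P p.v r.1 (-X / Y)

lemma signs {k : ℕ} {sd : Bool} {X Y : L} {f : DP → ℤ × ℤ} {Q : Place L → DP → Prop}
    {pl : List (Place L)} {ds : List DP} (h : List.Forall₂ (fun p d => ∃ s, (∃ w : L, w ≠ 0 ∧
      (pb k sd d s).mem p d.D (X * w ^ 2)) ∧ (s = false → Q p d) ∧ pa X Y p (f d) s) pl ds) :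
    ∀ st : St, ds.map DP.D = st.map Prod.fst → ∃ s : List Bool, s.length = st.length ∧
      BsMemSq pl st (patB k sd ds s) X ∧ (s.all (fun x => !x) = true → List.Forall₂ Q pl ds) ∧
      PatAt X Y pl (ds.map f) s := by
  induction h with
  | nil =>
    intro st hD
    obtain rfl : st = [] := by simpa using hD.symm
    exact ⟨[], rfl, ⟨by simp [patB], rfl⟩, fun _ => .nil, trivial⟩
  | @cons p d pl ds h1 _ ih =>
    intro st hD
    obtain _ | ⟨q, st⟩ := st
    · simp at hD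
    simp only [List.map_cons, List.cons.injEq] at hD
    obtain ⟨s, h2, h3, h4, h8⟩ := ih st hD.2
    obtain ⟨s0, h5, h6, h9⟩ := h1
    refine ⟨s0 :: s, by simp [h2], ⟨.cons (hD.1 ▸ h5) h3.1, congrArg (· + 1) h3.2⟩, fun h7 => ?_,
      h9, h8⟩
    simp only [List.all_cons, Bool.and_eq_true, Bool.not_eq_true'] at h7
    exact .cons (h6 h7.1) (h4 h7.2)

lemma of_mem {α β : Type*} {R : α → β → Prop} {l : List α} {l' : List β}
    (h : List.Forall₂ R l l') : ∀ a ∈ l, ∃ b, R a b := by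
  induction h with
  | nil => simp
  | cons h1 _ ih =>
    intro a ha
    rcases List.mem_cons.1 ha with rfl | ha
    exacts [⟨_, h1⟩, ih a ha]

lemma inv_exact {v : Valuation L Gam} {X z : L} {α : ℤ} (h : v (X * z ^ 2) = exp (-0))
    (hz : v z = exp (-α)) : P v (2 * α) X⁻¹ := by
  have h0 := ne_of_exact h
  have h1 := P.of_eq (exact_mul (exact_inv h) (exact_pow hz 2))
  have h2 := ne_of_exact hz
  have h3 := left_ne_zero_of_mul h0
  exact (h1.mono (by push_cast; omega)).congr (by field_simp)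

/-- one halving along a 2-isogeny -/
theorem step [CharZero L] {pl : List (Place L)} {val : ℕ → L} {n : ℕ} {st : St}
    (h : StMem pl val n st) (hne : st ≠ []) {ds : List DP} (hD : ds.map DP.D = st.map Prod.fst)
    {A B A2 B2 t : L} (ht : t ≠ 0) (hA : 4 * t ^ 2 * A2 = -2 * A)
    (hB : 16 * t ^ 4 * B2 = A ^ 2 - 4 * B) {g g2 ks ks2 : List ℕ}
    (hd : Desc A B (g.map val)) (hd2 : Desc A2 B2 (g2.map val))
    (hp : Piv pl (g.map val) ks) (hp2 : Piv pl (g2.map val) ks2) {k : ℕ} {sd : Bool}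
    {w : List (List Bool × List Cert)} {G : Prop} (hG : ¬ G) {lo : DP → ℤ}
    (hw : ∀ X Y : L, X ≠ 0 → Y ≠ 0 → On A2 B2 X Y →
      (∃ s ∈ patsLeft st ds k sd g2 ks2 (pats (st.length - 1)) w,
        PatAt X Y pl (ds.map fun d => (d.al k, lo d)) s) → G) {x y : L} (hx : x ≠ 0)
    (hy : y ≠ 0) (hon : On A B x y)
    (hl : List.Forall₂ (fun p d => (Valid p d.D ∧ P p.v (lo d) B2 ∧
      ∃ α, d.al k ≤ α ∧ p.v (t * (-x / y)) = exp (-α)) ∧ (cond sd d.b d.b').mem p d.D B2 ∧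
      2 * (p.e : ℤ) < rh k sd d ∧ P p.v (rh k sd d) (A * x⁻¹) ∧
      P p.v (rh k sd d) (A * x⁻¹ + B * x⁻¹ ^ 2)) pl ds) :
    ∃ τ X Y : L, X ≠ 0 ∧ Y ≠ 0 ∧ On A2 B2 X Y ∧ -X / Y = t * τ * (-x / y) ∧
      List.Forall₂ (fun p d => P p.v (rh k sd d - p.e) (τ - 1) ∧
        p.v (X * (t * (-x / y)) ^ 2) = exp (-0)) pl ds := by
  have hξ := xi_eq hx hy hon
  set η := A * x⁻¹ + B * x⁻¹ ^ 2 with hη
  have hη0 : 1 + η ≠ 0 := fun h0 => inv_ne_zero hx (by rw [hξ, h0, mul_zero])
  have hz : x * (-x / y) ^ 2 = (1 + η)⁻¹ := by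
    refine eq_inv_of_mul_eq_one_left ?_
    rw [mul_assoc, ← hξ, mul_inv_cancel₀ hx]
  obtain ⟨s0, hs0⟩ := square_of_top h hp (hd x y hx hon) fun p hp => by
    obtain ⟨d, -, -, h1, -, h2⟩ := of_mem hl p hp
    refine ⟨-x / y, ?_⟩
    rw [hz]
    exact (inv_near (by omega) (h2.congr (by ring))).mono (by omega)
  have sq : ∀ s : L, x = s * s → (y / (s * x)) ^ 2 - 1 ^ 2 = η := fun s hs => by
    have h0 : s ≠ 0 := fun h0 => hx (by rw [hs, h0, mul_zero])
    have h1 : (y / (s * x)) ^ 2 = (x * (-x / y) ^ 2)⁻¹ := by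
      rw [div_pow, mul_pow, sq s, ← hs]; field_simp
    rw [h1, hz, inv_inv]; ring
  have close : ∀ s : L, x = s * s → ∀ (p : Place L) (d : DP), Valid p d.D → P p.v (rh k sd d) η →
      P p.v (rh k sd d - p.e) (y / (s * x) - 1) ∨ P p.v (rh k sd d - p.e) (-(y / (s * x)) - 1) :=
    fun s hs p d hV h1 => by
      simpa using sqrt_close (m := 0) (w := 1) hV.h2 (by simp) (h1.congr (sq s hs))
  obtain _ | ⟨q, st⟩ := st
  · exact absurd rfl hne
  obtain _ | ⟨d0, ds⟩ := ds
  · simp at hD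
  obtain _ | ⟨p0, pl⟩ := pl
  · cases hl
  simp only [List.map_cons, List.cons.injEq] at hD
  obtain ⟨hl0, hl⟩ := List.forall₂_cons.1 hl
  obtain ⟨s, hs, hτ⟩ : ∃ s, x = s * s ∧ P p0.v (rh k sd d0 - p0.e) (y / (s * x) - 1) := by
    rcases close s0 hs0 p0 d0 hl0.1.1 hl0.2.2.2.2 with h1 | h1
    · exact ⟨s0, hs0, h1⟩
    · exact ⟨-s0, by rw [hs0]; ring, h1.congr (by rw [neg_mul, div_neg])⟩
  have hs' : s ≠ 0 := fun h0 => hx (by rw [hs, h0, mul_zero])
  set τ := y / (s * x) with hτd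
  have hzt : t * (-x / y) ≠ 0 := mul_ne_zero ht (div_ne_zero (neg_ne_zero.2 hx) hy)
  have val : ∀ σ : L, (2 * x + A + 2 * σ * x) / (4 * t ^ 2) * (t * (-x / y)) ^ 2 =
      (2 + A * x⁻¹ + 2 * σ) / 4 * (1 + η)⁻¹ := fun σ => by
    rw [← hz]; field_simp
  set X := (2 * x + A + 2 * τ * x) / (4 * t ^ 2) with hX
  have hτ2 : τ ^ 2 * x ^ 2 = x ^ 2 + A * x + B := by
    have := sq s hs
    rw [← hτd, hη] at this
    field_simp at this
    linear_combination this
  have hX4 : 4 * t ^ 2 * X = 2 * x + A + 2 * τ * x := by rw [hX]; field_simp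
  have hOn : On A2 B2 X (s * X / t) := by
    unfold On
    have h16 : (16 * t ^ 4 : L) ≠ 0 := mul_ne_zero (by norm_num) (pow_ne_zero _ ht)
    have h1 : X ^ 2 + A2 * X + B2 = x * X / t ^ 2 := by
      apply mul_left_cancel₀ h16
      have h2 : 16 * t ^ 4 * (x * X / t ^ 2) = 4 * x * (4 * t ^ 2 * X) := by field_simp; ring
      have h3 : 16 * t ^ 4 * (X ^ 2 + A2 * X + B2) = (4 * t ^ 2 * X) ^ 2 +
          (4 * t ^ 2 * A2) * (4 * t ^ 2 * X) + 16 * t ^ 4 * B2 := by ring
      rw [h2, h3, hA, hB, hX4]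
      linear_combination 4 * hτ2
    rw [h1, hs]; field_simp
  have hbar : X * ((2 * x + A + 2 * (-τ) * x) / (4 * t ^ 2)) = B2 := by
    have h16 : (16 * t ^ 4 : L) ≠ 0 := mul_ne_zero (by norm_num) (pow_ne_zero _ ht)
    apply mul_left_cancel₀ h16
    have h2 : 16 * t ^ 4 * (X * ((2 * x + A + 2 * (-τ) * x) / (4 * t ^ 2))) =
        (4 * t ^ 2 * X) * (2 * x + A + 2 * (-τ) * x) := by field_simp; ring
    rw [h2, hB, hX4]
    linear_combination (-4) * hτ2
  have pl1 : ∀ (p : Place L) (d : DP), Valid p d.D → 2 * (p.e : ℤ) < rh k sd d →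
      P p.v (rh k sd d) (A * x⁻¹) → P p.v (rh k sd d) η → P p.v (rh k sd d - p.e) (τ - 1) →
      (∃ w : L, w ≠ 0 ∧ (pb k sd d false).mem p d.D (X * w ^ 2)) ∧
        P p.v (rh k sd d - p.e) (τ - 1) ∧ p.v (X * (t * (-x / y)) ^ 2) = exp (-0) :=
    fun p d hV h1 h2 h3 h4 => by
      have h5 := plus hV.h2 (by exact_mod_cast hV.epos) h1 h2 h3 h4
      rw [← val] at h5
      exact ⟨⟨_, hzt, oneB_mem hV (hV.he ▸ h5)⟩, h4, unit_of_near (by omega) h5⟩
  obtain ⟨h4, h5⟩ := pl1 p0 d0 hl0.1.1 hl0.2.2.1 hl0.2.2.2.1 hl0.2.2.2.2 hτ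
  have hX0 : X ≠ 0 := left_ne_zero_of_mul (ne_of_exact h5.2)
  have hY0 : s * X / t ≠ 0 := div_ne_zero (mul_ne_zero hs' hX0) ht
  have hXY : -X / (s * X / t) = t * τ * (-x / y) := by rw [hτd]; field_simp
  have pp : ∀ (p : Place L) (d : DP) (α : ℤ), 2 * (p.e : ℤ) < rh k sd d → d.al k ≤ α →
      p.v (t * (-x / y)) = exp (-α) → P p.v (rh k sd d - p.e) (τ - 1) →
      p.v (X * (t * (-x / y)) ^ 2) = exp (-0) → pa X (s * X / t) p (d.al k, lo d) false :=
    fun p d α a1 a2 a3 a4 a5 => by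
      have a6 := P.of_eq (exact_mul (unit_of_near (by omega) a4) a3)
      exact ⟨(inv_exact a5 a3).mono (by dsimp only; omega),
        (a6.mono (by dsimp only; omega)).congr (by rw [hXY]; ring)⟩
  obtain ⟨sg, h1, h2, h3, hpa⟩ := signs (k := k) (sd := sd) (X := X) (Y := s * X / t)
    (f := fun d => (d.al k, lo d))
    (Q := fun p d => P p.v (rh k sd d - p.e) (τ - 1) ∧ p.v (X * (t * (-x / y)) ^ 2) = exp (-0))
    (hl.imp fun p d ⟨⟨hV, b1, α, b2, b3⟩, h1, h2, h3, h4⟩ => by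
      rcases close s hs p d hV h4 with h5 | h5
      · have h6 := pl1 p d hV h2 h3 h4 h5
        exact ⟨false, h6.1, fun _ => h6.2, pp p d α h2 b2 b3 h5 h6.2.2⟩
      · have h6 := plus hV.h2 (by exact_mod_cast hV.epos) h2 h3 h4 h5
        rw [← val] at h6
        have h6' := unit_of_near (by omega) h6
        have h7 := ne_of_exact h6'
        have h8 := mulB_mem hV h1 (oneB_mem hV (hV.he ▸ inv_near (by omega) h6))
        have hXe := (eq_mul_inv_iff_mul_eq₀ (left_ne_zero_of_mul h7)).2 hbar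
        have b4 : P p.v (lo d + 2 * α) X := hXe ▸ b1.mul (inv_exact h6' b3)
        have b5 := exact_mul (unit_of_near (by omega) h5) b3
        refine ⟨true, ⟨(t * (-x / y))⁻¹, inv_ne_zero hzt, ?_⟩, fun h9 => by simp at h9,
          b4.mono (by dsimp only; omega), (P.of_mul_exact (x := s * X / t) (b4.congr ?_) b5).mono
            (by dsimp only; omega)⟩
        · rw [mul_inv, ← mul_assoc, ← inv_pow] at h8
          exact hXe ▸ h8
        · field_simp)
    st hD.2
  by_cases h6 : sg.all (fun x => !x) = true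
  · exact ⟨τ, X, s * X / t, hX0, hY0, hOn, hXY, .cons h5 (h3 h6)⟩
  · rcases dead_or_left (st := q :: st) (ds := d0 :: ds) (k := k) (sd := sd) (g := g2) (ks := ks2)
      h6 (pats ((q :: st).length - 1)) w (by simpa [← h1] using mem_pats sg) with ⟨a, b, h7⟩ | h7
    · exact absurd (hd2 _ _ hX0 hOn) (clsDead_sound h (bs := patB k sd (d0 :: ds) (false :: sg))
        ⟨.cons (hD.1 ▸ h4) h2.1, congrArg (· + 1) h2.2⟩ hp2 h7).2
    · obtain ⟨α, b2, b3⟩ := hl0.1.2.2
      exact absurd (hw X _ hX0 hY0 hOn ⟨_, h7, pp p0 d0 α hl0.2.2.1 b2 b3 hτ h5.2, hpa⟩) hG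

lemma and₂ {α β : Type*} {R S : α → β → Prop} {l : List α} {l' : List β}
    (h : List.Forall₂ R l l') (h' : List.Forall₂ S l l') :
    List.Forall₂ (fun a b => R a b ∧ S a b) l l' := by
  induction h with
  | nil => exact .nil
  | cons h1 _ ih =>
    obtain ⟨h2, h3⟩ := List.forall₂_cons.1 h'
    exact .cons ⟨h1, h2⟩ (ih h3)

lemma q2_exact {p : Place L} {D : Loc} (hV : Valid p D) {k : ℕ} {δ : L} (h : Q2odd k δ) :
    p.v δ = exp (-(p.e * k : ℤ)) := by
  obtain ⟨a, b, ha, hb, h⟩ := h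
  have he : (0 : ℤ) < p.e := by exact_mod_cast hV.epos
  have h1 := exact_mul (exact_pow hV.h2 k) (exact_odd hV.h2 he ha)
  rw [← h, map_mul, exact_odd hV.h2 he hb] at h1
  simpa using h1

end DeepAux

open DeepAux in
theorem deep_core [CharZero L] {pl : List (Place L)} {val : ℕ → L} {n : ℕ} {st : St}
    (h : StMem pl val n st) (hne : st ≠ []) {ds : List DP} (hD : ds.map DP.D = st.map Prod.fst)
    {a b a' b' : L} (hds : List.Forall₂ (DPok a b a' b') pl ds)
    (ha' : a' = -2 * a) (hb' : b' = a ^ 2 - 4 * b) {g g' ks ks' : List ℕ}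
    (hd : Desc a b (g.map val)) (hd' : Desc a' b' (g'.map val))
    (hp : Piv pl (g.map val) ks) (hp' : Piv pl (g'.map val) ks') {k : ℕ}
    (hok : ds.all (fun d => d.ok k) = true) {w w' : List (List Bool × List Cert)}
    {G : Prop} (hG : ¬ G)
    (hw : ∀ X Y : L, X ≠ 0 → Y ≠ 0 → On a' b' X Y →
      (∃ s ∈ patsLeft st ds k false g' ks' (pats (st.length - 1)) w,
        PatAt X Y pl (ds.map fun d => (d.al k, d.lb')) s) → G)
    (hw' : ∀ X Y : L, X ≠ 0 → Y ≠ 0 → On a b X Y →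
      (∃ s ∈ patsLeft st ds k true g ks (pats (st.length - 1)) w',
        PatAt X Y pl (ds.map fun d => (d.al k, d.lb)) s) → G) :
    ∀ (j : ℕ) (δ Z x y : L), Q2odd (k + j) δ → DeepPt pl ds a b δ Z x y →
      ∃ δ' Z' x' y' : L, Q2odd k δ' ∧ DeepPt pl ds a b δ' Z' x' y' := by
  intro j
  induction j with
  | zero => exact fun δ Z x y h1 h2 => ⟨δ, Z, x, y, h1, h2⟩
  | succ j ih =>
    rintro δ Z x y hδ ⟨hx, hy, hon, hz, hl⟩
    have hδ' : Q2odd (k + j) (δ / 2) := by
      obtain ⟨u, v, hu, hv, h1⟩ := hδ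
      exact ⟨u, v, hu, hv, by rw [← add_assoc, pow_succ] at h1; linear_combination h1 / 2⟩
    have H : List.Forall₂ (fun p d => (DPok a b a' b' p d ∧ d.Z.mem p d.D Z ∧ P p.v d.r x⁻¹) ∧
        d.ok k = true) pl ds :=
      (((List.forall₂_and_left _ _).2 ⟨fun d hd => List.all_eq_true.1 hok d hd,
        (and₂ hds hl).flip⟩).flip).imp fun _ _ h => ⟨h.2, h.1⟩
    obtain ⟨τ, X, Y, hX, hY, hon1, hz1, hl1⟩ := step h hne hD (t := 1 / 2) (A2 := a') (B2 := b')
      (by norm_num) (by rw [ha']; ring) (by rw [hb']; ring) hd hd' hp hp' hG hw hx hy hon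
      (H.imp fun p d ⟨⟨⟨hV, h1, h2, _, h9, _, h3⟩, h4, h5⟩, h6⟩ => by
        simp only [DP.ok, Bool.and_eq_true, decide_eq_true_eq] at h6
        have h7 := exact_mul (q2_exact hV hδ) (h4.exact hV (by tauto))
        rw [← hz] at h7
        have h8 : d.al (k + 1) ≤ p.e * (k + (j + 1) : ℕ) + d.Z.m := by
          rw [DP.al, ← hV.he]; push_cast; nlinarith [Int.natCast_nonneg p.e, Int.natCast_nonneg j]
        refine ⟨⟨hV, h9, p.e * (k + j : ℕ) + d.Z.m, ?_, ?_⟩, h3, by rw [hV.he]; tauto,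
          small hx hy hon h1 h2 h5 (by tauto) (by tauto) h7
          ((imin_le_left _ _).trans (by omega)) ((imin_le_right _ _).trans (by omega))⟩
        · rw [DP.al, ← hV.he]; push_cast; nlinarith [Int.natCast_nonneg p.e, Int.natCast_nonneg j]
        · rw [← exact_mul (q2_exact hV hδ') (h4.exact hV (by tauto)), hz]; congr 1; ring)
    have hz2 : -X / Y = δ / 2 * (Z * τ) := by rw [hz1, hz]; ring
    have H1 : List.Forall₂ (fun p d => (DPok a b a' b' p d ∧ d.ok k = true) ∧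
        d.Z.mem p d.D (Z * τ) ∧ P p.v (2 * d.al k) X⁻¹ ∧
        ∃ α, d.al k ≤ α ∧ p.v (-X / Y) = exp (-α)) pl ds :=
      (and₂ H hl1).imp fun p d ⟨⟨⟨h0, h4, _⟩, h6⟩, h1, h2⟩ => by
        refine ⟨⟨h0, h6⟩, ?_⟩
        have hV := h0.1
        simp only [DP.ok, Bool.and_eq_true, decide_eq_true_eq] at h6
        have h3 := h4.exact hV (by tauto)
        have h8 : d.al k ≤ p.e * (k + j : ℕ) + d.Z.m := by
          rw [DP.al, ← hV.he]; push_cast; nlinarith [Int.natCast_nonneg p.e, Int.natCast_nonneg j]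
        have h9 : d.Z.mem p d.D (Z * τ) := h4.near ((((P.of_eq h3).mul h1).mono (by
          have := h6.1.2; simp only [rh, cond_false, hV.he]; omega)).congr (by ring))
        refine ⟨h9, (inv_exact h2 (α := p.e * (k + j : ℕ) + d.Z.m) ?_).mono (by omega), _, h8, ?_⟩
        · rw [← exact_mul (q2_exact hV hδ') h3, hz]; congr 1; ring
        · rw [hz2, exact_mul (q2_exact hV hδ') (h9.exact hV (by tauto))]
    obtain ⟨τ', X', Y', hX', hY', hon2, hz3, hl2⟩ := step h hne hD (t := 1) (A2 := a) (B2 := b)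
      one_ne_zero (by rw [ha']; ring) (by rw [ha', hb']; ring) hd' hd hp' hp hG hw' hX hY hon1
      (H1.imp fun p d ⟨⟨⟨hV, _, h9, h1, h2, h3, _⟩, h6⟩, _, h5, α, h8, h7⟩ => by
        simp only [DP.ok, Bool.and_eq_true, decide_eq_true_eq] at h6
        refine ⟨⟨hV, h9, α, h8, by rw [one_mul, h7]⟩, h3, by rw [hV.he]; tauto,
          small hX hY hon1 h1 h2 h5 (by tauto)
          (by have := h6.1.1.2; omega) h7
          ((imin_le_left _ _).trans (by omega)) ((imin_le_right _ _).trans (by omega))⟩)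
    refine ih (δ / 2) (Z * τ * τ') X' Y' hδ' ⟨hX', hY', hon2, by rw [hz3, hz2]; ring,
      (and₂ H1 hl2).imp fun p d ⟨⟨⟨h0, h6⟩, h4, _, α, h8, h7⟩, h1, h2⟩ => ?_⟩
    have hV := h0.1
    simp only [DP.ok, Bool.and_eq_true, decide_eq_true_eq] at h6
    refine ⟨h4.near ((((P.of_eq (h4.exact hV (by tauto))).mul h1).mono (by
      have := h6.2; simp only [rh, cond_true, hV.he]; omega)).congr (by ring)),
      (inv_exact h2 (by rw [one_mul, h7])).mono ?_⟩
    have : d.r ≤ 2 * d.al k := by tauto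
    omega

end Pool.Agent.Lib.MP_ab8df0_nt.B
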