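import Mathlib

/-! A checker for 2-adic computations in a field with finitely many discrete valuations above 2.
This file holds the definitions only: local models, balls, expressions, square class levels,
hypotheses and proof trees. -/

namespace Pool.Agent.Lib.MP_ab8df0_nt.B

open WithZero

abbrev Gam := WithZero (Multiplicative ℤ)

variable {L : Type*} [Field L]

/-- `x` has valuation at least `r` -/
def P (v : Valuation L Gam) (r : ℤ) (x : L) : Prop := v x ≤ exp (-r)

/-- a valuation above 2 with a local generator `ga`, a uniformizer `pi`, ramification index `e`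
and residue degree `f` -/
structure Place (L : Type*) [Field L] where
  v : Valuation L Gam
  ga : L
  pi : L
  e : ℕ
  f : ℕ

/-- numerical data of a local model; polynomials in `ga` are stored as one number in base `2 ^ K` -/
structure Loc where
  e : ℕ
  f : ℕ
  N : ℕ
  K : ℕ
  fast : Bool
  M : ℕ
  Bn : ℕ
  Bf : ℕ
  onesn : ℕ
  maskn : ℕ
  mask2 : ℕ
  fneg : ℕ
  finv : ℕ
  gneg : ℕ
  ginv : ℕ
  W : ℕ
  T : ℕ

def Loc.n (D : Loc) : ℕ := D.e * D.f

def ones (K k : ℕ) : ℕ := Nat.ofDigits (2 ^ K) (List.replicate k 1)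

def Loc.wf (D : Loc) : Bool :=
  decide (0 < D.e) && decide (0 < D.f) && decide (2 < D.N) &&
  decide ((2 * D.n + 2) * 2 ^ (2 * D.N) ≤ 2 ^ D.K) && decide (D.M = 2 ^ D.N) &&
  decide (D.Bn = 2 ^ (D.K * D.n)) && decide (D.Bf = 2 ^ (D.K * D.f)) &&
  decide (D.onesn = ones D.K D.n) && decide (D.maskn = (2 ^ D.N - 1) * ones D.K D.n) &&
  decide (D.mask2 = (2 ^ D.N - 1) * ones D.K (2 * D.n)) && decide (D.fneg / D.Bn = D.M - 1)

/-- `x` encodes the coefficient list `l` -/
def Rep (D : Loc) (k x : ℕ) (l : List ℕ) : Prop :=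
  l.length ≤ k ∧ (∀ c ∈ l, c < 2 ^ D.N) ∧ x = Nat.ofDigits (2 ^ D.K) l

/-- the field element encoded by `x` -/
def dec (p : Place L) (D : Loc) (x : ℕ) : L := Nat.ofDigits p.ga (Nat.digits (2 ^ D.K) x)

structure Valid (p : Place L) (D : Loc) : Prop where
  wf : D.wf = true
  he : p.e = D.e
  hf : p.f = D.f
  hga : P p.v 0 p.ga
  h2 : p.v 2 = exp (-(p.e : ℤ))
  hpi : p.v p.pi = exp (-1)
  hfast : D.fast = true → (D.f = 1 ∧ p.pi = p.ga) ∨ D.e = 1
  hF : ∃ l, Rep D (D.n + 1) D.fneg l ∧ P p.v (D.e * D.N) (Nat.ofDigits p.ga l)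
  hG : D.fast = false → ∃ l, Rep D (D.f + 1) D.gneg l ∧
    P p.v (D.e * D.N) (Nat.ofDigits p.ga l + p.pi)
  hind : ∀ l : List ℕ, l.length ≤ p.f → (∀ c ∈ l, c < 2) → (∃ c ∈ l, c ≠ 0) →
    p.v (Nat.ofDigits p.ga l) = 1
  hres : ∀ x, P p.v 0 x → ∃ l : List ℕ, l.length = p.f ∧ (∀ c ∈ l, c < 2) ∧
    P p.v 1 (x - Nat.ofDigits p.ga l)

/-- an element of valuation exactly `m` -/
def mu (p : Place L) (m : ℤ) : L := (2 : L) ^ (m / p.e) * p.pi ^ (m % p.e).toNat

/-! ### arithmetic on encoded polynomials -/

/-- `none` if the reduction fails -/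
def mulK (D : Loc) (a b : ℕ) : Option ℕ :=
  let p := (a * b) &&& D.mask2
  let q := (((p >>> (D.K * D.n)) * D.finv) >>> (D.K * (D.n - 2))) &&& D.maskn
  let r := (p + q * D.fneg) &&& D.mask2
  cond (Nat.blt r D.Bn) (some r) none

def toDAux (D : Loc) : ℕ → ℕ → Option ℕ
  | 0, c => cond (Nat.beq c 0) (some 0) none
  | k + 1, c =>
    let q := (((c >>> (D.K * D.f)) * D.ginv) >>> (D.K * (D.n - 1 - D.f))) &&& D.maskn
    let r := (c + q * D.gneg) &&& D.mask2
    cond (Nat.blt r D.Bf) ((toDAux D k q).map fun d => r + D.Bf * d) none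

/-- digits with respect to the basis `ga ^ a * pi ^ b` -/
def toD (D : Loc) (c : ℕ) : Option ℕ := cond D.fast (some c) (toDAux D D.e c)

/-- a guess for the largest power of 2 dividing all coefficients -/
def tz (D : Loc) (x : ℕ) : ℕ :=
  let y1 := x ||| (x >>> (D.K * 8))
  let y2 := y1 ||| (y1 >>> (D.K * 4))
  let y3 := y2 ||| (y2 >>> (D.K * 2))
  let y4 := y3 ||| (y3 >>> D.K)
  (D.T / (Nat.gcd y4 D.M) ^ 10) % 1024

/-- level and leading digit of an encoded polynomial -/
def lead (D : Loc) (c : ℕ) : ℕ × ℕ :=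
  match toD D c with
  | none => (0, 0)
  | some d =>
    let t := d &&& D.onesn
    let b := ((D.W / Nat.gcd t D.Bn) % 1024) / D.f
    cond (Nat.blt b D.e && Nat.beq (t % 2 ^ (D.K * (b * D.f))) 0)
      (b, (t >>> (D.K * (b * D.f))) % D.Bf) (0, 0)

/-! ### balls -/

structure Ball where
  s : ℤ
  c : ℕ
  m : ℤ
  d : ℕ
  r : ℤ

structure Cert where
  s : ℤ
  c : ℕ

def Ball.ctr (p : Place L) (D : Loc) (b : Ball) : L := (2 : L) ^ b.s * dec p D b.c

structure Ball.mem (p : Place L) (D : Loc) (b : Ball) (x : L) : Prop where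
  bd : ∃ l, Rep D D.n b.c l
  hr : P p.v b.r (x - b.ctr p D)
  hm : P p.v b.m (b.ctr p D)
  hd : b.d ≠ 0 → ∃ l : List ℕ, l.length ≤ D.f ∧ (∀ c ∈ l, c < 2) ∧
    b.d = Nat.ofDigits (2 ^ D.K) l ∧ P p.v (b.m + 1) (b.ctr p D - mu p b.m * Nat.ofDigits p.ga l)

def imin (a b : ℤ) : ℤ := if a ≤ b then a else b

/-- lower bound for the valuation of the elements of the ball -/
def Ball.lb (b : Ball) : ℤ := imin b.m b.r

/-- all elements of the ball have valuation exactly `b.m` -/
def Ball.exact (b : Ball) : Bool := !(Nat.beq b.d 0) && decide (b.m < b.r)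

def mk1 (D : Loc) (s : ℤ) (c : ℕ) (r : ℤ) : Ball :=
  match lead D c with
  | (b, d) => ⟨s, c, D.e * s + b, d, r⟩

def mkB (D : Loc) (s : ℤ) (c : ℕ) (r : ℤ) : Ball :=
  cond (Nat.beq c 0) ⟨s, 0, r, 0, r⟩
    (let j := tz D c
     let c1 := (c >>> j) &&& D.maskn
     cond (Nat.ble j D.N && Nat.beq (c1 * 2 ^ j) c) (mk1 D (s + j) c1 r) (mk1 D s c r))

def cap (D : Loc) (s r : ℤ) : ℤ := imin r (D.e * (s + D.N))

def zeroB (r : ℤ) : Ball := ⟨0, 0, r, 0, r⟩

def sh (D : Loc) (c : ℕ) (k : ℕ) : ℕ := cond (Nat.blt k D.N) (c * 2 ^ k) 0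

def addB (D : Loc) (a b : Ball) : Ball :=
  let s := imin a.s b.s
  mkB D s ((sh D a.c (a.s - s).toNat + sh D b.c (b.s - s).toNat) &&& D.maskn)
    (cap D s (imin a.r b.r))

def negB (D : Loc) (a : Ball) : Ball :=
  mkB D a.s ((a.c * (D.M - 1)) &&& D.maskn) (cap D a.s a.r)

def mulB (D : Loc) (a b : Ball) : Ball :=
  match mulK D a.c b.c with
  | none => zeroB (a.lb + b.lb)
  | some c => mkB D (a.s + b.s) c (cap D (a.s + b.s) (imin (a.r + b.lb) (a.m + b.r)))

def sqB (D : Loc) (a : Ball) : Ball :=
  match mulK D a.c a.c with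
  | none => zeroB (a.lb + a.lb)
  | some c => mkB D (a.s + a.s) c (cap D (a.s + a.s) (imin (a.r + a.r) (D.e + a.m + a.r)))

def numB (D : Loc) (z : ℤ) : Ball := mkB D 0 (z % D.M).toNat (D.e * D.N)

/-- the ball around the element named by a certificate -/
def certB (D : Loc) (w : Cert) : Ball := mkB D w.s (w.c &&& D.maskn) (D.e * (w.s + D.N))

def Cert.val (p : Place L) (D : Loc) (w : Cert) : L := (2 : L) ^ w.s * dec p D (w.c &&& D.maskn)

def Ball.rad (b : Ball) (r : ℤ) : Ball := ⟨b.s, b.c, b.m, b.d, r⟩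

def invB (D : Loc) (a : Ball) (w : Cert) : Option Ball :=
  let u := certB D w
  let t := (addB D (mulB D a u) (numB D (-1))).lb
  if 0 < t then some (u.rad (t + u.m)) else none

/-- if `y ^ 2` lies in `a` then `y` or `-y` lies in the result -/
def sqrtB (D : Loc) (a : Ball) (w : Cert) : Option Ball :=
  let u := certB D w
  let t := (addB D a (negB D (mulB D u u))).lb
  cond u.exact (some (u.rad (t - D.e - u.m))) none

def polB (D : Loc) (a : Ball) : List ℤ → Ball
  | [] => zeroB (D.e * D.N)
  | c :: l => addB D (numB D c) (mulB D a (polB D a l))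

/-! ### expressions -/

inductive Expr where
  | var : ℕ → Expr
  | num : ℤ → Expr
  | add : Expr → Expr → Expr
  | mul : Expr → Expr → Expr
  | neg : Expr → Expr
  | sq : Expr → Expr
  | inv : Expr → Expr
  | pol : List ℤ → Expr → Expr
  deriving DecidableEq

/-- Horner evaluation, lowest coefficient first -/
def ev (a : L) : List ℤ → L
  | [] => 0
  | c :: l => (c : L) + a * ev a l

def Expr.eval (val : ℕ → L) : Expr → L
  | .var i => val i
  | .num z => (z : L)
  | .add a b => a.eval val + b.eval val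
  | .mul a b => a.eval val * b.eval val
  | .neg a => -a.eval val
  | .sq a => a.eval val ^ 2
  | .inv a => (a.eval val)⁻¹
  | .pol l a => ev (a.eval val) l

/-- every inverted subexpression is nonzero -/
def Expr.ok (val : ℕ → L) : Expr → Prop
  | .var _ => True
  | .num _ => True
  | .add a b => a.ok val ∧ b.ok val
  | .mul a b => a.ok val ∧ b.ok val
  | .neg a => a.ok val
  | .sq a => a.ok val
  | .inv a => a.ok val ∧ a.eval val ≠ 0
  | .pol _ a => a.ok val

def Expr.bd (n : ℕ) : Expr → Bool
  | .var i => Nat.blt i n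
  | .num _ => true
  | .add a b => a.bd n && b.bd n
  | .mul a b => a.bd n && b.bd n
  | .neg a => a.bd n
  | .sq a => a.bd n
  | .inv a => a.bd n
  | .pol _ a => a.bd n

abbrev Env := List (Option Ball)

def Env.get (E : Env) (i : ℕ) : Option Ball := E.getD i none

def evalB (D : Loc) (E : Env) : Expr → List Cert → Option (Ball × List Cert)
  | .var i, cs => (E.get i).map fun b => (b, cs)
  | .num z, cs => some (numB D z, cs)
  | .add a b, cs => (evalB D E a cs).bind fun x => (evalB D E b x.2).map fun y =>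
      (addB D x.1 y.1, y.2)
  | .mul a b, cs => (evalB D E a cs).bind fun x => (evalB D E b x.2).map fun y =>
      (mulB D x.1 y.1, y.2)
  | .neg a, cs => (evalB D E a cs).map fun x => (negB D x.1, x.2)
  | .sq a, cs => (evalB D E a cs).map fun x => (sqB D x.1, x.2)
  | .inv a, cs => (evalB D E a cs).bind fun x =>
      match x.2 with
      | [] => none
      | w :: ws => (invB D x.1 w).map fun y => (y, ws)
  | .pol l a, cs => (evalB D E a cs).map fun x => (polB D x.1 l, x.2)

def EnvMem (p : Place L) (D : Loc) (val : ℕ → L) (E : Env) : Prop :=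
  ∀ i b, E.get i = some b → b.mem p D (val i)

/-! ### square classes -/

def prodSel : List L → List Bool → L
  | g :: gs, b :: bs => (if b then g else 1) * prodSel gs bs
  | _, _ => 1

/-- `x` is a product of some of the `gs` times a nonzero square -/
def Span (gs : List L) (x : L) : Prop := ∃ sel u, u ≠ 0 ∧ x = prodSel gs sel * u ^ 2

/-- `y` is a square times `1 + mu k * u` where the first `j` digits of `u` vanish -/
def GU (p : Place L) (k j : ℕ) (y : L) : Prop :=
  ∃ (s u : L) (d : List ℕ), s ≠ 0 ∧ y = s ^ 2 * (1 + mu p k * u) ∧ d.length ≤ p.f ∧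
    (∀ i < j, d.getD i 0 % 2 = 0) ∧ P p.v 1 (u - Nat.ofDigits p.ga d)

def topc (e f : ℕ) : ℕ := 3 + (2 * e - 1) * f

/-- the chain of subgroups at one place -/
def G1 (p : Place L) (c : ℕ) (y : L) : Prop :=
  if c = 0 then y ≠ 0
  else if c = 1 then ∃ k : ℤ, p.v y = exp (2 * k)
  else if c < topc p.e p.f then GU p ((c - 2) / p.f + 1) ((c - 2) % p.f) y
  else GU p (2 * p.e + 1) 0 y

/-- the chain of subgroups for a list of places -/
def GG : List (Place L) → ℕ → L → Prop
  | [], _, y => y ≠ 0
  | p :: ps, c, y =>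
    if c < topc p.e p.f then G1 p c y else G1 p (topc p.e p.f) y ∧ GG ps (c - topc p.e p.f) y

/-- all lists of zeros and ones of a given length, encoded -/
def resL (K : ℕ) : ℕ → List ℕ
  | 0 => [0]
  | k + 1 => (resL K k).map (fun x => 2 ^ K * x) ++ (resL K k).map (fun x => 1 + 2 ^ K * x)

/-- index of the first nonzero digit -/
def firstD (K : ℕ) : ℕ → ℕ → ℕ
  | 0, _ => 0
  | k + 1, d => cond (Nat.beq (d % 2 ^ K) 0) (firstD K k (d >>> K) + 1) 0

def unram (D : Loc) (t : Ball) : Bool :=
  (resL D.K D.f).all fun x =>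
    let u := certB D ⟨0, x⟩
    let z := addB D t (mulB D (numB D 4) (addB D (mulB D u u) u))
    z.exact && decide (z.m = 2 * D.e)

/-- the level of the elements of a ball at one place -/
def lev1 (D : Loc) (a : Ball) (w : Cert) : Option ℕ :=
  if a.exact && decide (a.m % 2 = 1) then some 0 else
  let u := certB D w
  let t := addB D (mulB D a (mulB D u u)) (numB D (-1))
  if 2 * (D.e : ℤ) < t.lb then some (topc D.e D.f)
  else if t.exact && decide (0 < t.m) then
    if t.m % 2 = 1 then some (2 + (t.m.toNat - 1) * D.f + firstD D.K D.f t.d)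
    else if decide (t.m = 2 * D.e) && unram D t then some (topc D.e D.f - 1) else none
  else none

/-- the level for a list of places; the flag says that the level is the top one -/
def lev : List (Loc × Ball) → List Cert → Option (ℕ × Bool)
  | [], _ => some (0, true)
  | _ :: _, [] => none
  | q :: qs, w :: ws => (lev1 q.1 q.2 w).bind fun c =>
      if c < topc q.1.e q.1.f then some (c, false)
      else (lev qs ws).map fun x => (topc q.1.e q.1.f + x.1, x.2)

/-- echelon form of a list of generators -/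
def Piv (pl : List (Place L)) (gs : List L) (ks : List ℕ) : Prop :=
  List.Forall₂ (fun g k => GG pl k g ∧ ¬ GG pl (k + 1) g) gs ks ∧ ks.Pairwise (· < ·)

abbrev St := List (Loc × Env)

def StMem (pl : List (Place L)) (val : ℕ → L) (n : ℕ) (st : St) : Prop :=
  List.Forall₂ (fun p q => Valid p q.1 ∧ EnvMem p q.1 val q.2 ∧ q.2.length = n) pl st

/-- multiply a ball by the selected generators -/
def selB (D : Loc) (E : Env) : Ball → List ℕ → List Bool → Option Ball
  | a, g :: gs, true :: bs => (E.get g).bind fun x => selB D E (mulB D a x) gs bs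
  | a, _ :: gs, false :: bs => selB D E a gs bs
  | a, _, _ => some a

def selAll (g : List ℕ) (sub : List Bool) : St → List Ball → Option (List (Loc × Ball))
  | [], [] => some []
  | q :: qs, a :: as => (selB q.1 q.2 a g sub).bind fun x =>
      (selAll g sub qs as).map fun r => (q.1, x) :: r
  | _, _ => none

def clsLev (st : St) (bs : List Ball) (g : List ℕ) (sub : List Bool) (ws : List Cert) :
    Option (ℕ × Bool) := (selAll g sub st bs).bind fun x => lev x ws

def clsDead (st : St) (bs : List Ball) (g ks : List ℕ) (sub : List Bool) (ws : List Cert) : Bool :=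
  match clsLev st bs g sub ws with
  | some (c, false) => !(ks.contains c)
  | _ => false

def clsTriv (st : St) (bs : List Ball) (g : List ℕ) (sub : List Bool) (ws : List Cert) : Bool :=
  match clsLev st bs g sub ws with
  | some (_, true) => true
  | _ => false

/-- evaluate an expression at every place -/
def evalAll (e : Expr) : St → List (List Cert) → Option (List Ball)
  | [], _ => some []
  | _ :: _, [] => none
  | q :: qs, c :: cs => (evalB q.1 q.2 e c).bind fun x => (evalAll e qs cs).map fun r => x.1 :: r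

def BsMem (pl : List (Place L)) (st : St) (bs : List Ball) (x : L) : Prop :=
  List.Forall₂ (fun p (q : (Loc × Env) × Ball) => q.2.mem p q.1.1 x) pl (st.zip bs) ∧
    bs.length = st.length

/-- up to a square that may depend on the place -/
def BsMemSq (pl : List (Place L)) (st : St) (bs : List Ball) (x : L) : Prop :=
  List.Forall₂ (fun p (q : (Loc × Env) × Ball) => ∃ w : L, w ≠ 0 ∧ q.2.mem p q.1.1 (x * w ^ 2))
    pl (st.zip bs) ∧ bs.length = st.length

def pivs (st : St) : List ℕ → List (List Cert) → Option (List ℕ)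
  | [], _ => some []
  | _ :: _, [] => none
  | g :: gs, w :: ws => (evalAll (.var g) st (st.map fun _ => [])).bind fun bs =>
      match clsLev st bs [] [] w with
      | some (c, false) => (pivs st gs ws).map fun r => c :: r
      | _ => none

def incr : List ℕ → Bool
  | a :: b :: l => Nat.blt a b && incr (b :: l)
  | _ => true

end Pool.Agent.Lib.MP_ab8df0_nt.B
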