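import Pool.Agent.Lib.MP_ab8df0_nt.B.Val

/-! Polynomials encoded as numbers in base `2 ^ K`. -/

namespace Pool.Agent.Lib.MP_ab8df0_nt.B

open WithZero

variable {L : Type*} [Field L]

lemma od_cons {R : Type*} [Semiring R] (x : R) (c : ℕ) (l : List ℕ) :
    Nat.ofDigits x (c :: l) = c + x * Nat.ofDigits x l := rfl

lemma od_nil {R : Type*} [Semiring R] (x : R) : Nat.ofDigits x [] = 0 := rfl

def evS (β : ℕ → L) : ℕ → List ℕ → L
  | _, [] => 0
  | k, c :: l => c * β k + evS β (k + 1) l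

lemma evS_pow (x : L) (l : List ℕ) : ∀ k, evS (x ^ ·) k l = x ^ k * Nat.ofDigits x l := by
  induction l with
  | nil => intro k; simp [evS, od_nil]
  | cons c l ih => intro k; rw [evS, ih, od_cons]; ring

lemma evS_of_zero (β : ℕ → L) {B : ℕ} (hB : 0 < B) (l : List ℕ) :
    ∀ k, Nat.ofDigits B l = 0 → evS β k l = 0 := by
  induction l with
  | nil => intro k _; rfl
  | cons c l ih =>
    intro k h
    rw [Nat.ofDigits_cons] at h
    have h1 : c = 0 := by omega
    have h2 : B * Nat.ofDigits B l = 0 := by omega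
    rw [evS, ih _ ((Nat.mul_eq_zero.1 h2).resolve_left hB.ne'), h1]; simp

lemma evS_uniq (β : ℕ → L) {B : ℕ} (hB : 0 < B) (l1 : List ℕ) : ∀ (l2 : List ℕ) (k : ℕ),
    (∀ c ∈ l1, c < B) → (∀ c ∈ l2, c < B) → Nat.ofDigits B l1 = Nat.ofDigits B l2 →
    evS β k l1 = evS β k l2 := by
  induction l1 with
  | nil => intro l2 k _ _ h; exact (evS_of_zero β hB l2 k h.symm).symm
  | cons c l ih =>
    intro l2 k h1 h2 h
    cases l2 with
    | nil => exact evS_of_zero β hB _ k h
    | cons c' l' =>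
      rw [Nat.ofDigits_cons, Nat.ofDigits_cons] at h
      have hc := h1 c (by simp)
      have hc' := h2 c' (by simp)
      have e1 : c = c' := by
        have := congrArg (· % B) h
        simpa [Nat.add_mul_mod_self_left, Nat.mod_eq_of_lt hc, Nat.mod_eq_of_lt hc'] using this
      subst e1
      have e2 := Nat.eq_of_mul_eq_mul_left hB (Nat.add_left_cancel h)
      rw [evS, evS, ih l' (k + 1) (fun c hc => h1 c (by simp [hc])) (fun c hc => h2 c (by simp [hc])) e2]

lemma od_uniq (x : L) {B : ℕ} (hB : 0 < B) {l1 l2 : List ℕ} (h1 : ∀ c ∈ l1, c < B)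
    (h2 : ∀ c ∈ l2, c < B) (h : Nat.ofDigits B l1 = Nat.ofDigits B l2) :
    Nat.ofDigits x l1 = Nat.ofDigits x l2 := by
  have := evS_uniq (x ^ ·) hB l1 l2 0 h1 h2 h
  simpa [evS_pow] using this

lemma evS_split (β : ℕ → L) (j : ℕ) : ∀ (l : List ℕ) (k : ℕ),
    evS β k l = evS β k (l.take j) + evS β (k + j) (l.drop j) := by
  induction j with
  | zero => intro l k; simp [evS]
  | succ j ih =>
    intro l k
    cases l with
    | nil => simp [evS]
    | cons c l =>
      rw [List.take_succ_cons, List.drop_succ_cons, evS, evS, ih l (k + 1),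
        show k + 1 + j = k + (j + 1) by omega]; ring

lemma evS_shift {β : ℕ → L} {j : ℕ} {u : L} (h : ∀ k, β (k + j) = u * β k) (l : List ℕ) :
    ∀ k, evS β (k + j) l = u * evS β k l := by
  induction l with
  | nil => intro k; simp [evS]
  | cons c l ih =>
    intro k
    rw [evS, evS, h, show k + j + 1 = k + 1 + j by omega, ih]; ring

lemma evS_congr {β β' : ℕ → L} (l : List ℕ) : ∀ k, (∀ i, k ≤ i → i < k + l.length → β i = β' i) →
    evS β k l = evS β' k l := by
  induction l with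
  | nil => intro k _; rfl
  | cons c l ih =>
    intro k h
    rw [evS, evS, h k le_rfl (by simp), ih (k + 1) fun i h1 h2 => h i (by omega)
      (by simp only [List.length_cons]; omega)]

lemma P.evS {v : Valuation L Gam} {β : ℕ → L} (h : ∀ k, P v 0 (β k)) (l : List ℕ) :
    ∀ k, P v 0 (evS β k l) := by
  induction l with
  | nil => intro k; exact P.zero v 0
  | cons c l ih => intro k; exact ((P.nat v c).mul0 (h k)).add (ih _)

lemma evS_mod {v : Valuation L Gam} {β : ℕ → L} (h : ∀ k, P v 0 (β k)) {r : ℤ} {M : ℕ}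
    (hM : P v r (M : L)) (l : List ℕ) : ∀ k, P v r (evS β k (l.map (· % M)) - evS β k l) := by
  induction l with
  | nil => intro k; simpa [evS] using P.zero v r
  | cons c l ih =>
    intro k
    have h1 : P v r (-((M : L) * ((c / M : ℕ) * β k))) := (hM.mul0 ((P.nat v _).mul0 (h k))).neg
    refine (h1.add (ih (k + 1))).congr ?_
    have h2 : (c : L) = (c % M : ℕ) + M * (c / M : ℕ) := by
      exact_mod_cast congrArg (Nat.cast : ℕ → L) (Nat.mod_add_div c M).symm
    simp only [List.map_cons, evS]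
    linear_combination (-β k) * h2

lemma od_mod {v : Valuation L Gam} {x : L} (h : P v 0 x) {r : ℤ} {M : ℕ}
    (hM : P v r (M : L)) (l : List ℕ) :
    P v r (Nat.ofDigits x (l.map (· % M)) - Nat.ofDigits x l) := by
  have := evS_mod (β := (x ^ ·)) (fun k => by simpa using h.pow k) hM l 0
  simpa [evS_pow] using this

def ladd : List ℕ → List ℕ → List ℕ
  | [], b => b
  | a, [] => a
  | x :: a, y :: b => (x + y) :: ladd a b

def conv : List ℕ → List ℕ → List ℕ
  | [], _ => []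
  | c :: a, b => ladd (b.map (c * ·)) (0 :: conv a b)

section
variable {R : Type*} [CommSemiring R] (x : R)

lemma od_ladd : ∀ a b : List ℕ, Nat.ofDigits x (ladd a b) = Nat.ofDigits x a + Nat.ofDigits x b
  | [], b => by simp [ladd, od_nil]
  | _ :: _, [] => by simp [ladd, od_nil]
  | c :: a, d :: b => by rw [ladd, od_cons, od_cons, od_cons, od_ladd a b]; push_cast; ring

lemma od_smul (c : ℕ) (b : List ℕ) : Nat.ofDigits x (b.map (c * ·)) = c * Nat.ofDigits x b := by
  induction b with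
  | nil => simp [od_nil]
  | cons d b ih => rw [List.map_cons, od_cons, od_cons, ih]; push_cast; ring

lemma od_conv (a b : List ℕ) : Nat.ofDigits x (conv a b) = Nat.ofDigits x a * Nat.ofDigits x b := by
  induction a with
  | nil => simp [conv, od_nil]
  | cons c a ih => rw [conv, od_ladd, od_smul, od_cons, od_cons, ih]; push_cast; ring

end

lemma len_ladd : ∀ a b : List ℕ, (ladd a b).length = max a.length b.length
  | [], b => by simp [ladd]
  | _ :: _, [] => by simp [ladd]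
  | c :: a, d :: b => by simp [ladd, len_ladd a b]

lemma bd_ladd {X Y : ℕ} : ∀ a b : List ℕ, (∀ c ∈ a, c ≤ X) → (∀ c ∈ b, c ≤ Y) →
    ∀ c ∈ ladd a b, c ≤ X + Y
  | [], b, _, hb => fun c hc => (hb c (by simpa [ladd] using hc)).trans (by omega)
  | x :: a, [], ha, _ => fun c hc => (ha c (by simpa [ladd] using hc)).trans (by omega)
  | x :: a, y :: b, ha, hb => fun c hc => by
    rw [ladd, List.mem_cons] at hc
    rcases hc with rfl | hc
    · exact Nat.add_le_add (ha x (by simp)) (hb y (by simp))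
    · exact bd_ladd a b (fun c hc => ha c (by simp [hc])) (fun c hc => hb c (by simp [hc])) c hc

lemma len_conv (b : List ℕ) (k : ℕ) (hb : b.length ≤ k + 1) (a : List ℕ) :
    (conv a b).length ≤ a.length + k := by
  induction a with
  | nil => simp [conv]
  | cons c a ih => simp only [conv, len_ladd, List.length_map, List.length_cons]; omega

lemma bd_conv {X Y : ℕ} (b : List ℕ) (hb : ∀ c ∈ b, c ≤ Y) (a : List ℕ) (ha : ∀ c ∈ a, c ≤ X) :
    ∀ c ∈ conv a b, c ≤ a.length * (X * Y) := by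
  induction a with
  | nil => simp [conv]
  | cons d a ih =>
    intro c hc
    have := bd_ladd (X := X * Y) (Y := a.length * (X * Y)) _ _ (fun c hc => by
      obtain ⟨e, he, rfl⟩ := List.mem_map.1 hc
      exact Nat.mul_le_mul (ha d (by simp)) (hb e he)) (fun c hc => by
      rcases List.mem_cons.1 hc with rfl | hc
      · omega
      · exact ih (fun c hc => ha c (by simp [hc])) c hc) c hc
    rw [List.length_cons, Nat.succ_mul]; omega

lemma and_split (K c m x y : ℕ) (hc : c < 2 ^ K) (hm : m < 2 ^ K) :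
    (c + 2 ^ K * x) &&& (m + 2 ^ K * y) = (c &&& m) + 2 ^ K * (x &&& y) := by
  apply Nat.eq_of_testBit_eq
  intro i
  rw [Nat.testBit_and, add_comm c, add_comm m, add_comm (c &&& m),
    Nat.testBit_two_pow_mul_add _ hc, Nat.testBit_two_pow_mul_add _ hm,
    Nat.testBit_two_pow_mul_add _ (Nat.and_lt_two_pow c hm)]
  split <;> simp

lemma mask_succ (K N k : ℕ) : (2 ^ N - 1) * ones K (k + 1) =
    (2 ^ N - 1) + 2 ^ K * ((2 ^ N - 1) * ones K k) := by
  simp only [ones, List.replicate_succ, Nat.ofDigits_cons]; ring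

lemma mask_od {K N : ℕ} (hN : N ≤ K) (k : ℕ) : ∀ l : List ℕ, l.length ≤ k → (∀ c ∈ l, c < 2 ^ K) →
    Nat.ofDigits (2 ^ K) l &&& ((2 ^ N - 1) * ones K k) = Nat.ofDigits (2 ^ K) (l.map (· % 2 ^ N)) := by
  have hp : 2 ^ N ≤ 2 ^ K := Nat.pow_le_pow_right (by omega) hN
  have h0 : 0 < 2 ^ N := by positivity
  induction k with
  | zero => intro l h _; rw [List.length_eq_zero_iff.1 (Nat.le_zero.1 h)]; simp
  | succ k ih =>
    intro l h1 h2
    cases l with
    | nil => simp
    | cons c l =>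
      rw [mask_succ, Nat.ofDigits_cons, and_split _ _ _ _ _ (h2 c (by simp)) (by omega),
        ih l (by simpa using h1) (fun c hc => h2 c (by simp [hc])), Nat.and_two_pow_sub_one_eq_mod,
        List.map_cons, Nat.ofDigits_cons]

lemma mask_any {K N : ℕ} (hN : N ≤ K) (k : ℕ) : ∀ x : ℕ, ∃ l : List ℕ, l.length ≤ k ∧
    (∀ c ∈ l, c < 2 ^ N) ∧ x &&& ((2 ^ N - 1) * ones K k) = Nat.ofDigits (2 ^ K) l := by
  have hp : 2 ^ N ≤ 2 ^ K := Nat.pow_le_pow_right (by omega) hN
  have h0 : 0 < 2 ^ N := by positivity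
  induction k with
  | zero => intro x; exact ⟨[], by simp, by simp, by simp [ones]⟩
  | succ k ih =>
    intro x
    obtain ⟨l, h1, h2, h3⟩ := ih (x / 2 ^ K)
    refine ⟨(x % 2 ^ K % 2 ^ N) :: l, by simpa using h1, ?_, ?_⟩
    · intro c hc
      rcases List.mem_cons.1 hc with rfl | hc
      · exact Nat.mod_lt _ h0
      · exact h2 c hc
    · conv_lhs => rw [← Nat.mod_add_div x (2 ^ K)]
      rw [mask_succ, and_split _ _ _ _ _ (Nat.mod_lt _ (by positivity)) (by omega), h3,
        Nat.and_two_pow_sub_one_eq_mod, Nat.ofDigits_cons]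

variable {p : Place L} {D : Loc}

structure WF (D : Loc) : Prop where
  e : 0 < D.e
  f : 0 < D.f
  N : 2 < D.N
  K : (2 * D.n + 2) * 2 ^ (2 * D.N) ≤ 2 ^ D.K
  M : D.M = 2 ^ D.N
  Bn : D.Bn = 2 ^ (D.K * D.n)
  Bf : D.Bf = 2 ^ (D.K * D.f)
  onesn : D.onesn = ones D.K D.n
  maskn : D.maskn = (2 ^ D.N - 1) * ones D.K D.n
  mask2 : D.mask2 = (2 ^ D.N - 1) * ones D.K (2 * D.n)
  top : D.fneg / D.Bn = D.M - 1

lemma Valid.w (h : Valid p D) : WF D := by
  have := h.wf
  simp only [Loc.wf, Bool.and_eq_true, decide_eq_true_eq] at this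
  obtain ⟨⟨⟨⟨⟨⟨⟨⟨⟨⟨h1, h2⟩, h3⟩, h4⟩, h5⟩, h6⟩, h7⟩, h8⟩, h9⟩, h10⟩, h11⟩ := this
  exact ⟨h1, h2, h3, h4, h5, h6, h7, h8, h9, h10, h11⟩

lemma WF.npos (w : WF D) : 0 < D.n := Nat.mul_pos w.e w.f

lemma WF.big (w : WF D) {c : ℕ} (h : c ≤ (2 * D.n + 1) * (2 ^ D.N * 2 ^ D.N)) : c < 2 ^ D.K := by
  have h1 := w.K
  have h2 : 0 < 2 ^ (2 * D.N) := by positivity
  rw [← pow_add, ← two_mul] at h
  nlinarith

lemma WF.lt (w : WF D) {c : ℕ} (h : c < 2 ^ D.N) : c < 2 ^ D.K := by
  have h2 : 0 < 2 ^ D.N := by positivity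
  exact w.big (by nlinarith [Nat.mul_pos h2 h2, Nat.zero_le (D.n * (2 ^ D.N * 2 ^ D.N))])

lemma WF.NK (w : WF D) : D.N ≤ D.K := by
  have h2 : 0 < 2 ^ D.N := by positivity
  have : 2 ^ D.N < 2 ^ D.K :=
    w.big (by nlinarith [Nat.mul_pos h2 h2, Nat.zero_le (D.n * (2 ^ D.N * 2 ^ D.N))])
  exact (Nat.pow_lt_pow_iff_right (by omega)).1 this |>.le

lemma dec_od (w : WF D) {l : List ℕ} (h : ∀ c ∈ l, c < 2 ^ D.K) :
    dec p D (Nat.ofDigits (2 ^ D.K) l) = Nat.ofDigits p.ga l := by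
  have h1 : 1 < 2 ^ D.K := w.lt (Nat.one_lt_two_pow (by have := w.N; omega))
  exact od_uniq _ (by omega) (fun c hc => Nat.digits_lt_base h1 hc) h (Nat.ofDigits_digits _ _)

lemma Rep.dec (w : WF D) {k x : ℕ} {l : List ℕ} (h : Rep D k x l) :
    dec p D x = Nat.ofDigits p.ga l := by
  rw [h.2.2]; exact dec_od w fun c hc => w.lt (h.2.1 c hc)

lemma Valid.PM (h : Valid p D) : P p.v (D.e * D.N) ((2 ^ D.N : ℕ) : L) := by
  have := h.two_zpow D.N
  rw [h.he] at this
  simpa using P.of_eq this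

/-- masking a bounded list -/
lemma mask_rep (hV : Valid p D) {k : ℕ} {l : List ℕ} (h1 : l.length ≤ k)
    (h2 : ∀ c ∈ l, c ≤ (2 * D.n + 1) * (2 ^ D.N * 2 ^ D.N)) :
    Rep D k (Nat.ofDigits (2 ^ D.K) l &&& ((2 ^ D.N - 1) * ones D.K k)) (l.map (· % 2 ^ D.N)) ∧
    P p.v (D.e * D.N) (Nat.ofDigits p.ga (l.map (· % 2 ^ D.N)) - Nat.ofDigits p.ga l) := by
  refine ⟨⟨by simpa using h1, ?_, mask_od hV.w.NK k l h1 fun c hc => hV.w.big (h2 c hc)⟩,
    od_mod hV.hga hV.PM l⟩
  intro c hc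
  obtain ⟨e, -, rfl⟩ := List.mem_map.1 hc
  exact Nat.mod_lt _ (by positivity)

lemma Rep.shrink (w : WF D) {k j x : ℕ} {l : List ℕ} (h : Rep D k x l) (hx : x < 2 ^ (D.K * j)) :
    Rep D j x (l.take j) := by
  refine ⟨by simp, fun c hc => h.2.1 c (List.mem_of_mem_take hc), ?_⟩
  rw [← Nat.ofDigits_mod_pow_eq_ofDigits_take j (by positivity) l fun c hc => w.lt (h.2.1 c hc),
    ← h.2.2, ← pow_mul, Nat.mod_eq_of_lt hx]

/-- one reduction step: add a multiple of an encoded polynomial and mask -/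
lemma red_spec (hV : Valid p D) {x q F : ℕ} {lx lq lF : List ℕ} (hx : Rep D (2 * D.n) x lx)
    (hq : Rep D D.n q lq) (hF : Rep D (D.n + 1) F lF) :
    ∃ l, Rep D (2 * D.n) ((x + q * F) &&& D.mask2) l ∧ P p.v (D.e * D.N)
      (Nat.ofDigits p.ga l - (Nat.ofDigits p.ga lx + Nat.ofDigits p.ga lq * Nat.ofDigits p.ga lF)) := by
  have h0 : 0 < 2 ^ D.N := by positivity
  have hl : (ladd lx (conv lq lF)).length ≤ 2 * D.n := by
    have := len_conv lF D.n hF.1 lq
    have := hq.1
    have := hx.1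
    rw [len_ladd]; omega
  have hb := bd_ladd (X := 2 ^ D.N) (Y := lq.length * (2 ^ D.N * 2 ^ D.N)) lx (conv lq lF)
    (fun c hc => (hx.2.1 c hc).le)
    (bd_conv lF (fun c hc => (hF.2.1 c hc).le) lq (fun c hc => (hq.2.1 c hc).le))
  have := mask_rep hV hl (fun c hc => (hb c hc).trans (by
    have := Nat.mul_le_mul_right (2 ^ D.N * 2 ^ D.N) hq.1
    nlinarith [Nat.zero_le (D.n * (2 ^ D.N * 2 ^ D.N))]))
  rw [od_ladd, od_conv, od_ladd, od_conv, ← hV.w.mask2] at this
  rw [hx.2.2, hq.2.2, hF.2.2]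
  exact ⟨_, this⟩

lemma maskn_rep (w : WF D) (x : ℕ) : ∃ l, Rep D D.n (x &&& D.maskn) l := by
  rw [w.maskn]; exact mask_any w.NK D.n x

lemma mulK_spec (hV : Valid p D) {a b r : ℕ} {la lb : List ℕ} (ha : Rep D D.n a la)
    (hb : Rep D D.n b lb) (h : mulK D a b = some r) :
    (∃ l, Rep D D.n r l) ∧ P p.v (D.e * D.N) (dec p D r - dec p D a * dec p D b) := by
  have w := hV.w
  have h0 : 0 < 2 ^ D.N := by positivity
  obtain ⟨l1, h1, h2⟩ := red_spec hV (x := 0) (lx := []) ⟨by simp, by simp, rfl⟩ ha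
    ⟨hb.1.trans (Nat.le_succ _), hb.2⟩
  rw [zero_add] at h1
  obtain ⟨lF, hF, hF'⟩ := hV.hF
  simp only [mulK] at h
  obtain ⟨lq, hq⟩ := maskn_rep w (((((a * b) &&& D.mask2) >>> (D.K * D.n)) * D.finv) >>>
    (D.K * (D.n - 2)))
  obtain ⟨l2, h3, h4⟩ := red_spec hV h1 hq hF
  rw [Bool.cond_eq_ite] at h
  split at h
  · rename_i hlt
    rw [Nat.blt_eq, w.Bn] at hlt
    obtain rfl := Option.some.inj h
    refine ⟨⟨_, h3.shrink w hlt⟩, ?_⟩
    rw [h3.dec w, ha.dec w, hb.dec w]
    refine ((h4.add h2).add ((P.ofDigits hV.hga lq).mul0' hF')).congr ?_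
    rw [od_nil]; ring
  · cases h

/-- the basis adapted to the valuation -/
def beta (p : Place L) (D : Loc) (k : ℕ) : L := p.ga ^ (k % D.f) * p.pi ^ (k / D.f)

lemma Valid.Ppi (hV : Valid p D) : P p.v 1 p.pi := P.of_eq hV.hpi

lemma P_beta (hV : Valid p D) (k : ℕ) : P p.v 0 (beta p D k) := by
  have h1 := hV.hga.pow (k % D.f)
  have h2 := (hV.Ppi.mono (show (0 : ℤ) ≤ 1 by omega)).pow (k / D.f)
  simp only [mul_zero] at h1 h2
  exact h1.mul0 h2

lemma beta_shift (w : WF D) (b k : ℕ) : beta p D (k + b * D.f) = p.pi ^ b * beta p D k := by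
  rw [beta, beta, Nat.add_mul_mod_self_right, Nat.add_mul_div_right _ _ w.f, pow_add]; ring

lemma evS_short {l : List ℕ} (h : l.length ≤ D.f) :
    evS (beta p D) 0 l = Nat.ofDigits p.ga l := by
  rw [evS_congr (β' := (p.ga ^ ·)) l 0, evS_pow]; · simp
  intro i _ hi
  have : i < D.f := by omega
  simp [beta, Nat.mod_eq_of_lt this, Nat.div_eq_of_lt this]

lemma toDAux_spec (hV : Valid p D) (hf : D.fast = false) : ∀ (k c d : ℕ) (l : List ℕ),
    Rep D D.n c l → toDAux D k c = some d → ∃ ld, Rep D (k * D.f) d ld ∧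
      P p.v (D.e * D.N) (evS (beta p D) 0 ld - Nat.ofDigits p.ga l) := by
  have w := hV.w
  obtain ⟨lG, hG, hG'⟩ := hV.hG hf
  intro k
  induction k with
  | zero =>
    intro c d l hc h
    simp only [toDAux, Bool.cond_eq_ite, Nat.beq_eq] at h
    split at h
    · rename_i h0
      obtain rfl := Option.some.inj h
      refine ⟨[], ⟨by simp, by simp, rfl⟩, ?_⟩
      rw [← hc.dec w, h0]
      simpa [evS, dec, od_nil] using P.zero p.v _
    · cases h
  | succ k ih =>
    intro c d l hc h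
    simp only [toDAux] at h
    obtain ⟨lq, hq⟩ := maskn_rep w (((c >>> (D.K * D.f)) * D.ginv) >>> (D.K * (D.n - 1 - D.f)))
    have hfn : D.f ≤ D.n := Nat.le_mul_of_pos_left _ w.e
    obtain ⟨l2, h3, h4⟩ := red_spec hV (x := c) ⟨hc.1.trans (by omega), hc.2⟩ hq
      (F := D.gneg) ⟨hG.1.trans (by omega), hG.2⟩
    rw [Bool.cond_eq_ite] at h
    split at h
    · rename_i hlt
      rw [Nat.blt_eq, w.Bf] at hlt
      obtain ⟨d', hd', rfl⟩ := Option.map_eq_some_iff.1 h
      obtain ⟨ld, h5, h6⟩ := ih _ _ _ hq hd'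
      have h7 := h3.shrink w hlt
      set l3 := l2.take D.f ++ List.replicate (D.f - (l2.take D.f).length) 0 with hl3
      have len3 : l3.length = D.f := by have := h7.1; simp only [hl3, List.length_append, List.length_replicate]; omega
      have bd3 : ∀ c ∈ l3, c < 2 ^ D.N := by
        intro c hc
        rcases List.mem_append.1 hc with hc | hc
        · exact h7.2.1 c hc
        · rw [List.eq_of_mem_replicate hc]; positivity
      have r3 : Rep D D.f _ l3 :=
        ⟨len3.le, bd3, h7.2.2.trans (Nat.ofDigits_append_replicate_zero _).symm⟩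
      refine ⟨l3 ++ ld, ⟨by have := h5.1; rw [List.length_append, len3, Nat.succ_mul]; omega, ?_, ?_⟩, ?_⟩
      · intro c hc
        rcases List.mem_append.1 hc with hc | hc
        · exact bd3 c hc
        · exact h5.2.1 c hc
      · rw [Nat.ofDigits_append, ← r3.2.2, ← h5.2.2, len3, w.Bf, pow_mul]
      · rw [evS_split _ D.f, ← len3, List.take_left, List.drop_left, evS_short len3.le, len3,
          ← r3.dec w, h3.dec w]
        have := evS_shift (β := beta p D) (j := D.f) (u := p.pi)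
          (fun k => by simpa using beta_shift (p := p) w 1 k) ld 0
        rw [this]
        refine ((h4.add ((hV.Ppi.mono (by omega)).mul0' h6)).add
          ((P.ofDigits hV.hga lq).mul0' hG')).congr (by ring)
    · cases h

lemma toD_spec (hV : Valid p D) {c d : ℕ} {l : List ℕ} (hc : Rep D D.n c l) (h : toD D c = some d) :
    ∃ ld, Rep D D.n d ld ∧ P p.v (D.e * D.N) (evS (beta p D) 0 ld - Nat.ofDigits p.ga l) := by
  cases hf : D.fast with
  | false =>
    rw [toD, hf] at h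
    exact toDAux_spec hV hf _ _ _ _ hc h
  | true =>
    rw [toD, hf] at h
    obtain rfl := Option.some.inj h
    refine ⟨l, hc, (P.zero _ _).congr (sub_eq_zero.2 ?_)⟩
    rcases hV.hfast hf with ⟨h1, h2⟩ | h1
    · rw [evS_congr (β' := (p.ga ^ ·)) l 0, evS_pow]; · simp
      intro i _ _
      simp [beta, h1, h2, Nat.mod_one]
    · exact evS_short (by have := hc.1; simpa [Loc.n, h1] using this)

lemma lead_spec (hV : Valid p D) {c : ℕ} {l : List ℕ} (hc : Rep D D.n c l) :
    (lead D c).1 < D.e ∧ P p.v (lead D c).1 (dec p D c) ∧ ((lead D c).2 ≠ 0 → ∃ l' : List ℕ,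
      l'.length ≤ D.f ∧ (∀ c ∈ l', c < 2) ∧ (lead D c).2 = Nat.ofDigits (2 ^ D.K) l' ∧
      P p.v ((lead D c).1 + 1) (dec p D c - p.pi ^ (lead D c).1 * Nat.ofDigits p.ga l')) := by
  have w := hV.w
  have triv : (0 : ℕ) < D.e ∧ P p.v (0 : ℕ) (dec p D c) ∧ ((0 : ℕ) ≠ 0 → ∃ l' : List ℕ,
      l'.length ≤ D.f ∧ (∀ c ∈ l', c < 2) ∧ 0 = Nat.ofDigits (2 ^ D.K) l' ∧
      P p.v ((0 : ℕ) + 1) (dec p D c - p.pi ^ 0 * Nat.ofDigits p.ga l')) :=
    ⟨w.e, P.ofDigits hV.hga _, fun h => absurd rfl h⟩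
  unfold lead
  split
  · exact triv
  · rename_i d hd
    obtain ⟨ld, h1, h2⟩ := toD_spec hV hc hd
    simp only [Bool.cond_eq_ite]
    split
    · rename_i hb
      simp only [Bool.and_eq_true, Nat.blt_eq, Nat.beq_eq] at hb
      generalize (D.W / Nat.gcd (d &&& D.onesn) D.Bn % 1024) / D.f = b at hb ⊢
      obtain ⟨hb1, hb2⟩ := hb
      have hK : 1 ≤ D.K := by have := w.NK; have := w.N; omega
      have ht : d &&& D.onesn = Nat.ofDigits (2 ^ D.K) (ld.map (· % 2)) := by
        have := mask_od hK D.n ld h1.1 fun c hc => w.lt (h1.2.1 c hc)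
        rw [h1.2.2, w.onesn]; simpa using this
      set lt := ld.map (· % 2) with hlt
      have bd : ∀ c ∈ lt, c < 2 := by
        intro c hc
        obtain ⟨e, -, rfl⟩ := List.mem_map.1 hc
        omega
      have h2K : 2 ≤ 2 ^ D.K := by simpa using Nat.pow_le_pow_right (show 0 < 2 by omega) hK
      have bdK : ∀ c ∈ lt, c < 2 ^ D.K := fun c hc => (bd c hc).trans_le h2K
      have hP2 : P p.v D.e ((2 : ℕ) : L) := by
        have := P.of_eq hV.h2
        rw [hV.he] at this; simpa using this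
      have e1 := evS_mod (P_beta hV) hP2 ld 0
      rw [← hlt] at e1
      rw [ht, pow_mul, Nat.ofDigits_mod_pow_eq_ofDigits_take _ (by omega) _ bdK] at hb2
      have e2 := evS_split (beta p D) (b * D.f) lt 0
      rw [evS_of_zero _ (by omega) _ _ hb2, evS_shift (beta_shift w b), zero_add,
        evS_split _ D.f (lt.drop (b * D.f)), evS_short (l := (lt.drop (b * D.f)).take D.f) (by simp),
        evS_shift (j := D.f) (u := p.pi) (fun k => by simpa using beta_shift (p := p) w 1 k)] at e2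
      have hN : (D.e : ℤ) ≤ D.e * D.N := by have := w.N; nlinarith
      have key : P p.v (b + 1) (dec p D c - p.pi ^ b *
          Nat.ofDigits p.ga ((lt.drop (b * D.f)).take D.f)) := by
        have e3 : P p.v (b + 1) (p.pi ^ b * (p.pi * evS (beta p D) 0
            ((lt.drop (b * D.f)).drop D.f))) := by
          simpa using (hV.Ppi.pow b).mul (hV.Ppi.mul0 (P.evS (P_beta hV) _ 0))
        refine ((e3.sub (e1.mono (by omega))).sub (h2.mono (by omega))).congr ?_
        rw [hc.dec w, e2]; ring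
      refine ⟨hb1, ?_, fun _ => ⟨(lt.drop (b * D.f)).take D.f, by simp, fun c hc =>
        bd c (List.mem_of_mem_drop (List.mem_of_mem_take hc)), ?_, key⟩⟩
      · have e4 : P p.v b (p.pi ^ b * Nat.ofDigits p.ga ((lt.drop (b * D.f)).take D.f)) := by
          simpa using (hV.Ppi.pow b).mul0 (P.ofDigits hV.hga _)
        exact ((key.mono (by simp)).add e4).congr (by ring)
      · show ((d &&& D.onesn) >>> (D.K * (b * D.f))) % D.Bf = _
        rw [ht, Nat.shiftRight_eq_div_pow, pow_mul, Nat.ofDigits_div_pow_eq_ofDigits_drop _ (by omega) _ bdK,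
          w.Bf, pow_mul, Nat.ofDigits_mod_pow_eq_ofDigits_take _ (by omega) _
            fun c hc => bdK c (List.mem_of_mem_drop hc)]
    · exact triv

end Pool.Agent.Lib.MP_ab8df0_nt.B
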