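import Pool.Agent.Lib.MP_ab8df0_nt.B.Val

/-! The chain of square class subgroups. -/

namespace Pool.Agent.Lib.MP_ab8df0_nt.B

open WithZero

variable {L : Type*} [Field L] {p : Place L} {D : Loc} {x y : L} {v : Valuation L Gam}

/-! digit lists -/

/-- sum of two digit lists -/
def addL : List ℕ → List ℕ → List ℕ
  | [], b => b
  | a :: l, [] => a :: l
  | a :: l, b :: m => (a + b) :: addL l m

lemma lv_ofD_cons (g : L) (c : ℕ) (l : List ℕ) :
    Nat.ofDigits g (c :: l) = (c : L) + g * Nat.ofDigits g l := rfl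

lemma addL_length : ∀ (a b : List ℕ) (n : ℕ), a.length ≤ n → b.length ≤ n → (addL a b).length ≤ n
  | [], _, _, _, h => h
  | _ :: _, [], _, h, _ => h
  | _ :: _, _ :: _, 0, h, _ => absurd h (Nat.not_succ_le_zero _)
  | _ :: l, _ :: m, n + 1, h, h' =>
    Nat.succ_le_succ (addL_length l m n (Nat.le_of_succ_le_succ h) (Nat.le_of_succ_le_succ h'))

lemma addL_getD : ∀ (a b : List ℕ) (i : ℕ), (addL a b).getD i 0 = a.getD i 0 + b.getD i 0
  | [], _, _ => by simp [addL]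
  | _ :: _, [], _ => by simp [addL]
  | _ :: _, _ :: _, 0 => rfl
  | _ :: l, _ :: m, i + 1 => addL_getD l m i

lemma addL_ofD (g : L) : ∀ a b : List ℕ,
    Nat.ofDigits g (addL a b) = Nat.ofDigits g a + Nat.ofDigits g b
  | [], _ => (zero_add _).symm
  | _ :: _, [] => (add_zero _).symm
  | a :: l, b :: m => by
    rw [addL, lv_ofD_cons, lv_ofD_cons, lv_ofD_cons, addL_ofD g l m]; push_cast; ring

lemma Valid.lvp2 (h : Valid p D) : P p.v 1 (2 : L) :=
  (P.of_eq h.h2).mono (by have := h.epos; omega)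

lemma Valid.lvmod2 (h : Valid p D) (l : List ℕ) :
    P p.v 1 (Nat.ofDigits p.ga l - Nat.ofDigits p.ga (l.map (· % 2))) := by
  induction l with
  | nil => exact (P.zero _ _).congr (sub_self _)
  | cons c l ih =>
    have e : (c : L) = 2 * (c / 2 : ℕ) + (c % 2 : ℕ) := by
      conv_lhs => rw [← Nat.div_add_mod c 2]
      push_cast; ring
    refine ((h.lvp2.mul0 (P.nat _ (c / 2))).add (h.hga.mul0' ih)).congr ?_
    rw [List.map_cons, lv_ofD_cons, lv_ofD_cons]
    linear_combination e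

/-- lists with the same residue have the same parities -/
lemma Valid.lvpar (h : Valid p D) {a b : List ℕ} (ha : a.length ≤ p.f) (hb : b.length ≤ p.f)
    (hab : P p.v 1 (Nat.ofDigits p.ga a - Nat.ofDigits p.ga b)) (i : ℕ) :
    (a.getD i 0 + b.getD i 0) % 2 = 0 := by
  by_contra hc
  have h1 : P p.v 1 (Nat.ofDigits p.ga ((addL a b).map (· % 2))) := by
    refine ((hab.add (h.lvp2.mul0 (h.hga.ofDigits b))).sub (h.lvmod2 (addL a b))).congr ?_
    rw [addL_ofD]; ring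
  have h2 := h.hind ((addL a b).map (· % 2)) (by simpa using addL_length a b _ ha hb)
    (fun c hc' => by
      obtain ⟨d, -, rfl⟩ := List.mem_map.1 hc'
      exact Nat.mod_lt _ two_pos) (by
      rw [← addL_getD] at hc
      have hi : i < (addL a b).length := by
        by_contra hi
        rw [List.getD_eq_default _ _ (not_lt.1 hi)] at hc
        exact hc rfl
      rw [List.getD_eq_getElem _ _ hi] at hc
      exact ⟨_, List.mem_map.2 ⟨_, List.getElem_mem hi, rfl⟩, hc⟩)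
  exact not_P_of_exact (r := 0) (by simpa using h2) (by simpa using h1)

lemma firstD_spec {K : ℕ} (lvK : 2 ≤ 2 ^ K) : ∀ (k : ℕ) (l : List ℕ), l.length ≤ k →
    (∀ c ∈ l, c < 2) → (∃ c ∈ l, c ≠ 0) → firstD K k (Nat.ofDigits (2 ^ K) l) < k ∧
      (∀ i < firstD K k (Nat.ofDigits (2 ^ K) l), l.getD i 0 = 0) ∧
      l.getD (firstD K k (Nat.ofDigits (2 ^ K) l)) 0 = 1
  | _, [], _, _, h => by simp at h
  | 0, _ :: _, h, _, _ => absurd h (Nat.not_succ_le_zero _)
  | k + 1, c :: l, h, h2, h3 => by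
    have hc : c < 2 := h2 c (by simp)
    have e1 : Nat.ofDigits (2 ^ K) (c :: l) % 2 ^ K = c := by
      rw [Nat.ofDigits_cons, Nat.add_mul_mod_self_left, Nat.mod_eq_of_lt (by omega)]
    have e2 : Nat.ofDigits (2 ^ K) (c :: l) >>> K = Nat.ofDigits (2 ^ K) l := by
      rw [Nat.shiftRight_eq_div_pow, Nat.ofDigits_cons, Nat.add_mul_div_left _ _ (by omega),
        Nat.div_eq_of_lt (by omega), zero_add]
    rw [firstD, e1, e2]
    rcases (by omega : c = 0 ∨ c = 1) with rfl | rfl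
    · obtain ⟨a1, a2, a3⟩ := firstD_spec lvK k l (Nat.le_of_succ_le_succ h)
        (fun c hc => h2 c (by simp [hc])) (by simpa using h3)
      refine ⟨Nat.succ_lt_succ a1, fun i hi => ?_, a3⟩
      cases i with
      | zero => rfl
      | succ i => exact a2 i (Nat.lt_of_succ_lt_succ hi)
    · exact ⟨Nat.succ_pos _, fun i hi => absurd hi (Nat.not_lt_zero _), rfl⟩

lemma lv_mem_resL (K : ℕ) : ∀ l : List ℕ, (∀ c ∈ l, c < 2) →
    Nat.ofDigits (2 ^ K) l ∈ resL K l.length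
  | [], _ => by simp [resL]
  | c :: l, h => by
    have ih := lv_mem_resL K l fun c hc => h c (by simp [hc])
    have hc : c < 2 := h c (by simp)
    rw [List.length_cons, resL, Nat.ofDigits_cons, List.mem_append]
    rcases (by omega : c = 0 ∨ c = 1) with rfl | rfl
    · exact Or.inl (List.mem_map.2 ⟨_, ih, (zero_add _).symm⟩)
    · exact Or.inr (List.mem_map.2 ⟨_, ih, rfl⟩)

lemma Valid.lvK (h : Valid p D) : 2 ≤ 2 ^ D.K := by
  have := h.wf
  simp only [Loc.wf, Bool.and_eq_true, decide_eq_true_eq] at this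
  have h1 : (2 * D.n + 2) * 2 ^ (2 * D.N) ≤ 2 ^ D.K := this.1.1.1.1.1.1.1.2
  have h2 : 0 < 2 ^ (2 * D.N) := by positivity
  nlinarith

/-! squares near one -/

lemma lv_sq_cases {e : ℤ} (h2 : v 2 = exp (-e)) (s : L) :
    P v e (s - 1) ∨ ∃ a < e, v (s ^ 2 - 1) = exp (-(a + a)) := by
  by_cases h : P v e (s - 1)
  · exact Or.inl h
  · have hne : s - 1 ≠ 0 := fun h0 => h (h0 ▸ P.zero v _)
    obtain ⟨a, ha⟩ := exists_exact v hne
    rw [P_iff_of_exact ha] at h
    have h3 := exact_add ha ((P.of_eq h2).mono (by omega))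
    refine Or.inr ⟨a, by omega, ?_⟩
    rw [← exact_mul ha h3]; congr 1; ring

lemma lv_sq_odd {e k : ℤ} (h2 : v 2 = exp (-e)) {s : L} (hk : k % 2 = 1) (hke : k < 2 * e)
    (h : P v k (s ^ 2 - 1)) : P v (k + 1) (s ^ 2 - 1) := by
  rcases lv_sq_cases h2 s with h1 | ⟨a, -, h1⟩
  · exact ((h1.mul (h1.add (P.of_eq h2))).congr (by ring)).mono (by omega)
  · rw [P_iff_of_exact h1] at h ⊢; omega

lemma lv_sq_top {e : ℤ} (h2 : v 2 = exp (-e)) {s : L} (h : P v (2 * e) (s ^ 2 - 1)) :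
    P v e (s - 1) := by
  rcases lv_sq_cases h2 s with h1 | ⟨a, ha, h1⟩
  · exact h1
  · rw [P_iff_of_exact h1] at h; omega

/-! one place -/

lemma Valid.lvP_mu (h : Valid p D) (k : ℤ) : P p.v k (mu p k) := P.of_eq (h.mu_exact k)

lemma Valid.lvmu_ne (h : Valid p D) (k : ℤ) : mu p k ≠ 0 := ne_of_exact (h.mu_exact k)

lemma Valid.lvdiv_mu (h : Valid p D) {k r : ℤ} (hx : P p.v (k + r) x) : P p.v r (x / mu p k) := by
  have := hx.mul (P.of_eq (exact_inv (h.mu_exact k)))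
  rw [div_eq_mul_inv]
  exact this.mono (by omega)

lemma Valid.lvP0 (h : Valid p D) {u : L} {d : List ℕ} (hu : P p.v 1 (u - Nat.ofDigits p.ga d)) :
    P p.v 0 u := ((hu.mono (by omega)).add (h.hga.ofDigits d)).congr (by ring)

lemma GU.sq (k j : ℕ) (hx : x ≠ 0) : GU p k j (x ^ 2) :=
  ⟨x, 0, [], hx, by ring, Nat.zero_le _, fun _ _ => rfl, (P.zero _ _).congr (sub_self _)⟩

lemma GU.mul (h : Valid p D) {k j : ℕ} (hk : 0 < k) (hx : GU p k j x) (hy : GU p k j y) :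
    GU p k j (x * y) := by
  obtain ⟨s, u, d, h1, h2, h3, h4, h5⟩ := hx
  obtain ⟨s', u', d', h1', h2', h3', h4', h5'⟩ := hy
  refine ⟨s * s', u + u' + mu p k * u * u', addL d d', mul_ne_zero h1 h1', by rw [h2, h2']; ring,
    addL_length _ _ _ h3 h3', fun i hi => ?_, ?_⟩
  · rw [addL_getD]
    have := h4 i hi
    have := h4' i hi
    omega
  · have h6 : P p.v 1 (mu p k * u * u') :=
      (((h.lvP_mu k).mono (by omega)).mul0 (h.lvP0 h5)).mul0 (h.lvP0 h5')
    refine ((h5.add h5').add h6).congr ?_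
    rw [addL_ofD]; ring

lemma GU.mono (h : Valid p D) {k j k' j' : ℕ} (hk : k < k' ∨ (k = k' ∧ j ≤ j'))
    (hy : GU p k' j' y) : GU p k j y := by
  obtain ⟨s, u, d, h1, h2, h3, h4, h5⟩ := hy
  rcases hk with hk | ⟨rfl, hj⟩
  · refine ⟨s, mu p k' * u / mu p k, [], h1, ?_, Nat.zero_le _, fun _ _ => rfl, ?_⟩
    · rw [h2, mul_div_cancel₀ _ (h.lvmu_ne k)]
    · exact (h.lvdiv_mu (((h.lvP_mu k').mul0 (h.lvP0 h5)).mono (by omega))).congr (sub_zero _)
  · exact ⟨s, u, d, h1, h2, h3, fun i hi => h4 i (by omega), h5⟩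

lemma GU.even (h : Valid p D) {k j : ℕ} (hk : 0 < k) (hy : GU p k j y) :
    ∃ a : ℤ, p.v y = exp (2 * a) := by
  obtain ⟨s, u, d, h1, h2, -, -, h5⟩ := hy
  obtain ⟨a, ha⟩ := exists_exact p.v h1
  have h6 := exact_one_add (((h.lvP_mu k).mono (by omega)).mul0 (h.lvP0 h5) : P p.v 1 (mu p k * u))
  refine ⟨-a, ?_⟩
  rw [h2, exact_mul (exact_pow ha 2) h6]; congr 1; push_cast; ring

/-- an element close to one -/
lemma GU.near (h : Valid p D) {k : ℕ} (hy : P p.v k (y - 1)) : GU p k 0 y := by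
  obtain ⟨l, h1, -, h3⟩ := h.hres ((y - 1) / mu p k) (h.lvdiv_mu (by simpa using hy))
  refine ⟨1, _, l, one_ne_zero, ?_, h1.le, fun i hi => absurd hi (Nat.not_lt_zero _), h3⟩
  rw [mul_div_cancel₀ _ (h.lvmu_ne k)]; ring

lemma G1.sq (c : ℕ) (hx : x ≠ 0) : G1 p c (x ^ 2) := by
  unfold G1
  split_ifs
  · exact pow_ne_zero _ hx
  · obtain ⟨a, ha⟩ := exists_exact p.v hx
    exact ⟨-a, by rw [exact_pow ha 2]; congr 1; push_cast; ring⟩
  · exact GU.sq _ _ hx
  · exact GU.sq _ _ hx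

lemma G1.mul (h : Valid p D) {c : ℕ} (hx : G1 p c x) (hy : G1 p c y) : G1 p c (x * y) := by
  unfold G1 at *
  split_ifs at *
  · exact mul_ne_zero hx hy
  · obtain ⟨a, ha⟩ := hx
    obtain ⟨b, hb⟩ := hy
    exact ⟨a + b, by rw [map_mul, ha, hb, ← exp_add, mul_add]⟩
  · exact hx.mul h (Nat.succ_pos _) hy
  · exact hx.mul h (Nat.succ_pos _) hy

lemma G1_mid {c : ℕ} (h2 : 2 ≤ c) (hc : c < topc p.e p.f) :
    G1 p c y ↔ GU p ((c - 2) / p.f + 1) ((c - 2) % p.f) y := by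
  rw [G1, if_neg (by omega), if_neg (by omega), if_pos hc]

lemma G1_top {c : ℕ} (hc : topc p.e p.f ≤ c) : G1 p c y ↔ GU p (2 * p.e + 1) 0 y := by
  have : 3 ≤ topc p.e p.f := Nat.le_add_right _ _
  rw [G1, if_neg (by omega), if_neg (by omega), if_neg (by omega)]

lemma G1.step (h : Valid p D) {c : ℕ} (hy : G1 p (c + 1) y) : G1 p c y := by
  have h3 : 3 ≤ topc p.e p.f := Nat.le_add_right _ _
  have hf := h.fpos
  have he := h.epos
  rcases (by omega : c = 0 ∨ c = 1 ∨ (2 ≤ c ∧ c + 1 < topc p.e p.f) ∨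
    (2 ≤ c ∧ c + 1 = topc p.e p.f) ∨ topc p.e p.f ≤ c) with rfl | rfl | ⟨a, b⟩ | ⟨a, b⟩ | a
  · obtain ⟨k, hk⟩ : ∃ k : ℤ, p.v y = exp (2 * k) := hy
    exact ne_of_exact (r := -(2 * k)) (by rw [neg_neg]; exact hk)
  · exact ((G1_mid le_rfl (by omega)).1 hy).even h (Nat.succ_pos _)
  · rw [G1_mid (by omega) b] at hy
    rw [G1_mid a (by omega)]
    refine hy.mono h ?_
    have e1 := Nat.div_add_mod (c - 2) p.f
    have e2 := Nat.div_add_mod (c + 1 - 2) p.f
    rcases (Nat.div_le_div_right (c := p.f) (by omega : c - 2 ≤ c + 1 - 2)).lt_or_eq with q | q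
    · exact Or.inl (by omega)
    · rw [← q] at e2
      exact Or.inr ⟨by omega, by omega⟩
  · rw [G1_top b.ge] at hy
    rw [G1_mid a (by omega)]
    refine hy.mono h (Or.inl ?_)
    have : c - 2 = (2 * p.e - 1) * p.f := by unfold topc at b; omega
    rw [this, Nat.mul_div_cancel _ hf]
    omega
  · exact (G1_top a).2 ((G1_top (by omega)).1 hy)

lemma G1.anti (h : Valid p D) {c c' : ℕ} (hc : c ≤ c') (hy : G1 p c' y) : G1 p c y := by
  induction c', hc using Nat.le_induction with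
  | base => exact hy
  | succ k _ ih => exact ih (hy.step h)

lemma G1.ne (h : Valid p D) {c : ℕ} (hy : G1 p c y) : y ≠ 0 := hy.anti h (Nat.zero_le _)

lemma G1.of_sq (h : Valid p D) {c : ℕ} {w : L} (hw : w ≠ 0) (hy : G1 p c (y * w ^ 2)) :
    G1 p c y := by
  have := hy.mul h (G1.sq c (inv_ne_zero hw))
  rwa [mul_assoc, ← mul_pow, mul_inv_cancel₀ hw, one_pow, mul_one] at this

lemma lv_ne_of_near {r : ℤ} {w : L} (hr : 0 < r) (h : P v r (y * w ^ 2 - 1)) : w ≠ 0 := by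
  rintro rfl
  refine not_P_of_exact (x := (1 : L)) (r := 0) (v := v) (by simp) ((h.neg.congr ?_).mono (by omega))
  ring

lemma G1.of_top (h : Valid p D) {w : L} (hw : P p.v (2 * p.e + 1) (y * w ^ 2 - 1)) (c : ℕ) :
    G1 p c y := by
  have h1 : G1 p (topc p.e p.f + c) (y * w ^ 2) :=
    (G1_top (Nat.le_add_right _ _)).2 (GU.near h (by exact_mod_cast hw))
  exact (h1.of_sq h (lv_ne_of_near (by omega) hw)).anti h (Nat.le_add_left _ _)

/-- the odd levels are sharp -/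
lemma not_GU_odd (h : Valid p D) {k j : ℕ} (hk : k % 2 = 1) (hke : k < 2 * p.e) {l : List ℕ}
    (hl : l.length ≤ p.f) (hj : l.getD j 0 = 1)
    (hy : P p.v (k + 1) (y - 1 - mu p k * Nat.ofDigits p.ga l)) : ¬ GU p k (j + 1) y := by
  rintro ⟨s, u, d, -, h2, h3, h4, h5⟩
  have hu := (h.lvP_mu k).mul0 (h.lvP0 h5)
  have h6 : P p.v 1 (mu p k * u) := hu.mono (by omega)
  have h7 : P p.v k (y - 1) :=
    ((hy.mono (by omega)).add ((h.lvP_mu k).mul0 (h.hga.ofDigits l))).congr (by ring)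
  have h8 : P p.v k ((s ^ 2 - 1) * (1 + mu p k * u)) := (h7.sub hu).congr (by rw [h2]; ring)
  have h9 := lv_sq_odd h.h2 (by omega) (by omega)
    ((h8.of_mul_exact (exact_one_add h6)).mono (by omega) : P p.v k (s ^ 2 - 1))
  have h10 : P p.v (k + 1) (mu p k * (Nat.ofDigits p.ga l - Nat.ofDigits p.ga d)) := by
    refine (((h9.mul0 (P.of_eq (exact_one_add h6))).sub hy).add ((h.lvP_mu k).mul h5)).congr ?_
    rw [h2]; ring
  have h11 := h.lvdiv_mu (k := k) h10
  rw [mul_div_cancel_left₀ _ (h.lvmu_ne k)] at h11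
  have := h.lvpar hl h3 h11 j
  have := h4 j (Nat.lt_succ_self _)
  omega

/-- the last level -/
lemma top_res (h : Valid p D) (hy : P p.v (2 * p.e) (y - 1)) (hG : GU p (2 * p.e + 1) 0 y) :
    ∃ l : List ℕ, l.length = p.f ∧ (∀ c ∈ l, c < 2) ∧ P p.v (2 * p.e + 1)
      (y - 1 + 4 * (Nat.ofDigits p.ga l * Nat.ofDigits p.ga l + Nat.ofDigits p.ga l)) := by
  obtain ⟨s, u, d, -, h2, -, -, h5⟩ := hG
  have he := h.epos
  have hu : P p.v (2 * p.e + 1) (mu p (2 * p.e + 1 : ℕ) * u) := by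
    exact_mod_cast (h.lvP_mu (2 * p.e + 1 : ℕ)).mul0 (h.lvP0 h5)
  have h6 : P p.v 1 (mu p (2 * p.e + 1 : ℕ) * u) := hu.mono (by omega)
  have h8 : P p.v (2 * p.e) ((s ^ 2 - 1) * (1 + mu p (2 * p.e + 1 : ℕ) * u)) :=
    (hy.sub (hu.mono (by omega))).congr (by rw [h2]; ring)
  have h9 : P p.v (2 * p.e) (s ^ 2 - 1) := (h8.of_mul_exact (exact_one_add h6)).mono (by omega)
  have n2 : (2 : L) ≠ 0 := ne_of_exact h.h2
  obtain ⟨r, rfl⟩ : ∃ r, s = 1 + r * 2 := ⟨(s - 1) / 2, by field_simp; ring⟩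
  have hr : P p.v 0 r := by
    have := P.of_mul_exact ((lv_sq_top h.h2 h9).congr (by ring) : P p.v p.e (r * 2)) h.h2
    simpa using this
  obtain ⟨l, l1, l2, l3⟩ := h.hres r hr
  refine ⟨l, l1, l2, ?_⟩
  have hl := h.hga.ofDigits l
  have h4 : P p.v (p.e + p.e) ((2 : L) * 2) := (P.of_eq h.h2).mul (P.of_eq h.h2)
  have hs : P p.v 0 (1 + r * 2) := (P.one _).add (hr.mul0 (h.lvp2.mono (by omega)))
  have a1 := h4.mul ((l3.mul0 ((hr.add hl).add (P.one _))).add (h.lvp2.mul0 ((hl.mul0 hl).add hl)))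
  refine (((a1.mono (by omega)).add ((hu.mul0 hs).mul0 hs))).congr ?_
  rw [h2]; ring

/-! several places -/

/-- every place has a valid model -/
def AllV (pl : List (Place L)) : Prop := ∀ p ∈ pl, ∃ D, Valid p D

variable {pl : List (Place L)}

lemma AllV.tail (h : AllV (p :: pl)) : AllV pl := fun q hq => h q (List.mem_cons_of_mem _ hq)

lemma GG.of_all (hy : y ≠ 0) (h : ∀ p ∈ pl, ∀ c, G1 p c y) (c : ℕ) : GG pl c y := by
  induction pl generalizing c with
  | nil => exact hy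
  | cons p ps ih =>
    unfold GG
    split_ifs
    · exact h p List.mem_cons_self _
    · exact ⟨h p List.mem_cons_self _, ih (fun q hq => h q (List.mem_cons_of_mem _ hq)) _⟩

lemma GG.sq (c : ℕ) (hx : x ≠ 0) : GG pl c (x ^ 2) :=
  GG.of_all (pow_ne_zero _ hx) (fun _ _ c => G1.sq c hx) c

lemma GG.mul (h : AllV pl) {c : ℕ} (hx : GG pl c x) (hy : GG pl c y) : GG pl c (x * y) := by
  induction pl generalizing c with
  | nil => exact mul_ne_zero hx hy
  | cons p ps ih =>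
    obtain ⟨D, hD⟩ := h p List.mem_cons_self
    unfold GG at hx hy ⊢
    split_ifs at hx hy ⊢
    · exact hx.mul hD hy
    · exact ⟨hx.1.mul hD hy.1, ih h.tail hx.2 hy.2⟩

lemma GG.ne (h : AllV pl) {c : ℕ} (hy : GG pl c y) : y ≠ 0 := by
  cases pl with
  | nil => exact hy
  | cons p ps =>
    obtain ⟨D, hD⟩ := h p List.mem_cons_self
    unfold GG at hy
    split_ifs at hy
    · exact hy.ne hD
    · exact hy.1.ne hD

lemma GG.anti (h : AllV pl) {c c' : ℕ} (hc : c ≤ c') (hy : GG pl c' y) : GG pl c y := by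
  induction pl generalizing c c' with
  | nil => exact hy
  | cons p ps ih =>
    obtain ⟨D, hD⟩ := h p List.mem_cons_self
    unfold GG at hy ⊢
    split_ifs at hy ⊢ with a b b
    · exact hy.anti hD hc
    · exact hy.1.anti hD a.le
    · omega
    · exact ⟨hy.1, ih h.tail (by omega) hy.2⟩

lemma GG.cancel (h : AllV pl) {c : ℕ} (hx : GG pl c (x * y)) (hy : GG pl c y) : GG pl c x := by
  have n := hy.ne h
  have := (hx.mul h hy).mul h (GG.sq c (inv_ne_zero n))
  rwa [show x * y * y * y⁻¹ ^ 2 = x by field_simp] at this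

/-! echelon forms -/

lemma lv_prodSel_nil (gs : List L) : prodSel gs [] = 1 := by cases gs <;> rfl

lemma echelon (h : AllV pl) {gs : List L} {ks : List ℕ} (hp : Piv pl gs ks) (sel : List Bool) :
    prodSel gs sel = 1 ∨ ∃ k ∈ ks, GG pl k (prodSel gs sel) ∧ ¬ GG pl (k + 1) (prodSel gs sel) := by
  obtain ⟨h1, h2⟩ := hp
  induction h1 generalizing sel with
  | nil => exact Or.inl rfl
  | @cons g k gs ks hg _ ih =>
    rw [List.pairwise_cons] at h2
    rcases sel with _ | ⟨b, bs⟩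
    · exact Or.inl rfl
    have ih' := ih bs h2.2
    cases b
    · have e : prodSel (g :: gs) (false :: bs) = prodSel gs bs := one_mul _
      rw [e]
      exact ih'.imp id fun ⟨k', a, b⟩ => ⟨k', List.mem_cons_of_mem _ a, b⟩
    · have e : prodSel (g :: gs) (true :: bs) = g * prodSel gs bs := rfl
      have hR : GG pl (k + 1) (prodSel gs bs) := by
        rcases ih' with q | ⟨k', a, b, -⟩
        · rw [q, ← one_pow (M := L) 2]; exact GG.sq _ one_ne_zero
        · exact b.anti h (h2.1 k' a)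
      rw [e]
      exact Or.inr ⟨k, List.mem_cons_self, hg.1.mul h (hR.anti h (Nat.le_succ _)),
        fun q => hg.2 (q.cancel h hR)⟩

lemma Piv.ne (h : AllV pl) {gs : List L} {ks : List ℕ} (hp : Piv pl gs ks) : ∀ g ∈ gs, g ≠ 0 := by
  have h1 := hp.1
  clear hp
  induction h1 with
  | nil => simp
  | cons hg _ ih => exact List.forall_mem_cons.2 ⟨hg.1.ne h, ih⟩

lemma lv_prodSel_mul : ∀ (gs : List L) (_ : ∀ g ∈ gs, g ≠ 0) (a b : List Bool),
    ∃ c t, t ≠ 0 ∧ prodSel gs a * prodSel gs b = prodSel gs c * t ^ 2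
  | [], _, _, _ => ⟨[], 1, one_ne_zero, by simp [prodSel]⟩
  | _ :: _, _, [], b => ⟨b, 1, one_ne_zero, by simp [lv_prodSel_nil]⟩
  | _ :: _, _, a :: l, [] => ⟨a :: l, 1, one_ne_zero, by simp [lv_prodSel_nil]⟩
  | g :: gs, h, a :: l, b :: m => by
    obtain ⟨c, t, ht, e⟩ := lv_prodSel_mul gs (fun q hq => h q (List.mem_cons_of_mem _ hq)) l m
    have hg := h g List.mem_cons_self
    refine ⟨(a ^^ b) :: c, (if a && b then g else 1) * t,
      mul_ne_zero (by split_ifs; exacts [hg, one_ne_zero]) ht, ?_⟩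
    cases a <;> cases b <;> simp [prodSel] <;>
      first | exact e | linear_combination g * e | linear_combination g ^ 2 * e

lemma Span.mul_sel {gs : List L} (h : ∀ g ∈ gs, g ≠ 0) (hs : Span gs y) (sub : List Bool) :
    Span gs (y * prodSel gs sub) := by
  obtain ⟨sel, u, hu, rfl⟩ := hs
  obtain ⟨c, t, ht, e⟩ := lv_prodSel_mul gs h sel sub
  exact ⟨c, t * u, mul_ne_zero ht hu, by linear_combination u ^ 2 * e⟩

lemma Span.lev (h : AllV pl) {gs : List L} {ks : List ℕ} (hp : Piv pl gs ks) (hs : Span gs y) :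
    (∃ u, u ≠ 0 ∧ y = u ^ 2) ∨ ∃ k ∈ ks, GG pl k y ∧ ¬ GG pl (k + 1) y := by
  obtain ⟨sel, u, hu, rfl⟩ := hs
  rcases echelon h hp sel with q | ⟨k, a, b, c⟩
  · exact Or.inl ⟨u, hu, by rw [q, one_mul]⟩
  · exact Or.inr ⟨k, a, b.mul h (GG.sq _ hu), fun q => c (q.cancel h (GG.sq _ hu))⟩

lemma Span.ne (h : AllV pl) {gs : List L} {ks : List ℕ} (hp : Piv pl gs ks) (hs : Span gs y) :
    y ≠ 0 := by
  rcases hs.lev h hp with ⟨u, hu, rfl⟩ | ⟨k, -, b, -⟩
  · exact pow_ne_zero _ hu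
  · exact b.ne h

lemma Span.square (h : AllV pl) {gs : List L} {ks : List ℕ} (hp : Piv pl gs ks) (hs : Span gs y)
    (ht : ∀ p ∈ pl, ∀ c, G1 p c y) : IsSquare y := by
  rcases hs.lev h hp with ⟨u, -, rfl⟩ | ⟨k, -, -, c⟩
  · exact ⟨u, sq u⟩
  · exact absurd (GG.of_all (hs.ne h hp) ht _) c

end Pool.Agent.Lib.MP_ab8df0_nt.B
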