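import Pool.Agent.Lib.MP_ab8df0_nt.B.Arith
import Pool.Agent.Lib.MP_ab8df0_nt.B.LevAux

/-! Soundness of the square class tests. -/

namespace Pool.Agent.Lib.MP_ab8df0_nt.B

open WithZero

variable {L : Type*} [Field L] {pl : List (Place L)} {val : ℕ → L} {n : ℕ} {st : St} {y : L}

lemma lv_imin {a b : ℤ} (h : a ≤ b) : imin a b = a := if_pos h

theorem lev1_sound {p : Place L} {D : Loc} (h : Valid p D) {a : Ball} (ha : a.mem p D y)
    {w : Cert} {c : ℕ} (hc : lev1 D a w = some c) :
    G1 p c y ∧ (c < topc p.e p.f → ¬ G1 p (c + 1) y) := by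
  have he := h.epos
  have hf := h.fpos
  have hu := certB_mem h w
  have ht := addB_mem h (mulB_mem h ha (mulB_mem h hu hu)) (numB_mem h (-1))
  rw [show y * (w.val p D * w.val p D) + ((-1 : ℤ) : L) = y * w.val p D ^ 2 - 1 by
    push_cast; ring] at ht
  unfold lev1 at hc
  simp only at hc
  generalize addB D (mulB D a (mulB D (certB D w) (certB D w))) (numB D (-1)) = t at hc ht
  generalize w.val p D = u at ht
  rw [← h.he, ← h.hf] at hc
  split_ifs at hc with c1 c2 c3 c4 c5
  · obtain rfl := Option.some.inj hc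
    simp only [Bool.and_eq_true, decide_eq_true_eq] at c1
    have e := ha.exact h c1.1
    refine ⟨ne_of_exact e, fun _ q => ?_⟩
    obtain ⟨k, hk⟩ : ∃ k : ℤ, p.v y = exp (2 * k) := q
    rw [e, exp_inj] at hk
    omega
  · obtain rfl := Option.some.inj hc
    exact ⟨G1.of_top h (ht.lb.mono (by omega)) _, fun q => absurd q (lt_irrefl _)⟩
  · obtain rfl := Option.some.inj hc
    simp only [Bool.and_eq_true, decide_eq_true_eq] at c3
    have e := P.of_eq (ht.exact h c3.1)
    have hu0 : u ≠ 0 := lv_ne_of_near c3.2 e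
    obtain ⟨l, l1, l2, l3, l4, l5⟩ := ht.leading c3.1
    have hm : t.lb = t.m := lv_imin (by
      have := c3.1
      simp only [Ball.exact, Bool.and_eq_true, decide_eq_true_eq] at this
      exact this.2.le)
    rw [← h.hf] at l1
    obtain ⟨a1, a2, a3⟩ := firstD_spec h.lvK p.f l l1 l2 l4
    rw [← l3] at a1 a2 a3
    generalize firstD D.K p.f t.d = j at a1 a2 a3
    obtain ⟨k, hk⟩ : ∃ k : ℕ, t.m = (k + 1 : ℕ) := ⟨t.m.toNat - 1, by omega⟩
    rw [hk] at l5 e
    have hk1 : t.m.toNat - 1 = k := by omega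
    have hk2 : (k + 1) * p.f ≤ (2 * p.e - 1) * p.f := Nat.mul_le_mul_right _ (by omega)
    rw [hk1]
    have hT : 2 + k * p.f + j + 1 < topc p.e p.f := by
      unfold topc; rw [add_mul, one_mul] at hk2; omega
    have d1 : (2 + k * p.f + j - 2) / p.f = k := by
      rw [show 2 + k * p.f + j - 2 = j + k * p.f by omega, Nat.add_mul_div_right _ _ hf,
        Nat.div_eq_of_lt a1, zero_add]
    have d2 : (2 + k * p.f + j - 2) % p.f = j := by
      rw [show 2 + k * p.f + j - 2 = j + k * p.f by omega, Nat.add_mul_mod_self_right,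
        Nat.mod_eq_of_lt a1]
    refine ⟨G1.of_sq h hu0 ?_, fun _ q => ?_⟩
    · rw [G1_mid (by omega) (by omega), d1, d2]
      refine ⟨1, (y * u ^ 2 - 1) / mu p (k + 1 : ℕ), l, one_ne_zero, ?_, l1,
        fun i hi => by rw [a2 i hi], (h.lvdiv_mu l5).congr ?_⟩
      · rw [mul_div_cancel₀ _ (h.lvmu_ne _)]; ring
      · rw [sub_div _ (_ * _), mul_div_cancel_left₀ _ (h.lvmu_ne _)]
    · have q2 := (G1_mid (by omega) hT).1 (q.mul h (G1.sq _ hu0))
      refine not_GU_odd h (k := k + 1) (by omega) (by omega) l1 a3 l5 (q2.mono h ?_)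
      rw [show 2 + k * p.f + j + 1 - 2 = j + 1 + k * p.f by omega, Nat.add_mul_div_right _ _ hf,
        Nat.add_mul_mod_self_right]
      rcases (by omega : j + 1 < p.f ∨ j + 1 = p.f) with r | r
      · rw [Nat.div_eq_of_lt r, Nat.mod_eq_of_lt r]
        exact Or.inr ⟨by omega, le_rfl⟩
      · rw [r, Nat.div_self hf]
        exact Or.inl (by omega)
  · obtain rfl := Option.some.inj hc
    simp only [Bool.and_eq_true, decide_eq_true_eq] at c3 c5
    have e := P.of_eq (ht.exact h c3.1)
    have hu0 : u ≠ 0 := lv_ne_of_near c3.2 e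
    rw [c5.1] at e
    have hT : topc p.e p.f - 1 - 2 = (2 * p.e - 1) * p.f := by unfold topc; omega
    have h3 : 3 ≤ topc p.e p.f := Nat.le_add_right _ _
    refine ⟨G1.of_sq h hu0 ?_, fun _ q => ?_⟩
    · rw [G1_mid (by omega) (by omega), hT, Nat.mul_div_cancel _ hf, Nat.mul_mod_left,
        show 2 * p.e - 1 + 1 = 2 * p.e by omega]
      exact GU.near h (by exact_mod_cast e)
    · obtain ⟨l, l1, l2, l3⟩ := top_res h e ((G1_top (by omega)).1 (q.mul h (G1.sq _ hu0)))
      have m1 := lv_mem_resL D.K l l2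
      rw [l1, h.hf] at m1
      have m2 := List.all_eq_true.1 c5.2 _ m1
      simp only [Bool.and_eq_true, decide_eq_true_eq] at m2
      have m3 := certB_mem h ⟨0, Nat.ofDigits (2 ^ D.K) l⟩
      rw [cert_digits h l (by
        rw [l1, h.hf]; exact Nat.le_mul_of_pos_left _ (h.he ▸ he)) l2] at m3
      have m4 := (addB_mem h ht (mulB_mem h (numB_mem h 4)
        (addB_mem h (mulB_mem h m3 m3) m3))).exact h m2.1
      rw [m2.2, ← h.he] at m4
      exact not_P_of_exact m4 (by exact_mod_cast l3)

/-- the balls contain `y` up to squares -/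
def QMem (pl : List (Place L)) (qs : List (Loc × Ball)) (y : L) : Prop :=
  List.Forall₂ (fun p (q : Loc × Ball) => Valid p q.1 ∧ ∃ w : L, w ≠ 0 ∧
    q.2.mem p q.1 (y * w ^ 2)) pl qs

theorem lev_sound {qs : List (Loc × Ball)} (h : QMem pl qs y) {ws : List Cert} {c : ℕ} {b : Bool}
    (hc : lev qs ws = some (c, b)) : (b = false → GG pl c y ∧ ¬ GG pl (c + 1) y) ∧
      (b = true → ∀ p ∈ pl, ∀ k, G1 p k y) := by
  induction h generalizing ws c with
  | nil =>
    obtain ⟨-, rfl⟩ := Prod.mk.inj (Option.some.inj hc)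
    simp
  | @cons p q ps qs hq _ ih =>
    obtain ⟨hV, w, hw, hm⟩ := hq
    rcases ws with _ | ⟨z, ws⟩
    · exact absurd hc (by simp [lev])
    rw [lev, Option.bind_eq_some_iff] at hc
    obtain ⟨c1, e1, e2⟩ := hc
    obtain ⟨a1, a2⟩ := lev1_sound hV hm e1
    have a3 := a1.of_sq hV hw
    rw [← hV.he, ← hV.hf] at e2
    split_ifs at e2 with c2
    · obtain ⟨rfl, rfl⟩ := Prod.mk.inj (Option.some.inj e2)
      refine ⟨fun _ => ⟨by rw [GG, if_pos c2]; exact a3, fun r => a2 c2 ?_⟩, by simp⟩
      refine G1.mul hV ?_ (G1.sq _ hw)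
      rw [GG] at r
      split_ifs at r with c3
      · exact r
      · exact r.1.anti hV c2
    · obtain ⟨⟨c', b'⟩, e3, e4⟩ := Option.map_eq_some_iff.1 e2
      obtain ⟨rfl, rfl⟩ := Prod.mk.inj e4
      obtain ⟨i1, i2⟩ := ih e3
      have a4 : G1 p (topc p.e p.f) y := a3.anti hV (not_lt.1 c2)
      refine ⟨fun hb => ⟨?_, fun r => (i1 hb).2 ?_⟩,
        fun hb => List.forall_mem_cons.2 ⟨fun k => ?_, i2 hb⟩⟩
      · rw [GG, if_neg (by omega), Nat.add_sub_cancel_left]
        exact ⟨a4, (i1 hb).1⟩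
      · rw [GG, if_neg (by omega), add_assoc, Nat.add_sub_cancel_left] at r
        exact r.2
      · exact ((G1_top (Nat.le_add_right _ k)).2 ((G1_top le_rfl).1 a4)).anti hV
          (Nat.le_add_left _ _)

theorem lv_selB_mem {p : Place L} {D : Loc} (h : Valid p D) {E : Env} (hE : EnvMem p D val E) :
    ∀ (g : List ℕ) (sub : List Bool) (a b : Ball) (x : L), a.mem p D x →
      selB D E a g sub = some b → b.mem p D (x * prodSel (g.map val) sub)
  | [], _, a, b, x, ha, e => by
    obtain rfl : a = b := Option.some.inj (by simpa only [selB] using e)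
    exact (mul_one x).symm ▸ ha
  | _ :: _, [], a, b, x, ha, e => by
    obtain rfl : a = b := Option.some.inj e
    exact (mul_one x).symm ▸ ha
  | g :: gs, false :: bs, a, b, x, ha, e => by
    have := lv_selB_mem h hE gs bs a b x ha e
    rwa [← one_mul (prodSel _ _)] at this
  | g :: gs, true :: bs, a, b, x, ha, e => by
    obtain ⟨z, e1, e2⟩ := Option.bind_eq_some_iff.1 e
    have := lv_selB_mem h hE gs bs _ b _ (mulB_mem h ha (hE g z e1)) e2
    rwa [mul_assoc] at this

theorem lv_selAll_mem (h : StMem pl val n st) {bs : List Ball} (hb : BsMemSq pl st bs y)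
    {g : List ℕ} {sub : List Bool} {qs : List (Loc × Ball)} (e : selAll g sub st bs = some qs) :
    QMem pl qs (y * prodSel (g.map val) sub) := by
  have h1 := hb.1
  clear hb
  induction h generalizing bs qs with
  | nil =>
    cases bs with
    | nil =>
      obtain rfl := Option.some.inj e
      exact List.Forall₂.nil
    | cons _ _ => exact absurd e (by simp [selAll])
  | @cons p q ps st hq _ ih =>
    cases bs with
    | nil => exact absurd e (by simp [selAll])
    | cons a bs =>
      obtain ⟨z, e1, e2⟩ := Option.bind_eq_some_iff.1 e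
      obtain ⟨r, e3, rfl⟩ := Option.map_eq_some_iff.1 e2
      obtain ⟨⟨w, hw, hm⟩, h2⟩ := List.forall₂_cons.1 h1
      refine List.Forall₂.cons ⟨hq.1, w, hw, ?_⟩ (ih e3 h2)
      rw [mul_right_comm]
      exact lv_selB_mem hq.1 hq.2.1 g sub a z _ hm e1

theorem StMem.allV (h : StMem pl val n st) : AllV pl := by
  induction h with
  | nil => exact fun _ hp => absurd hp List.not_mem_nil
  | cons hq _ ih => exact List.forall_mem_cons.2 ⟨⟨_, hq.1⟩, ih⟩

theorem clsLev_sound (h : StMem pl val n st) {bs : List Ball} (hb : BsMemSq pl st bs y)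
    {g : List ℕ} {sub : List Bool} {ws : List Cert} {c : ℕ} {b : Bool}
    (hc : clsLev st bs g sub ws = some (c, b)) :
    (b = false → GG pl c (y * prodSel (g.map val) sub) ∧
      ¬ GG pl (c + 1) (y * prodSel (g.map val) sub)) ∧
      (b = true → ∀ p ∈ pl, ∀ k, G1 p k (y * prodSel (g.map val) sub)) := by
  obtain ⟨qs, e1, e2⟩ := Option.bind_eq_some_iff.1 hc
  exact lev_sound (lv_selAll_mem h hb e1) e2

theorem BsMem.sq {bs : List Ball} (h : BsMem pl st bs y) : BsMemSq pl st bs y :=
  ⟨h.1.imp fun _ _ q => ⟨1, one_ne_zero, by rwa [one_pow, mul_one]⟩, h.2⟩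

/-- a successful test shows that `y` is nonzero and outside the span -/
theorem clsDead_sound (h : StMem pl val n st) {bs : List Ball} (hb : BsMemSq pl st bs y)
    {g ks : List ℕ} (hp : Piv pl (g.map val) ks) {sub : List Bool} {ws : List Cert}
    (hc : clsDead st bs g ks sub ws = true) : y ≠ 0 ∧ ¬ Span (g.map val) y := by
  have hV := h.allV
  unfold clsDead at hc
  split at hc
  · rename_i c e
    obtain ⟨a1, a2⟩ := (clsLev_sound h hb e).1 rfl
    refine ⟨left_ne_zero_of_mul (a1.ne hV), fun hs => ?_⟩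
    rcases (hs.mul_sel (hp.ne hV) sub).lev hV hp with ⟨u, hu, q⟩ | ⟨k, b1, b2, b3⟩
    · exact a2 (q ▸ GG.sq _ hu)
    · rcases lt_trichotomy k c with r | rfl | r
      · exact b3 (a1.anti hV r)
      · simp [b1] at hc
      · exact a2 (b2.anti hV r)
  · exact absurd hc (by simp)

theorem clsTriv_sound (h : StMem pl val n st) {bs : List Ball} (hb : BsMemSq pl st bs y)
    {g ks : List ℕ} (hp : Piv pl (g.map val) ks) {sub : List Bool} {ws : List Cert}
    (hc : clsTriv st bs g sub ws = true) (hs : Span (g.map val) y) :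
    IsSquare (y * prodSel (g.map val) sub) := by
  have hV := h.allV
  unfold clsTriv at hc
  split at hc
  · rename_i c e
    exact (hs.mul_sel (hp.ne hV) sub).square hV hp ((clsLev_sound h hb e).2 rfl)
  · exact absurd hc (by simp)

lemma lv_incr_pairwise : ∀ l : List ℕ, incr l = true → l.Pairwise (· < ·)
  | [], _ => List.Pairwise.nil
  | [_], _ => List.pairwise_singleton _ _
  | a :: b :: l, h => by
    rw [incr, Bool.and_eq_true, Nat.blt_eq] at h
    have ih := lv_incr_pairwise (b :: l) h.2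
    refine List.pairwise_cons.2 ⟨List.forall_mem_cons.2 ⟨h.1, fun x hx => ?_⟩, ih⟩
    exact h.1.trans ((List.pairwise_cons.1 ih).1 x hx)

theorem pivs_sound (h : StMem pl val n st) {g ks : List ℕ} {ws : List (List Cert)}
    (hc : pivs st g ws = some ks) (hi : incr ks = true) : Piv pl (g.map val) ks := by
  refine ⟨?_, lv_incr_pairwise ks hi⟩
  clear hi
  induction g generalizing ws ks with
  | nil =>
    obtain rfl := Option.some.inj hc
    exact List.Forall₂.nil
  | cons g gs ih =>
    rcases ws with _ | ⟨w, ws⟩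
    · exact absurd hc (by simp [pivs])
    obtain ⟨bs, e1, e2⟩ := Option.bind_eq_some_iff.1 hc
    split at e2
    · rename_i c e
      obtain ⟨r, e3, rfl⟩ := Option.map_eq_some_iff.1 e2
      have := (clsLev_sound h (evalAll_mem h _ _ e1).1.sq e).1 rfl
      rw [lv_prodSel_nil, mul_one] at this
      exact List.Forall₂.cons this (ih e3)
    · exact absurd e2 (by simp)

/-- an element that is close to a square at every place is a square -/
theorem square_of_top (h : StMem pl val n st) {gs : List L} {ks : List ℕ} (hp : Piv pl gs ks)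
    (hs : Span gs y) (ht : ∀ p ∈ pl, ∃ w : L, P p.v (2 * p.e + 1) (y * w ^ 2 - 1)) :
    IsSquare y := by
  refine hs.square h.allV hp fun p hp' c => ?_
  obtain ⟨D, hD⟩ := h.allV p hp'
  obtain ⟨w, hw⟩ := ht p hp'
  exact G1.of_top hD hw c

end Pool.Agent.Lib.MP_ab8df0_nt.B
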