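import Pool.Agent.Lib.MP_ab8df0_nt.B.Auto
import Pool.Agent.Lib.MP_ab8df0_nt.A.Fld

/-! The data of a field from certificates. -/

namespace Pool.Agent.Lib.MP_ab8df0_nt.B

open WithZero NumberField IsDedekindDomain Polynomial

/-- a second generator `ga = ev al l / d` with polynomial `gl`, and `al = ev ga l2 / d2` -/
structure SG where
  gl : List ℤ
  l : List ℤ
  d : ℤ
  l2 : List ℤ
  d2 : ℕ

def SG.ok (fl : List ℤ) (s : SG) : Bool := A.genOK fl s.l s.d s.gl s.l2 s.d2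

def SG.expr (s : SG) : Expr :=
  if s.d2 = 1 then (if s.l2 = [0, 1] then .var 0 else .pol s.l2 (.var 0))
  else .mul (.pol s.l2 (.var 0)) (.inv (.num s.d2))

/-- the places over 2 -/
def locsOk (fl : List ℤ) : List Loc → List Expr → List (SG × LocCert) → Bool
  | [], [], [] => true
  | D :: ds, e :: es, c :: cs => c.1.ok fl && locOk D c.2 && decide (c.2.fG = c.1.gl ++ [1]) &&
      decide (e = c.1.expr) && locsOk fl ds es cs
  | _, _, _ => false

/-- a sign change -/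
def reOk (fl : List ℤ) (r : ℤ × ℤ × ℕ) : Bool :=
  decide (0 < r.2.2) && decide (r.1 ≤ r.2.1) &&
    decide (A.hev r.1 (r.2.2 : ℤ) (fl ++ [1]) * A.hev r.2.1 (r.2.2 : ℤ) (fl ++ [1]) ≤ 0)

def powE (e : Expr) : ℕ → Expr
  | 0 => .num 1
  | k + 1 => .mul e (powE e k)

/-- an odd place: `t` is the residue of the second generator and `q` gives a uniformizer -/
structure OC where
  s : SG
  t : ℤ
  q : List ℤ
  c1 : List ℤ × List ℤ
  c2 : List ℤ × List ℤ
  tab : List (ℕ × List ℤ × List ℤ)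

/-- `x * s = pi ^ k * u` where `s` is a unit -/
def OC.dv (c : OC) (p : ℕ) (x : Expr) (k : ℕ) (su : List ℤ × List ℤ) : Bool :=
  decide (evZ c.t su.1 % p ≠ 0) &&
    exZero c.s.gl [(c.s.l2, c.s.d2), (su.1, 1), (c.q, 1), (su.2, 1), ([-c.t, 1], 1)]
      (sub' (.mul x (.var 1)) (.mul (powE (.var 2) k) (.var 3)))

def OC.tabOk (c : OC) (p : ℕ) : List (List ℤ) → List Bool → List (ℕ × List ℤ × List ℤ) → Bool
  | [], [], [] => true
  | g :: gs, b :: bs, x :: xs => c.dv p (.pol g (.var 0)) x.1 x.2 &&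
      decide (evZ c.t x.2.2 % p ≠ 0) && decide (x.1 % 2 = cond b 1 0) && c.tabOk p gs bs xs
  | _, _, _ => false

def isPr (p : ℕ) : Bool := decide (2 ≤ p) && (List.range p).all fun m => decide (m ∣ p → m = 1)

def OC.ok (fl : List ℤ) (gens : List (List ℤ)) (o : OD) (c : OC) : Bool :=
  c.s.ok fl && isPr o.p && decide (evZ c.t (c.s.gl ++ [1]) % o.p = 0) &&
    decide (c.s.d2 % o.p ≠ 0) && decide ((evZ c.t c.s.l2 - o.r * c.s.d2) % o.p = 0) &&
    decide (evZ c.t c.q % o.p = 0) && c.dv o.p (.num o.p) 1 c.c1 && c.dv o.p (.var 4) 1 c.c2 &&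
    c.tabOk o.p gens o.tab c.tab

def odsOk (fl : List ℤ) (gens : List (List ℤ)) : List OD → List OC → Bool
  | [], [] => true
  | o :: os, c :: cs => c.ok fl gens o && odsOk fl gens os cs
  | _, _ => false

def packOk (F : FD) (lc : List (SG × LocCert)) (oc : List OC) : Bool :=
  locsOk F.fl F.ds F.es lc && F.re.all (reOk F.fl) && odsOk F.fl F.gens F.od oc &&
    F.gens.all fun g => decide (g.length ≤ F.fl.length) && !(LocMk.isZ g)

namespace PackMk

open LocMk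

theorem ev_eq {L : Type*} [Field L] (a : L) : ∀ l, ev a l = A.ev a l
  | [] => rfl
  | c :: l => by rw [ev, ev_eq a l, A.ev_cons]

theorem evZ_eq (t : ℤ) : ∀ l, evZ t l = A.ev t l
  | [] => rfl
  | c :: l => by rw [evZ, evZ_eq t l, A.ev_cons, Int.cast_id]

theorem isPr_prime {p : ℕ} (h : isPr p = true) : p.Prime := by
  simp only [isPr, Bool.and_eq_true, decide_eq_true_eq, List.all_eq_true, List.mem_range] at h
  exact Nat.prime_def_lt.2 h

theorem powE_eval {L : Type*} [Field L] (val : ℕ → L) (e : Expr) :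
    ∀ k, (powE e k).eval val = e.eval val ^ k
  | 0 => by simp [powE, Expr.eval]
  | k + 1 => by rw [powE, Expr.eval, powE_eval val e k, pow_succ']

variable {K : Type} [Field K] [NumberField K] {α : 𝓞 K} {fl : List ℤ}

theorem root (h : A.Gen α fl) : (α : K) ^ fl.length + ev (α : K) fl = 0 := by
  rw [ev_eq]; exact h.rootF

theorem spans (h : A.Gen α fl) (x : K) :
    ∃ (l : List ℤ) (d : ℤ), (d : K) ≠ 0 ∧ x * (d : K) = ev (α : K) l := by
  have h1 : Algebra.adjoin ℚ {(α : K)} = ⊤ := by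
    rw [← IntermediateField.adjoin_simple_toSubalgebra_of_isAlgebraic
      (Algebra.IsAlgebraic.isAlgebraic _), h.top, IntermediateField.top_toSubalgebra]
  have hx : x ∈ Algebra.adjoin ℚ {(α : K)} := h1 ▸ Algebra.mem_top
  induction hx using Algebra.adjoin_induction with
  | mem y hy =>
    obtain rfl := Set.mem_singleton_iff.1 hy
    exact ⟨[0, 1], 1, by simp, by simp [ev]⟩
  | algebraMap r =>
    refine ⟨[r.num], r.den, by exact_mod_cast r.den_ne_zero, ?_⟩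
    have := congrArg (algebraMap ℚ K) (Rat.mul_den_eq_num r)
    rw [map_mul, map_natCast, map_intCast] at this
    rw [Int.cast_natCast, this]
    simp [ev]
  | add y z _ _ hy hz =>
    obtain ⟨l, d, h2, h3⟩ := hy
    obtain ⟨m, e, h4, h5⟩ := hz
    refine ⟨padd (psc e l) (psc d m), d * e, by push_cast; exact mul_ne_zero h2 h4, ?_⟩
    rw [ev_padd, ev_psc, ev_psc, ← h3, ← h5]; push_cast; ring
  | mul y z _ _ hy hz =>
    obtain ⟨l, d, h2, h3⟩ := hy
    obtain ⟨m, e, h4, h5⟩ := hz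
    refine ⟨pmul l m, d * e, by push_cast; exact mul_ne_zero h2 h4, ?_⟩
    rw [ev_pmul, ← h3, ← h5]; push_cast; ring

theorem mp_dvd (h : A.Gen α fl) {G : ℤ[X]} (hG : aeval (α : K) G = 0) : A.mp fl ∣ G := by
  rw [← Polynomial.map_dvd_map (Int.castRingHom ℚ) (RingHom.injective_int _) (A.monic_mp fl),
    ← h.mpe]
  exact minpoly.dvd _ _ (by rwa [← algebraMap_int_eq, aeval_map_algebraMap])

theorem ev_ne (h : A.Gen α fl) {g : List ℤ} (h1 : g.length ≤ fl.length) (h2 : isZ g = false) :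
    ev (α : K) g ≠ 0 := by
  intro h0
  have h3 := mp_dvd h (G := A.pl g) (by rw [A.aeval_pl, ← ev_eq, h0])
  have h4 : A.pl g = 0 := eq_zero_of_dvd_of_degree_lt h3 ((A.degree_pl g).trans_le (by
    rw [degree_eq_natDegree (A.monic_mp fl).ne_zero, A.natDegree_mp]; exact_mod_cast h1))
  rw [← Bool.not_eq_true, isZ, List.all_eq_true] at h2
  refine h2 fun c hc => ?_
  obtain ⟨i, hi, rfl⟩ := List.getElem_of_mem hc
  have h5 := A.coeff_pl g i
  rw [h4, coeff_zero, List.getD_eq_getElem _ _ hi] at h5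
  simp [← h5]

theorem other (h : A.Gen α fl) {s : SG} (hc : s.ok fl = true) :
    ∃ γ : 𝓞 K, A.Gen γ s.gl ∧ (s.d2 : K) ≠ 0 ∧ (α : K) = ev (γ : K) s.l2 / (s.d2 : K) := by
  obtain ⟨γ, h5, h6⟩ := h.other hc
  simp only [SG.ok, A.genOK, A.intOK, Bool.and_eq_true, decide_eq_true_eq] at hc
  obtain ⟨⟨⟨h1, -⟩, h3⟩, h4⟩ := hc
  have h7 := A.ev_eqL α Int.cast_zero h4
  rw [A.ev_smL, A.ev_hevM h.root h5] at h7
  have h9 := congrArg (algebraMap (𝓞 K) K) h7
  have hd : (s.d : K) ≠ 0 := by exact_mod_cast h1.1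
  have hd' : (s.d2 : K) ≠ 0 := by exact_mod_cast h3
  rw [map_mul, map_pow, map_intCast, A.map_ev, A.map_ev, A.ev_cons, A.ev_cons, A.ev_nil] at h9
  push_cast at h9
  refine ⟨γ, h6, hd', ?_⟩
  rw [eq_div_iff hd', ev_eq]
  exact mul_left_cancel₀ (pow_ne_zero s.l2.length hd) (by linear_combination -h9)

/-- a prime above a given root of the polynomial in a ring of positive characteristic -/
theorem exists_prime (h : A.Gen α fl) {R : Type} [CommRing R] [Nontrivial R] {t : R}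
    (ht : t ^ fl.length + A.ev t fl = 0) {p : ℕ} (hp0 : p ≠ 0) (hp : (p : R) = 0) :
    ∃ v : HeightOneSpectrum (𝓞 K), ∀ l, A.ev t l = 0 → v.valuation K (ev (α : K) l) < 1 := by
  obtain ⟨P, hP, h1⟩ := Ideal.exists_le_maximal (RingHom.ker (aeval t : ℤ[X] →ₐ[ℤ] R))
    (RingHom.ker_ne_top _)
  let _ : Algebra ℤ[X] (𝓞 K) := (aeval α : ℤ[X] →ₐ[ℤ] 𝓞 K).toRingHom.toAlgebra
  have e : ∀ G : ℤ[X], algebraMap ℤ[X] (𝓞 K) G = aeval α G := fun _ => rfl
  have : IsScalarTower ℤ ℤ[X] (𝓞 K) := IsScalarTower.of_algebraMap_eq' (RingHom.ext_int _ _)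
  have : Algebra.IsIntegral ℤ[X] (𝓞 K) :=
    ⟨fun x => (Algebra.IsIntegral.isIntegral (R := ℤ) x).tower_top⟩
  obtain ⟨Q, hQ, h2⟩ := Ideal.exists_ideal_over_maximal_of_isIntegral (S := 𝓞 K) P
    (le_trans (fun G hG => by
      rw [RingHom.mem_ker, e] at hG
      have h3 : aeval (α : K) G = 0 := by
        have := congrArg (algebraMap (𝓞 K) K) hG
        rwa [map_zero, ← aeval_algebraMap_apply] at this
      obtain ⟨H, rfl⟩ := mp_dvd h h3
      rw [RingHom.mem_ker, map_mul, A.aeval_mp, ht, zero_mul]) h1)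
  have key : ∀ l, A.ev t l = 0 → A.ev α l ∈ Q := fun l hl => by
    have : A.pl l ∈ Q.comap (algebraMap ℤ[X] (𝓞 K)) :=
      h2 ▸ h1 (by rw [RingHom.mem_ker, A.aeval_pl, hl])
    rwa [Ideal.mem_comap, e, A.aeval_pl] at this
  refine ⟨⟨Q, hQ.isPrime, fun h0 => hp0 ?_⟩, fun l hl => ?_⟩
  · have := key [p] (by simpa using hp)
    rw [h0, Ideal.mem_bot] at this
    simpa using this
  · rw [ev_eq, ← A.coe_ev]
    exact ((place_of_prime _).2.1 _).2 (key l hl)

theorem place (h : A.Gen α fl) {D : Loc} {c : SG × LocCert} (h1 : c.1.ok fl = true)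
    (h2 : locOk D c.2 = true) (h3 : c.2.fG = c.1.gl ++ [1]) :
    ∃ p : Place K, Valid p D ∧ (α : K) = Expr.eval (fun _ => p.ga) c.1.expr := by
  obtain ⟨γ, g1, g2, g3⟩ := other h h1
  have hok := h2
  simp only [locOk, Bool.and_eq_true, Bool.or_eq_true, Nat.beq_eq, beq_iff_eq, List.all_eq_true,
    List.any_eq_true, Bool.not_eq_true', Nat.ble_eq] at hok
  obtain ⟨⟨⟨⟨⟨⟨⟨⟨⟨⟨hwf, hlen⟩, hg0⟩, -⟩, hFc⟩, -⟩, hq2⟩, -⟩, -⟩, -⟩, -⟩ := hok
  generalize c.2.g.take D.f = g0 at hlen hg0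
  simp only [Loc.wf, Bool.and_eq_true, decide_eq_true_eq] at hwf
  obtain ⟨⟨⟨⟨⟨⟨⟨⟨⟨⟨he, hf⟩, hN⟩, -⟩, hM⟩, -⟩, -⟩, -⟩, -⟩, -⟩, -⟩ := hwf
  let R := AlgebraicClosure (ZMod 2)
  have h20 : ((2 : ℕ) : R) = 0 := CharP.cast_eq_zero R 2
  obtain ⟨t, ht⟩ := IsAlgClosed.exists_root ((A.mp g0).map (Int.castRingHom R)) (by
    rw [degree_eq_natDegree ((A.monic_mp g0).map _).ne_zero, (A.monic_mp g0).natDegree_map,
      A.natDegree_mp, hlen]
    exact_mod_cast hf.ne')
  have t1 : ev t c.2.g = 0 := by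
    rw [IsRoot, A.map_mp, eval_add, eval_pow, eval_X, A.eval_ev, ← A.ev_append_one] at ht
    rw [hg0, ev_eq, ht]
  have t2 : ev t c.2.F = 0 := by
    have := ev_div t _ _ hq2
    rw [ev_psub, ev_ppow, t1, zero_pow he.ne', show ((2 : ℤ) : R) = 0 by exact_mod_cast h20] at this
    simpa using this
  have t3 : ev t c.2.fG = 0 := by
    have := ev_div t _ _ hFc
    rw [ev_psub, ev_pmul, t2, hM, Int.cast_natCast, Nat.cast_pow, h20, zero_pow (by omega)] at this
    simpa using this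
  obtain ⟨v, hv⟩ := exists_prime g1 (t := t) (by rw [← A.ev_append_one, ← h3, ← ev_eq, t3])
    two_ne_zero h20
  refine ⟨_, valid_of_cert (v.valuation K) γ D c.2 h2 ?_ ((place_of_prime v).1 γ) ?_
    (hv _ (by rw [← ev_eq, t1])) (place_of_prime v).2.2 (spans g1), ?_⟩
  · rw [h3, ev_eq, A.ev_append_one]; exact g1.rootF
  · simpa [ev] using hv [2] (by simpa using h20)
  · rw [g3, SG.expr]
    split_ifs with k1 k2
    · simp [k1, k2, ev, Expr.eval]
    · simp [k1, Expr.eval]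
    · simp [Expr.eval, div_eq_mul_inv]

theorem places (h : A.Gen α fl) : ∀ (ds : List Loc) (es : List Expr) (cs : List (SG × LocCert)),
    locsOk fl ds es cs = true → ∃ pl : List (Place K), List.Forall₂ Valid pl ds ∧
      List.Forall₂ (fun p e => (α : K) = Expr.eval (fun _ => p.ga) e) pl es
  | [], [], [], _ => ⟨[], .nil, .nil⟩
  | D :: ds, e :: es, c :: cs, hc => by
    simp only [locsOk, Bool.and_eq_true, decide_eq_true_eq] at hc
    obtain ⟨⟨⟨⟨h1, h2⟩, h3⟩, rfl⟩, h5⟩ := hc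
    obtain ⟨p, h6, h7⟩ := place h h1 h2 h3
    obtain ⟨pl, h8, h9⟩ := places h ds es cs h5
    exact ⟨p :: pl, .cons h6 h8, .cons h7 h9⟩
  | [], [], _ :: _, hc => by cases hc
  | [], _ :: _, _, hc => by cases hc
  | _ :: _, [], _, hc => by cases hc
  | _ :: _, _ :: _, [], hc => by cases hc

theorem cont_ev : ∀ l : List ℤ, Continuous fun x : ℝ => A.ev x l
  | [] => continuous_const
  | _ :: l => continuous_const.add (continuous_id.mul (cont_ev l))

theorem real (h : A.Gen α fl) {r : ℤ × ℤ × ℕ} (hc : reOk fl r = true) :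
    ∃ φ : K →+* ℝ, 0 < r.2.2 ∧ (r.1 : ℝ) / r.2.2 ≤ φ α ∧ φ α ≤ (r.2.1 : ℝ) / r.2.2 := by
  obtain ⟨lo, hi, d⟩ := r
  simp only [reOk, Bool.and_eq_true, decide_eq_true_eq] at hc
  obtain ⟨⟨h1, h2⟩, h3⟩ := hc
  have hd : (0 : ℝ) < d := by exact_mod_cast h1
  have key : ∀ z : ℤ, (d : ℝ) * (A.hev z (d : ℤ) (fl ++ [1]) : ℤ) =
      (d : ℝ) ^ (fl ++ [1]).length * A.ev ((z : ℝ) / d) (fl ++ [1]) := fun z => by
    have := A.hev_eq (Int.castRingHom ℝ) (z := z) (K := (d : ℤ)) (w := (z : ℝ) / d)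
      (by simp [mul_div_cancel₀ _ hd.ne']) (fl ++ [1])
    simpa only [eq_intCast, Int.cast_natCast] using this
  have h4 : A.ev ((lo : ℝ) / d) (fl ++ [1]) * A.ev ((hi : ℝ) / d) (fl ++ [1]) ≤ 0 := by
    have h5 : ((A.hev lo (d : ℤ) (fl ++ [1]) : ℤ) : ℝ) * (A.hev hi (d : ℤ) (fl ++ [1]) : ℤ) ≤ 0 := by
      exact_mod_cast h3
    have h6 := mul_nonpos_of_nonneg_of_nonpos (mul_pos hd hd).le h5
    rw [mul_mul_mul_comm, key, key, mul_mul_mul_comm] at h6
    exact nonpos_of_mul_nonpos_right h6 (by positivity)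
  have hle : (lo : ℝ) / d ≤ (hi : ℝ) / d := by
    have : (lo : ℝ) ≤ hi := by exact_mod_cast h2
    gcongr
  obtain ⟨x, hx, h0⟩ : ∃ x ∈ Set.Icc ((lo : ℝ) / d) ((hi : ℝ) / d), A.ev x (fl ++ [1]) = 0 := by
    rcases mul_nonpos_iff.1 h4 with ⟨a, b⟩ | ⟨a, b⟩
    · exact intermediate_value_Icc' hle (cont_ev _).continuousOn ⟨b, a⟩
    · exact intermediate_value_Icc hle (cont_ev _).continuousOn ⟨a, b⟩
  obtain ⟨pb, g1, -⟩ := h.exists_pb
  have g2 : aeval x (minpoly ℚ pb.gen) = 0 := by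
    rw [g1, h.mpe, ← algebraMap_int_eq, aeval_map_algebraMap, A.aeval_mp, ← A.ev_append_one, h0]
  have g3 : (pb.lift x g2).toRingHom α = x := by rw [← g1]; exact pb.lift_gen x g2
  exact ⟨(pb.lift x g2).toRingHom, h1, hx.1.trans_eq g3.symm, g3.trans_le hx.2⟩

theorem all_ex {X Y : Type*} {R : X → Y → Prop} : ∀ l : List Y, (∀ y ∈ l, ∃ x, R x y) →
    ∃ m, List.Forall₂ R m l
  | [], _ => ⟨[], .nil⟩
  | y :: l, h => by
    obtain ⟨x, hx⟩ := h y (by simp)
    obtain ⟨m, hm⟩ := all_ex l fun z hz => h z (by simp [hz])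
    exact ⟨x :: m, .cons hx hm⟩

section odd

variable {L : Type*} [Field L] {v : Valuation L Gam} {ga : L} {p : ℕ} {t : ℤ}

theorem ev_res (ga : L) (t : ℤ) : ∀ l, ∃ w ∈ AA ga, ev ga l = (evZ t l : ℤ) + (ga - t) * w
  | [] => ⟨0, zero_mem _, by simp [ev, evZ]⟩
  | c :: l => by
    obtain ⟨w, hw, h⟩ := ev_res ga t l
    refine ⟨(evZ t l : ℤ) + ga * w, add_mem (intCast_mem _ _) (mul_mem (ga_mem ga) hw), ?_⟩
    rw [ev, evZ, h]; push_cast; ring

theorem small {x y : L} (hx : v x < 1) (hy : v y ≤ 1) : v (x * y) < 1 := by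
  rw [map_mul]; exact (mul_le_of_le_one_right' hy).trans_lt hx

theorem int_le (v : Valuation L Gam) (n : ℤ) : v (n : L) ≤ 1 := by simpa [P] using P.int v n

theorem int_one (hp : p.Prime) (h1 : v (p : L) < 1) {n : ℤ} (hn : n % p ≠ 0) : v (n : L) = 1 := by
  refine le_antisymm (int_le v n) (not_lt.1 fun h => ?_)
  obtain ⟨a, b, hab⟩ := (Nat.prime_iff_prime_int.1 hp).coprime_iff_not_dvd.2
    fun h2 => hn (Int.emod_eq_zero_of_dvd h2)
  have h3 := congrArg (Int.cast : ℤ → L) hab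
  push_cast at h3
  have h4 := v.map_add_lt (small h1 (int_le v a)) (small h (int_le v b))
  rw [mul_comm _ (a : L), mul_comm _ (b : L), h3, map_one] at h4
  exact h4.ne rfl

theorem int_lt (h1 : v (p : L) < 1) {n : ℤ} (hn : n % p = 0) : v (n : L) < 1 := by
  obtain ⟨m, rfl⟩ := Int.dvd_of_emod_eq_zero hn
  push_cast
  exact small h1 (int_le v m)

theorem ev_one' (hp : p.Prime) (hga : v ga ≤ 1) (h1 : v (p : L) < 1) (h2 : v (ga - t) < 1)
    {l : List ℤ} (hl : evZ t l % p ≠ 0) : v (ev ga l) = 1 := by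
  obtain ⟨w, hw, h⟩ := ev_res ga t l
  have h3 := int_one hp h1 hl
  rw [h, v.map_add_eq_of_lt_left (h3 ▸ small h2 (AA_le hga hw)), h3]

theorem ev_lt (hga : v ga ≤ 1) (h1 : v (p : L) < 1) (h2 : v (ga - t) < 1)
    {l : List ℤ} (hl : evZ t l % p = 0) : v (ev ga l) < 1 := by
  obtain ⟨w, hw, h⟩ := ev_res ga t l
  rw [h]
  exact v.map_add_lt (int_lt h1 hl) (small h2 (AA_le hga hw))

theorem unif (hp : p.Prime) (hga : v ga ≤ 1) (h1 : v (p : L) < 1) (h2 : v (ga - t) < 1) {π : L}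
    (hπ : v π < 1) (e1 : ∃ y ∈ RR v ga, (p : L) = π * y) (e2 : ∃ y ∈ RR v ga, ga - t = π * y)
    (hsurj : ∃ x, v x = exp (-1))
    (hspan : ∀ x : L, ∃ (l : List ℤ) (d : ℤ), (d : L) ≠ 0 ∧ x * (d : L) = ev ga l) :
    v π = exp (-1) := by
  obtain ⟨y1, hy1, e1⟩ := e1
  obtain ⟨y2, hy2, e2⟩ := e2
  have hdiv : ∀ x ∈ RR v ga, v x < 1 → ∃ y ∈ RR v ga, x = π * y := by
    rintro x ⟨b, hb, h3, l, h4⟩ hx
    have hb0 : b ≠ 0 := fun h0 => by simp [h0] at h3
    have h5 : evZ t l % p = 0 := by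
      by_contra h5
      have h6 := ev_one' hp hga h1 h2 h5
      rw [← h4, map_mul, h3, mul_one] at h6
      exact hx.ne h6
    obtain ⟨m, hm⟩ := Int.dvd_of_emod_eq_zero h5
    obtain ⟨w, hw, h6⟩ := ev_res ga t l
    rw [hm, ← h4] at h6
    push_cast at h6
    refine ⟨(y1 * m + y2 * w) * b⁻¹, mul_mem (add_mem (mul_mem hy1 (intCast_mem _ _))
      (mul_mem hy2 (AA_RR hw))) (RR_inv (AA_RR hb) h3), ?_⟩
    rw [← mul_assoc, eq_mul_inv_iff_mul_eq₀ hb0]
    linear_combination h6 + m * e1 + w * e2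
  obtain ⟨x, hx⟩ := hsurj
  obtain ⟨i, j, u, -, h3, h4, h5⟩ := factor' hga hπ hdiv hspan (ne_of_exact hx)
  have h6 := congrArg v h4
  rw [map_mul, map_mul, h3, hx, mul_one] at h6
  by_cases h0 : π = 0
  · rw [h0] at h5 h6
    obtain rfl : i = 0 := by by_contra hi; exact h5 (zero_pow hi)
    rcases j with _ | j
    · simp at h6
    · simp at h6
  obtain ⟨r, hr⟩ := exists_exact v h0
  have h7 := (P_iff_of_exact hr).1 (lt_P hπ)
  rw [exact_pow hr, exact_pow hr, ← exp_add, exp_inj] at h6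
  have h8 : r * (j - i) = 1 := by linear_combination h6
  rw [hr, Int.eq_one_of_mul_eq_one_right (by omega) h8]

end odd

/-- the values of the variables of a division certificate -/
noncomputable def dval (ga : K) (c : OC) (su : List ℤ × List ℤ) (i : ℕ) : K :=
  ev ga (([(c.s.l2, c.s.d2), (su.1, 1), (c.q, 1), (su.2, 1), ([-c.t, 1], 1)] :
    List (List ℤ × ℕ)).getD i ([], 1)).1 /
  ((([(c.s.l2, c.s.d2), (su.1, 1), (c.q, 1), (su.2, 1), ([-c.t, 1], 1)] :
    List (List ℤ × ℕ)).getD i ([], 1)).2 : K)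

theorem dv_sound {ga : K} {c : OC} (hr : ga ^ c.s.gl.length + ev ga c.s.gl = 0) {p k : ℕ}
    {x : Expr} {su : List ℤ × List ℤ} (h : c.dv p x k su = true) :
    evZ c.t su.1 % p ≠ 0 ∧
      x.eval (dval ga c su) * ev ga su.1 = ev ga c.q ^ k * ev ga su.2 := by
  simp only [OC.dv, Bool.and_eq_true, decide_eq_true_eq] at h
  refine ⟨h.1, ?_⟩
  have h1 : Expr.eval (dval ga c su) _ = 0 := exZero_sound hr h.2
  simp only [sub', Expr.eval, powE_eval] at h1
  have e1 : dval ga c su 1 = ev ga su.1 := by simp [dval]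
  have e2 : dval ga c su 2 = ev ga c.q := by simp [dval]
  have e3 : dval ga c su 3 = ev ga su.2 := by simp [dval]
  rw [e1, e2, e3] at h1
  linear_combination h1

theorem odd_place (h : A.Gen α fl) {gens : List (List ℤ)} {o : OD} {c : OC}
    (hc : c.ok fl gens o = true) : ∃ v : HeightOneSpectrum (𝓞 K),
    o.p.Prime ∧ v.valuation K (o.p : K) < 1 ∧ v.valuation K ((α : K) - (o.r : K)) < 1 ∧
    List.Forall₂ (fun g (s : Bool) => ∃ k : ℤ,
      v.valuation K (ev (α : K) g) = exp (2 * k + cond s 1 0)) gens o.tab := by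
  simp only [OC.ok, Bool.and_eq_true, decide_eq_true_eq] at hc
  obtain ⟨⟨⟨⟨⟨⟨⟨⟨h1, h2⟩, h3⟩, h4⟩, h5⟩, h6⟩, h7⟩, h8⟩, h9⟩ := hc
  obtain ⟨γ, g1, g2, g3⟩ := other h h1
  have hp := isPr_prime h2
  have : Fact o.p.Prime := ⟨hp⟩
  obtain ⟨v, hv⟩ := exists_prime g1 (R := ZMod o.p) (t := (c.t : ZMod o.p)) (by
    have := (ZMod.intCast_zmod_eq_zero_iff_dvd _ _).2 (Int.dvd_of_emod_eq_zero h3)
    rw [evZ_eq] at this
    rw [← A.ev_append_one, ← this]
    exact (A.map_ev (Int.castRingHom (ZMod o.p)) c.t _).symm) hp.ne_zero (ZMod.natCast_self _)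
  have hga := (place_of_prime v).1 γ
  have v1 : v.valuation K (o.p : K) < 1 := by simpa [ev] using hv [o.p] (by simp)
  have v2 : v.valuation K ((γ : K) - c.t) < 1 := by
    simpa [ev, ← sub_eq_neg_add] using hv [-c.t, 1] (by simp)
  have hr := root g1
  have quo : ∀ {x : Expr} {su : List ℤ × List ℤ}, c.dv o.p x 1 su = true →
      ∃ y ∈ RR (v.valuation K) (γ : K), x.eval (dval (γ : K) c su) = ev (γ : K) c.q * y := by
    intro x su hx
    obtain ⟨k1, k2⟩ := dv_sound hr hx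
    have k3 := ev_one' hp hga v1 v2 k1
    have k4 : ev (γ : K) su.1 ≠ 0 := fun h0 => by simp [h0] at k3
    refine ⟨ev (γ : K) su.2 * (ev (γ : K) su.1)⁻¹,
      mul_mem (AA_RR (ev_mem _ _)) (RR_inv (AA_RR (ev_mem _ _)) k3), ?_⟩
    rw [← mul_assoc, eq_mul_inv_iff_mul_eq₀ k4, k2, pow_one]
  have hπ := unif hp hga v1 v2 (ev_lt hga v1 v2 h6) (by simpa [Expr.eval] using quo h7)
    (by simpa [Expr.eval, dval, ev, ← sub_eq_neg_add] using quo h8) (place_of_prime v).2.2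
    (spans g1)
  refine ⟨v, hp, v1, ?_, ?_⟩
  · have k1 : v.valuation K ((c.s.d2 : ℤ) : K) = 1 := int_one hp v1 (by exact_mod_cast h4)
    obtain ⟨w, hw, k2⟩ := ev_res (γ : K) c.t c.s.l2
    have k3 := (v.valuation K).map_add_lt (int_lt v1 h5) (small v2 (AA_le hga hw))
    have k4 : ((α : K) - o.r) * ((c.s.d2 : ℤ) : K) =
        ((evZ c.t c.s.l2 - o.r * c.s.d2 : ℤ) : K) + ((γ : K) - c.t) * w := by
      rw [g3, k2]; push_cast; field_simp; ring
    rwa [← k4, map_mul, k1, mul_one] at k3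
  · generalize o.tab = bs at h9
    generalize c.tab = xs at h9
    induction gens generalizing bs xs with
    | nil =>
      rcases bs with _ | _
      · exact .nil
      · cases h9
    | cons g gs ih =>
      rcases bs with _ | ⟨b, bs⟩
      · cases h9
      rcases xs with _ | ⟨x, xs⟩
      · cases h9
      simp only [OC.tabOk, Bool.and_eq_true, decide_eq_true_eq] at h9
      obtain ⟨⟨⟨k1, k2⟩, k3⟩, k4⟩ := h9
      refine .cons ?_ (ih _ _ k4)
      obtain ⟨k5, k6⟩ := dv_sound hr k1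
      have k7 := congrArg (v.valuation K) k6
      have k8 : dval (γ : K) c x.2 0 = α := by rw [g3]; simp [dval]
      rw [map_mul, map_mul, ev_one' hp hga v1 v2 k5, ev_one' hp hga v1 v2 k2, mul_one, mul_one,
        exact_pow hπ, Expr.eval, Expr.eval, k8] at k7
      refine ⟨-((x.1 + 1) / 2 : ℕ), k7.trans (congrArg exp ?_)⟩
      cases b <;> simp only [cond_true, cond_false] at k3 ⊢ <;> omega

theorem odd_places (h : A.Gen α fl) {gens : List (List ℤ)} : ∀ (os : List OD) (cs : List OC),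
    odsOk fl gens os cs = true → ∀ o ∈ os, ∃ c : OC, c.ok fl gens o = true
  | [], _, _ => by simp
  | o :: os, c :: cs, hc => by
    simp only [odsOk, Bool.and_eq_true] at hc
    intro o' ho'
    rcases List.mem_cons.1 ho' with rfl | ho'
    · exact ⟨c, hc.1⟩
    · exact odd_places h os cs hc.2 o' ho'
  | _ :: _, [], hc => by cases hc

end PackMk

open PackMk in
theorem pack_of {K : Type} [Field K] [NumberField K] {α : 𝓞 K} (F : FD) (h : A.Gen α F.fl) {k : ℕ}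
    (g : Fin k → List ℤ)
    (hSU : ∀ ξ : K, ξ ≠ 0 → (∀ v : HeightOneSpectrum (𝓞 K), (F.S : 𝓞 K) ∉ v.asIdeal →
      ∃ k : ℤ, v.valuation K ξ = exp (2 * k)) →
      ∃ (e : Fin k → Bool) (u : K), ξ = (∏ i, if e i then A.ev (α : K) (g i) else 1) * u ^ 2)
    (lc : List (SG × LocCert)) (oc : List OC)
    (hc : (decide (F.gens = List.ofFn g) && packOk F lc oc) = true) :
    ∃ pl ph w, Pack K F α pl ph w := by
  simp only [packOk, Bool.and_eq_true, decide_eq_true_eq, List.all_eq_true,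
    Bool.not_eq_true'] at hc
  obtain ⟨h0, ⟨⟨h1, h2⟩, h3⟩, h4⟩ := hc
  obtain ⟨pl, h5, h6⟩ := places h _ _ _ h1
  obtain ⟨ph, h7⟩ := all_ex F.re fun r hr => real h (h2 r hr)
  obtain ⟨w, h8⟩ := all_ex F.od fun o ho =>
    (odd_places h _ _ h3 o ho).elim fun c hc => odd_place h hc
  refine ⟨pl, ph, w, root h, α.2, h5, h6, fun g hg => ev_ne h (h4 g hg).1 (h4 g hg).2,
    fun x hx hv => ?_, h7, h8⟩
  rw [h0, List.map_ofFn]
  refine span_of_fin _ hx ?_
  simpa only [Function.comp_apply, ev_eq] using hSU x hx hv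

end Pool.Agent.Lib.MP_ab8df0_nt.B
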