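import Pool.Agent.Lib.MP_ab8df0_nt.B.Defs

/-! Elementary facts on the predicate `P`. -/

namespace Pool.Agent.Lib.MP_ab8df0_nt.B

open WithZero

variable {L : Type*} [Field L] {v : Valuation L Gam} {r s : ℤ} {x y : L}

lemma P.zero (v : Valuation L Gam) (r : ℤ) : P v r 0 := by simp [P]

lemma P.mono (h : P v r x) (hs : s ≤ r) : P v s x :=
  le_trans h (exp_le_exp.2 (by omega))

lemma P.add (hx : P v r x) (hy : P v r y) : P v r (x + y) := v.map_add_le hx hy

lemma P.neg (hx : P v r x) : P v r (-x) := by simpa [P] using hx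

lemma P.of_neg (hx : P v r (-x)) : P v r x := by simpa [P] using hx

lemma P.sub (hx : P v r x) (hy : P v r y) : P v r (x - y) := v.map_sub_le hx hy

lemma P.mul (hx : P v r x) (hy : P v s y) : P v (r + s) (x * y) := by
  unfold P at *
  rw [map_mul, neg_add, exp_add]
  exact mul_le_mul' hx hy

lemma P.mul0 (hx : P v r x) (hy : P v 0 y) : P v r (x * y) := by simpa using hx.mul hy

lemma P.mul0' (hx : P v 0 x) (hy : P v r y) : P v r (x * y) := by simpa using hx.mul hy

lemma P.one (v : Valuation L Gam) : P v 0 1 := by simp [P]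

lemma P.nat (v : Valuation L Gam) (n : ℕ) : P v 0 (n : L) := by
  induction n with
  | zero => simpa using P.zero v 0
  | succ n ih => push_cast; exact ih.add (P.one v)

lemma P.int (v : Valuation L Gam) (n : ℤ) : P v 0 (n : L) := by
  obtain ⟨m, rfl | rfl⟩ := Int.eq_nat_or_neg n
  · simpa using P.nat v m
  · simpa using (P.nat v m).neg

lemma P.pow (hx : P v r x) (n : ℕ) : P v (n * r) (x ^ n) := by
  induction n with
  | zero => simpa using P.one v
  | succ n ih =>
    have := ih.mul hx
    rw [pow_succ]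
    exact this.mono (by push_cast; ring_nf; rfl)

lemma P.of_eq (h : v x = exp (-r)) : P v r x := le_of_eq h

lemma P.congr (hx : P v r x) (h : y = x) : P v r y := h ▸ hx

lemma ne_of_exact (h : v x = exp (-r)) : x ≠ 0 := by
  rintro rfl
  rw [map_zero] at h
  exact exp_ne_zero h.symm

lemma not_P_of_exact (h : v x = exp (-r)) : ¬ P v (r + 1) x := by
  unfold P; rw [h, exp_le_exp]; omega

lemma exists_exact (v : Valuation L Gam) (hx : x ≠ 0) : ∃ r : ℤ, v x = exp (-r) :=
  ⟨-log (v x), by rw [neg_neg, exp_log (by simpa using hx)]⟩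

lemma P_iff_of_exact (h : v x = exp (-r)) : P v s x ↔ s ≤ r := by
  unfold P; rw [h, exp_le_exp]; omega

lemma exact_of_not (h1 : P v r x) (h2 : ¬ P v (r + 1) x) : v x = exp (-r) := by
  have hx : x ≠ 0 := by rintro rfl; exact h2 (P.zero v _)
  obtain ⟨k, hk⟩ := exists_exact v hx
  rw [P_iff_of_exact hk] at h1 h2
  rw [hk, show k = r by omega]

lemma exact_add (h : v x = exp (-r)) (hy : P v (r + 1) y) : v (x + y) = exp (-r) := by
  refine exact_of_not ((P.of_eq h).add (hy.mono (by omega))) fun h2 => not_P_of_exact h ?_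
  exact (h2.sub hy).congr (by ring)

lemma exact_mul (hx : v x = exp (-r)) (hy : v y = exp (-s)) : v (x * y) = exp (-(r + s)) := by
  rw [map_mul, hx, hy, neg_add, exp_add]

lemma exact_inv (hx : v x = exp (-r)) : v x⁻¹ = exp (-(-r)) := by
  rw [map_inv₀, hx, ← exp_neg]

lemma exact_one_add (hy : P v 1 y) : v (1 + y) = exp (-0) :=
  exact_add (r := 0) (by simp) (by simpa using hy)

lemma P.inv_one_add (hy : P v 1 y) : P v 0 (1 + y)⁻¹ := by
  simpa using P.of_eq (exact_inv (exact_one_add hy))

lemma P.of_mul_exact (h : P v r (x * y)) (hy : v y = exp (-s)) : P v (r - s) x := by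
  have := h.mul (P.of_eq (exact_inv hy))
  rw [mul_assoc, mul_inv_cancel₀ (ne_of_exact hy), mul_one] at this
  exact this.mono (by omega)

lemma exact_zpow (hx : v x = exp (-r)) (k : ℤ) : v (x ^ k) = exp (-(r * k)) := by
  rw [map_zpow₀, hx, ← exp_zsmul]; congr 1; simp [mul_comm]

lemma exact_pow (hx : v x = exp (-r)) (k : ℕ) : v (x ^ k) = exp (-(r * k)) := by
  simpa using exact_zpow hx k

lemma exact_odd {e : ℤ} (h2 : v 2 = exp (-e)) (he : 0 < e) {b : ℤ} (hb : Odd b) :
    v (b : L) = exp (-0) := by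
  obtain ⟨c, rfl⟩ := hb
  have : P v 1 ((2 : L) * c) := ((P.of_eq h2).mul0 (P.int v c)).mono (by omega)
  have h := exact_one_add this
  rw [← h]; congr 1; push_cast; ring

/-- of the two square roots one is close to a given approximation -/
lemma sqrt_close {e m t : ℤ} {w : L} (h2 : v 2 = exp (-e)) (hw : v w = exp (-m))
    (h : P v t (y ^ 2 - w ^ 2)) : P v (t - e - m) (y - w) ∨ P v (t - e - m) (-y - w) := by
  have h2w := exact_mul h2 hw
  by_cases h1 : P v (e + m + 1) (y + w)
  · have h3 : v (y - w) = exp (-(e + m)) := by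
      have := exact_add (x := -(2 * w)) (r := e + m) (by simpa using h2w) h1
      rw [← this]; congr 1; ring
    have : P v t ((-y - w) * (y - w)) := h.neg.congr (by ring)
    exact Or.inr ((this.of_mul_exact h3).mono (by omega))
  · have hne : y + w ≠ 0 := fun h0 => h1 (h0 ▸ P.zero v _)
    obtain ⟨k, hk⟩ := exists_exact v hne
    rw [P_iff_of_exact hk] at h1
    have : P v t ((y - w) * (y + w)) := h.congr (by ring)
    exact Or.inl ((this.of_mul_exact hk).mono (by omega))

variable {p : Place L} {D : Loc}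

lemma Valid.epos (h : Valid p D) : 0 < p.e := by
  have := h.wf
  simp only [Loc.wf, Bool.and_eq_true, decide_eq_true_eq] at this
  rw [h.he]; omega

lemma Valid.fpos (h : Valid p D) : 0 < p.f := by
  have := h.wf
  simp only [Loc.wf, Bool.and_eq_true, decide_eq_true_eq] at this
  rw [h.hf]; omega

lemma Valid.two_zpow (h : Valid p D) (k : ℤ) : p.v ((2 : L) ^ k) = exp (-(p.e * k)) :=
  exact_zpow h.h2 k

lemma Valid.mu_exact (h : Valid p D) (m : ℤ) : p.v (mu p m) = exp (-m) := by
  have he : (0 : ℤ) < p.e := by exact_mod_cast h.epos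
  have h1 := exact_mul (h.two_zpow (m / p.e)) (exact_pow h.hpi (m % p.e).toNat)
  rw [mu, h1, Int.toNat_of_nonneg (Int.emod_nonneg _ he.ne')]
  congr 2
  have := Int.mul_ediv_add_emod m p.e
  omega

lemma P.ofDigits (hg : P v 0 x) (l : List ℕ) : P v 0 (Nat.ofDigits x l) := by
  induction l with
  | nil => exact P.zero v 0
  | cons c l ih => exact (P.nat v c).add (hg.mul0 ih)

lemma imin_le_left (a b : ℤ) : imin a b ≤ a := by unfold imin; split <;> omega
lemma imin_le_right (a b : ℤ) : imin a b ≤ b := by unfold imin; split <;> omega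
lemma le_imin {a b c : ℤ} (h1 : c ≤ a) (h2 : c ≤ b) : c ≤ imin a b := by
  unfold imin; split <;> omega

lemma Ball.mem.lb {b : Ball} (h : b.mem p D x) : P p.v b.lb x := by
  have := (h.hr.mono (imin_le_right b.m b.r)).add (h.hm.mono (imin_le_left b.m b.r))
  exact this.congr (by ring)

lemma Ball.mem.rad {b : Ball} (h : b.mem p D x) (hy : P p.v r (y - b.ctr p D)) :
    (b.rad r).mem p D y := ⟨h.bd, hy, h.hm, h.hd⟩

lemma Ball.mem.near {b : Ball} (h : b.mem p D x) (hy : P p.v b.r (y - x)) : b.mem p D y :=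
  ⟨h.bd, (hy.add h.hr).congr (by ring), h.hm, h.hd⟩

/-- leading term of the elements of an exact ball -/
lemma Ball.mem.leading {b : Ball} (h : b.mem p D x) (he : b.exact = true) :
    ∃ l : List ℕ, l.length ≤ D.f ∧ (∀ c ∈ l, c < 2) ∧ b.d = Nat.ofDigits (2 ^ D.K) l ∧
      (∃ c ∈ l, c ≠ 0) ∧ P p.v (b.m + 1) (x - mu p b.m * Nat.ofDigits p.ga l) := by
  simp only [Ball.exact, Bool.and_eq_true, Bool.not_eq_true', decide_eq_true_eq] at he
  have hd : b.d ≠ 0 := fun h0 => by simp [h0] at he
  obtain ⟨l, h1, h2, h3, h4⟩ := h.hd hd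
  refine ⟨l, h1, h2, h3, ?_, ((h.hr.mono (by omega)).add h4).congr (by ring)⟩
  by_contra hc
  push Not at hc
  apply hd
  rw [h3]
  clear h1 h2 h3 h4
  induction l with
  | nil => rfl
  | cons c l ih =>
    rw [Nat.ofDigits_cons, hc c (by simp), ih fun c hc' => hc c (by simp [hc'])]; simp

lemma Ball.mem.exact {b : Ball} (hV : Valid p D) (h : b.mem p D x) (he : b.exact = true) :
    p.v x = exp (-b.m) := by
  obtain ⟨l, h1, h2, -, h4, h5⟩ := h.leading he
  have h6 : p.v (Nat.ofDigits p.ga l) = exp (-0) := by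
    simpa using hV.hind l (hV.hf ▸ h1) h2 h4
  have h7 := exact_mul (hV.mu_exact b.m) h6
  rw [add_zero] at h7
  have := exact_add h7 h5
  rw [← this]; congr 1; ring

end Pool.Agent.Lib.MP_ab8df0_nt.B
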